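import Pool.Agent.LibHit3.A_Flag

set_option autoImplicit false

noncomputable section

open Matrix
open scoped MatrixGroups

namespace Pool.Agent.LibHit3

open Pool.Agent.LibHyperelliptic

/-! Task A24. The Veronese flags and the criterion for Fuchsian pairs. -/

/-- The area form. -/
def om (u v : Fin 2 → ℝ) : ℝ := u 0 * v 1 - u 1 * v 0

/-- The osculating flag of the Veronese curve at `v`. -/
def ver (v : Fin 2 → ℝ) : Flag where
  L := ![v 1 ^ 2, 2 * v 0 * v 1, v 0 ^ 2]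
  P := ![v 0 ^ 2, -(v 0 * v 1), v 1 ^ 2]
  inc := by simp [dotProduct, Fin.sum_univ_three]; ring

lemma ver_L (v : Fin 2 → ℝ) : (ver v).L = ![v 1 ^ 2, 2 * v 0 * v 1, v 0 ^ 2] := rfl
lemma ver_P (v : Fin 2 → ℝ) : (ver v).P = ![v 0 ^ 2, -(v 0 * v 1), v 1 ^ 2] := rfl

/-- `symM 3 g = !![g11², g10 g11, g10²; 2 g01 g11, g00 g11 + g01 g10, 2 g00 g10; g01², g00 g01, g00²]`. -/
lemma symM_three (g : Matrix (Fin 2) (Fin 2) ℝ) : symM 3 g =
    !![g 1 1 ^ 2, g 1 0 * g 1 1, g 1 0 ^ 2;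
      2 * g 0 1 * g 1 1, g 0 0 * g 1 1 + g 0 1 * g 1 0, 2 * g 0 0 * g 1 0;
      g 0 1 ^ 2, g 0 0 * g 0 1, g 0 0 ^ 2] := by
  apply ext_Ev
  intro z
  rw [Ev_vecMul_symM]
  funext j
  fin_cases j <;>
    simp [Ev, vecMul, dotProduct, Fin.sum_univ_two, Fin.sum_univ_three] <;> ring

lemma act_ver (g : SL(2, ℝ)) (v : Fin 2 → ℝ) : act (symSL 3 g) (ver v) = ver (g.1 *ᵥ v) := by
  apply Flag.ext
  · show (symSL 3 g).1 *ᵥ (ver v).L = _
    have h : (symSL 3 g).1 = symM 3 g.1 := rfl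
    rw [h, symM_three, ver_L, ver_L]
    funext j
    fin_cases j <;>
      simp [Matrix.mulVec, dotProduct, Fin.sum_univ_two, Fin.sum_univ_three] <;> ring
  · show (ver v).P ᵥ* ((symSL 3 g)⁻¹).1 = _
    have h : ((symSL 3 g)⁻¹).1 = symM 3 (adjugate g.1) := by
      rw [← map_inv]; rfl
    rw [h, symM_three, ver_P, ver_P, Matrix.adjugate_fin_two]
    funext j
    fin_cases j <;>
      simp [Matrix.vecMul, Matrix.mulVec, dotProduct, Fin.sum_univ_two, Fin.sum_univ_three] <;>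
      ring

lemma K_inv : K⁻¹ = K := by
  have h : K * K = 1 := by
    apply Subtype.ext
    show K.1 * K.1 = 1
    ext i j
    fin_cases i <;> fin_cases j <;> simp [K, Matrix.mul_apply, Fin.sum_univ_three]
  exact inv_eq_of_mul_eq_one_left h

lemma act_K_p0 : act K p0 = ver ![1, 0] := by
  apply Flag.ext
  · show K.1 *ᵥ p0.L = _
    rw [ver_L]
    funext j
    fin_cases j <;> simp [K, p0, Matrix.mulVec, dotProduct, Fin.sum_univ_three]
  · show p0.P ᵥ* (K⁻¹).1 = _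
    rw [K_inv, ver_P]
    funext j
    fin_cases j <;> simp [K, p0, Matrix.vecMul, dotProduct, Fin.sum_univ_three]

lemma act_K_q0 : act K q0 = ver ![0, 1] := by
  apply Flag.ext
  · show K.1 *ᵥ q0.L = _
    rw [ver_L]
    funext j
    fin_cases j <;> simp [K, q0, Matrix.mulVec, dotProduct, Fin.sum_univ_three]
  · show q0.P ᵥ* (K⁻¹).1 = _
    rw [K_inv, ver_P]
    funext j
    fin_cases j <;> simp [K, q0, Matrix.vecMul, dotProduct, Fin.sum_univ_three]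

lemma pair_ver (u v : Fin 2 → ℝ) : (ver u).P ⬝ᵥ (ver v).L = om u v ^ 2 := by
  rw [ver_P, ver_L]
  simp [dotProduct, Fin.sum_univ_three, om]
  ring

lemma det3_ver (u v w : Fin 2 → ℝ) :
    det3 (ver u).L (ver v).L (ver w).L = 2 * (om u v * om v w * om w u) := by
  simp only [ver_L, det3, Matrix.det_fin_three, om]
  simp
  ring

lemma om_swap (u v : Fin 2 → ℝ) : om v u = -om u v := by
  simp only [om]; ring

/-- `det3 (ver u).L (ver v).L (ver w).L = 2 * om u v * om v w * om w u` and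
`(ver u).P ⬝ᵥ (ver v).L = (om u v) ^ 2`. -/
lemma pos3_ver {u v w : Fin 2 → ℝ} (h : 0 < om u v * om v w * om w u) :
    Pos3 (ver u) (ver v) (ver w) := by
  have h1 : om u v ≠ 0 := by rintro h0; rw [h0] at h; norm_num at h
  have h2 : om v w ≠ 0 := by rintro h0; rw [h0] at h; norm_num at h
  have h3 : om w u ≠ 0 := by rintro h0; rw [h0] at h; norm_num at h
  have h1' : om v u ≠ 0 := by rw [om_swap]; exact neg_ne_zero.2 h1
  have h2' : om w v ≠ 0 := by rw [om_swap]; exact neg_ne_zero.2 h2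
  have h3' : om u w ≠ 0 := by rw [om_swap]; exact neg_ne_zero.2 h3
  constructor
  · rw [pair_ver]; positivity
  · rw [pair_ver]; positivity
  · rw [pair_ver]; positivity
  · rw [pair_ver]; positivity
  · rw [pair_ver]; positivity
  · rw [pair_ver]; positivity
  · rw [det3_ver]; linarith

/-- The eight vectors. -/
def pt (a b e : SL(2, ℝ)) : Fin 8 → (Fin 2 → ℝ) :=
  ![e.1 *ᵥ ![1, 0], (b⁻¹ * e).1 *ᵥ ![0, 1], (b⁻¹ * e).1 *ᵥ ![1, 0], (a⁻¹ * b⁻¹ * e).1 *ᵥ ![0, 1],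
    (a⁻¹ * b⁻¹ * e).1 *ᵥ ![1, 0], (a⁻¹ * e).1 *ᵥ ![0, 1], (a⁻¹ * e).1 *ᵥ ![1, 0],
    e.1 *ᵥ ![0, 1]]

lemma act_symK_p0 (g : SL(2, ℝ)) : act (symSL 3 g * K) p0 = ver (g.1 *ᵥ ![1, 0]) := by
  rw [act_mul, act_K_p0, act_ver]

lemma act_symK_q0 (g : SL(2, ℝ)) : act (symSL 3 g * K) q0 = ver (g.1 *ᵥ ![0, 1]) := by
  rw [act_mul, act_K_q0, act_ver]

lemma octPt_eq (a b e : SL(2, ℝ)) (i : Fin 8) :
    octPt (symSL 3 a) (symSL 3 b) (symSL 3 e * K) i = ver (pt a b e i) := by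
  have h1 : (symSL 3 b)⁻¹ * (symSL 3 e * K) = symSL 3 (b⁻¹ * e) * K := by
    rw [map_mul, map_inv, mul_assoc]
  have h2 : (symSL 3 a)⁻¹ * (symSL 3 e * K) = symSL 3 (a⁻¹ * e) * K := by
    rw [map_mul, map_inv, mul_assoc]
  have h3 : (symSL 3 a)⁻¹ * (symSL 3 b)⁻¹ * (symSL 3 e * K) = symSL 3 (a⁻¹ * b⁻¹ * e) * K := by
    rw [map_mul, map_mul, map_inv, map_inv, mul_assoc, mul_assoc, mul_assoc]
  unfold octPt pt
  rw [h1, h2, h3, act_symK_p0, act_symK_q0, act_symK_p0, act_symK_q0, act_symK_p0, act_symK_q0,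
    act_symK_p0, act_symK_q0]
  fin_cases i <;> rfl

/-- The criterion. -/
theorem good_sl2 {a b e : SL(2, ℝ)} {ν : ℝ} (hν : 1 < ν ^ 2)
    (hd : (e⁻¹ * (a * b * a⁻¹ * b⁻¹) * e).1 = !![ν, 0; 0, ν⁻¹])
    (ho : ∀ i : Fin 6, 0 < om (pt a b e 0) (pt a b e i.succ.castSucc) *
      om (pt a b e i.succ.castSucc) (pt a b e i.succ.succ) *
      om (pt a b e i.succ.succ) (pt a b e 0)) :
    Good (symSL 3 a) (symSL 3 b) (symSL 3 e * K) ![ν ^ 2, 1, (ν⁻¹) ^ 2] := by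
  have hν0 : 0 < ν ^ 2 := by linarith
  constructor
  · simpa using hν
  · simp only [inv_pow]
    simpa using inv_lt_one_of_one_lt₀ hν
  · simpa using hν0
  · have h1 : (symSL 3 e * K)⁻¹ * (symSL 3 a * symSL 3 b * (symSL 3 a)⁻¹ * (symSL 3 b)⁻¹) *
        (symSL 3 e * K) = K * symSL 3 (e⁻¹ * (a * b * a⁻¹ * b⁻¹) * e) * K := by
      simp only [map_mul, map_inv, _root_.mul_inv_rev, K_inv, mul_assoc]
    rw [h1]
    have h2 : (K * symSL 3 (e⁻¹ * (a * b * a⁻¹ * b⁻¹) * e) * K).1 =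
        K.1 * symM 3 (e⁻¹ * (a * b * a⁻¹ * b⁻¹) * e).1 * K.1 := rfl
    have h3 : ν * ν⁻¹ = 1 := mul_inv_cancel₀ (by rintro rfl; norm_num at hν)
    rw [h2, hd, symM_three]
    ext i j
    fin_cases i <;> fin_cases j <;>
      simp [K, Matrix.mul_apply, Fin.sum_univ_three, h3]
  · intro i
    rw [octPt_eq, octPt_eq, octPt_eq]
    exact pos3_ver (ho i)

end Pool.Agent.LibHit3
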