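import Pool.Agent.LibHit3.A_Base1

set_option autoImplicit false

noncomputable section

open Matrix
open scoped MatrixGroups

namespace Pool.Agent.LibHit3

open Pool.Agent.LibHyperelliptic

/-! Task A25. The base point. The commutator `[hA₁, hB₁]` is `qm (-17) (-12) 24 12`, with
eigenvalues `-(17 + 12 √2)` and `-(17 - 12 √2)` and eigenvectors `(2 + √3, √3 - √2)`,
`(2 + √3, √3 + √2)`. All numbers `om` below have absolute value at least `1.2` (up to the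
harmless positive scaling of the first column of `e₀`), so the signs can be checked with
`1.41421 < √2 < 1.41422` and `1.73205 < √3 < 1.73206` (`qm_mul`, `qm_adj`, `mat_hA₁`, …). The signs of the
three factors `om`, for `i = 0, …, 5`, are `(+,-,-), (+,+,+), (-,-,+), (-,-,+), (-,-,+), (-,+,-)` for
the first pair, and the opposite of the first two signs (`(-,+,-), (+,-,-), (+,+,+), (-,+,-), (+,+,+),
(-,-,+)`) for the second one; only the product matters. -/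

/-- The eigenbasis. -/
def e₀ : SL(2, ℝ) := ⟨!![1 / (2 * √2), 2 + √3; (2 - √3) * (√3 - √2) / (2 * √2), √3 + √2], by
  rw [Matrix.det_fin_two_of]
  have h2 : √2 * √2 = 2 := Real.mul_self_sqrt (by norm_num)
  have h3 : √3 * √3 = 3 := Real.mul_self_sqrt (by norm_num)
  have h0 : √2 ≠ 0 := by positivity
  field_simp
  linear_combination (√3 - √2) * h3⟩

/-- The quarter turn; `symSL 3 k₀ = K`. -/
def k₀ : SL(2, ℝ) := ⟨!![0, 1; -1, 0], by simp [Matrix.det_fin_two]⟩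

lemma symSL_k₀ : symSL 3 k₀ = K := by
  apply Subtype.ext
  show symM 3 k₀.1 = K.1
  rw [symM_three]
  ext i j
  fin_cases i <;> fin_cases j <;> simp [k₀, K]

/-! ### Numerical bounds -/

lemma s2_sq : √2 * √2 = (2 : ℝ) := Real.mul_self_sqrt (by norm_num)
lemma s3_sq : √3 * √3 = (3 : ℝ) := Real.mul_self_sqrt (by norm_num)
lemma s2_gt : (1.41421 : ℝ) < √2 := by rw [Real.lt_sqrt (by norm_num)]; norm_num
lemma s2_lt : √2 < (1.41422 : ℝ) := by rw [Real.sqrt_lt' (by norm_num)]; norm_num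
lemma s3_gt : (1.73205 : ℝ) < √3 := by rw [Real.lt_sqrt (by norm_num)]; norm_num
lemma s3_lt : √3 < (1.73206 : ℝ) := by rw [Real.sqrt_lt' (by norm_num)]; norm_num
lemma s6_gt : (2.44947 : ℝ) < √2 * √3 := by nlinarith [s2_gt, s3_gt, s2_lt, s3_lt]
lemma s6_lt : √2 * √3 < (2.44952 : ℝ) := by nlinarith [s2_gt, s3_gt, s2_lt, s3_lt]

/-- The scaling factor. -/
def sc : ℝ := (2 - √3) / (2 * √2)

lemma sc_pos : 0 < sc := by
  have := s3_lt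
  have h2 : (0 : ℝ) < √2 := by positivity
  exact div_pos (by linarith) (by linarith)

/-- The attracting vector. -/
def vp : Fin 2 → ℝ := ![2 + √3, √3 - √2]
/-- The repelling vector. -/
def vq : Fin 2 → ℝ := ![2 + √3, √3 + √2]

lemma e₀_p : e₀.1 *ᵥ ![1, 0] = sc • vp := by
  have h2 : (√2 : ℝ) ≠ 0 := by positivity
  have h3 := s3_sq
  funext i
  fin_cases i
  · simp [e₀, sc, vp, Matrix.mulVec, dotProduct]
    field_simp
    linear_combination h3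
  · simp [e₀, sc, vp, Matrix.mulVec, dotProduct]
    field_simp

lemma e₀_q : e₀.1 *ᵥ ![0, 1] = vq := by
  funext i
  fin_cases i <;> simp [e₀, vq, Matrix.mulVec, dotProduct]

lemma mul_e₀_p (g : SL(2, ℝ)) : (g * e₀).1 *ᵥ ![1, 0] = sc • (g.1 *ᵥ vp) := by
  have h : (g * e₀).1 = g.1 * e₀.1 := rfl
  rw [h, ← Matrix.mulVec_mulVec, e₀_p, Matrix.mulVec_smul]

lemma mul_e₀_q (g : SL(2, ℝ)) : (g * e₀).1 *ᵥ ![0, 1] = g.1 *ᵥ vq := by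
  have h : (g * e₀).1 = g.1 * e₀.1 := rfl
  rw [h, ← Matrix.mulVec_mulVec, e₀_q]

lemma om_smul_left (s : ℝ) (u v : Fin 2 → ℝ) : om (s • u) v = s * om u v := by
  simp only [om, Pi.smul_apply, smul_eq_mul]; ring

lemma om_smul_right (s : ℝ) (u v : Fin 2 → ℝ) : om u (s • v) = s * om u v := by
  simp only [om, Pi.smul_apply, smul_eq_mul]; ring

lemma hA₁_inv : (hA₁⁻¹).1 = qm (-2) 1 0 0 := by
  have h : (hA₁⁻¹).1 = adjugate (mat hA₁) := rfl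
  rw [h, mat_hA₁, qm_adj]; norm_num

lemma hB₁_inv : (hB₁⁻¹).1 = qm (-2) 0 0 1 := by
  have h : (hB₁⁻¹).1 = adjugate (mat hB₁) := rfl
  rw [h, mat_hB₁, qm_adj]; norm_num

lemma hAB₁_inv : (hA₁⁻¹ * hB₁⁻¹).1 = qm 4 (-2) 3 (-2) := by
  have h : (hA₁⁻¹ * hB₁⁻¹).1 = (hA₁⁻¹).1 * (hB₁⁻¹).1 := rfl
  rw [h, hA₁_inv, hB₁_inv, qm_mul]; norm_num

lemma comm₁ : (hA₁ * hB₁ * hA₁⁻¹ * hB₁⁻¹).1 = qm (-17) (-12) 24 12 := by
  have h : (hA₁ * hB₁ * hA₁⁻¹ * hB₁⁻¹).1 = mat hA₁ * mat hB₁ * (hA₁⁻¹).1 * (hB₁⁻¹).1 := rfl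
  rw [h, hA₁_inv, hB₁_inv, mat_hA₁, mat_hB₁, qm_mul, qm_mul, qm_mul]; norm_num

lemma pt_0 : pt hA₁ hB₁ e₀ 0 = sc • ![(2 + (0) * √2 + (1) * √3 + (0) * (√2 * √3)), (0 + (-1) * √2 + (1) * √3 + (0) * (√2 * √3))] := by
  have h : pt hA₁ hB₁ e₀ 0 = e₀.1 *ᵥ ![1, 0] := rfl
  rw [h, e₀_p]
  congr 1
  funext i
  fin_cases i <;> simp [vp] <;> ring

lemma pt_1 : pt hA₁ hB₁ e₀ 1 = ![(-1 + (0) * √2 + (-2) * √3 + (1) * (√2 * √3)), (3 + (-2) * √2 + (0) * √3 + (0) * (√2 * √3))] := by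
  have h : pt hA₁ hB₁ e₀ 1 = ((hB₁⁻¹) * e₀).1 *ᵥ ![0, 1] := rfl
  have h3 := s3_sq
  rw [h, mul_e₀_q, hB₁_inv]
  
  funext i
  fin_cases i <;> simp [vq, qm, r3, Matrix.mulVec, dotProduct, Fin.sum_univ_two] <;> grind

lemma pt_2 : pt hA₁ hB₁ e₀ 2 = sc • ![(-1 + (0) * √2 + (-2) * √3 + (-1) * (√2 * √3)), (3 + (2) * √2 + (0) * √3 + (0) * (√2 * √3))] := by
  have h : pt hA₁ hB₁ e₀ 2 = ((hB₁⁻¹) * e₀).1 *ᵥ ![1, 0] := rfl
  have h3 := s3_sq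
  rw [h, mul_e₀_p, hB₁_inv]
  congr 1
  funext i
  fin_cases i <;> simp [vp, qm, r3, Matrix.mulVec, dotProduct, Fin.sum_univ_two] <;> grind

lemma pt_3 : pt hA₁ hB₁ e₀ 3 = ![(-4 + (3) * √2 + (3) * √3 + (-2) * (√2 * √3)), (-6 + (4) * √2 + (-3) * √3 + (2) * (√2 * √3))] := by
  have h : pt hA₁ hB₁ e₀ 3 = ((hA₁⁻¹ * hB₁⁻¹) * e₀).1 *ᵥ ![0, 1] := rfl
  have h3 := s3_sq
  rw [h, mul_e₀_q, hAB₁_inv]
  
  funext i
  fin_cases i <;> simp [vq, qm, r3, Matrix.mulVec, dotProduct, Fin.sum_univ_two] <;> grind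

lemma pt_4 : pt hA₁ hB₁ e₀ 4 = sc • ![(-4 + (-3) * √2 + (3) * √3 + (2) * (√2 * √3)), (-6 + (-4) * √2 + (-3) * √3 + (-2) * (√2 * √3))] := by
  have h : pt hA₁ hB₁ e₀ 4 = ((hA₁⁻¹ * hB₁⁻¹) * e₀).1 *ᵥ ![1, 0] := rfl
  have h3 := s3_sq
  rw [h, mul_e₀_p, hAB₁_inv]
  congr 1
  funext i
  fin_cases i <;> simp [vp, qm, r3, Matrix.mulVec, dotProduct, Fin.sum_univ_two] <;> grind

lemma pt_5 : pt hA₁ hB₁ e₀ 5 = ![(-1 + (0) * √2 + (0) * √3 + (0) * (√2 * √3)), (-3 + (-2) * √2 + (-2) * √3 + (-1) * (√2 * √3))] := by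
  have h : pt hA₁ hB₁ e₀ 5 = ((hA₁⁻¹) * e₀).1 *ᵥ ![0, 1] := rfl
  have h3 := s3_sq
  rw [h, mul_e₀_q, hA₁_inv]
  
  funext i
  fin_cases i <;> simp [vq, qm, r3, Matrix.mulVec, dotProduct, Fin.sum_univ_two] <;> grind

lemma pt_6 : pt hA₁ hB₁ e₀ 6 = sc • ![(-1 + (0) * √2 + (0) * √3 + (0) * (√2 * √3)), (-3 + (2) * √2 + (-2) * √3 + (1) * (√2 * √3))] := by
  have h : pt hA₁ hB₁ e₀ 6 = ((hA₁⁻¹) * e₀).1 *ᵥ ![1, 0] := rfl
  have h3 := s3_sq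
  rw [h, mul_e₀_p, hA₁_inv]
  congr 1
  funext i
  fin_cases i <;> simp [vp, qm, r3, Matrix.mulVec, dotProduct, Fin.sum_univ_two] <;> grind

lemma pt_7 : pt hA₁ hB₁ e₀ 7 = ![(2 + (0) * √2 + (1) * √3 + (0) * (√2 * √3)), (0 + (1) * √2 + (1) * √3 + (0) * (√2 * √3))] := by
  have h : pt hA₁ hB₁ e₀ 7 = e₀.1 *ᵥ ![0, 1] := rfl
  rw [h, e₀_q]
  funext i
  fin_cases i <;> simp [vq] <;> ring

lemma sgn_01 : 0 < om (pt hA₁ hB₁ e₀ 0) (pt hA₁ hB₁ e₀ 1) := by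
  have h2 := s2_sq
  have h3 := s3_sq
  have a1 := s2_gt
  have a2 := s2_lt
  have a3 := s3_gt
  have a4 := s3_lt
  have a5 := s6_gt
  have a6 := s6_lt
  have e : om ![(2 + (0) * √2 + (1) * √3 + (0) * (√2 * √3)), (0 + (-1) * √2 + (1) * √3 + (0) * (√2 * √3))] ![(-1 + (0) * √2 + (-2) * √3 + (1) * (√2 * √3)), (3 + (-2) * √2 + (0) * √3 + (0) * (√2 * √3))] =
      (12 + (-8) * √2 + (6) * √3 + (-4) * (√2 * √3)) := by
    simp only [om, Matrix.cons_val_zero, Matrix.cons_val_one]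
    grind
  rw [pt_0, pt_1, om_smul_left, e]
  exact mul_pos sc_pos (by linarith)

lemma sgn_02 : 0 < om (pt hA₁ hB₁ e₀ 0) (pt hA₁ hB₁ e₀ 2) := by
  have h2 := s2_sq
  have h3 := s3_sq
  have a1 := s2_gt
  have a2 := s2_lt
  have a3 := s3_gt
  have a4 := s3_lt
  have a5 := s6_gt
  have a6 := s6_lt
  have e : om ![(2 + (0) * √2 + (1) * √3 + (0) * (√2 * √3)), (0 + (-1) * √2 + (1) * √3 + (0) * (√2 * √3))] ![(-1 + (0) * √2 + (-2) * √3 + (-1) * (√2 * √3)), (3 + (2) * √2 + (0) * √3 + (0) * (√2 * √3))] =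
      (12 + (6) * √2 + (2) * √3 + (0) * (√2 * √3)) := by
    simp only [om, Matrix.cons_val_zero, Matrix.cons_val_one]
    grind
  rw [pt_0, pt_2, om_smul_left, om_smul_right, e]
  exact mul_pos sc_pos (mul_pos sc_pos (by linarith))

lemma sgn_03 : om (pt hA₁ hB₁ e₀ 0) (pt hA₁ hB₁ e₀ 3) < 0 := by
  have h2 := s2_sq
  have h3 := s3_sq
  have a1 := s2_gt
  have a2 := s2_lt
  have a3 := s3_gt
  have a4 := s3_lt
  have a5 := s6_gt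
  have a6 := s6_lt
  have e : om ![(2 + (0) * √2 + (1) * √3 + (0) * (√2 * √3)), (0 + (-1) * √2 + (1) * √3 + (0) * (√2 * √3))] ![(-4 + (3) * √2 + (3) * √3 + (-2) * (√2 * √3)), (-6 + (4) * √2 + (-3) * √3 + (2) * (√2 * √3))] =
      (-24 + (16) * √2 + (-12) * √3 + (8) * (√2 * √3)) := by
    simp only [om, Matrix.cons_val_zero, Matrix.cons_val_one]
    grind
  rw [pt_0, pt_3, om_smul_left, e]
  exact mul_neg_of_pos_of_neg sc_pos (by linarith)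

lemma sgn_04 : om (pt hA₁ hB₁ e₀ 0) (pt hA₁ hB₁ e₀ 4) < 0 := by
  have h2 := s2_sq
  have h3 := s3_sq
  have a1 := s2_gt
  have a2 := s2_lt
  have a3 := s3_gt
  have a4 := s3_lt
  have a5 := s6_gt
  have a6 := s6_lt
  have e : om ![(2 + (0) * √2 + (1) * √3 + (0) * (√2 * √3)), (0 + (-1) * √2 + (1) * √3 + (0) * (√2 * √3))] ![(-4 + (-3) * √2 + (3) * √3 + (2) * (√2 * √3)), (-6 + (-4) * √2 + (-3) * √3 + (-2) * (√2 * √3))] =
      (-36 + (-24) * √2 + (-4) * √3 + (-2) * (√2 * √3)) := by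
    simp only [om, Matrix.cons_val_zero, Matrix.cons_val_one]
    grind
  rw [pt_0, pt_4, om_smul_left, om_smul_right, e]
  exact mul_neg_of_pos_of_neg sc_pos (mul_neg_of_pos_of_neg sc_pos (by linarith))

lemma sgn_05 : om (pt hA₁ hB₁ e₀ 0) (pt hA₁ hB₁ e₀ 5) < 0 := by
  have h2 := s2_sq
  have h3 := s3_sq
  have a1 := s2_gt
  have a2 := s2_lt
  have a3 := s3_gt
  have a4 := s3_lt
  have a5 := s6_gt
  have a6 := s6_lt
  have e : om ![(2 + (0) * √2 + (1) * √3 + (0) * (√2 * √3)), (0 + (-1) * √2 + (1) * √3 + (0) * (√2 * √3))] ![(-1 + (0) * √2 + (0) * √3 + (0) * (√2 * √3)), (-3 + (-2) * √2 + (-2) * √3 + (-1) * (√2 * √3))] =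
      (-12 + (-8) * √2 + (-6) * √3 + (-4) * (√2 * √3)) := by
    simp only [om, Matrix.cons_val_zero, Matrix.cons_val_one]
    grind
  rw [pt_0, pt_5, om_smul_left, e]
  exact mul_neg_of_pos_of_neg sc_pos (by linarith)

lemma sgn_06 : om (pt hA₁ hB₁ e₀ 0) (pt hA₁ hB₁ e₀ 6) < 0 := by
  have h2 := s2_sq
  have h3 := s3_sq
  have a1 := s2_gt
  have a2 := s2_lt
  have a3 := s3_gt
  have a4 := s3_lt
  have a5 := s6_gt
  have a6 := s6_lt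
  have e : om ![(2 + (0) * √2 + (1) * √3 + (0) * (√2 * √3)), (0 + (-1) * √2 + (1) * √3 + (0) * (√2 * √3))] ![(-1 + (0) * √2 + (0) * √3 + (0) * (√2 * √3)), (-3 + (2) * √2 + (-2) * √3 + (1) * (√2 * √3))] =
      (-12 + (6) * √2 + (-6) * √3 + (4) * (√2 * √3)) := by
    simp only [om, Matrix.cons_val_zero, Matrix.cons_val_one]
    grind
  rw [pt_0, pt_6, om_smul_left, om_smul_right, e]
  exact mul_neg_of_pos_of_neg sc_pos (mul_neg_of_pos_of_neg sc_pos (by linarith))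

lemma sgn_07 : 0 < om (pt hA₁ hB₁ e₀ 0) (pt hA₁ hB₁ e₀ 7) := by
  have h2 := s2_sq
  have h3 := s3_sq
  have a1 := s2_gt
  have a2 := s2_lt
  have a3 := s3_gt
  have a4 := s3_lt
  have a5 := s6_gt
  have a6 := s6_lt
  have e : om ![(2 + (0) * √2 + (1) * √3 + (0) * (√2 * √3)), (0 + (-1) * √2 + (1) * √3 + (0) * (√2 * √3))] ![(2 + (0) * √2 + (1) * √3 + (0) * (√2 * √3)), (0 + (1) * √2 + (1) * √3 + (0) * (√2 * √3))] =
      (0 + (4) * √2 + (0) * √3 + (2) * (√2 * √3)) := by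
    simp only [om, Matrix.cons_val_zero, Matrix.cons_val_one]
    grind
  rw [pt_0, pt_7, om_smul_left, e]
  exact mul_pos sc_pos (by linarith)

lemma sgn_12 : om (pt hA₁ hB₁ e₀ 1) (pt hA₁ hB₁ e₀ 2) < 0 := by
  have h2 := s2_sq
  have h3 := s3_sq
  have a1 := s2_gt
  have a2 := s2_lt
  have a3 := s3_gt
  have a4 := s3_lt
  have a5 := s6_gt
  have a6 := s6_lt
  have e : om ![(-1 + (0) * √2 + (-2) * √3 + (1) * (√2 * √3)), (3 + (-2) * √2 + (0) * √3 + (0) * (√2 * √3))] ![(-1 + (0) * √2 + (-2) * √3 + (-1) * (√2 * √3)), (3 + (2) * √2 + (0) * √3 + (0) * (√2 * √3))] =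
      (0 + (-4) * √2 + (0) * √3 + (-2) * (√2 * √3)) := by
    simp only [om, Matrix.cons_val_zero, Matrix.cons_val_one]
    grind
  rw [pt_1, pt_2, om_smul_right, e]
  exact mul_neg_of_pos_of_neg sc_pos (by linarith)

lemma sgn_23 : 0 < om (pt hA₁ hB₁ e₀ 2) (pt hA₁ hB₁ e₀ 3) := by
  have h2 := s2_sq
  have h3 := s3_sq
  have a1 := s2_gt
  have a2 := s2_lt
  have a3 := s3_gt
  have a4 := s3_lt
  have a5 := s6_gt
  have a6 := s6_lt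
  have e : om ![(-1 + (0) * √2 + (-2) * √3 + (-1) * (√2 * √3)), (3 + (2) * √2 + (0) * √3 + (0) * (√2 * √3))] ![(-4 + (3) * √2 + (3) * √3 + (-2) * (√2 * √3)), (-6 + (4) * √2 + (-3) * √3 + (2) * (√2 * √3))] =
      (12 + (-8) * √2 + (6) * √3 + (-4) * (√2 * √3)) := by
    simp only [om, Matrix.cons_val_zero, Matrix.cons_val_one]
    grind
  rw [pt_2, pt_3, om_smul_left, e]
  exact mul_pos sc_pos (by linarith)

lemma sgn_34 : om (pt hA₁ hB₁ e₀ 3) (pt hA₁ hB₁ e₀ 4) < 0 := by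
  have h2 := s2_sq
  have h3 := s3_sq
  have a1 := s2_gt
  have a2 := s2_lt
  have a3 := s3_gt
  have a4 := s3_lt
  have a5 := s6_gt
  have a6 := s6_lt
  have e : om ![(-4 + (3) * √2 + (3) * √3 + (-2) * (√2 * √3)), (-6 + (4) * √2 + (-3) * √3 + (2) * (√2 * √3))] ![(-4 + (-3) * √2 + (3) * √3 + (2) * (√2 * √3)), (-6 + (-4) * √2 + (-3) * √3 + (-2) * (√2 * √3))] =
      (0 + (-4) * √2 + (0) * √3 + (-2) * (√2 * √3)) := by
    simp only [om, Matrix.cons_val_zero, Matrix.cons_val_one]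
    grind
  rw [pt_3, pt_4, om_smul_right, e]
  exact mul_neg_of_pos_of_neg sc_pos (by linarith)

lemma sgn_45 : om (pt hA₁ hB₁ e₀ 4) (pt hA₁ hB₁ e₀ 5) < 0 := by
  have h2 := s2_sq
  have h3 := s3_sq
  have a1 := s2_gt
  have a2 := s2_lt
  have a3 := s3_gt
  have a4 := s3_lt
  have a5 := s6_gt
  have a6 := s6_lt
  have e : om ![(-4 + (-3) * √2 + (3) * √3 + (2) * (√2 * √3)), (-6 + (-4) * √2 + (-3) * √3 + (-2) * (√2 * √3))] ![(-1 + (0) * √2 + (0) * √3 + (0) * (√2 * √3)), (-3 + (-2) * √2 + (-2) * √3 + (-1) * (√2 * √3))] =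
      (-12 + (-8) * √2 + (-6) * √3 + (-4) * (√2 * √3)) := by
    simp only [om, Matrix.cons_val_zero, Matrix.cons_val_one]
    grind
  rw [pt_4, pt_5, om_smul_left, e]
  exact mul_neg_of_pos_of_neg sc_pos (by linarith)

lemma sgn_56 : om (pt hA₁ hB₁ e₀ 5) (pt hA₁ hB₁ e₀ 6) < 0 := by
  have h2 := s2_sq
  have h3 := s3_sq
  have a1 := s2_gt
  have a2 := s2_lt
  have a3 := s3_gt
  have a4 := s3_lt
  have a5 := s6_gt
  have a6 := s6_lt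
  have e : om ![(-1 + (0) * √2 + (0) * √3 + (0) * (√2 * √3)), (-3 + (-2) * √2 + (-2) * √3 + (-1) * (√2 * √3))] ![(-1 + (0) * √2 + (0) * √3 + (0) * (√2 * √3)), (-3 + (2) * √2 + (-2) * √3 + (1) * (√2 * √3))] =
      (0 + (-4) * √2 + (0) * √3 + (-2) * (√2 * √3)) := by
    simp only [om, Matrix.cons_val_zero, Matrix.cons_val_one]
    grind
  rw [pt_5, pt_6, om_smul_right, e]
  exact mul_neg_of_pos_of_neg sc_pos (by linarith)

lemma sgn_67 : 0 < om (pt hA₁ hB₁ e₀ 6) (pt hA₁ hB₁ e₀ 7) := by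
  have h2 := s2_sq
  have h3 := s3_sq
  have a1 := s2_gt
  have a2 := s2_lt
  have a3 := s3_gt
  have a4 := s3_lt
  have a5 := s6_gt
  have a6 := s6_lt
  have e : om ![(-1 + (0) * √2 + (0) * √3 + (0) * (√2 * √3)), (-3 + (2) * √2 + (-2) * √3 + (1) * (√2 * √3))] ![(2 + (0) * √2 + (1) * √3 + (0) * (√2 * √3)), (0 + (1) * √2 + (1) * √3 + (0) * (√2 * √3))] =
      (12 + (-8) * √2 + (6) * √3 + (-4) * (√2 * √3)) := by
    simp only [om, Matrix.cons_val_zero, Matrix.cons_val_one]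
    grind
  rw [pt_6, pt_7, om_smul_left, e]
  exact mul_pos sc_pos (by linarith)

lemma e₀_diag : (e₀⁻¹ * (hA₁ * hB₁ * hA₁⁻¹ * hB₁⁻¹) * e₀).1 =
    !![-(17 + 12 * √2), 0; 0, (-(17 + 12 * √2))⁻¹] := by
  have h2 := s2_sq
  have h3 := s3_sq
  have hinv : (-(17 + 12 * √2))⁻¹ = -(17 - 12 * √2) := by
    rw [inv_eq_iff_eq_inv, eq_comm]
    refine inv_eq_of_mul_eq_one_right ?_
    linear_combination (-144) * h2
  rw [hinv]
  have h1 : (hA₁ * hB₁ * hA₁⁻¹ * hB₁⁻¹).1 * e₀.1 =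
      e₀.1 * !![-(17 + 12 * √2), 0; 0, -(17 - 12 * √2)] := by
    rw [comm₁]
    have h0 : √2 ≠ 0 := by positivity
    ext i j
    fin_cases i <;> fin_cases j <;>
      simp [e₀, qm, r3, Matrix.mul_apply, Fin.sum_univ_two]
    · field_simp
      grind
    · grind
    · field_simp
      grind
    · grind
  have h4 : (e₀⁻¹ * (hA₁ * hB₁ * hA₁⁻¹ * hB₁⁻¹) * e₀).1 =
      (e₀⁻¹).1 * ((hA₁ * hB₁ * hA₁⁻¹ * hB₁⁻¹).1 * e₀.1) := by
    rw [← Matrix.mul_assoc]; rfl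
  have h5 : (e₀⁻¹).1 * e₀.1 = 1 := congrArg Subtype.val (inv_mul_cancel e₀)
  rw [h4, h1, ← Matrix.mul_assoc, h5, Matrix.one_mul]

/-- The first handle. -/
theorem base_left : ∃ l : Fin 3 → ℝ,
    Good (symSL 3 hA₁) (symSL 3 hB₁) (symSL 3 e₀ * K) l := by
  refine ⟨_, good_sl2 (ν := -(17 + 12 * √2)) ?_ e₀_diag ?_⟩
  · nlinarith [s2_gt]
  · intro i
    fin_cases i
    · show 0 < om (pt hA₁ hB₁ e₀ 0) (pt hA₁ hB₁ e₀ 1) * om (pt hA₁ hB₁ e₀ 1) (pt hA₁ hB₁ e₀ 2) *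
        om (pt hA₁ hB₁ e₀ 2) (pt hA₁ hB₁ e₀ 0)
      rw [om_swap (pt hA₁ hB₁ e₀ 0) (pt hA₁ hB₁ e₀ 2)]
      exact mul_pos_of_neg_of_neg (mul_neg_of_pos_of_neg sgn_01 sgn_12) (neg_neg_of_pos sgn_02)
    · show 0 < om (pt hA₁ hB₁ e₀ 0) (pt hA₁ hB₁ e₀ 2) * om (pt hA₁ hB₁ e₀ 2) (pt hA₁ hB₁ e₀ 3) *
        om (pt hA₁ hB₁ e₀ 3) (pt hA₁ hB₁ e₀ 0)
      rw [om_swap (pt hA₁ hB₁ e₀ 0) (pt hA₁ hB₁ e₀ 3)]
      exact mul_pos (mul_pos sgn_02 sgn_23) (neg_pos_of_neg sgn_03)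
    · show 0 < om (pt hA₁ hB₁ e₀ 0) (pt hA₁ hB₁ e₀ 3) * om (pt hA₁ hB₁ e₀ 3) (pt hA₁ hB₁ e₀ 4) *
        om (pt hA₁ hB₁ e₀ 4) (pt hA₁ hB₁ e₀ 0)
      rw [om_swap (pt hA₁ hB₁ e₀ 0) (pt hA₁ hB₁ e₀ 4)]
      exact mul_pos (mul_pos_of_neg_of_neg sgn_03 sgn_34) (neg_pos_of_neg sgn_04)
    · show 0 < om (pt hA₁ hB₁ e₀ 0) (pt hA₁ hB₁ e₀ 4) * om (pt hA₁ hB₁ e₀ 4) (pt hA₁ hB₁ e₀ 5) *
        om (pt hA₁ hB₁ e₀ 5) (pt hA₁ hB₁ e₀ 0)
      rw [om_swap (pt hA₁ hB₁ e₀ 0) (pt hA₁ hB₁ e₀ 5)]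
      exact mul_pos (mul_pos_of_neg_of_neg sgn_04 sgn_45) (neg_pos_of_neg sgn_05)
    · show 0 < om (pt hA₁ hB₁ e₀ 0) (pt hA₁ hB₁ e₀ 5) * om (pt hA₁ hB₁ e₀ 5) (pt hA₁ hB₁ e₀ 6) *
        om (pt hA₁ hB₁ e₀ 6) (pt hA₁ hB₁ e₀ 0)
      rw [om_swap (pt hA₁ hB₁ e₀ 0) (pt hA₁ hB₁ e₀ 6)]
      exact mul_pos (mul_pos_of_neg_of_neg sgn_05 sgn_56) (neg_pos_of_neg sgn_06)
    · show 0 < om (pt hA₁ hB₁ e₀ 0) (pt hA₁ hB₁ e₀ 6) * om (pt hA₁ hB₁ e₀ 6) (pt hA₁ hB₁ e₀ 7) *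
        om (pt hA₁ hB₁ e₀ 7) (pt hA₁ hB₁ e₀ 0)
      rw [om_swap (pt hA₁ hB₁ e₀ 0) (pt hA₁ hB₁ e₀ 7)]
      exact mul_pos_of_neg_of_neg (mul_neg_of_neg_of_pos sgn_06 sgn_67) (neg_neg_of_pos sgn_07)

end Pool.Agent.LibHit3
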