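import Pool.Agent.LibHit3.A_Base2

set_option autoImplicit false

noncomputable section

open Matrix
open scoped MatrixGroups

namespace Pool.Agent.LibHit3

open Pool.Agent.LibHyperelliptic

/-! Task A25b. The second handle at the base point; hints in A_Base2. -/

lemma brsq2 : √2 * √2 = (2 : ℝ) := Real.mul_self_sqrt (by norm_num)
lemma brsq3 : √3 * √3 = (3 : ℝ) := Real.mul_self_sqrt (by norm_num)
lemma brlo2 : (1.41421 : ℝ) < √2 := by
  rw [Real.lt_sqrt (by norm_num)]; norm_num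
lemma brhi2 : √2 < (1.41422 : ℝ) := by
  rw [Real.sqrt_lt' (by norm_num)]; norm_num
lemma brlo3 : (1.73205 : ℝ) < √3 := by
  rw [Real.lt_sqrt (by norm_num)]; norm_num
lemma brhi3 : √3 < (1.73206 : ℝ) := by
  rw [Real.sqrt_lt' (by norm_num)]; norm_num
lemma brlo6 : (2.449 : ℝ) < √2 * √3 := by
  have h1 := brlo2
  have h2 := brlo3
  nlinarith
lemma brhi6 : √2 * √3 < (2.45 : ℝ) := by
  have h1 := brhi2
  have h2 := brhi3
  have h3 := brlo2
  have h4 := brlo3
  nlinarith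

/-- A vector. -/
def brw0 : Fin 2 → ℝ := ![(2 + 0 * √2 + 1 * √3 + 0 * (√2 * √3)), (0 + 1 * √2 + 1 * √3 + 0 * (√2 * √3))]

/-- A vector. -/
def brw1 : Fin 2 → ℝ := ![(7 - 6 * √2 + 4 * √3 - 3 * (√2 * √3)), (3 - 2 * √2 + 2 * √3 - 2 * (√2 * √3))]

/-- A vector. -/
def brw2 : Fin 2 → ℝ := ![(-7 - 6 * √2 - 4 * √3 - 3 * (√2 * √3)), (-3 - 2 * √2 - 2 * √3 - 2 * (√2 * √3))]

/-- A vector. -/
def brw3 : Fin 2 → ℝ := ![(-20 + 15 * √2 - 11 * √3 + 8 * (√2 * √3)), (-6 + 4 * √2 - 5 * √3 + 4 * (√2 * √3))]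

/-- A vector. -/
def brw4 : Fin 2 → ℝ := ![(20 + 15 * √2 + 11 * √3 + 8 * (√2 * √3)), (6 + 4 * √2 + 5 * √3 + 4 * (√2 * √3))]

/-- A vector. -/
def brw5 : Fin 2 → ℝ := ![(7 + 6 * √2 + 2 * √3 + 2 * (√2 * √3)), (-3 - 2 * √2 + 4 * √3 + 3 * (√2 * √3))]

/-- A vector. -/
def brw6 : Fin 2 → ℝ := ![(-7 + 6 * √2 - 2 * √3 + 2 * (√2 * √3)), (3 - 2 * √2 - 4 * √3 + 3 * (√2 * √3))]

/-- A vector. -/
def brw7 : Fin 2 → ℝ := ![(-2 + 0 * √2 - 1 * √3 + 0 * (√2 * √3)), (0 + 1 * √2 - 1 * √3 + 0 * (√2 * √3))]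

lemma brom01 : om brw0 brw1 = (12 - 8 * √2 + 6 * √3 - 4 * (√2 * √3)) := by
  simp only [om, brw0, brw1, Matrix.cons_val_zero, Matrix.cons_val_one]
  linear_combination (((0 + 0 * √3) * (-2 + -2 * √3)) - ((1 + 0 * √3) * (-6 + -3 * √3))) * brsq2 + (((2) + (-2) * √2) - ((4) + (-3) * √2)) * brsq3

lemma brom02 : om brw0 brw2 = (12 + 6 * √2 + 6 * √3 + 4 * (√2 * √3)) := by
  simp only [om, brw0, brw2, Matrix.cons_val_zero, Matrix.cons_val_one]
  linear_combination (((0 + 0 * √3) * (-2 + -2 * √3)) - ((1 + 0 * √3) * (-6 + -3 * √3))) * brsq2 + (((-2) + (-2) * √2) - ((-4) + (-3) * √2)) * brsq3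

lemma brom03 : om brw0 brw3 = (-24 + 16 * √2 - 12 * √3 + 8 * (√2 * √3)) := by
  simp only [om, brw0, brw3, Matrix.cons_val_zero, Matrix.cons_val_one]
  linear_combination (((0 + 0 * √3) * (4 + 4 * √3)) - ((1 + 0 * √3) * (15 + 8 * √3))) * brsq2 + (((-5) + (4) * √2) - ((-11) + (8) * √2)) * brsq3

lemma brom04 : om brw0 brw4 = (-36 - 24 * √2 - 20 * √3 - 14 * (√2 * √3)) := by
  simp only [om, brw0, brw4, Matrix.cons_val_zero, Matrix.cons_val_one]
  linear_combination (((0 + 0 * √3) * (4 + 4 * √3)) - ((1 + 0 * √3) * (15 + 8 * √3))) * brsq2 + (((5) + (4) * √2) - ((11) + (8) * √2)) * brsq3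

lemma brom05 : om brw0 brw5 = (-12 - 8 * √2 - 6 * √3 - 4 * (√2 * √3)) := by
  simp only [om, brw0, brw5, Matrix.cons_val_zero, Matrix.cons_val_one]
  linear_combination (((0 + 0 * √3) * (-2 + 3 * √3)) - ((1 + 0 * √3) * (6 + 2 * √3))) * brsq2 + (((4) + (3) * √2) - ((2) + (2) * √2)) * brsq3

lemma brom06 : om brw0 brw6 = (-12 + 6 * √2 - 2 * √3 + 0 * (√2 * √3)) := by
  simp only [om, brw0, brw6, Matrix.cons_val_zero, Matrix.cons_val_one]
  linear_combination (((0 + 0 * √3) * (-2 + 3 * √3)) - ((1 + 0 * √3) * (6 + 2 * √3))) * brsq2 + (((-4) + (3) * √2) - ((-2) + (2) * √2)) * brsq3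

lemma brom07 : om brw0 brw7 = (0 + 4 * √2 + 0 * √3 + 2 * (√2 * √3)) := by
  simp only [om, brw0, brw7, Matrix.cons_val_zero, Matrix.cons_val_one]
  linear_combination (((0 + 0 * √3) * (1 + 0 * √3)) - ((1 + 0 * √3) * (0 + 0 * √3))) * brsq2 + (((-1) + (0) * √2) - ((-1) + (0) * √2)) * brsq3

lemma brom12 : om brw1 brw2 = (0 - 4 * √2 + 0 * √3 - 2 * (√2 * √3)) := by
  simp only [om, brw1, brw2, Matrix.cons_val_zero, Matrix.cons_val_one]
  linear_combination (((-6 + -3 * √3) * (-2 + -2 * √3)) - ((-2 + -2 * √3) * (-6 + -3 * √3))) * brsq2 + (((4) + (-2) * √2) - ((4) + (2) * √2)) * brsq3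

lemma brom23 : om brw2 brw3 = (12 - 8 * √2 + 6 * √3 - 4 * (√2 * √3)) := by
  simp only [om, brw2, brw3, Matrix.cons_val_zero, Matrix.cons_val_one]
  linear_combination (((-6 + -3 * √3) * (4 + 4 * √3)) - ((-2 + -2 * √3) * (15 + 8 * √3))) * brsq2 + (((-4) + (-1) * √2) - ((-10) + (6) * √2)) * brsq3

lemma brom34 : om brw3 brw4 = (0 - 4 * √2 + 0 * √3 - 2 * (√2 * √3)) := by
  simp only [om, brw3, brw4, Matrix.cons_val_zero, Matrix.cons_val_one]
  linear_combination (((15 + 8 * √3) * (4 + 4 * √3)) - ((4 + 4 * √3) * (15 + 8 * √3))) * brsq2 + (((9) + (-4) * √2) - ((9) + (4) * √2)) * brsq3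

lemma brom45 : om brw4 brw5 = (-12 - 8 * √2 - 6 * √3 - 4 * (√2 * √3)) := by
  simp only [om, brw4, brw5, Matrix.cons_val_zero, Matrix.cons_val_one]
  linear_combination (((15 + 8 * √3) * (-2 + 3 * √3)) - ((4 + 4 * √3) * (6 + 2 * √3))) * brsq2 + (((92) + (65) * √2) - ((26) + (18) * √2)) * brsq3

lemma brom56 : om brw5 brw6 = (0 - 4 * √2 + 0 * √3 - 2 * (√2 * √3)) := by
  simp only [om, brw5, brw6, Matrix.cons_val_zero, Matrix.cons_val_one]
  linear_combination (((6 + 2 * √3) * (-2 + 3 * √3)) - ((-2 + 3 * √3) * (6 + 2 * √3))) * brsq2 + (((4) + (-2) * √2) - ((4) + (2) * √2)) * brsq3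

lemma brom67 : om brw6 brw7 = (12 - 8 * √2 + 6 * √3 - 4 * (√2 * √3)) := by
  simp only [om, brw6, brw7, Matrix.cons_val_zero, Matrix.cons_val_one]
  linear_combination (((6 + 2 * √3) * (1 + 0 * √3)) - ((-2 + 3 * √3) * (0 + 0 * √3))) * brsq2 + (((2) + (-2) * √2) - ((4) + (-3) * √2)) * brsq3


/-- The positive factor. -/
def brc : ℝ := (2 - √3) / (2 * √2)

lemma brc_pos : 0 < brc := by
  have h1 := brhi3
  have h2 := brlo2
  unfold brc
  apply div_pos <;> linarith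

lemma brc_mul : brc * (2 * √2) = 2 - √3 := by
  unfold brc
  have h2 := brlo2
  rw [div_mul_cancel₀]
  linarith

lemma brc_mul2 : brc * (2 + √3) = 1 / (2 * √2) := by
  have h2 := brlo2
  rw [eq_div_iff (by linarith)]
  linear_combination (2 + √3) * brc_mul - brsq3

/-- The frame. -/
def bre : SL(2, ℝ) := e₀ * k₀⁻¹

lemma bre_mat : bre.1 = !![2 + √3, -(brc * (2 + √3)); √3 + √2, -(brc * (√3 - √2))] := by
  have h2 := brlo2
  have h3 := brc_mul2
  have h4 : brc * (√3 - √2) = (2 - √3) * (√3 - √2) / (2 * √2) := by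
    unfold brc
    ring
  rw [h3, h4]
  change (e₀ * k₀⁻¹).1 = _
  rw [Matrix.SpecialLinearGroup.coe_mul, Matrix.SpecialLinearGroup.coe_inv]
  ext i j
  fin_cases i <;> fin_cases j <;>
    simp [e₀, k₀, Matrix.adjugate_fin_two, Matrix.mul_apply, Fin.sum_univ_two]

lemma bre0 : bre.1 *ᵥ ![1, 0] = brw0 := by
  rw [bre_mat]
  ext i
  fin_cases i <;> simp [brw0, Matrix.mulVec, dotProduct, Fin.sum_univ_two] <;> ring

lemma bre1 : bre.1 *ᵥ ![0, 1] = brc • brw7 := by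
  rw [bre_mat]
  ext i
  fin_cases i <;> simp [brw7, Matrix.mulVec, dotProduct, Fin.sum_univ_two] <;> ring

lemma br_mul (g h : SL(2, ℝ)) (v : Fin 2 → ℝ) : (g * h).1 *ᵥ v = g.1 *ᵥ (h.1 *ᵥ v) := by
  rw [Matrix.mulVec_mulVec]
  rfl

lemma brA : (hA₂⁻¹).1 = !![-2 - 3 * √3, 6 + 2 * √3; -6 + 2 * √3, -2 + 3 * √3] := by
  rw [Matrix.SpecialLinearGroup.coe_inv]
  ext i j
  fin_cases i <;> fin_cases j <;>
    simp [hA₂, qm, r3, Matrix.adjugate_fin_two] <;> ring

lemma brB : (hB₂⁻¹).1 = !![-2 + 2 * √3, -6 - 3 * √3; 6 - 3 * √3, -2 - 2 * √3] := by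
  rw [Matrix.SpecialLinearGroup.coe_inv]
  ext i j
  fin_cases i <;> fin_cases j <;>
    simp [hB₂, qm, r3, Matrix.adjugate_fin_two] <;> ring

lemma brB7 : (hB₂⁻¹).1 *ᵥ brw7 = brw1 := by
  rw [brB]
  ext i
  fin_cases i
  · simp only [brw7, brw1, Matrix.mulVec, dotProduct, Fin.sum_univ_two, Matrix.of_apply,
      Matrix.cons_val', Matrix.cons_val_zero, Matrix.cons_val_one, Fin.zero_eta, Fin.mk_one]
    linear_combination (2 * (-1 + 0 * √2) - 3 * (-1 + 0 * √2)) * brsq3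
  · simp only [brw7, brw1, Matrix.mulVec, dotProduct, Fin.sum_univ_two, Matrix.of_apply,
      Matrix.cons_val', Matrix.cons_val_zero, Matrix.cons_val_one, Fin.zero_eta, Fin.mk_one]
    linear_combination (-3 * (-1 + 0 * √2) - 2 * (-1 + 0 * √2)) * brsq3

lemma brB0 : (hB₂⁻¹).1 *ᵥ brw0 = brw2 := by
  rw [brB]
  ext i
  fin_cases i
  · simp only [brw0, brw2, Matrix.mulVec, dotProduct, Fin.sum_univ_two, Matrix.of_apply,
      Matrix.cons_val', Matrix.cons_val_zero, Matrix.cons_val_one, Fin.zero_eta, Fin.mk_one]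
    linear_combination (2 * (1 + 0 * √2) - 3 * (1 + 0 * √2)) * brsq3
  · simp only [brw0, brw2, Matrix.mulVec, dotProduct, Fin.sum_univ_two, Matrix.of_apply,
      Matrix.cons_val', Matrix.cons_val_zero, Matrix.cons_val_one, Fin.zero_eta, Fin.mk_one]
    linear_combination (-3 * (1 + 0 * √2) - 2 * (1 + 0 * √2)) * brsq3

lemma brA1 : (hA₂⁻¹).1 *ᵥ brw1 = brw3 := by
  rw [brA]
  ext i
  fin_cases i
  · simp only [brw1, brw3, Matrix.mulVec, dotProduct, Fin.sum_univ_two, Matrix.of_apply,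
      Matrix.cons_val', Matrix.cons_val_zero, Matrix.cons_val_one, Fin.zero_eta, Fin.mk_one]
    linear_combination (-3 * (4 - 3 * √2) + 2 * (2 - 2 * √2)) * brsq3
  · simp only [brw1, brw3, Matrix.mulVec, dotProduct, Fin.sum_univ_two, Matrix.of_apply,
      Matrix.cons_val', Matrix.cons_val_zero, Matrix.cons_val_one, Fin.zero_eta, Fin.mk_one]
    linear_combination (2 * (4 - 3 * √2) + 3 * (2 - 2 * √2)) * brsq3

lemma brA2 : (hA₂⁻¹).1 *ᵥ brw2 = brw4 := by
  rw [brA]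
  ext i
  fin_cases i
  · simp only [brw2, brw4, Matrix.mulVec, dotProduct, Fin.sum_univ_two, Matrix.of_apply,
      Matrix.cons_val', Matrix.cons_val_zero, Matrix.cons_val_one, Fin.zero_eta, Fin.mk_one]
    linear_combination (-3 * (-4 - 3 * √2) + 2 * (-2 - 2 * √2)) * brsq3
  · simp only [brw2, brw4, Matrix.mulVec, dotProduct, Fin.sum_univ_two, Matrix.of_apply,
      Matrix.cons_val', Matrix.cons_val_zero, Matrix.cons_val_one, Fin.zero_eta, Fin.mk_one]
    linear_combination (2 * (-4 - 3 * √2) + 3 * (-2 - 2 * √2)) * brsq3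

lemma brA7 : (hA₂⁻¹).1 *ᵥ brw7 = brw5 := by
  rw [brA]
  ext i
  fin_cases i
  · simp only [brw7, brw5, Matrix.mulVec, dotProduct, Fin.sum_univ_two, Matrix.of_apply,
      Matrix.cons_val', Matrix.cons_val_zero, Matrix.cons_val_one, Fin.zero_eta, Fin.mk_one]
    linear_combination (-3 * (-1 + 0 * √2) + 2 * (-1 + 0 * √2)) * brsq3
  · simp only [brw7, brw5, Matrix.mulVec, dotProduct, Fin.sum_univ_two, Matrix.of_apply,
      Matrix.cons_val', Matrix.cons_val_zero, Matrix.cons_val_one, Fin.zero_eta, Fin.mk_one]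
    linear_combination (2 * (-1 + 0 * √2) + 3 * (-1 + 0 * √2)) * brsq3

lemma brA0 : (hA₂⁻¹).1 *ᵥ brw0 = brw6 := by
  rw [brA]
  ext i
  fin_cases i
  · simp only [brw0, brw6, Matrix.mulVec, dotProduct, Fin.sum_univ_two, Matrix.of_apply,
      Matrix.cons_val', Matrix.cons_val_zero, Matrix.cons_val_one, Fin.zero_eta, Fin.mk_one]
    linear_combination (-3 * (1 + 0 * √2) + 2 * (1 + 0 * √2)) * brsq3
  · simp only [brw0, brw6, Matrix.mulVec, dotProduct, Fin.sum_univ_two, Matrix.of_apply,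
      Matrix.cons_val', Matrix.cons_val_zero, Matrix.cons_val_one, Fin.zero_eta, Fin.mk_one]
    linear_combination (2 * (1 + 0 * √2) + 3 * (1 + 0 * √2)) * brsq3


lemma br_pt : pt hA₂ hB₂ bre =
    ![brw0, brc • brw1, brw2, brc • brw3, brw4, brc • brw5, brw6, brc • brw7] := by
  unfold pt
  simp only [br_mul, bre0, bre1, Matrix.mulVec_smul, brB7, brB0, brA1, brA2, brA7, brA0]

lemma br_om_smul_left (t : ℝ) (u v : Fin 2 → ℝ) : om (t • u) v = t * om u v := by
  simp only [om, Pi.smul_apply, smul_eq_mul]; ring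

lemma br_om_smul_right (t : ℝ) (u v : Fin 2 → ℝ) : om u (t • v) = t * om u v := by
  simp only [om, Pi.smul_apply, smul_eq_mul]; ring

lemma br_om_swap (u v : Fin 2 → ℝ) : om u v = -om v u := by
  simp only [om]; ring

lemma br_prod (i : Fin 6) : 0 < om (pt hA₂ hB₂ bre 0) (pt hA₂ hB₂ bre i.succ.castSucc) *
      om (pt hA₂ hB₂ bre i.succ.castSucc) (pt hA₂ hB₂ bre i.succ.succ) *
      om (pt hA₂ hB₂ bre i.succ.succ) (pt hA₂ hB₂ bre 0) := by
  have hc := brc_pos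
  have l2 := brlo2
  have u2 := brhi2
  have l3 := brlo3
  have u3 := brhi3
  have l6 := brlo6
  have u6 := brhi6
  have x1 : 0 < om brw0 brw1 := by rw [brom01]; linarith
  have x2 : 0 < om brw0 brw2 := by rw [brom02]; linarith
  have x3 : 0 < - om brw0 brw3 := by rw [brom03]; linarith
  have x4 : 0 < - om brw0 brw4 := by rw [brom04]; linarith
  have x5 : 0 < - om brw0 brw5 := by rw [brom05]; linarith
  have x6 : 0 < - om brw0 brw6 := by rw [brom06]; linarith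
  have x7 : 0 < om brw0 brw7 := by rw [brom07]; linarith
  have y1 : 0 < - om brw1 brw2 := by rw [brom12]; linarith
  have y2 : 0 < om brw2 brw3 := by rw [brom23]; linarith
  have y3 : 0 < - om brw3 brw4 := by rw [brom34]; linarith
  have y4 : 0 < - om brw4 brw5 := by rw [brom45]; linarith
  have y5 : 0 < - om brw5 brw6 := by rw [brom56]; linarith
  have y6 : 0 < om brw6 brw7 := by rw [brom67]; linarith
  rw [br_pt]
  fin_cases i
  · change 0 < om brw0 (brc • brw1) * om (brc • brw1) brw2 * om brw2 brw0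
    rw [br_om_swap brw2 brw0]
    simp only [br_om_smul_left, br_om_smul_right]
    have := mul_pos (mul_pos x1 y1) x2
    have h2 := mul_pos (mul_pos hc hc) this
    linarith
  · change 0 < om brw0 brw2 * om brw2 (brc • brw3) * om (brc • brw3) brw0
    simp only [br_om_smul_left, br_om_smul_right]
    rw [br_om_swap brw3 brw0]
    have := mul_pos (mul_pos x2 y2) x3
    have h2 := mul_pos (mul_pos hc hc) this
    linarith
  · change 0 < om brw0 (brc • brw3) * om (brc • brw3) brw4 * om brw4 brw0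
    simp only [br_om_smul_left, br_om_smul_right]
    rw [br_om_swap brw4 brw0]
    have := mul_pos (mul_pos x3 y3) x4
    have h2 := mul_pos (mul_pos hc hc) this
    linarith
  · change 0 < om brw0 brw4 * om brw4 (brc • brw5) * om (brc • brw5) brw0
    simp only [br_om_smul_left, br_om_smul_right]
    rw [br_om_swap brw5 brw0]
    have := mul_pos (mul_pos x4 y4) x5
    have h2 := mul_pos (mul_pos hc hc) this
    linarith
  · change 0 < om brw0 (brc • brw5) * om (brc • brw5) brw6 * om brw6 brw0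
    simp only [br_om_smul_left, br_om_smul_right]
    rw [br_om_swap brw6 brw0]
    have := mul_pos (mul_pos x5 y5) x6
    have h2 := mul_pos (mul_pos hc hc) this
    linarith
  · change 0 < om brw0 brw6 * om brw6 (brc • brw7) * om (brc • brw7) brw0
    simp only [br_om_smul_left, br_om_smul_right]
    rw [br_om_swap brw7 brw0]
    have := mul_pos (mul_pos x6 y6) x7
    have h2 := mul_pos (mul_pos hc hc) this
    linarith

/-- The eigenvalue. -/
def brν : ℝ := -(17 + 12 * √2)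

lemma brν_inv : brν⁻¹ = -(17 - 12 * √2) := by
  have h : brν * (-(17 - 12 * √2)) = 1 := by
    unfold brν
    linear_combination (-144) * brsq2
  exact inv_eq_of_mul_eq_one_right h

lemma br_comm : (hA₂ * hB₂ * hA₂⁻¹ * hB₂⁻¹).1 =
    !![-17 + 12 * √3, -24 - 12 * √3; 24 - 12 * √3, -17 - 12 * √3] := by
  have h : mat (hA₂ * hB₂ * hA₂⁻¹ * hB₂⁻¹) = qm (-17) 12 (-24) (-12) := by
    simp only [map_mul, mat_inv, mat_hA₂, mat_hB₂, qm_adj, qm_mul]
    norm_num
  change mat (hA₂ * hB₂ * hA₂⁻¹ * hB₂⁻¹) = _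
  rw [h]
  ext i j
  fin_cases i <;> fin_cases j <;> simp [qm, r3] <;> ring

lemma br_diag : (bre⁻¹ * (hA₂ * hB₂ * hA₂⁻¹ * hB₂⁻¹) * bre).1 = !![brν, 0; 0, brν⁻¹] := by
  have h1 : (hA₂ * hB₂ * hA₂⁻¹ * hB₂⁻¹).1 * bre.1 = bre.1 * !![brν, 0; 0, brν⁻¹] := by
    rw [br_comm, bre_mat, brν_inv]
    ext i j
    fin_cases i <;> fin_cases j <;>
      simp only [Matrix.mul_apply, Fin.sum_univ_two, Matrix.of_apply, Matrix.cons_val',
        Matrix.cons_val_zero, Matrix.cons_val_one, Fin.zero_eta, Fin.mk_one, brν, mul_zero,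
        add_zero, zero_add]
    · ring
    · ring
    · linear_combination 12 * brsq2 - 24 * brsq3
    · linear_combination (-12 * brc) * brsq2 + (24 * brc) * brsq3
  rw [mul_assoc, Matrix.SpecialLinearGroup.coe_mul, Matrix.SpecialLinearGroup.coe_mul]
  change (bre⁻¹).1 * ((hA₂ * hB₂ * hA₂⁻¹ * hB₂⁻¹).1 * bre.1) = _
  rw [h1, ← Matrix.mul_assoc]
  have h2 : (bre⁻¹).1 * bre.1 = 1 := congrArg Subtype.val (inv_mul_cancel bre)
  rw [h2, Matrix.one_mul]

lemma symSL_bre : symSL 3 e₀ * K * K = symSL 3 bre * K := by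
  unfold bre
  rw [map_mul, map_inv, symSL_k₀, mul_assoc (symSL 3 e₀) K⁻¹ K, inv_mul_cancel, mul_assoc]
  congr 1
  apply Subtype.ext
  change K.1 * K.1 = 1
  ext i j
  fin_cases i <;> fin_cases j <;> simp [K, Matrix.mul_apply, Fin.sum_univ_three]

/-- The second handle: `symSL 3 e₀ * K * K = symSL 3 (e₀ * k₀⁻¹) * K`, and
`[hA₂, hB₂] = [hA₁, hB₁]⁻¹` by `hex_rel`. -/
theorem base_right : ∃ l : Fin 3 → ℝ,
    Good (symSL 3 hA₂) (symSL 3 hB₂) (symSL 3 e₀ * K * K) l := by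
  rw [symSL_bre]
  refine ⟨_, good_sl2 (ν := brν) ?_ br_diag br_prod⟩
  have h2 := brlo2
  unfold brν
  nlinarith

theorem base_inW : InW (symSL 3 hA₁) (symSL 3 hB₁) (symSL 3 hA₂) (symSL 3 hB₂) := by
  obtain ⟨l, hl⟩ := base_left
  obtain ⟨l', hl'⟩ := base_right
  refine ⟨?_, symSL 3 e₀ * K, l, l', hl, hl'⟩
  have h := congrArg (symSL 3) hex_rel
  unfold SurfRel
  simpa only [map_mul, map_inv, map_one] using h

end Pool.Agent.LibHit3
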