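import Pool.Agent.LibHit3.A_Minor

set_option autoImplicit false

noncomputable section

open Matrix
open scoped MatrixGroups

namespace Pool.Agent.LibHit3

lemma bd3_direct {a h Q ε : ℝ} (hQ : 1 ≤ Q) (hε : 0 < ε) (hh : 0 < h) (ha : ε ≤ a)
    (hah : a * h ≤ Q) : h ≤ 2 * Q ^ 3 / ε := by
  rw [le_div_iff₀ hε]
  have h1 : h * ε ≤ Q := by nlinarith
  have h2 : Q ≤ 2 * Q ^ 3 := by nlinarith [mul_pos (show 0 < Q by linarith) (show 0 < Q by linarith), sq_nonneg (Q - 1)]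
  linarith

lemma bd3_indirect {a b c g' h Q ε d : ℝ} (hQ : 1 ≤ Q) (hε : 0 < ε) (hh : 0 < h) (ha : ε ≤ a)
    (hb : 0 < b) (hbQ : 1 ≤ Q * b) (hid : g' + d * c = a * b) (hg : g' * h ≤ Q) (hc : c * h ≤ Q)
    (hd : d ≤ Q) (hc0 : 0 < c) : h ≤ 2 * Q ^ 3 / ε := by
  rw [le_div_iff₀ hε]
  have h1 : a * b * h ≤ Q + Q * Q := by
    rw [← hid]
    have : d * (c * h) ≤ Q * Q := mul_le_mul hd hc (by positivity) (by linarith)
    nlinarith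
  have h2 : ε * b * h ≤ a * b * h := by
    have : 0 ≤ b * h := by positivity
    nlinarith
  have h3 : h * ε ≤ Q * (ε * b * h) := by
    have : 0 ≤ ε * h := by positivity
    nlinarith
  have hQ0 : 0 < Q := by linarith
  have h4 : Q * (ε * b * h) ≤ Q * (Q + Q * Q) := mul_le_mul_of_nonneg_left (h2.trans h1) hQ0.le
  have h5 : Q * (Q + Q * Q) ≤ 2 * Q ^ 3 := by
    have : Q * Q * 1 ≤ Q * Q * Q := mul_le_mul_of_nonneg_left hQ (by positivity)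
    nlinarith
  linarith

/-- Task A10. Transfer of bounds from `G` to `H`. If `ab G 0 1 ≥ ε` then
`ab G 0 1 * ab H 1 0 ≤ Q` bounds `ab H 1 0`, and
`(ab G⁻¹ 2 1 + ab G 0 0 * ab G 2 1) * ab H 1 2 = ab G 0 1 * ab G 2 0 * ab H 1 2` with
`ab G⁻¹ 2 1 * ab H 1 2 ≤ Q`, `ab G 2 1 * ab H 1 2 ≤ Q` bounds `ab H 1 2`. If `ab G 2 1 ≥ ε`,
use in the same way `ab G⁻¹ 0 1 + ab G 0 1 * ab G 2 2 = ab G 0 2 * ab G 2 1`. The other two
entries of `H` come from the middle row of `G`. -/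
theorem transfer {G H : SL3} (hG : Col2 G) (hH : Row2 H) {Q ε : ℝ} (hQ : 1 ≤ Q) (hε : 0 < ε)
    (t1 : (G * H).1.trace ≤ Q) (t2 : (G⁻¹ * H).1.trace ≤ Q)
    (d0 : ab G 0 0 ≤ Q) (d2 : ab G 2 2 ≤ Q) (c1 : 1 ≤ Q * ab G 0 2) (c2 : 1 ≤ Q * ab G 2 0)
    (m1 : ε ≤ max (ab G 0 1) (ab G 2 1)) (m2 : ε ≤ max (ab G 1 0) (ab G 1 2)) :
    ab H 1 0 ≤ 2 * Q ^ 3 / ε ∧ ab H 1 2 ≤ 2 * Q ^ 3 / ε ∧ ab H 0 1 ≤ 2 * Q ^ 3 / ε ∧
      ab H 2 1 ≤ 2 * Q ^ 3 / ε := by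
  have cr : ∀ i j, ab G i j * ab H j i ≤ Q := fun i j => (cross hG.1 hH.1 i j).trans t1
  have cr' : ∀ i j, ab G⁻¹ i j * ab H j i ≤ Q := fun i j => (cross hG.2 hH.1 i j).trans t2
  have pG := ab_pos hG
  have pH := ab_pos' hH
  obtain ⟨-, -, -, -, -, k21, k01, k10, k12⟩ := minors hG
  have first : ab H 1 0 ≤ 2 * Q ^ 3 / ε ∧ ab H 1 2 ≤ 2 * Q ^ 3 / ε := by
    rcases le_max_iff.mp m1 with h | h
    · refine ⟨bd3_direct hQ hε (pH 1 0) h (cr 0 1), ?_⟩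
      exact bd3_indirect hQ hε (pH 1 2) h (pG 2 0) c2 k21 (cr' 2 1) (cr 2 1) d0
        (pG 2 1)
    · refine ⟨?_, bd3_direct hQ hε (pH 1 2) h (cr 2 1)⟩
      refine bd3_indirect (g' := ab G⁻¹ 0 1) (c := ab G 0 1) (d := ab G 2 2) hQ hε (pH 1 0) h
        (pG 0 2) c1 ?_ (cr' 0 1) (cr 0 1) d2 (pG 0 1)
      linarith [k01, mul_comm (ab G 2 2) (ab G 0 1), mul_comm (ab G 2 1) (ab G 0 2)]
  have second : ab H 0 1 ≤ 2 * Q ^ 3 / ε ∧ ab H 2 1 ≤ 2 * Q ^ 3 / ε := by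
    rcases le_max_iff.mp m2 with h | h
    · refine ⟨bd3_direct hQ hε (pH 0 1) h (cr 1 0), ?_⟩
      refine bd3_indirect (g' := ab G⁻¹ 1 2) (c := ab G 1 2) (d := ab G 0 0) hQ hε (pH 2 1) h
        (pG 0 2) c1 ?_ (cr' 1 2) (cr 1 2) d0 (pG 1 2)
      linarith [k12, mul_comm (ab G 1 0) (ab G 0 2)]
    · refine ⟨?_, bd3_direct hQ hε (pH 2 1) h (cr 1 2)⟩
      refine bd3_indirect (g' := ab G⁻¹ 1 0) (c := ab G 1 0) (d := ab G 2 2) hQ hε (pH 0 1) h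
        (pG 2 0) c2 ?_ (cr' 1 0) (cr 1 0) d2 (pG 1 0)
      linarith [k10, mul_comm (ab G 2 2) (ab G 1 0)]
  exact ⟨first.1, first.2, second.1, second.2⟩

lemma ab_transpose (M : SL3) (i j : Fin 3) : ab (SpecialLinearGroup.transpose M) i j = ab M j i := rfl

/-- The transposed statement. -/
theorem transfer' {G H : SL3} (hG : Col2 G) (hH : Row2 H) {Q ε : ℝ} (hQ : 1 ≤ Q) (hε : 0 < ε)
    (t1 : (G * H).1.trace ≤ Q) (t2 : (G * H⁻¹).1.trace ≤ Q)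
    (d0 : ab H 0 0 ≤ Q) (d2 : ab H 2 2 ≤ Q) (c1 : 1 ≤ Q * ab H 0 2) (c2 : 1 ≤ Q * ab H 2 0)
    (m1 : ε ≤ max (ab H 0 1) (ab H 2 1)) (m2 : ε ≤ max (ab H 1 0) (ab H 1 2)) :
    ab G 1 0 ≤ 2 * Q ^ 3 / ε ∧ ab G 1 2 ≤ 2 * Q ^ 3 / ε ∧ ab G 0 1 ≤ 2 * Q ^ 3 / ε ∧
      ab G 2 1 ≤ 2 * Q ^ 3 / ε := by
  have hinv : (SpecialLinearGroup.transpose H)⁻¹ = SpecialLinearGroup.transpose H⁻¹ := by
    refine inv_eq_of_mul_eq_one_left ?_
    ext i j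
    have e : (SpecialLinearGroup.transpose H⁻¹ * SpecialLinearGroup.transpose H).1 =
        (H⁻¹).1ᵀ * H.1ᵀ := rfl
    have e2 : (H⁻¹).1ᵀ * H.1ᵀ = (H.1 * (H⁻¹).1)ᵀ := (Matrix.transpose_mul _ _).symm
    have e3 : H.1 * (H⁻¹).1 = 1 := congrArg Subtype.val (mul_inv_cancel H)
    show (SpecialLinearGroup.transpose H⁻¹ * SpecialLinearGroup.transpose H).1 i j = (1 : M3) i j
    rw [e, e2, e3, Matrix.transpose_one]
  have t1' : (SpecialLinearGroup.transpose H * SpecialLinearGroup.transpose G).1.trace ≤ Q := by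
    have e : (SpecialLinearGroup.transpose H * SpecialLinearGroup.transpose G).1 = H.1ᵀ * G.1ᵀ := rfl
    rw [e, ← Matrix.transpose_mul, Matrix.trace_transpose]
    exact t1
  have t2' : ((SpecialLinearGroup.transpose H)⁻¹ * SpecialLinearGroup.transpose G).1.trace ≤ Q := by
    rw [hinv]
    have e : (SpecialLinearGroup.transpose H⁻¹ * SpecialLinearGroup.transpose G).1 =
      (H⁻¹).1ᵀ * G.1ᵀ := rfl
    rw [e, ← Matrix.transpose_mul, Matrix.trace_transpose]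
    exact t2
  obtain ⟨r1, r2, r3, r4⟩ := transfer hH.transpose hG.transpose hQ hε t1' t2' d0 d2 c2 c1 m2 m1
  exact ⟨r3, r4, r1, r2⟩

end Pool.Agent.LibHit3
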