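import Pool.Agent.LibHit3.A_Bd2
import Pool.Agent.LibHit3.A_Bd3

set_option autoImplicit false

noncomputable section

open Matrix
open scoped MatrixGroups

namespace Pool.Agent.LibHit3

/-- The middle products of a matrix with bounded corners, middle entry and diagonal. -/
lemma bd_products {M : SL3} {Q : ℝ} (hQ : 1 ≤ Q) (h : Col2 M) (h2 : ColPat (M * M).1)
    (c1 : ab M 0 2 ≤ Q) (c2 : ab M 2 0 ≤ Q) (c3 : ab M 1 1 ≤ Q) (d0 : ab M 0 0 ≤ Q)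
    (d2 : ab M 2 2 ≤ Q) (c4 : 1 ≤ Q * ab M 1 1) :
    max (ab M 0 1) (ab M 2 1) * max (ab M 1 0) (ab M 1 2) ≤ 2 * Q ^ 2 ∧
      1 ≤ 2 * Q ^ 2 * (max (ab M 0 1) (ab M 2 1) * max (ab M 1 0) (ab M 1 2)) := by
  have nn : ∀ i j, 0 ≤ ab M i j := fun i j => abs_nonneg _
  have nn' : ∀ i j, 0 ≤ ab M⁻¹ i j := fun i j => abs_nonneg _
  obtain ⟨s1, s2, s3⟩ := square_ineq h h2
  obtain ⟨m1, m2, -⟩ := minors h
  have p1 : ab M 0 2 * ab M 2 0 ≤ Q ^ 2 := by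
    rw [pow_two]; exact mul_le_mul c1 c2 (nn _ _) (by linarith)
  have p2 : ab M 0 2 * ab M 1 1 ≤ Q ^ 2 := by
    rw [pow_two]; exact mul_le_mul c1 c3 (nn _ _) (by linarith)
  have p3 : ab M 2 0 * ab M 1 1 ≤ Q ^ 2 := by
    rw [pow_two]; exact mul_le_mul c2 c3 (nn _ _) (by linarith)
  have p4 : ab M 0 0 ^ 2 ≤ Q ^ 2 := pow_le_pow_left₀ (nn _ _) d0 2
  have p5 : ab M 2 2 ^ 2 ≤ Q ^ 2 := pow_le_pow_left₀ (nn _ _) d2 2
  have q1 : ab M 0 1 * ab M 1 0 ≤ 2 * Q ^ 2 := by linarith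
  have q2 : ab M 2 1 * ab M 1 2 ≤ 2 * Q ^ 2 := by nlinarith
  have q3 : ab M 0 1 * ab M 1 2 ≤ 2 * Q ^ 2 := by nlinarith [nn' 0 2, sq_nonneg Q]
  have q4 : ab M 2 1 * ab M 1 0 ≤ 2 * Q ^ 2 := by nlinarith [nn' 2 0, sq_nonneg Q]
  constructor
  · rcases max_choice (ab M 0 1) (ab M 2 1) with e | e <;>
      rcases max_choice (ab M 1 0) (ab M 1 2) with e' | e' <;> rw [e, e'] <;> assumption
  · set P := max (ab M 0 1) (ab M 2 1) * max (ab M 1 0) (ab M 1 2) with hP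
    have hQ2 : 0 ≤ Q ^ 2 := by positivity
    have r1 : ab M 1 0 * ab M 0 1 ≤ P := by
      rw [hP, mul_comm]
      exact mul_le_mul (le_max_left _ _) (le_max_left _ _) (nn _ _)
        (le_trans (nn 0 1) (le_max_left _ _))
    have r2 : ab M 1 2 * ab M 2 1 ≤ P := by
      rw [hP, mul_comm]
      exact mul_le_mul (le_max_right _ _) (le_max_right _ _) (nn _ _)
        (le_trans (nn 0 1) (le_max_left _ _))
    have r3 : ab M 1 1 ^ 2 ≤ 2 * P := by linarith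
    calc (1 : ℝ) ≤ (Q * ab M 1 1) ^ 2 := one_le_pow₀ c4
      _ = Q ^ 2 * ab M 1 1 ^ 2 := by ring
      _ ≤ Q ^ 2 * (2 * P) := by gcongr
      _ = 2 * Q ^ 2 * P := by ring

/-- All entries are bounded once the corners, the middle entry, the diagonal and the four
middle entries are. -/
lemma bd_all {M : SL3} {S : ℝ} (h1 : ab M 0 0 ≤ S) (h2 : ab M 0 1 ≤ S) (h3 : ab M 0 2 ≤ S)
    (h4 : ab M 1 0 ≤ S) (h5 : ab M 1 1 ≤ S) (h6 : ab M 1 2 ≤ S) (h7 : ab M 2 0 ≤ S)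
    (h8 : ab M 2 1 ≤ S) (h9 : ab M 2 2 ≤ S) (i j : Fin 3) : ab M i j ≤ S := by
  fin_cases i <;> fin_cases j <;> assumption

/-- The normalized case. -/
lemma bounded_aux {R Q ε S₁ ε' S₂ : ℝ} (hQ : Q = 2 * R ^ 20) (hε : ε = 1 / (2 * Q))
    (hS₁ : S₁ = 2 * Q ^ 3 / ε) (hε' : ε' = 1 / (2 * Q ^ 2 * S₁)) (hS₂ : S₂ = 2 * Q ^ 3 / ε')
    {A B C D : SL3} (h : PatData A B C D R) (n1 : Norm1 A) (n2 : Norm2 A) (i j : Fin 3) :
    ab A i j ≤ max (2 * Q) (max S₁ S₂) ∧ ab B i j ≤ max (2 * Q) (max S₁ S₂) ∧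
      ab C i j ≤ max (2 * Q) (max S₁ S₂) ∧ ab D i j ≤ max (2 * Q) (max S₁ S₂) := by
  have hR := h.R1
  have hR20 : 1 ≤ R ^ 20 := one_le_pow₀ hR
  have hQ1 : 1 ≤ Q := by linarith
  have hQ0 : 0 < Q := by linarith
  have hRQ : R ≤ Q := by
    have : R ^ 1 ≤ R ^ 20 := pow_le_pow_right₀ hR (by norm_num)
    linarith
  have hRQ' : R ^ 20 ≤ Q := by linarith
  have nn : ∀ (M : SL3) (i j : Fin 3), 0 ≤ ab M i j := fun M i j => abs_nonneg _
  have scale : ∀ x : ℝ, 0 ≤ x → 1 ≤ R ^ 20 * x → 1 ≤ Q * x := by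
    intro x hx h1
    have : R ^ 20 * x ≤ Q * x := by gcongr
    linarith
  obtain ⟨a1, a2, a3, a4, a5, a6, a7, a8⟩ := bd_corners h n1 A (by simp)
  obtain ⟨b1, b2, b3, b4, b5, b6, b7, b8⟩ := bd_corners h n1 B (by simp)
  obtain ⟨c1, c2, c3, c4, c5, c6, c7, c8⟩ := bd_corners h n1 C (by simp)
  obtain ⟨d1, d2, d3, d4, d5, d6, d7, d8⟩ := bd_corners h n1 D (by simp)
  rw [← hQ] at a7 a8 b7 b8 c7 c8 d7 d8
  -- the number `n`
  obtain ⟨p1, p2⟩ := bd_products hQ1 h.a h.aa (a1.trans hRQ') (a2.trans hRQ') (a3.trans hRQ')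
    a7 a8 (scale _ (nn _ _ _) a6)
  unfold Norm2 at n2
  rw [← n2] at p1 p2
  obtain ⟨n, hn⟩ : ∃ n, n = max (ab A 0 1) (ab A 2 1) := ⟨_, rfl⟩
  rw [← hn] at p1 p2 n2
  have hn0 : 0 ≤ n := by rw [hn]; exact le_trans (nn A 0 1) (le_max_left _ _)
  have hn1 : n ≤ 2 * Q := by
    refine le_of_pow_le_pow_left₀ (n := 2) (by norm_num) (by positivity) ?_
    nlinarith
  have hε0 : 0 < ε := by rw [hε]; positivity
  have hn2 : ε ≤ n := by
    rw [hε, div_le_iff₀ (by positivity)]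
    by_contra hlt
    rw [not_le] at hlt
    have h3 : n * (2 * Q) * (n * (2 * Q)) < 1 * 1 :=
      mul_lt_mul'' hlt hlt (by positivity) (by positivity)
    nlinarith
  have tX : ∀ g ∈ ({A, A⁻¹, B, B⁻¹} : Set SL3), ∀ k ∈ ({C, C⁻¹, D, D⁻¹} : Set SL3),
      (g * k).1.trace ≤ Q := fun g hg k hk => (h.trX g hg k hk).trans hRQ
  -- transfer to `C`
  obtain ⟨u1, u2, u3, u4⟩ := transfer h.a h.c hQ1 hε0 (tX _ (by simp) _ (by simp))
    (tX _ (by simp) _ (by simp)) a7 a8 (scale _ (nn _ _ _) a4) (scale _ (nn _ _ _) a5)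
    (hn ▸ hn2) (n2 ▸ hn2)
  obtain ⟨v1, v2, v3, v4⟩ := transfer h.a h.d hQ1 hε0 (tX _ (by simp) _ (by simp))
    (tX _ (by simp) _ (by simp)) a7 a8 (scale _ (nn _ _ _) a4) (scale _ (nn _ _ _) a5)
    (hn ▸ hn2) (n2 ▸ hn2)
  rw [← hS₁] at u1 u2 u3 u4 v1 v2 v3 v4
  have hS₁0 : 0 < S₁ := by rw [hS₁]; positivity
  -- lower bounds for the middle entries of `C`
  have hcc : ColPat (SpecialLinearGroup.transpose C * SpecialLinearGroup.transpose C).1 := by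
    intro i j
    have e : (SpecialLinearGroup.transpose C * SpecialLinearGroup.transpose C).1 i j =
        (C * C).1 j i := by
      change ((C.1)ᵀ * (C.1)ᵀ) i j = (C.1 * C.1) j i
      rw [← Matrix.transpose_mul, Matrix.transpose_apply]
    rw [e]
    exact h.cc j i
  obtain ⟨-, q2⟩ := bd_products (M := SpecialLinearGroup.transpose C) hQ1 h.c.transpose hcc
    (c2.trans hRQ') (c1.trans hRQ') (c3.trans hRQ') c7 c8 (scale _ (nn _ _ _) c6)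
  simp only [bd2_ab_transpose] at q2
  obtain ⟨x, hx⟩ : ∃ x, x = max (ab C 1 0) (ab C 1 2) := ⟨_, rfl⟩
  obtain ⟨y, hy⟩ : ∃ y, y = max (ab C 0 1) (ab C 2 1) := ⟨_, rfl⟩
  rw [← hx, ← hy] at q2
  have hx0 : 0 ≤ x := by rw [hx]; exact le_trans (nn C 1 0) (le_max_left _ _)
  have hy0 : 0 ≤ y := by rw [hy]; exact le_trans (nn C 0 1) (le_max_left _ _)
  have hxS : x ≤ S₁ := by rw [hx]; exact max_le u1 u2
  have hyS : y ≤ S₁ := by rw [hy]; exact max_le u3 u4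
  have hε'0 : 0 < ε' := by rw [hε']; positivity
  have hxl : ε' ≤ x := by
    rw [hε', div_le_iff₀ (by positivity)]
    calc (1 : ℝ) ≤ _ := q2
      _ ≤ 2 * Q ^ 2 * (x * S₁) := by gcongr
      _ = _ := by ring
  have hyl : ε' ≤ y := by
    rw [hε', div_le_iff₀ (by positivity)]
    calc (1 : ℝ) ≤ _ := q2
      _ ≤ 2 * Q ^ 2 * (S₁ * y) := by gcongr
      _ = _ := by ring
  obtain ⟨w1, w2, w3, w4⟩ := transfer' h.b h.c hQ1 hε'0 (tX _ (by simp) _ (by simp))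
    (tX _ (by simp) _ (by simp)) c7 c8 (scale _ (nn _ _ _) c4) (scale _ (nn _ _ _) c5)
    (hy ▸ hyl) (hx ▸ hxl)
  rw [← hS₂] at w1 w2 w3 w4
  have s0 : 2 * Q ≤ max (2 * Q) (max S₁ S₂) := le_max_left _ _
  have s1 : S₁ ≤ max (2 * Q) (max S₁ S₂) := le_trans (le_max_left _ _) (le_max_right _ _)
  have s2 : S₂ ≤ max (2 * Q) (max S₁ S₂) := le_trans (le_max_right _ _) (le_max_right _ _)
  have sQ : Q ≤ max (2 * Q) (max S₁ S₂) := by linarith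
  have sR : R ^ 20 ≤ max (2 * Q) (max S₁ S₂) := by linarith
  have k1 : ab A 0 1 ≤ n := by rw [hn]; exact le_max_left _ _
  have k2 : ab A 2 1 ≤ n := by rw [hn]; exact le_max_right _ _
  have k3 : ab A 1 0 ≤ n := by rw [n2]; exact le_max_left _ _
  have k4 : ab A 1 2 ≤ n := by rw [n2]; exact le_max_right _ _
  refine ⟨?_, ?_, ?_, ?_⟩
  · exact bd_all (a7.trans sQ) (by linarith) (a1.trans sR) (by linarith) (a3.trans sR)
      (by linarith) (a2.trans sR) (by linarith) (a8.trans sQ) i j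
  · exact bd_all (b7.trans sQ) (w3.trans s2) (b1.trans sR) (w1.trans s2) (b3.trans sR)
      (w2.trans s2) (b2.trans sR) (w4.trans s2) (b8.trans sQ) i j
  · exact bd_all (c7.trans sQ) (u3.trans s1) (c1.trans sR) (u1.trans s1) (c3.trans sR)
      (u2.trans s1) (c2.trans sR) (u4.trans s1) (c8.trans sQ) i j
  · exact bd_all (d7.trans sQ) (v3.trans s1) (d1.trans sR) (v1.trans s1) (d3.trans sR)
      (v2.trans s1) (d2.trans sR) (v4.trans s1) (d8.trans sQ) i j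


/-- Task A11. The final bound. By `exists_norm` and `PatData.conj` one may assume `Norm1 A` and
`Norm2 A`. Put `Q = 2 R ^ 20` and use `bd_corners`. The number
`n = max (ab A 0 1) (ab A 2 1) = max (ab A 1 0) (ab A 1 2)` satisfies `n² ≤ 3 Q²`: the products
`ab A 0 1 * ab A 1 2` and `ab A 2 1 * ab A 1 0` are at most `Q²` by `minors`, the products
`ab A 0 1 * ab A 1 0` and `ab A 2 1 * ab A 1 2` are at most `2 Q²` by `square_ineq`. Also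
`2 n² ≥ (ab A 1 1)² ≥ Q⁻²` by `square_ineq`. So `A` is bounded, and `transfer` bounds `C`. The same
argument for `C` (transposed `square_ineq`, `PatData.cc`): the sum of the two products is at least
`Q⁻²` and the entries are bounded, so the two maxima are bounded below; `transfer'` bounds `B`,
and `transfer` bounds `D`. -/
theorem bounded (R : ℝ) : ∃ S : ℝ, ∀ A B C D : SL3, PatData A B C D R →
    ∃ (t : Fin 3 → ℝ) (h : t 0 * t 1 * t 2 = 1), (∀ i, 0 < t i) ∧ ∀ i j,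
      ab ((dg t h)⁻¹ * A * dg t h) i j ≤ S ∧ ab ((dg t h)⁻¹ * B * dg t h) i j ≤ S ∧
      ab ((dg t h)⁻¹ * C * dg t h) i j ≤ S ∧ ab ((dg t h)⁻¹ * D * dg t h) i j ≤ S := by
  obtain ⟨Q, hQ⟩ : ∃ Q : ℝ, Q = 2 * R ^ 20 := ⟨_, rfl⟩
  obtain ⟨ε, hε⟩ : ∃ ε : ℝ, ε = 1 / (2 * Q) := ⟨_, rfl⟩
  obtain ⟨S₁, hS₁⟩ : ∃ S₁ : ℝ, S₁ = 2 * Q ^ 3 / ε := ⟨_, rfl⟩
  obtain ⟨ε', hε'⟩ : ∃ ε' : ℝ, ε' = 1 / (2 * Q ^ 2 * S₁) := ⟨_, rfl⟩
  obtain ⟨S₂, hS₂⟩ : ∃ S₂ : ℝ, S₂ = 2 * Q ^ 3 / ε' := ⟨_, rfl⟩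
  refine ⟨max (2 * Q) (max S₁ S₂), fun A B C D h₀ => ?_⟩
  obtain ⟨t, ht1, ht0, n1, n2⟩ := exists_norm A (fun i j => ab_pos h₀.a i j)
  exact ⟨t, ht1, ht0, fun i j => bounded_aux hQ hε hS₁ hε' hS₂ (h₀.conj ht0 ht1) n1 n2 i j⟩

end Pool.Agent.LibHit3
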