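import Pool.Agent.LibHit3.A_Minor

set_option autoImplicit false

noncomputable section

open Matrix
open scoped MatrixGroups

namespace Pool.Agent.LibHit3

/-! Tasks A08 to A11: bounds for the entries after a suitable diagonal conjugation. -/

/-- The data for the bounds: `A, B` have the column pattern, `C, D` the row pattern, and all
traces in question are at most `R`. -/
structure PatData (A B C D : SL3) (R : ℝ) : Prop where
  R1 : 1 ≤ R
  a : Col2 A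
  b : Col2 B
  c : Row2 C
  d : Row2 D
  aa : ColPat (A * A).1
  cc : RowPat (C * C).1
  trG : ∀ g ∈ ({A, A⁻¹, B, B⁻¹} : Set SL3), g.1.trace ≤ R
  trH : ∀ h ∈ ({C, C⁻¹, D, D⁻¹} : Set SL3), h.1.trace ≤ R
  trX : ∀ g ∈ ({A, A⁻¹, B, B⁻¹} : Set SL3), ∀ h ∈ ({C, C⁻¹, D, D⁻¹} : Set SL3),
    (g * h).1.trace ≤ R

/-- First normalization. -/
def Norm1 (A : SL3) : Prop := ab A 0 2 = ab A 2 0

/-- Second normalization. -/
def Norm2 (A : SL3) : Prop := max (ab A 0 1) (ab A 2 1) = max (ab A 1 0) (ab A 1 2)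

/-- The positive diagonal matrices of determinant one. -/
def dg (t : Fin 3 → ℝ) (h : t 0 * t 1 * t 2 = 1) : SL3 :=
  ⟨Matrix.diagonal t, by rw [Matrix.det_diagonal, Fin.prod_univ_three, h]⟩

private lemma Bd1_inv {t : Fin 3 → ℝ} (ht : ∀ i, 0 < t i) (h : t 0 * t 1 * t 2 = 1) :
    ((dg t h)⁻¹).1 = Matrix.diagonal fun i => (t i)⁻¹ := by
  have h1 : (t 0)⁻¹ * (t 1)⁻¹ * (t 2)⁻¹ = 1 := by
    rw [← mul_inv, ← mul_inv, h, inv_one]
  have h2 : dg t h * dg (fun i => (t i)⁻¹) h1 = 1 := by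
    apply Subtype.ext
    change Matrix.diagonal t * Matrix.diagonal (fun i => (t i)⁻¹) = (1 : M3)
    rw [Matrix.diagonal_mul_diagonal, ← Matrix.diagonal_one]
    congr 1
    funext i
    exact mul_inv_cancel₀ (ht i).ne'
  rw [inv_eq_of_mul_eq_one_right h2]
  rfl

private lemma Bd1_entry {t : Fin 3 → ℝ} (ht : ∀ i, 0 < t i) (h : t 0 * t 1 * t 2 = 1) (M : SL3)
    (i j : Fin 3) : ((dg t h)⁻¹ * M * dg t h).1 i j = (t i)⁻¹ * M.1 i j * t j := by
  change (((dg t h)⁻¹).1 * M.1 * Matrix.diagonal t) i j = _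
  rw [Bd1_inv ht h, Matrix.mul_diagonal, Matrix.diagonal_mul]

lemma ab_dg {t : Fin 3 → ℝ} (ht : ∀ i, 0 < t i) (h : t 0 * t 1 * t 2 = 1) (M : SL3)
    (i j : Fin 3) : ab ((dg t h)⁻¹ * M * dg t h) i j = ab M i j * (t j / t i) := by
  unfold ab
  rw [Bd1_entry ht h, abs_mul, abs_mul, abs_of_pos (inv_pos.2 (ht i)), abs_of_pos (ht j),
    div_eq_mul_inv]
  ring

private lemma Bd1_trace {t : Fin 3 → ℝ} (ht : ∀ i, 0 < t i) (h : t 0 * t 1 * t 2 = 1) (M : SL3) :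
    ((dg t h)⁻¹ * M * dg t h).1.trace = M.1.trace := by
  unfold Matrix.trace
  refine Finset.sum_congr rfl fun i _ => ?_
  rw [Matrix.diag_apply, Matrix.diag_apply, Bd1_entry ht h, mul_right_comm,
    inv_mul_cancel₀ (ht i).ne', one_mul]

private lemma Bd1_col {t : Fin 3 → ℝ} (ht : ∀ i, 0 < t i) (h : t 0 * t 1 * t 2 = 1) {M : SL3}
    (hM : ColPat M.1) : ColPat ((dg t h)⁻¹ * M * dg t h).1 := by
  intro i j
  rw [Bd1_entry ht h]
  have h1 : sg j * ((t i)⁻¹ * M.1 i j * t j) = (t i)⁻¹ * t j * (sg j * M.1 i j) := by ring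
  rw [h1]
  exact mul_pos (mul_pos (inv_pos.2 (ht i)) (ht j)) (hM i j)

private lemma Bd1_row {t : Fin 3 → ℝ} (ht : ∀ i, 0 < t i) (h : t 0 * t 1 * t 2 = 1) {M : SL3}
    (hM : RowPat M.1) : RowPat ((dg t h)⁻¹ * M * dg t h).1 := by
  intro i j
  rw [Bd1_entry ht h]
  have h1 : sg i * ((t i)⁻¹ * M.1 i j * t j) = (t i)⁻¹ * t j * (sg i * M.1 i j) := by ring
  rw [h1]
  exact mul_pos (mul_pos (inv_pos.2 (ht i)) (ht j)) (hM i j)

private lemma Bd1_cinv (g M : SL3) : (g⁻¹ * M * g)⁻¹ = g⁻¹ * M⁻¹ * g := by group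

private lemma Bd1_cmul (g M N : SL3) : (g⁻¹ * M * g) * (g⁻¹ * N * g) = g⁻¹ * (M * N) * g := by
  group

private lemma Bd1_col2 {t : Fin 3 → ℝ} (ht : ∀ i, 0 < t i) (h : t 0 * t 1 * t 2 = 1) {M : SL3}
    (hM : Col2 M) : Col2 ((dg t h)⁻¹ * M * dg t h) := by
  refine ⟨Bd1_col ht h hM.1, ?_⟩
  rw [Bd1_cinv]
  exact Bd1_col ht h hM.2

private lemma Bd1_row2 {t : Fin 3 → ℝ} (ht : ∀ i, 0 < t i) (h : t 0 * t 1 * t 2 = 1) {M : SL3}
    (hM : Row2 M) : Row2 ((dg t h)⁻¹ * M * dg t h) := by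
  refine ⟨Bd1_row ht h hM.1, ?_⟩
  rw [Bd1_cinv]
  exact Bd1_row ht h hM.2

private lemma Bd1_mem {g A B x : SL3}
    (hx : x ∈ ({g⁻¹ * A * g, (g⁻¹ * A * g)⁻¹, g⁻¹ * B * g, (g⁻¹ * B * g)⁻¹} : Set SL3)) :
    ∃ x' ∈ ({A, A⁻¹, B, B⁻¹} : Set SL3), x = g⁻¹ * x' * g := by
  simp only [Set.mem_insert_iff, Set.mem_singleton_iff] at hx
  rcases hx with h | h | h | h
  · exact ⟨A, by simp, h⟩
  · exact ⟨A⁻¹, by simp, by rw [h, Bd1_cinv]⟩
  · exact ⟨B, by simp, h⟩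
  · exact ⟨B⁻¹, by simp, by rw [h, Bd1_cinv]⟩

/-- The data are invariant under conjugation by positive diagonal matrices. -/
lemma PatData.conj {A B C D : SL3} {R : ℝ} (hd : PatData A B C D R) {t : Fin 3 → ℝ}
    (ht : ∀ i, 0 < t i) (h : t 0 * t 1 * t 2 = 1) :
    PatData ((dg t h)⁻¹ * A * dg t h) ((dg t h)⁻¹ * B * dg t h) ((dg t h)⁻¹ * C * dg t h)
      ((dg t h)⁻¹ * D * dg t h) R where
  R1 := hd.R1
  a := Bd1_col2 ht h hd.a
  b := Bd1_col2 ht h hd.b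
  c := Bd1_row2 ht h hd.c
  d := Bd1_row2 ht h hd.d
  aa := by
    rw [Bd1_cmul]
    exact Bd1_col ht h hd.aa
  cc := by
    rw [Bd1_cmul]
    exact Bd1_row ht h hd.cc
  trG := by
    intro g hg
    obtain ⟨g', hg', rfl⟩ := Bd1_mem hg
    rw [Bd1_trace ht h]
    exact hd.trG g' hg'
  trH := by
    intro g hg
    obtain ⟨g', hg', rfl⟩ := Bd1_mem hg
    rw [Bd1_trace ht h]
    exact hd.trH g' hg'
  trX := by
    intro g hg k hk
    obtain ⟨g', hg', rfl⟩ := Bd1_mem hg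
    obtain ⟨k', hk', rfl⟩ := Bd1_mem hk
    rw [Bd1_cmul, Bd1_trace ht h]
    exact hd.trX g' hg' k' hk'

/-- Normalization is possible. `(t 0 / t 2) ^ 2 = ab A 0 2 / ab A 2 0` gives `Norm1`; with
`t 0, t 2` fixed up to a common factor, `t 1 ^ 2 * max (ab A 0 1 / t 0) (ab A 2 1 / t 2) =
max (ab A 1 0 * t 0) (ab A 1 2 * t 2)` gives `Norm2`; finally divide all three by the cube root
of the product. -/
lemma exists_norm (A : SL3) (hA : ∀ i j, 0 < ab A i j) :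
    ∃ (t : Fin 3 → ℝ) (h : t 0 * t 1 * t 2 = 1), (∀ i, 0 < t i) ∧
      Norm1 ((dg t h)⁻¹ * A * dg t h) ∧ Norm2 ((dg t h)⁻¹ * A * dg t h) := by
  set u0 : ℝ := Real.sqrt (ab A 0 2) with hu0
  set u2 : ℝ := Real.sqrt (ab A 2 0) with hu2
  have p0 : 0 < u0 := Real.sqrt_pos.2 (hA 0 2)
  have p2 : 0 < u2 := Real.sqrt_pos.2 (hA 2 0)
  have s0 : ab A 0 2 = u0 * u0 := (Real.mul_self_sqrt (hA 0 2).le).symm
  have s2 : ab A 2 0 = u2 * u2 := (Real.mul_self_sqrt (hA 2 0).le).symm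
  set p : ℝ := max (ab A 0 1 / u0) (ab A 2 1 / u2) with hp
  set q : ℝ := max (ab A 1 0 * u0) (ab A 1 2 * u2) with hq
  have hp0 : 0 < p := lt_max_of_lt_left (div_pos (hA 0 1) p0)
  have hq0 : 0 < q := lt_max_of_lt_left (mul_pos (hA 1 0) p0)
  set u1 : ℝ := Real.sqrt (q / p) with hu1
  have p1 : 0 < u1 := Real.sqrt_pos.2 (div_pos hq0 hp0)
  have s1 : u1 * u1 = q / p := Real.mul_self_sqrt (div_pos hq0 hp0).le
  set c : ℝ := (u0 * u1 * u2) ^ ((1 : ℝ) / 3) with hc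
  have hc0 : 0 < c := Real.rpow_pos_of_pos (mul_pos (mul_pos p0 p1) p2) _
  have hc3 : c * c * c = u0 * u1 * u2 := by
    have h1 : c ^ (3 : ℕ) = u0 * u1 * u2 := by
      rw [hc, ← Real.rpow_natCast, ← Real.rpow_mul (mul_pos (mul_pos p0 p1) p2).le]
      norm_num
    rw [← h1]
    ring
  have hu : ∀ i : Fin 3, 0 < (![u0, u1, u2] : Fin 3 → ℝ) i := by
    intro i
    fin_cases i
    · exact p0
    · exact p1
    · exact p2
  have ht : ∀ i : Fin 3, 0 < (fun i => (![u0, u1, u2] : Fin 3 → ℝ) i / c) i := fun i =>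
    div_pos (hu i) hc0
  have h : (fun i => (![u0, u1, u2] : Fin 3 → ℝ) i / c) 0 *
      (fun i => (![u0, u1, u2] : Fin 3 → ℝ) i / c) 1 *
      (fun i => (![u0, u1, u2] : Fin 3 → ℝ) i / c) 2 = 1 := by
    change u0 / c * (u1 / c) * (u2 / c) = 1
    rw [div_mul_div_comm, div_mul_div_comm, hc3]
    exact div_self (mul_pos (mul_pos p0 p1) p2).ne'
  have e : ∀ a b : ℝ, a / c / (b / c) = a / b := fun a b => div_div_div_cancel_right₀ hc0.ne' a b
  refine ⟨fun i => (![u0, u1, u2] : Fin 3 → ℝ) i / c, h, ht, ?_, ?_⟩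
  · unfold Norm1
    rw [ab_dg ht h, ab_dg ht h]
    change ab A 0 2 * (u2 / c / (u0 / c)) = ab A 2 0 * (u0 / c / (u2 / c))
    rw [e, e, s0, s2]
    field_simp
  · unfold Norm2
    rw [ab_dg ht h, ab_dg ht h, ab_dg ht h, ab_dg ht h]
    change max (ab A 0 1 * (u1 / c / (u0 / c))) (ab A 2 1 * (u1 / c / (u2 / c))) =
      max (ab A 1 0 * (u0 / c / (u1 / c))) (ab A 1 2 * (u2 / c / (u1 / c)))
    rw [e, e, e, e]
    have h1 : max (ab A 0 1 * (u1 / u0)) (ab A 2 1 * (u1 / u2)) = u1 * p := by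
      rw [hp, mul_max_of_nonneg _ _ p1.le]
      congr 1
      · ring
      · ring
    have h2 : max (ab A 1 0 * (u0 / u1)) (ab A 1 2 * (u2 / u1)) = u1⁻¹ * q := by
      rw [hq, mul_max_of_nonneg _ _ (inv_pos.2 p1).le]
      congr 1
      · ring
      · ring
    rw [h1, h2]
    have h3 : u1 * u1 * p = q := by
      rw [s1]
      exact div_mul_cancel₀ q hp0.ne'
    rw [← h3]
    field_simp

end Pool.Agent.LibHit3
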