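import Pool.Agent.LibHit3.A_Bd1

set_option autoImplicit false

noncomputable section

open Matrix
open scoped MatrixGroups

namespace Pool.Agent.LibHit3

lemma bd2_ab_transpose (M : SL3) (i j : Fin 3) :
    ab (SpecialLinearGroup.transpose M) i j = ab M j i := rfl

lemma bd2_transpose_inv (M : SL3) :
    (SpecialLinearGroup.transpose M)⁻¹ = SpecialLinearGroup.transpose M⁻¹ := by
  apply Subtype.ext
  change adjugate (M.1)ᵀ = (adjugate M.1)ᵀ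
  exact (Matrix.adjugate_transpose M.1).symm

lemma bd2_ab_nonneg (M : SL3) (i j : Fin 3) : 0 ≤ ab M i j := abs_nonneg _

/-- The part of the argument which only involves real numbers. -/
lemma bd2_real {R m α α' κ κ' x y x' y' u' v' : ℝ} (hR : 1 ≤ R) (hm : 0 < m) (hα : 0 < α)
    (hα' : 0 < α') (hκ : 0 < κ) (hκ' : 0 < κ') (hx : 0 < x) (hy : 0 < y) (hx' : 0 < x')
    (hy' : 0 < y') (hu' : 0 < u') (hv' : 0 < v')
    (pA : 1 ≤ m * α * m) (pC : 1 ≤ x * κ * y) (pA' : 1 ≤ u' * α' * v') (pC' : 1 ≤ x' * κ' * y')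
    (c1 : m * y ≤ R) (c2 : m * x ≤ R) (c3 : α * κ ≤ R) (c4 : α' * κ ≤ R) (c5 : α * κ' ≤ R)
    (m1 : u' ≤ m * α) (m2 : v' ≤ m * α) (m3 : x' ≤ x * κ) (m4 : y' ≤ y * κ) :
    m ^ 2 * α ≤ R ^ 3 ∧ 1 ≤ R ^ 2 * (m * y) ∧ 1 ≤ R ^ 2 * (m * x) ∧ 1 ≤ R ^ 2 * (α * κ) ∧
      m ≤ R ^ 3 ∧ 1 ≤ R ^ 2 * m := by
  have hR0 : 0 < R := by linarith
  have h1 : m ^ 2 * α ≤ R ^ 3 := by
    calc m ^ 2 * α = (m ^ 2 * α) * 1 := by ring
      _ ≤ (m ^ 2 * α) * (x * κ * y) := by gcongr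
      _ = (m * y) * (m * x) * (α * κ) := by ring
      _ ≤ R * R * R := by gcongr
      _ = R ^ 3 := by ring
  have key : 1 ≤ (m * y) * (m * x) * (α * κ) := by
    calc (1 : ℝ) = 1 * 1 := by ring
      _ ≤ (m * α * m) * (x * κ * y) := by gcongr
      _ = _ := by ring
  have h2 : 1 ≤ R ^ 2 * (m * y) := by
    calc (1 : ℝ) ≤ (m * y) * (m * x) * (α * κ) := key
      _ ≤ (m * y) * R * R := by gcongr
      _ = _ := by ring
  have h3 : 1 ≤ R ^ 2 * (m * x) := by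
    calc (1 : ℝ) ≤ (m * y) * (m * x) * (α * κ) := key
      _ ≤ R * (m * x) * R := by gcongr
      _ = _ := by ring
  have h4 : 1 ≤ R ^ 2 * (α * κ) := by
    calc (1 : ℝ) ≤ (m * y) * (m * x) * (α * κ) := key
      _ ≤ R * R * (α * κ) := by gcongr
      _ = _ := by ring
  have h5 : α' ≤ R ^ 3 * α := by
    calc α' = 1 * α' := by ring
      _ ≤ (R ^ 2 * (α * κ)) * α' := by gcongr
      _ = R ^ 2 * α * (α' * κ) := by ring
      _ ≤ R ^ 2 * α * R := by gcongr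
      _ = _ := by ring
  have h6 : m ^ 4 ≤ (R ^ 3) ^ 4 := by
    have e1 : 1 ≤ (m * α) * (R ^ 3 * α) * (m * α) := by
      calc (1 : ℝ) ≤ u' * α' * v' := pA'
        _ ≤ _ := by gcongr
    calc m ^ 4 = m ^ 4 * 1 := by ring
      _ ≤ m ^ 4 * ((m * α) * (R ^ 3 * α) * (m * α)) := by gcongr
      _ = R ^ 3 * (m ^ 2 * α) ^ 3 := by ring
      _ ≤ R ^ 3 * (R ^ 3) ^ 3 := by gcongr
      _ = _ := by ring
  have h7 : m ≤ R ^ 3 := le_of_pow_le_pow_left₀ (by norm_num) (by positivity) h6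
  have h8 : κ ≤ m ^ 2 * R := by
    calc κ = 1 * κ := by ring
      _ ≤ (m * α * m) * κ := by gcongr
      _ = m ^ 2 * (α * κ) := by ring
      _ ≤ _ := by gcongr
  have h9 : κ' ≤ m ^ 2 * R := by
    calc κ' = 1 * κ' := by ring
      _ ≤ (m * α * m) * κ' := by gcongr
      _ = m ^ 2 * (α * κ') := by ring
      _ ≤ _ := by gcongr
  have h10 : (1 : ℝ) ^ 4 ≤ (R ^ 2 * m) ^ 4 := by
    calc (1 : ℝ) ^ 4 = 1 := by ring
      _ ≤ x' * κ' * y' := pC'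
      _ ≤ (x * κ) * κ' * (y * κ) := by gcongr
      _ ≤ (x * (m ^ 2 * R)) * (m ^ 2 * R) * (y * (m ^ 2 * R)) := by gcongr
      _ = (m * x) * (m * y) * m ^ 4 * R ^ 3 := by ring
      _ ≤ R * R * m ^ 4 * R ^ 3 := by gcongr
      _ = R ^ 5 * m ^ 4 := by ring
      _ ≤ R ^ 8 * m ^ 4 := by gcongr; norm_num
      _ = _ := by ring
  have h11 : 1 ≤ R ^ 2 * m := le_of_pow_le_pow_left₀ (by norm_num) (by positivity) h10
  exact ⟨h1, h2, h3, h4, h7, h11⟩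

/-- Task A09. The extreme corners, the middle and the diagonal. Put `m = ab A 0 2 = ab A 2 0`.
(`cross`, `one_le_prod`, `minors`; write `α, α', κ, κ'` for `ab A, ab A⁻¹, ab C, ab C⁻¹`; for
`C, D` apply the lemmas to the transposes.)
(a) `m² α₁₁ ≥ 1`, `κ₀₂ κ₂₀ κ₁₁ ≥ 1`, and the three factors `α₀₂ κ₂₀`, `α₂₀ κ₀₂`, `α₁₁ κ₁₁` are at
most `R` with product at least `1`: each of them is at least `R⁻²`, and `m² α₁₁ ≤ R³`.
(b) `α'₀₂ ≤ α₀₂ α₁₁ ≤ R³ / m`, `α'₂₀ ≤ R³ / m`, `α'₁₁ ≤ R / κ₁₁ ≤ R³ α₁₁ ≤ R⁶ / m²`, and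
`1 ≤ α'₀₂ α'₂₀ α'₁₁ ≤ R¹² / m⁴`, so `m ≤ R³`.
(c) `κ₀₂, κ₂₀ ≤ R / m`, `κ₁₁ ≤ R / α₁₁ ≤ R m²`, `κ'₀₂ ≤ κ₀₂ κ₁₁ ≤ R² m`, `κ'₂₀ ≤ R² m`,
`κ'₁₁ ≤ R / α₁₁ ≤ R m²`, and `1 ≤ κ'₀₂ κ'₂₀ κ'₁₁ ≤ R⁵ m⁴`, so `m ≥ R⁻²`.
(d) hence `R⁻⁶ ≤ α₁₁ ≤ R⁷`, `R⁻⁵ ≤ κ₀₂, κ₂₀ ≤ R³`, `R⁻⁹ ≤ κ₁₁ ≤ R⁷`, and for the other elements
`g02, g20 ≤ R / κ ≤ R⁶`, `g11 ≤ R / κ₁₁ ≤ R¹⁰`, `h02, h20 ≤ R³`, `h11 ≤ R⁷`; the lower bounds
follow from `one_le_prod`.
(e) `g00, g22 ≤ R + g11` by `trace_ab`. -/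
theorem bd_corners {A B C D : SL3} {R : ℝ} (h : PatData A B C D R) (h1 : Norm1 A) :
    ∀ g ∈ ({A, A⁻¹, B, B⁻¹, C, C⁻¹, D, D⁻¹} : Set SL3),
      ab g 0 2 ≤ R ^ 20 ∧ ab g 2 0 ≤ R ^ 20 ∧ ab g 1 1 ≤ R ^ 20 ∧
      1 ≤ R ^ 20 * ab g 0 2 ∧ 1 ≤ R ^ 20 * ab g 2 0 ∧ 1 ≤ R ^ 20 * ab g 1 1 ∧
      ab g 0 0 ≤ 2 * R ^ 20 ∧ ab g 2 2 ≤ 2 * R ^ 20 := by
  have hR := h.R1
  have hR0 : 0 < R := by linarith
  have hA := h.a
  have hC := h.c
  have hA' := hA.inv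
  have hC' : Row2 C⁻¹ := ⟨hC.2, by rw [inv_inv]; exact hC.1⟩
  unfold Norm1 at h1
  set m := ab A 0 2 with hm
  -- membership
  have gA : A ∈ ({A, A⁻¹, B, B⁻¹} : Set SL3) := by simp
  have gA' : A⁻¹ ∈ ({A, A⁻¹, B, B⁻¹} : Set SL3) := by simp
  have kC : C ∈ ({C, C⁻¹, D, D⁻¹} : Set SL3) := by simp
  have kC' : C⁻¹ ∈ ({C, C⁻¹, D, D⁻¹} : Set SL3) := by simp
  have pA := one_le_prod hA
  have pA' := one_le_prod hA'
  have pC := one_le_prod hC.transpose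
  have pC' := one_le_prod hC'.transpose
  simp only [bd2_ab_transpose] at pC pC'
  have mA := minors hA
  have mC := minors hC.transpose
  simp only [bd2_ab_transpose, bd2_transpose_inv] at mC
  have nn := bd2_ab_nonneg
  obtain ⟨r1, r2, r3, r4, r5, r6⟩ := bd2_real (R := R) (m := m) (α := ab A 1 1)
    (α' := ab A⁻¹ 1 1) (κ := ab C 1 1) (κ' := ab C⁻¹ 1 1) (x := ab C 0 2) (y := ab C 2 0)
    (x' := ab C⁻¹ 0 2) (y' := ab C⁻¹ 2 0) (u' := ab A⁻¹ 0 2) (v' := ab A⁻¹ 2 0) hR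
    (ab_pos hA _ _) (ab_pos hA _ _) (ab_pos hA' _ _) (ab_pos' hC _ _) (ab_pos' hC' _ _)
    (ab_pos' hC _ _) (ab_pos' hC _ _) (ab_pos' hC' _ _) (ab_pos' hC' _ _) (ab_pos hA' _ _)
    (ab_pos hA' _ _) (by rw [← h1] at pA; exact pA)
    (by calc (1 : ℝ) ≤ _ := pC
          _ = _ := by ring)
    pA'
    (by calc (1 : ℝ) ≤ _ := pC'
          _ = _ := by ring)
    ((cross hA.1 hC.1 0 2).trans (h.trX _ gA _ kC))
    (by rw [h1]; exact (cross hA.1 hC.1 2 0).trans (h.trX _ gA _ kC))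
    ((cross hA.1 hC.1 1 1).trans (h.trX _ gA _ kC))
    ((cross hA'.1 hC.1 1 1).trans (h.trX _ gA' _ kC))
    ((cross hA.1 hC'.1 1 1).trans (h.trX _ gA _ kC'))
    (by nlinarith [mA.1, nn A 0 1, nn A 1 2, mul_nonneg (nn A 0 1) (nn A 1 2)])
    (by rw [h1]; nlinarith [mA.2.1, mul_nonneg (nn A 1 0) (nn A 2 1)])
    (by nlinarith [mC.2.1, mul_nonneg (nn C 0 1) (nn C 1 2)])
    (by nlinarith [mC.1, mul_nonneg (nn C 1 0) (nn C 2 1)])
  have hm0 : 0 < m := ab_pos hA _ _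
  have hα : ab A 1 1 ≤ R ^ 7 := by
    calc ab A 1 1 = 1 * 1 * ab A 1 1 := by ring
      _ ≤ (R ^ 2 * m) * (R ^ 2 * m) * ab A 1 1 := by
          have := nn A 1 1
          gcongr
      _ = R ^ 4 * (m ^ 2 * ab A 1 1) := by ring
      _ ≤ R ^ 4 * R ^ 3 := by gcongr
      _ = R ^ 7 := by ring
  have hpow : ∀ {k l : ℕ}, k ≤ l → R ^ k ≤ R ^ l := fun hkl => pow_le_pow_right₀ hR hkl
  -- the left elements
  have left : ∀ g ∈ ({A, A⁻¹, B, B⁻¹} : Set SL3), Col2 g →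
      ab g 0 2 ≤ R ^ 20 ∧ ab g 2 0 ≤ R ^ 20 ∧ ab g 1 1 ≤ R ^ 20 ∧
      1 ≤ R ^ 20 * ab g 0 2 ∧ 1 ≤ R ^ 20 * ab g 2 0 ∧ 1 ≤ R ^ 20 * ab g 1 1 ∧
      ab g 0 0 ≤ 2 * R ^ 20 ∧ ab g 2 2 ≤ 2 * R ^ 20 := by
    intro g hg hg2
    have x1 := (cross hg2.1 hC.1 0 2).trans (h.trX _ hg _ kC)
    have x2 := (cross hg2.1 hC.1 2 0).trans (h.trX _ hg _ kC)
    have x3 := (cross hg2.1 hC.1 1 1).trans (h.trX _ hg _ kC)
    have e1 : ab g 0 2 ≤ R ^ 6 := by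
      calc ab g 0 2 = 1 * ab g 0 2 := by ring
        _ ≤ (R ^ 2 * (m * ab C 2 0)) * ab g 0 2 := by
            have := nn g 0 2
            gcongr
        _ = R ^ 2 * m * (ab g 0 2 * ab C 2 0) := by ring
        _ ≤ R ^ 2 * R ^ 3 * R := by
            have := mul_nonneg (nn g 0 2) (nn C 2 0)
            gcongr
        _ = R ^ 6 := by ring
    have e2 : ab g 2 0 ≤ R ^ 6 := by
      calc ab g 2 0 = 1 * ab g 2 0 := by ring
        _ ≤ (R ^ 2 * (m * ab C 0 2)) * ab g 2 0 := by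
            have := nn g 2 0
            gcongr
        _ = R ^ 2 * m * (ab g 2 0 * ab C 0 2) := by ring
        _ ≤ R ^ 2 * R ^ 3 * R := by
            have := mul_nonneg (nn g 2 0) (nn C 0 2)
            gcongr
        _ = R ^ 6 := by ring
    have e3 : ab g 1 1 ≤ R ^ 10 := by
      calc ab g 1 1 = 1 * ab g 1 1 := by ring
        _ ≤ (R ^ 2 * (ab A 1 1 * ab C 1 1)) * ab g 1 1 := by
            have := nn g 1 1
            gcongr
        _ = R ^ 2 * ab A 1 1 * (ab g 1 1 * ab C 1 1) := by ring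
        _ ≤ R ^ 2 * R ^ 7 * R := by
            have := nn A 1 1
            have := mul_nonneg (nn g 1 1) (nn C 1 1)
            gcongr
        _ = R ^ 10 := by ring
    have p := one_le_prod hg2
    have g1 := nn g 0 2
    have g2 := nn g 2 0
    have g3 := nn g 1 1
    refine ⟨e1.trans (hpow (by norm_num)), e2.trans (hpow (by norm_num)),
      e3.trans (hpow (by norm_num)), ?_, ?_, ?_, ?_, ?_⟩
    · calc (1 : ℝ) ≤ _ := p
        _ ≤ ab g 0 2 * R ^ 10 * R ^ 6 := by gcongr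
        _ = R ^ 16 * ab g 0 2 := by ring
        _ ≤ R ^ 20 * ab g 0 2 := by gcongr 1; exact hpow (by norm_num)
    · calc (1 : ℝ) ≤ _ := p
        _ ≤ R ^ 6 * R ^ 10 * ab g 2 0 := by gcongr
        _ = R ^ 16 * ab g 2 0 := by ring
        _ ≤ R ^ 20 * ab g 2 0 := by gcongr 1; exact hpow (by norm_num)
    · calc (1 : ℝ) ≤ _ := p
        _ ≤ R ^ 6 * ab g 1 1 * R ^ 6 := by gcongr
        _ = R ^ 12 * ab g 1 1 := by ring
        _ ≤ R ^ 20 * ab g 1 1 := by gcongr 1; exact hpow (by norm_num)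
    · have t := trace_ab hg2
      have t' := h.trG _ hg
      have : R ^ 1 ≤ R ^ 20 := hpow (by norm_num)
      have : R ^ 10 ≤ R ^ 20 := hpow (by norm_num)
      linarith [nn g 2 2]
    · have t := trace_ab hg2
      have t' := h.trG _ hg
      have : R ^ 1 ≤ R ^ 20 := hpow (by norm_num)
      have : R ^ 10 ≤ R ^ 20 := hpow (by norm_num)
      linarith [nn g 0 0]
  have right : ∀ g ∈ ({C, C⁻¹, D, D⁻¹} : Set SL3), Row2 g →
      ab g 0 2 ≤ R ^ 20 ∧ ab g 2 0 ≤ R ^ 20 ∧ ab g 1 1 ≤ R ^ 20 ∧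
      1 ≤ R ^ 20 * ab g 0 2 ∧ 1 ≤ R ^ 20 * ab g 2 0 ∧ 1 ≤ R ^ 20 * ab g 1 1 ∧
      ab g 0 0 ≤ 2 * R ^ 20 ∧ ab g 2 2 ≤ 2 * R ^ 20 := by
    intro g hg hg2
    have x1 := (cross hA.1 hg2.1 2 0).trans (h.trX _ gA _ hg)
    have x2 := (cross hA.1 hg2.1 0 2).trans (h.trX _ gA _ hg)
    have x3 := (cross hA.1 hg2.1 1 1).trans (h.trX _ gA _ hg)
    rw [← h1] at x1
    rw [← hm] at x2
    have g1 := nn g 0 2
    have g2 := nn g 2 0
    have g3 := nn g 1 1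
    have e1 : ab g 0 2 ≤ R ^ 3 := by
      calc ab g 0 2 = 1 * ab g 0 2 := by ring
        _ ≤ (R ^ 2 * m) * ab g 0 2 := by gcongr
        _ = R ^ 2 * (m * ab g 0 2) := by ring
        _ ≤ R ^ 2 * R := by gcongr
        _ = R ^ 3 := by ring
    have e2 : ab g 2 0 ≤ R ^ 3 := by
      calc ab g 2 0 = 1 * ab g 2 0 := by ring
        _ ≤ (R ^ 2 * m) * ab g 2 0 := by gcongr
        _ = R ^ 2 * (m * ab g 2 0) := by ring
        _ ≤ R ^ 2 * R := by gcongr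
        _ = R ^ 3 := by ring
    have e3 : ab g 1 1 ≤ R ^ 7 := by
      rw [← h1] at pA
      calc ab g 1 1 = 1 * ab g 1 1 := by ring
        _ ≤ (m * ab A 1 1 * m) * ab g 1 1 := by gcongr
        _ = m ^ 2 * (ab A 1 1 * ab g 1 1) := by ring
        _ ≤ (R ^ 3) ^ 2 * R := by
            have := mul_nonneg (nn A 1 1) (nn g 1 1)
            gcongr
        _ = R ^ 7 := by ring
    have p := one_le_prod hg2.transpose
    simp only [bd2_ab_transpose] at p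
    refine ⟨e1.trans (hpow (by norm_num)), e2.trans (hpow (by norm_num)),
      e3.trans (hpow (by norm_num)), ?_, ?_, ?_, ?_, ?_⟩
    · calc (1 : ℝ) ≤ _ := p
        _ ≤ R ^ 3 * R ^ 7 * ab g 0 2 := by gcongr
        _ = R ^ 10 * ab g 0 2 := by ring
        _ ≤ R ^ 20 * ab g 0 2 := by gcongr 1; exact hpow (by norm_num)
    · calc (1 : ℝ) ≤ _ := p
        _ ≤ ab g 2 0 * R ^ 7 * R ^ 3 := by gcongr
        _ = R ^ 10 * ab g 2 0 := by ring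
        _ ≤ R ^ 20 * ab g 2 0 := by gcongr 1; exact hpow (by norm_num)
    · calc (1 : ℝ) ≤ _ := p
        _ ≤ R ^ 3 * ab g 1 1 * R ^ 3 := by gcongr
        _ = R ^ 6 * ab g 1 1 := by ring
        _ ≤ R ^ 20 * ab g 1 1 := by gcongr 1; exact hpow (by norm_num)
    · have t := trace_ab hg2.transpose
      simp only [bd2_ab_transpose] at t
      have t0 : (SpecialLinearGroup.transpose g).1.trace = g.1.trace := Matrix.trace_transpose _
      rw [t0] at t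
      have t' := h.trH _ hg
      have : R ^ 1 ≤ R ^ 20 := hpow (by norm_num)
      have : R ^ 7 ≤ R ^ 20 := hpow (by norm_num)
      linarith [nn g 2 2]
    · have t := trace_ab hg2.transpose
      simp only [bd2_ab_transpose] at t
      have t0 : (SpecialLinearGroup.transpose g).1.trace = g.1.trace := Matrix.trace_transpose _
      rw [t0] at t
      have t' := h.trH _ hg
      have : R ^ 1 ≤ R ^ 20 := hpow (by norm_num)
      have : R ^ 7 ≤ R ^ 20 := hpow (by norm_num)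
      linarith [nn g 0 0]
  intro g hg
  have hD' : Row2 D⁻¹ := ⟨h.d.2, by rw [inv_inv]; exact h.d.1⟩
  simp only [Set.mem_insert_iff, Set.mem_singleton_iff] at hg
  rcases hg with rfl | rfl | rfl | rfl | rfl | rfl | rfl | rfl
  · exact left _ (by simp) hA
  · exact left _ (by simp) hA'
  · exact left _ (by simp) h.b
  · exact left _ (by simp) h.b.inv
  · exact right _ (by simp) hC
  · exact right _ (by simp) hC'
  · exact right _ (by simp) h.d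
  · exact right _ (by simp) hD'

end Pool.Agent.LibHit3
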