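import Pool.Agent.LibHit3.A_Pat

set_option autoImplicit false

noncomputable section

open Matrix
open scoped MatrixGroups

namespace Pool.Agent.LibHit3

/-! Task A12. Words that are not powers of the commutator. -/

/-- The abelianization. -/
def abel : FG →* Multiplicative ℤ × Multiplicative ℤ :=
  FreeGroup.lift ![(Multiplicative.ofAdd 1, 1), (1, Multiplicative.ofAdd 1)]

lemma abel_wg : abel wg = 1 := by
  unfold wg
  rw [map_mul, map_mul, map_mul, map_inv, map_inv, mul_inv_cancel_comm, mul_inv_cancel]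

lemma notMem_of_abel {w : FG} (h : abel w ≠ 1) : w ∉ Subgroup.zpowers wg := by
  intro hw
  obtain ⟨k, hk⟩ := Subgroup.mem_zpowers_iff.1 hw
  refine h ?_
  rw [← hk, map_zpow, abel_wg, _root_.one_zpow]

private lemma Words_sq (a : Multiplicative ℤ) (h : a * a = 1) : a = 1 := by
  have h1 : Multiplicative.toAdd a + Multiplicative.toAdd a = 0 := by
    rw [← toAdd_mul, h, toAdd_one]
  have h2 : Multiplicative.toAdd a = 0 := by omega
  exact Multiplicative.toAdd.injective (h2.trans toAdd_one.symm)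

/-- `abel (w wg^k w) = (abel w)^2 ≠ 1`. -/
lemma notMem_twice {w : FG} (h : abel w ≠ 1) (k : ℤ) :
    w * wg ^ k * w ∉ Subgroup.zpowers wg := by
  refine notMem_of_abel fun h1 => h ?_
  rw [map_mul, map_mul, map_zpow, abel_wg, _root_.one_zpow, mul_one] at h1
  exact Prod.ext (Words_sq _ (congrArg Prod.fst h1)) (Words_sq _ (congrArg Prod.snd h1))

private lemma Words_diag_pow {D : SL3} {l : Fin 3 → ℝ} (hD : D.1 = Matrix.diagonal l) (n : ℕ) :
    (D ^ n).1 = Matrix.diagonal (l ^ n) := by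
  have h1 : (D ^ n).1 = D.1 ^ n := Matrix.SpecialLinearGroup.coe_pow D n
  rw [h1, hD, Matrix.diagonal_pow]

private lemma Words_diag_zpow {D : SL3} {l : Fin 3 → ℝ} (hD : D.1 = Matrix.diagonal l) (k : ℤ) :
    ∃ d : Fin 3 → ℝ, (D ^ k).1 = Matrix.diagonal d := by
  cases k with
  | ofNat n =>
    rw [Int.ofNat_eq_natCast, zpow_natCast]
    exact ⟨_, Words_diag_pow hD n⟩
  | negSucc n =>
    rw [zpow_negSucc]
    have h1 : ((D ^ (n + 1))⁻¹).1 = Matrix.adjugate (D ^ (n + 1)).1 :=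
      Matrix.SpecialLinearGroup.coe_inv _
    rw [h1, Words_diag_pow hD, Matrix.adjugate_diagonal]
    exact ⟨_, rfl⟩

/-- The conjugates of the commutator. If `w wg w⁻¹ = wg^k` then, with `M = E⁻¹ w E`,
`M diag(l) = diag(l)^k M`, hence `M i j * l j = l i ^ k * M i j` for all `i, j`. The entries of `M` are not
zero by `Good.colPat`, so `l 0 = l 1`, a contradiction. -/
theorem Good.mal {x y E : SL3} {l : Fin 3 → ℝ} (h : Good x y E l) {w : FG}
    (hw : w ∉ Subgroup.zpowers wg) : w * wg * w⁻¹ ∉ Subgroup.zpowers wg := by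
  intro h1
  obtain ⟨k, hk⟩ := Subgroup.mem_zpowers_iff.1 h1
  have h2 : w * wg = wg ^ k * w := by
    rw [hk, inv_mul_cancel_right]
  have h3 : ev x y w * (x * y * x⁻¹ * y⁻¹) = (x * y * x⁻¹ * y⁻¹) ^ k * ev x y w := by
    have := congrArg (ev x y) h2
    rw [map_mul, map_mul, map_zpow, ev_wg] at this
    exact this
  have h4 : (E⁻¹ * ev x y w * E) * (E⁻¹ * (x * y * x⁻¹ * y⁻¹) * E) =
      (E⁻¹ * (x * y * x⁻¹ * y⁻¹) * E) ^ k * (E⁻¹ * ev x y w * E) := by
    have h5 : (E⁻¹ * (x * y * x⁻¹ * y⁻¹) * E) ^ k = E⁻¹ * (x * y * x⁻¹ * y⁻¹) ^ k * E := by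
      have := conj_zpow (i := k) (a := E⁻¹) (b := x * y * x⁻¹ * y⁻¹)
      rw [inv_inv] at this
      exact this
    rw [h5]
    have h6 : (E⁻¹ * ev x y w * E) * (E⁻¹ * (x * y * x⁻¹ * y⁻¹) * E) =
        E⁻¹ * (ev x y w * (x * y * x⁻¹ * y⁻¹)) * E := by group
    have h7 : (E⁻¹ * (x * y * x⁻¹ * y⁻¹) ^ k * E) * (E⁻¹ * ev x y w * E) =
        E⁻¹ * ((x * y * x⁻¹ * y⁻¹) ^ k * ev x y w) * E := by
      generalize (x * y * x⁻¹ * y⁻¹) ^ k = g
      group
    rw [h6, h7, h3]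
  obtain ⟨d, hd⟩ := Words_diag_zpow h.diag k
  have h5 : (E⁻¹ * ev x y w * E).1 * Matrix.diagonal l =
      Matrix.diagonal d * (E⁻¹ * ev x y w * E).1 := by
    have h6 := congrArg Subtype.val h4
    change (E⁻¹ * ev x y w * E).1 * (E⁻¹ * (x * y * x⁻¹ * y⁻¹) * E).1 =
      ((E⁻¹ * (x * y * x⁻¹ * y⁻¹) * E) ^ k).1 * (E⁻¹ * ev x y w * E).1 at h6
    rw [h.diag, hd] at h6
    exact h6
  have h6 : ∀ j, l j = d 0 := by
    intro j
    have h7 := congrFun (congrFun h5 0) j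
    rw [Matrix.mul_diagonal, Matrix.diagonal_mul] at h7
    have h8 := h.colPat hw 0 j
    have h9 : (E⁻¹ * ev x y w * E).1 0 j ≠ 0 := by
      intro h0
      rw [h0, mul_zero] at h8
      exact lt_irrefl _ h8
    rw [mul_comm] at h7
    exact mul_right_cancel₀ h9 h7
  have h7 := h.l01
  rw [h6 0, h6 1] at h7
  exact lt_irrefl _ h7

private lemma Words_abel (i : Fin 4) : abel (cst i) =
    (![((1 : Multiplicative ℤ), (1 : Multiplicative ℤ)), (1, Multiplicative.ofAdd (-1)),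
      (Multiplicative.ofAdd (-1), Multiplicative.ofAdd (-1)), (Multiplicative.ofAdd (-1), 1)] :
        Fin 4 → Multiplicative ℤ × Multiplicative ℤ) i := by
  fin_cases i
  · change abel 1 = _
    rw [map_one]
    rfl
  · change abel wy⁻¹ = _
    rw [map_inv]
    simp [abel, wy]
  · change abel (wx⁻¹ * wy⁻¹) = _
    rw [map_mul, map_inv, map_inv]
    simp [abel, wx, wy]
  · change abel wx⁻¹ = _
    rw [map_inv]
    simp [abel, wx]

/-- The twelve words `c⁻¹ c'`, `c ≠ c'` in `{1, y⁻¹, x⁻¹y⁻¹, x⁻¹}`, have nontrivial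
abelianization. -/
lemma abel_cst {i j : Fin 4} (h : i ≠ j) : abel ((cst i)⁻¹ * cst j) ≠ 1 := by
  intro h1
  rw [map_mul, map_inv, inv_mul_eq_one, Words_abel, Words_abel] at h1
  revert h h1
  revert i j
  decide

end Pool.Agent.LibHit3
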