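import Pool.Agent.LibHit3.A_Bd1
import Pool.Agent.LibHit3.A_Words

set_option autoImplicit false

noncomputable section

open Matrix
open scoped MatrixGroups

namespace Pool.Agent.LibHit3

lemma nm_of_data {w : FG} (h : abel w ≠ 1) : w ∉ Subgroup.zpowers wg := notMem_of_abel h

lemma abel_wx_data : abel wx = (Multiplicative.ofAdd 1, 1) := by simp [abel, wx]

lemma abel_wy_data : abel wy = (1, Multiplicative.ofAdd 1) := by simp [abel, wy]

lemma abel_wx_ne_data : abel wx ≠ 1 := by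
  rw [abel_wx_data]
  intro h
  have h1 := congrArg (fun p => (p.1).toAdd) h
  simp at h1

lemma abel_wy_ne_data : abel wy ≠ 1 := by
  rw [abel_wy_data]
  intro h
  have h1 := congrArg (fun p => (p.2).toAdd) h
  simp at h1

lemma abel_sq_ne_data : abel (wx * wx) ≠ 1 := by
  rw [map_mul, abel_wx_data]
  intro h
  have h1 := congrArg (fun p => (p.1).toAdd) h
  simp at h1

lemma conj_inv_data (E a : SL3) : (E⁻¹ * a * E)⁻¹ = E⁻¹ * a⁻¹ * E := by group

lemma conj_mul_data (E a b : SL3) : (E⁻¹ * a * E) * (E⁻¹ * b * E) = E⁻¹ * (a * b) * E := by group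

lemma tr_conj_data (E a : SL3) : (E⁻¹ * a * E).1.trace = a.1.trace := by
  have h : (E⁻¹ * a * E).1 = (E⁻¹).1 * (a.1 * E.1) := by
    rw [mul_assoc]
    rfl
  rw [h, Matrix.trace_mul_comm, Matrix.mul_assoc]
  have h2 : E.1 * (E⁻¹).1 = 1 := congrArg Subtype.val (mul_inv_cancel E)
  rw [h2, Matrix.mul_one]

lemma col2_data {x y E : SL3} {l : Fin 3 → ℝ} (h : Good x y E l) {w : FG} (hw : abel w ≠ 1) :
    Col2 (E⁻¹ * ev x y w * E) := by
  refine ⟨h.colPat (notMem_of_abel hw), ?_⟩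
  rw [conj_inv_data, ← map_inv]
  apply h.colPat
  apply notMem_of_abel
  rw [map_inv]
  exact fun h' => hw (inv_eq_one.1 h')

lemma row2_data {x y E : SL3} {l : Fin 3 → ℝ} (h : Good x y (E * K) l) {w : FG}
    (hw : abel w ≠ 1) : Row2 (E⁻¹ * ev x y w * E) := by
  refine ⟨h.rowPat (notMem_of_abel hw), ?_⟩
  rw [conj_inv_data, ← map_inv]
  apply h.rowPat
  apply notMem_of_abel
  rw [map_inv]
  exact fun h' => hw (inv_eq_one.1 h')

/-- An element of `{A, A⁻¹, B, B⁻¹}` for conjugates. -/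
lemma set_data {E a b g : SL3}
    (hg : g ∈ ({E⁻¹ * a * E, (E⁻¹ * a * E)⁻¹, E⁻¹ * b * E, (E⁻¹ * b * E)⁻¹} : Set SL3)) :
    ∃ g' ∈ ({a, a⁻¹, b, b⁻¹} : Set SL3), g = E⁻¹ * g' * E := by
  rw [conj_inv_data, conj_inv_data] at hg
  rcases hg with rfl | rfl | rfl | hg
  · exact ⟨a, by simp, rfl⟩
  · exact ⟨a⁻¹, by simp, rfl⟩
  · exact ⟨b, by simp, rfl⟩
  · rw [Set.mem_singleton_iff] at hg
    subst hg
    exact ⟨b⁻¹, by simp, rfl⟩

/-- Task A17. The data for the bounds from a positive quadruple: `R` is at least `1` and at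
least the traces of the words in question (these are invariant under conjugation by `E`). The
patterns are `Good.colPat` and `Good.rowPat` for the words `x, y, x x` and their
inverses (`notMem_of_abel`). -/
theorem patData {a b c d E : SL3} {l l' : Fin 3 → ℝ} {R : ℝ} (h : Good a b E l)
    (h' : Good c d (E * K) l') (hR : 1 ≤ R)
    (t1 : ∀ g ∈ ({a, a⁻¹, b, b⁻¹} : Set SL3), g.1.trace ≤ R)
    (t2 : ∀ g ∈ ({c, c⁻¹, d, d⁻¹} : Set SL3), g.1.trace ≤ R)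
    (t3 : ∀ g ∈ ({a, a⁻¹, b, b⁻¹} : Set SL3), ∀ k ∈ ({c, c⁻¹, d, d⁻¹} : Set SL3),
      (g * k).1.trace ≤ R) :
    PatData (E⁻¹ * a * E) (E⁻¹ * b * E) (E⁻¹ * c * E) (E⁻¹ * d * E) R := by
  have ha := col2_data h abel_wx_ne_data
  have hb := col2_data h abel_wy_ne_data
  have hc := row2_data h' abel_wx_ne_data
  have hd := row2_data h' abel_wy_ne_data
  have haa := h.colPat (notMem_of_abel abel_sq_ne_data)
  have hcc := h'.rowPat (notMem_of_abel abel_sq_ne_data)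
  rw [map_mul] at haa hcc
  rw [ev_wx] at ha hc haa hcc
  rw [ev_wy] at hb hd
  refine ⟨hR, ha, hb, hc, hd, ?_, ?_, ?_, ?_, ?_⟩
  · rw [conj_mul_data]
    exact haa
  · rw [conj_mul_data]
    exact hcc
  · intro g hg
    obtain ⟨g', hg', rfl⟩ := set_data hg
    rw [tr_conj_data]
    exact t1 g' hg'
  · intro g hg
    obtain ⟨g', hg', rfl⟩ := set_data hg
    rw [tr_conj_data]
    exact t2 g' hg'
  · intro g hg k hk
    obtain ⟨g', hg', rfl⟩ := set_data hg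
    obtain ⟨k', hk', rfl⟩ := set_data hk
    rw [conj_mul_data, tr_conj_data]
    exact t3 g' hg' k' hk'

/-- Positive rescaling of flags. -/
def Sc_data (U V : Flag) : Prop :=
  ∃ a b : ℝ, 0 < a ∧ 0 < b ∧ V.L = a • U.L ∧ V.P = b • U.P

lemma dot_data {b a : ℝ} (u v : Fin 3 → ℝ) (hb : 0 < b) (ha : 0 < a) (h : 0 < u ⬝ᵥ v) :
    0 < (b • u) ⬝ᵥ (a • v) := by
  rw [smul_dotProduct, dotProduct_smul, smul_eq_mul, smul_eq_mul]
  positivity

lemma pos3_data {U Z V U' Z' V' : Flag} (h : Pos3 U Z V) (h1 : Sc_data U U')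
    (h2 : Sc_data Z Z') (h3 : Sc_data V V') : Pos3 U' Z' V' := by
  obtain ⟨a1, b1, ha1, hb1, e1, f1⟩ := h1
  obtain ⟨a2, b2, ha2, hb2, e2, f2⟩ := h2
  obtain ⟨a3, b3, ha3, hb3, e3, f3⟩ := h3
  refine ⟨?_, ?_, ?_, ?_, ?_, ?_, ?_⟩
  · rw [f1, e2]; exact dot_data _ _ hb1 ha2 h.uz
  · rw [f1, e3]; exact dot_data _ _ hb1 ha3 h.uv
  · rw [f2, e1]; exact dot_data _ _ hb2 ha1 h.zu
  · rw [f2, e3]; exact dot_data _ _ hb2 ha3 h.zv
  · rw [f3, e1]; exact dot_data _ _ hb3 ha1 h.vu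
  · rw [f3, e2]; exact dot_data _ _ hb3 ha2 h.vz
  · have h4 : det3 U'.L Z'.L V'.L = a1 * a2 * a3 * det3 U.L Z.L V.L := by
      rw [e1, e2, e3]
      simp [det3, Matrix.det_fin_three]
      ring
    rw [h4]
    have := h.dt
    positivity

lemma act_mul_data (g h : SL3) (U : Flag) : act (g * h) U = act g (act h U) := by
  apply Flag.ext
  · show (g * h).1 *ᵥ U.L = g.1 *ᵥ (h.1 *ᵥ U.L)
    rw [Matrix.mulVec_mulVec]
    rfl
  · show U.P ᵥ* ((g * h)⁻¹).1 = (U.P ᵥ* (h⁻¹).1) ᵥ* (g⁻¹).1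
    rw [Matrix.vecMul_vecMul, _root_.mul_inv_rev]
    rfl

lemma act_sc_data (g : SL3) {U V : Flag} (h : Sc_data U V) : Sc_data (act g U) (act g V) := by
  obtain ⟨a, b, ha, hb, e, f⟩ := h
  refine ⟨a, b, ha, hb, ?_, ?_⟩
  · show g.1 *ᵥ V.L = a • (g.1 *ᵥ U.L)
    rw [e, Matrix.mulVec_smul]
  · show V.P ᵥ* (g⁻¹).1 = b • (U.P ᵥ* (g⁻¹).1)
    rw [f, Matrix.smul_vecMul]

lemma dg_inv_data {t : Fin 3 → ℝ} (ht : ∀ i, 0 < t i) (h1 : t 0 * t 1 * t 2 = 1) :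
    ((dg t h1)⁻¹).1 = Matrix.diagonal (fun i => (t i)⁻¹) := by
  have h2 : (dg t h1).1 * Matrix.diagonal (fun i => (t i)⁻¹) = 1 := by
    show Matrix.diagonal t * Matrix.diagonal (fun i => (t i)⁻¹) = 1
    rw [Matrix.diagonal_mul_diagonal, ← Matrix.diagonal_one]
    congr 1
    funext i
    exact mul_inv_cancel₀ (ht i).ne'
  have h3 : ((dg t h1)⁻¹).1 * (dg t h1).1 = 1 := congrArg Subtype.val (inv_mul_cancel (dg t h1))
  calc ((dg t h1)⁻¹).1 = ((dg t h1)⁻¹).1 * ((dg t h1).1 * Matrix.diagonal (fun i => (t i)⁻¹)) := by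
        rw [h2, Matrix.mul_one]
    _ = (((dg t h1)⁻¹).1 * (dg t h1).1) * Matrix.diagonal (fun i => (t i)⁻¹) := by
        rw [Matrix.mul_assoc]
    _ = _ := by rw [h3, Matrix.one_mul]

lemma sc_p0_data {t : Fin 3 → ℝ} (ht : ∀ i, 0 < t i) (h1 : t 0 * t 1 * t 2 = 1) :
    Sc_data p0 (act (dg t h1) p0) := by
  refine ⟨t 0, (t 2)⁻¹, ht 0, inv_pos.2 (ht 2), ?_, ?_⟩
  · show Matrix.diagonal t *ᵥ ![1, 0, 0] = t 0 • ![1, 0, 0]
    funext i
    rw [Matrix.mulVec_diagonal]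
    fin_cases i <;> simp
  · show ![0, 0, 1] ᵥ* ((dg t h1)⁻¹).1 = (t 2)⁻¹ • ![0, 0, 1]
    rw [dg_inv_data ht h1]
    funext i
    rw [Matrix.vecMul_diagonal]
    fin_cases i <;> simp

lemma sc_q0_data {t : Fin 3 → ℝ} (ht : ∀ i, 0 < t i) (h1 : t 0 * t 1 * t 2 = 1) :
    Sc_data q0 (act (dg t h1) q0) := by
  refine ⟨t 2, (t 0)⁻¹, ht 2, inv_pos.2 (ht 0), ?_, ?_⟩
  · show Matrix.diagonal t *ᵥ ![0, 0, 1] = t 2 • ![0, 0, 1]
    funext i
    rw [Matrix.mulVec_diagonal]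
    fin_cases i <;> simp
  · show ![1, 0, 0] ᵥ* ((dg t h1)⁻¹).1 = (t 0)⁻¹ • ![1, 0, 0]
    rw [dg_inv_data ht h1]
    funext i
    rw [Matrix.vecMul_diagonal]
    fin_cases i <;> simp

lemma oct_sc_data (x y E : SL3) {t : Fin 3 → ℝ} (ht : ∀ i, 0 < t i) (h1 : t 0 * t 1 * t 2 = 1)
    (i : Fin 8) : Sc_data (octPt x y E i) (octPt x y (E * dg t h1) i) := by
  have hp : ∀ g : SL3, Sc_data (act g p0) (act (g * dg t h1) p0) := fun g => by
    rw [act_mul_data]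
    exact act_sc_data g (sc_p0_data ht h1)
  have hq : ∀ g : SL3, Sc_data (act g q0) (act (g * dg t h1) q0) := fun g => by
    rw [act_mul_data]
    exact act_sc_data g (sc_q0_data ht h1)
  fin_cases i
  · exact hp E
  · have := hq (y⁻¹ * E)
    rw [mul_assoc (y⁻¹)] at this
    exact this
  · have := hp (y⁻¹ * E)
    rw [mul_assoc (y⁻¹)] at this
    exact this
  · have := hq (x⁻¹ * y⁻¹ * E)
    rw [mul_assoc (x⁻¹ * y⁻¹)] at this
    exact this
  · have := hp (x⁻¹ * y⁻¹ * E)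
    rw [mul_assoc (x⁻¹ * y⁻¹)] at this
    exact this
  · have := hq (x⁻¹ * E)
    rw [mul_assoc (x⁻¹)] at this
    exact this
  · have := hp (x⁻¹ * E)
    rw [mul_assoc (x⁻¹)] at this
    exact this
  · exact hq E

/-- Right multiplication of `E` by a positive diagonal matrix does not change anything. -/
theorem Good.diag_right {x y E : SL3} {l : Fin 3 → ℝ} (h : Good x y E l) {t : Fin 3 → ℝ}
    (ht : ∀ i, 0 < t i) (h1 : t 0 * t 1 * t 2 = 1) : Good x y (E * dg t h1) l := by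
  refine ⟨h.l01, h.l12, h.l2, ?_, ?_⟩
  · have e1 : (E * dg t h1)⁻¹ * (x * y * x⁻¹ * y⁻¹) * (E * dg t h1) =
        (dg t h1)⁻¹ * (E⁻¹ * (x * y * x⁻¹ * y⁻¹) * E) * dg t h1 := by group
    rw [e1]
    show ((dg t h1)⁻¹).1 * (E⁻¹ * (x * y * x⁻¹ * y⁻¹) * E).1 * (dg t h1).1 = _
    rw [h.diag, dg_inv_data ht h1]
    show Matrix.diagonal (fun i => (t i)⁻¹) * Matrix.diagonal l * Matrix.diagonal t = _
    rw [Matrix.diagonal_mul_diagonal, Matrix.diagonal_mul_diagonal]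
    congr 1
    funext i
    have := (ht i).ne'
    field_simp
  · intro i
    exact pos3_data (h.oct i) (oct_sc_data x y E ht h1 _) (oct_sc_data x y E ht h1 _)
      (oct_sc_data x y E ht h1 _)

/-- `diag(t) K = K diag(t reversed)`. -/
theorem Good.diag_right' {x y E : SL3} {l : Fin 3 → ℝ} (h : Good x y (E * K) l) {t : Fin 3 → ℝ}
    (ht : ∀ i, 0 < t i) (h1 : t 0 * t 1 * t 2 = 1) : Good x y (E * dg t h1 * K) l := by
  have h2 : (![t 2, t 1, t 0] : Fin 3 → ℝ) 0 * ![t 2, t 1, t 0] 1 * ![t 2, t 1, t 0] 2 = 1 := by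
    simp only [Matrix.cons_val]
    rw [← h1]
    ring
  have h3 : dg t h1 * K = K * dg ![t 2, t 1, t 0] h2 := by
    apply Subtype.ext
    show Matrix.diagonal t * !![0, 0, 1; 0, -1, 0; 1, 0, 0] =
      !![0, 0, 1; 0, -1, 0; 1, 0, 0] * Matrix.diagonal ![t 2, t 1, t 0]
    ext i j
    rw [Matrix.diagonal_mul, Matrix.mul_diagonal]
    fin_cases i <;> fin_cases j <;> simp
  rw [mul_assoc, h3, ← mul_assoc]
  apply h.diag_right
  intro i
  fin_cases i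
  · exact ht 2
  · exact ht 1
  · exact ht 0

end Pool.Agent.LibHit3
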