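import Pool.Agent.LibHit3.Defs

set_option autoImplicit false

noncomputable section

open Matrix
open scoped MatrixGroups

namespace Pool.Agent.LibHit3

/-- Three linear equations with distinct coefficients. -/
lemma A_Twine_vdm {l a : Fin 3 → ℝ} (hl : Function.Injective l)
    (h0 : ∑ j, a j = 0) (h1 : ∑ j, l j * a j = 0) (h2 : ∑ j, l j * (l j * a j) = 0) (j : Fin 3) :
    a j = 0 := by
  rw [Fin.sum_univ_three] at h0 h1 h2
  have d01 : l 0 - l 1 ≠ 0 := sub_ne_zero.2 fun h => absurd (hl h) (by decide)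
  have d02 : l 0 - l 2 ≠ 0 := sub_ne_zero.2 fun h => absurd (hl h) (by decide)
  have d12 : l 1 - l 2 ≠ 0 := sub_ne_zero.2 fun h => absurd (hl h) (by decide)
  have e0 : (l 0 - l 1) * (l 0 - l 2) * a 0 = 0 := by
    linear_combination h2 - (l 1 + l 2) * h1 + l 1 * l 2 * h0
  have e1 : (l 0 - l 1) * (l 1 - l 2) * a 1 = 0 := by
    linear_combination -h2 + (l 0 + l 2) * h1 - l 0 * l 2 * h0
  have e2 : (l 0 - l 2) * (l 1 - l 2) * a 2 = 0 := by
    linear_combination h2 - (l 0 + l 1) * h1 + l 0 * l 1 * h0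
  fin_cases j
  · exact (mul_eq_zero.1 e0).resolve_left (mul_ne_zero d01 d02)
  · exact (mul_eq_zero.1 e1).resolve_left (mul_ne_zero d01 d12)
  · exact (mul_eq_zero.1 e2).resolve_left (mul_ne_zero d02 d12)

/-- The kernel of an intertwiner. -/
lemma A_Twine_ker {F G : M3} {l : Fin 3 → ℝ} (hl : Function.Injective l)
    (h1 : G * F = F * Matrix.diagonal l) {v : Fin 3 → ℝ} (hv : F *ᵥ v = 0) (r j : Fin 3) :
    F r j * v j = 0 := by
  have key : ∀ u : Fin 3 → ℝ, F *ᵥ u = 0 → F *ᵥ (fun j => l j * u j) = 0 := by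
    intro u hu
    have h3 : (Matrix.diagonal l) *ᵥ u = fun j => l j * u j := by
      funext j
      rw [Matrix.mulVec_diagonal]
    rw [← h3, Matrix.mulVec_mulVec, ← h1, ← Matrix.mulVec_mulVec, hu, Matrix.mulVec_zero]
  have k1 := key v hv
  have k2 := key _ k1
  have e0 := congrFun hv r
  have e1 := congrFun k1 r
  have e2 := congrFun k2 r
  simp only [Matrix.mulVec, dotProduct, Pi.zero_apply] at e0 e1 e2
  refine A_Twine_vdm (a := fun j => F r j * v j) hl e0 ?_ ?_ j
  · rw [← e1]
    exact Finset.sum_congr rfl fun j _ => by ring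
  · rw [← e2]
    exact Finset.sum_congr rfl fun j _ => by ring

/-- Task A16. An intertwiner is invertible. If `det F = 0` take `v ≠ 0` with `F v = 0`
(`Matrix.exists_mulVec_eq_zero_iff`). The kernel of `F` is invariant under `diagonal l` and
under `A`. Applying `∏_{j ≠ i} (diagonal l - l j)` with `v i ≠ 0` one gets `e_i` in the kernel; all
entries of `A e_i` are nonzero, so every `e_j` is in the kernel and `F = 0`. -/
theorem twine {F G B A : M3} {l : Fin 3 → ℝ} (hF : F ≠ 0) (hl : Function.Injective l)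
    (h1 : G * F = F * Matrix.diagonal l) (h2 : B * F = F * A) (hA : ∀ i j, A i j ≠ 0) :
    F.det ≠ 0 := by
  intro h0
  obtain ⟨v, hv0, hv⟩ := Matrix.exists_mulVec_eq_zero_iff.2 h0
  obtain ⟨i, hi⟩ := Function.ne_iff.1 hv0
  have hcol : ∀ r, F r i = 0 := fun r =>
    (mul_eq_zero.1 (A_Twine_ker hl h1 hv r i)).resolve_right hi
  have hu : F *ᵥ (fun j => A j i) = 0 := by
    funext r
    have h3 := congrFun (congrFun h2 r) i
    rw [Matrix.mul_apply, Matrix.mul_apply] at h3
    simp only [Matrix.mulVec, dotProduct, Pi.zero_apply]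
    rw [← h3]
    exact Finset.sum_eq_zero fun k _ => by rw [hcol k, mul_zero]
  apply hF
  ext r j
  exact (mul_eq_zero.1 (A_Twine_ker hl h1 hu r j)).resolve_right (hA j i)

/-- A limit version of the conjugation. If `E n ∈ SL(3)`, the matrices `F n = E n / ‖E n‖` converge
to an invertible `F`, then `E n` is a bounded multiple of `F n` and
`E n → (det F)^(-1/3) F`. Here `s n > 0` are the factors. -/
theorem conj_limit {E : ℕ → SL3} {s : ℕ → ℝ} {F : M3} (hs : ∀ n, 0 < s n)
    (hE : Filter.Tendsto (fun n => s n • (E n).1) Filter.atTop (nhds F)) (hF : F.det ≠ 0) :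
    ∃ E' : SL3, Filter.Tendsto E Filter.atTop (nhds E') := by
  -- `det (s n • E n) = s n ^ 3 → det F > 0`, so `s n` converges to a positive limit
  have hdet : ∀ n, (s n • (E n).1).det = s n ^ 3 := by
    intro n
    rw [Matrix.det_smul, (E n).2, mul_one, Fintype.card_fin]
  have h1 : Filter.Tendsto (fun n => s n ^ 3) Filter.atTop (nhds F.det) := by
    have h2 : Filter.Tendsto (fun n => (s n • (E n).1).det) Filter.atTop (nhds F.det) :=
      ((continuous_id.matrix_det).tendsto F).comp hE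
    refine h2.congr fun n => hdet n
  have h3 : 0 < F.det := by
    refine lt_of_le_of_ne ?_ (Ne.symm hF)
    exact ge_of_tendsto' h1 fun n => (pow_pos (hs n) 3).le
  set t : ℝ := F.det ^ ((1 : ℝ) / 3) with ht
  have htp : 0 < t := Real.rpow_pos_of_pos h3 _
  have ht3 : t ^ 3 = F.det := by
    rw [ht, ← Real.rpow_natCast, ← Real.rpow_mul h3.le]
    norm_num
  have h4 : Filter.Tendsto s Filter.atTop (nhds t) := by
    have h5 : Filter.Tendsto (fun n => (s n ^ 3) ^ ((1 : ℝ) / 3)) Filter.atTop (nhds t) :=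
      h1.rpow_const (Or.inl hF)
    refine h5.congr fun n => ?_
    rw [← Real.rpow_natCast, ← Real.rpow_mul (hs n).le]
    norm_num
  have h6 : Filter.Tendsto (fun n => (s n)⁻¹ • (s n • (E n).1)) Filter.atTop
      (nhds (t⁻¹ • F)) := (h4.inv₀ htp.ne').smul hE
  have h7 : (t⁻¹ • F).det = 1 := by
    rw [Matrix.det_smul, Fintype.card_fin, ← ht3, ← mul_pow, inv_mul_cancel₀ htp.ne', one_pow]
  refine ⟨⟨t⁻¹ • F, h7⟩, ?_⟩
  have hind : Topology.IsInducing (fun M : SL3 => M.1) := Topology.IsInducing.subtypeVal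
  refine hind.tendsto_nhds_iff.2 (h6.congr fun n => ?_)
  change _ = (E n).1
  rw [smul_smul, inv_mul_cancel₀ (hs n).ne', one_smul]

end Pool.Agent.LibHit3
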