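import Pool.Agent.LibHit3.Defs

set_option autoImplicit false

noncomputable section

open Matrix
open scoped MatrixGroups

namespace Pool.Agent.LibHit3

/-! Task A07. Inequalities between the absolute values of the entries of a matrix `M` of
determinant one such that `M` and `M⁻¹` have the column signs `+, -, +`. All of them are the
formulas for the entries of the adjugate of `M` (or of `M⁻¹`) together with the signs:
`M⁻¹ = adjugate M` (`Matrix.SpecialLinearGroup.coe_inv`, `Matrix.adjugate_fin_three`). -/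

/-- The absolute values of the entries. -/
def ab (M : SL3) (i j : Fin 3) : ℝ := |M.1 i j|

/-- `M` and its inverse have the column signs `+, -, +`. -/
def Col2 (M : SL3) : Prop := ColPat M.1 ∧ ColPat (M⁻¹).1

/-- `M` and its inverse have the row signs `+, -, +`. -/
def Row2 (M : SL3) : Prop := RowPat M.1 ∧ RowPat (M⁻¹).1

lemma ab_pos {M : SL3} (h : Col2 M) (i j : Fin 3) : 0 < ab M i j := by
  refine abs_pos.2 fun h0 => ?_
  have h1 := h.1 i j
  rw [h0, mul_zero] at h1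
  exact lt_irrefl _ h1

lemma ab_pos' {M : SL3} (h : Row2 M) (i j : Fin 3) : 0 < ab M i j := by
  refine abs_pos.2 fun h0 => ?_
  have h1 := h.1 i j
  rw [h0, mul_zero] at h1
  exact lt_irrefl _ h1

/-- The absolute value of `sg i` is one. -/
lemma A_Minor_sg (i : Fin 3) : |sg i| = 1 := by
  fin_cases i <;> simp [sg]

lemma A_Minor_ab {M : SL3} (h : ColPat M.1) (i j : Fin 3) : ab M i j = sg j * M.1 i j := by
  unfold ab
  rw [← abs_of_pos (h i j), abs_mul, A_Minor_sg, one_mul]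

lemma A_Minor_ab' {M : SL3} (h : RowPat M.1) (i j : Fin 3) : ab M i j = sg i * M.1 i j := by
  unfold ab
  rw [← abs_of_pos (h i j), abs_mul, A_Minor_sg, one_mul]

/-- The inverse is the adjugate. -/
lemma A_Minor_inv (M : SL3) : (M⁻¹).1 = M.1.adjugate :=
  Matrix.SpecialLinearGroup.coe_inv M

lemma A_Minor_tinv (M : SL3) :
    ((SpecialLinearGroup.transpose M)⁻¹).1 = (M⁻¹).1ᵀ := by
  rw [A_Minor_inv, A_Minor_inv, Matrix.adjugate_transpose]
  rfl

/-- The transpose exchanges the two patterns. -/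
lemma Row2.transpose {M : SL3} (h : Row2 M) : Col2 (SpecialLinearGroup.transpose M) := by
  refine ⟨fun i j => h.1 j i, fun i j => ?_⟩
  rw [A_Minor_tinv]
  exact h.2 j i

lemma Col2.transpose {M : SL3} (h : Col2 M) : Row2 (SpecialLinearGroup.transpose M) := by
  refine ⟨fun i j => h.1 j i, fun i j => ?_⟩
  rw [A_Minor_tinv]
  exact h.2 j i

lemma Col2.inv {M : SL3} (h : Col2 M) : Col2 M⁻¹ := by
  refine ⟨h.2, ?_⟩
  rw [inv_inv]
  exact h.1

lemma minors {M : SL3} (h : Col2 M) :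
    ab M⁻¹ 0 2 + ab M 0 1 * ab M 1 2 = ab M 0 2 * ab M 1 1 ∧
    ab M⁻¹ 2 0 + ab M 1 0 * ab M 2 1 = ab M 2 0 * ab M 1 1 ∧
    ab M⁻¹ 0 0 + ab M 1 1 * ab M 2 2 = ab M 1 2 * ab M 2 1 ∧
    ab M⁻¹ 2 2 + ab M 0 0 * ab M 1 1 = ab M 0 1 * ab M 1 0 ∧
    ab M⁻¹ 1 1 + ab M 0 0 * ab M 2 2 = ab M 0 2 * ab M 2 0 ∧
    ab M⁻¹ 2 1 + ab M 0 0 * ab M 2 1 = ab M 0 1 * ab M 2 0 ∧
    ab M⁻¹ 0 1 + ab M 0 1 * ab M 2 2 = ab M 0 2 * ab M 2 1 ∧
    ab M⁻¹ 1 0 + ab M 1 0 * ab M 2 2 = ab M 1 2 * ab M 2 0 ∧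
    ab M⁻¹ 1 2 + ab M 0 0 * ab M 1 2 = ab M 0 2 * ab M 1 0 := by
  have e := A_Minor_inv M
  rw [Matrix.adjugate_fin_three] at e
  have e00 := congrFun (congrFun e 0) 0
  have e01 := congrFun (congrFun e 0) 1
  have e02 := congrFun (congrFun e 0) 2
  have e10 := congrFun (congrFun e 1) 0
  have e11 := congrFun (congrFun e 1) 1
  have e12 := congrFun (congrFun e 1) 2
  have e20 := congrFun (congrFun e 2) 0
  have e21 := congrFun (congrFun e 2) 1
  have e22 := congrFun (congrFun e 2) 2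
  refine ⟨?_, ?_, ?_, ?_, ?_, ?_, ?_, ?_, ?_⟩ <;>
    simp only [A_Minor_ab h.1, A_Minor_ab h.2, e00, e01, e02, e10, e11, e12, e20, e21, e22] <;>
    simp [sg] <;> ring

/-- **The basic inequality.** `M 1 1 = N 0 0 N 2 2 - N 0 2 N 2 0` for `N = M⁻¹`, so
`|M 1 1| ≤ N 0 2 N 2 0 ≤ (M 0 2 |M 1 1|) (M 2 0 |M 1 1|)`. -/
lemma one_le_prod {M : SL3} (h : Col2 M) : 1 ≤ ab M 0 2 * ab M 1 1 * ab M 2 0 := by
  obtain ⟨m1, m2, -⟩ := minors h
  obtain ⟨-, -, -, -, m5, -⟩ := minors h.inv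
  rw [inv_inv] at m5
  have p02 := ab_pos h 0 2
  have p20 := ab_pos h 2 0
  have p11 := ab_pos h 1 1
  have q02 := ab_pos h.inv 0 2
  have q20 := ab_pos h.inv 2 0
  have h1 : ab M⁻¹ 0 2 ≤ ab M 0 2 * ab M 1 1 := by
    have := mul_pos (ab_pos h 0 1) (ab_pos h 1 2)
    linarith
  have h2 : ab M⁻¹ 2 0 ≤ ab M 2 0 * ab M 1 1 := by
    have := mul_pos (ab_pos h 1 0) (ab_pos h 2 1)
    linarith
  have h3 : ab M 1 1 ≤ ab M⁻¹ 0 2 * ab M⁻¹ 2 0 := by
    have := mul_pos (ab_pos h.inv 0 0) (ab_pos h.inv 2 2)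
    linarith
  have h4 : ab M⁻¹ 0 2 * ab M⁻¹ 2 0 ≤ (ab M 0 2 * ab M 1 1) * (ab M 2 0 * ab M 1 1) :=
    mul_le_mul h1 h2 q20.le (mul_pos p02 p11).le
  have h5 : 1 * ab M 1 1 ≤ (ab M 0 2 * ab M 1 1 * ab M 2 0) * ab M 1 1 := by
    linarith
  exact le_of_mul_le_mul_right h5 p11

/-- Consequences of the pattern of the square `M * M`. -/
lemma square_ineq {M : SL3} (h : Col2 M) (h2 : ColPat (M * M).1) :
    ab M 0 1 * ab M 1 0 ≤ ab M 0 2 * ab M 2 0 + ab M 0 0 ^ 2 ∧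
    ab M 2 1 * ab M 1 2 ≤ ab M 2 0 * ab M 0 2 + ab M 2 2 ^ 2 ∧
    ab M 1 1 ^ 2 ≤ ab M 1 0 * ab M 0 1 + ab M 1 2 * ab M 2 1 := by
  have s00 := h2 0 0
  have s11 := h2 1 1
  have s22 := h2 2 2
  have hm : (M * M).1 = M.1 * M.1 := rfl
  rw [hm, Matrix.mul_apply, Fin.sum_univ_three] at s00 s11 s22
  simp only [A_Minor_ab h.1]
  simp [sg] at s00 s11 s22 ⊢
  refine ⟨?_, ?_, ?_⟩ <;> linarith

/-- The trace. -/
lemma trace_ab {M : SL3} (h : Col2 M) : M.1.trace = ab M 0 0 - ab M 1 1 + ab M 2 2 := by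
  simp only [A_Minor_ab h.1]
  rw [Matrix.trace, Fin.sum_univ_three]
  simp [sg]

/-- The cross traces: all nine terms of `tr (G H)` are positive. -/
lemma cross {G H : SL3} (hG : ColPat G.1) (hH : RowPat H.1) (i j : Fin 3) :
    ab G i j * ab H j i ≤ (G * H).1.trace := by
  have h1 : (G * H).1.trace = ∑ i, ∑ j, ab G i j * ab H j i := by
    have hm : (G * H).1 = G.1 * H.1 := rfl
    rw [hm]
    unfold Matrix.trace
    refine Finset.sum_congr rfl fun i _ => ?_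
    rw [Matrix.diag_apply, Matrix.mul_apply]
    refine Finset.sum_congr rfl fun j _ => ?_
    rw [A_Minor_ab hG, A_Minor_ab' hH]
    have h2 : sg j * sg j = 1 := by
      fin_cases j <;> simp [sg]
    linear_combination (-(G.1 i j * H.1 j i)) * h2
  rw [h1]
  have h3 : ∀ i j, 0 ≤ ab G i j * ab H j i := fun i j =>
    mul_nonneg (abs_nonneg _) (abs_nonneg _)
  exact (Finset.single_le_sum (f := fun j => ab G i j * ab H j i) (fun j _ => h3 i j)
    (Finset.mem_univ j)).trans (Finset.single_le_sum (f := fun i => ∑ j, ab G i j * ab H j i)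
    (fun i _ => Finset.sum_nonneg fun j _ => h3 i j) (Finset.mem_univ i))

end Pool.Agent.LibHit3
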