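import Pool.Agent.LibHit3.A_Lim1
import Pool.Agent.LibHit3.A_Minor

set_option autoImplicit false

noncomputable section

open Matrix
open scoped MatrixGroups

namespace Pool.Agent.LibHit3

private lemma wl_act {f : SL3 × SL3 → SL3} (hf : Continuous f) (U : Flag) :
    Continuous fun t => (act (f t) U).L :=
  (continuous_subtype_val.comp hf).matrix_mulVec continuous_const

private lemma wl_oct (j : Fin 8) :
    Continuous fun t : SL3 × SL3 => (octPt t.1 t.2 1 j).L := by
  have hx : Continuous fun t : SL3 × SL3 => t.1 := continuous_fst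
  have hy : Continuous fun t : SL3 × SL3 => t.2 := continuous_snd
  have hE : Continuous fun _ : SL3 × SL3 => (1 : SL3) := continuous_const
  fin_cases j
  · exact wl_act hE _
  · exact wl_act (hy.inv.mul hE) _
  · exact wl_act (hy.inv.mul hE) _
  · exact wl_act ((hx.inv.mul hy.inv).mul hE) _
  · exact wl_act ((hx.inv.mul hy.inv).mul hE) _
  · exact wl_act (hx.inv.mul hE) _
  · exact wl_act (hx.inv.mul hE) _
  · exact wl_act hE _

private lemma wl_det3 {T : Type} [TopologicalSpace T] {u v w : T → Fin 3 → ℝ}
    (hu : Continuous u) (hv : Continuous v) (hw : Continuous w) :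
    Continuous fun t => det3 (u t) (v t) (w t) := by
  unfold det3
  apply Continuous.matrix_det
  apply continuous_pi
  intro i
  fin_cases i
  · exact hu
  · exact hv
  · exact hw

private lemma wl_ev (w : FG) : Continuous fun t : SL3 × SL3 => ev t.1 t.2 w := by
  induction w using FreeGroup.induction_on with
  | C1 => simp only [map_one]; exact continuous_const
  | of i =>
    fin_cases i
    · have : (fun t : SL3 × SL3 => ev t.1 t.2 (FreeGroup.of 0)) = fun t => t.1 := by
        funext t; exact ev_wx t.1 t.2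
      change Continuous fun t : SL3 × SL3 => ev t.1 t.2 (FreeGroup.of 0)
      rw [this]; exact continuous_fst
    · have : (fun t : SL3 × SL3 => ev t.1 t.2 (FreeGroup.of 1)) = fun t => t.2 := by
        funext t; exact ev_wy t.1 t.2
      change Continuous fun t : SL3 × SL3 => ev t.1 t.2 (FreeGroup.of 1)
      rw [this]; exact continuous_snd
  | inv_of i hi =>
    simp only [map_inv]
    exact hi.inv
  | mul a b ha hb =>
    simp only [map_mul]
    exact ha.mul hb

private lemma wl_entry (w : FG) (i j : Fin 3) :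
    Continuous fun t : SL3 × SL3 => (ev t.1 t.2 w).1 i j :=
  (continuous_subtype_val.comp (wl_ev w)).matrix_elem i j

/-- Task A18. Limits of good pairs (in the basis `E = 1`) are weakly good. All conditions in
`Weak` are closed: `ev (x n) (y n) w → ev x y w` for every word `w`; `l n i` is an entry of the
commutator, so it converges; its limit is nonnegative with product one, hence positive; `prd` is
`one_le_prod`. -/
theorem weak_of_tendsto {x y : ℕ → SL3} {l : ℕ → Fin 3 → ℝ} {x' y' : SL3}
    (h : ∀ n, Good (x n) (y n) 1 (l n))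
    (hx : Filter.Tendsto x Filter.atTop (nhds x')) (hy : Filter.Tendsto y Filter.atTop (nhds y')) :
    ∃ l', Weak x' y' l' := by
  have hxy : Filter.Tendsto (fun n => (x n, y n)) Filter.atTop (nhds (x', y')) :=
    hx.prodMk_nhds hy
  have lim : ∀ {f : SL3 × SL3 → ℝ}, Continuous f →
      Filter.Tendsto (fun n => f (x n, y n)) Filter.atTop (nhds (f (x', y'))) := fun hf =>
    (hf.tendsto _).comp hxy
  have nonneg : ∀ {f : SL3 × SL3 → ℝ}, Continuous f → (∀ n, 0 ≤ f (x n, y n)) →
      0 ≤ f (x', y') := fun hf h0 => ge_of_tendsto' (lim hf) h0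
  -- the commutator
  have hdiag : ∀ n, (ev (x n) (y n) wg).1 = Matrix.diagonal (l n) := by
    intro n
    have h1 := (h n).diag
    rw [inv_one, one_mul, mul_one] at h1
    rw [ev_wg]
    exact h1
  have hl : ∀ n i, l n i = (ev (x n) (y n) wg).1 i i := by
    intro n i
    rw [hdiag n, Matrix.diagonal_apply_eq]
  have hpat : ∀ n w, w ∉ Subgroup.zpowers wg → ColPat (ev (x n) (y n) w).1 := by
    intro n w hw
    have h1 := (h n).colPat hw
    rwa [inv_one, one_mul, mul_one] at h1
  set l' : Fin 3 → ℝ := fun i => (ev x' y' wg).1 i i with hl'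
  have hoff : ∀ i j, i ≠ j → (ev x' y' wg).1 i j = 0 := by
    intro i j hij
    have h1 : Filter.Tendsto (fun n => (ev (x n) (y n) wg).1 i j) Filter.atTop
        (nhds ((ev x' y' wg).1 i j)) := lim (wl_entry wg i j)
    have h2 : (fun n => (ev (x n) (y n) wg).1 i j) = fun _ => 0 := by
      funext n
      rw [hdiag n, Matrix.diagonal_apply_ne _ hij]
    rw [h2] at h1
    exact (tendsto_nhds_unique h1 tendsto_const_nhds)
  have hdiag' : (ev x' y' wg).1 = Matrix.diagonal l' := by
    ext i j
    by_cases hij : i = j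
    · subst hij
      rw [Matrix.diagonal_apply_eq]
    · rw [hoff i j hij, Matrix.diagonal_apply_ne _ hij]
  have hlpos : ∀ n i, 0 < l n i := by
    intro n i
    have h0 := (h n).l01
    have h1 := (h n).l12
    have h2 := (h n).l2
    fin_cases i
    · change 0 < l n 0
      linarith
    · change 0 < l n 1
      linarith
    · exact h2
  have hl0 : ∀ i, 0 ≤ l' i := fun i =>
    nonneg (wl_entry wg i i) (fun n => by
      change 0 ≤ (ev (x n) (y n) wg).1 i i
      rw [← hl n i]
      exact (hlpos n i).le)
  have hle : ∀ i j, (∀ n, l n i ≤ l n j) → l' i ≤ l' j := by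
    intro i j hij
    have h1 : Filter.Tendsto (fun n => (ev (x n) (y n) wg).1 i i) Filter.atTop
        (nhds ((ev x' y' wg).1 i i)) := lim (wl_entry wg i i)
    have h2 : Filter.Tendsto (fun n => (ev (x n) (y n) wg).1 j j) Filter.atTop
        (nhds ((ev x' y' wg).1 j j)) := lim (wl_entry wg j j)
    refine le_of_tendsto_of_tendsto' h1 h2 fun n => ?_
    rw [← hl n i, ← hl n j]
    exact hij n
  have hprod : l' 0 * l' 1 * l' 2 = 1 := by
    have h1 := (ev x' y' wg).2
    rw [hdiag', Matrix.det_diagonal, Fin.prod_univ_three] at h1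
    exact h1
  refine ⟨l', ⟨hle 1 0 fun n => (h n).l01.le, hle 2 1 fun n => (h n).l12.le, ?_, ?_, ?_, ?_, ?_, ?_⟩⟩
  · rcases (hl0 2).lt_or_eq with h1 | h1
    · exact h1
    · rw [← h1, mul_zero] at hprod
      exact absurd hprod zero_ne_one
  · rw [← ev_wg]
    exact hdiag'
  · intro w hw i j
    exact nonneg (f := fun t => sg j * (ev t.1 t.2 w).1 i j)
      (continuous_const.mul (wl_entry w i j)) (fun n => (hpat n w hw i j).le)
  · intro w hw
    have hc : Continuous fun t : SL3 × SL3 =>
        |(ev t.1 t.2 w).1 0 2 * (ev t.1 t.2 w).1 1 1 * (ev t.1 t.2 w).1 2 0| :=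
      (((wl_entry w 0 2).mul (wl_entry w 1 1)).mul (wl_entry w 2 0)).abs
    refine ge_of_tendsto' (lim hc) fun n => ?_
    have hw' : w⁻¹ ∉ Subgroup.zpowers wg := fun h1 => hw (by
      rw [← inv_inv w]; exact (Subgroup.zpowers wg).inv_mem h1)
    have h1 : Col2 (ev (x n) (y n) w) := by
      refine ⟨hpat n w hw, ?_⟩
      rw [← map_inv]
      exact hpat n _ hw'
    have h2 := one_le_prod h1
    unfold ab at h2
    change 1 ≤ |(ev (x n) (y n) w).1 0 2 * (ev (x n) (y n) w).1 1 1 * (ev (x n) (y n) w).1 2 0|
    rw [abs_mul, abs_mul]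
    exact h2
  · intro w hw
    exact (h 0).mal hw
  · intro i
    exact nonneg (f := fun t => det3 (octPt t.1 t.2 1 0).L (octPt t.1 t.2 1 i.succ.castSucc).L
      (octPt t.1 t.2 1 i.succ.succ).L) (wl_det3 (wl_oct 0) (wl_oct _) (wl_oct _))
      (fun n => ((h n).oct i).dt.le)

end Pool.Agent.LibHit3
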