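import Pool.Agent.LibHit3.A_Lim3
import Pool.Agent.LibHit3.A_Bd
import Pool.Agent.LibHit3.A_Twine
import Pool.Agent.LibHit3.A_Data
import Pool.Agent.LibHit3.A_WeakLim

set_option autoImplicit false

noncomputable section

open Matrix
open scoped MatrixGroups

namespace Pool.Agent.LibHit3

open Filter Topology Pool.Agent.LibHyperelliptic

instance : FirstCountableTopology M3 :=
  inferInstanceAs (FirstCountableTopology (Fin 3 → Fin 3 → ℝ))

lemma sl_tendsto {u : ℕ → SL3} {M : M3} (h : Tendsto (fun n => (u n).1) atTop (𝓝 M)) :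
    ∃ g : SL3, g.1 = M ∧ Tendsto u atTop (𝓝 g) := by
  have h1 : Tendsto (fun n => (u n).1.det) atTop (𝓝 M.det) :=
    ((continuous_id.matrix_det).tendsto M).comp h
  have h2 : M.det = 1 := by
    have h3 : (fun n => (u n).1.det) = fun _ => (1 : ℝ) := funext fun n => (u n).2
    rw [h3] at h1
    exact tendsto_nhds_unique tendsto_const_nhds h1 |>.symm
  exact ⟨⟨M, h2⟩, rfl, tendsto_subtype_rng.2 h⟩

/-- The sum of the absolute values of the entries. -/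
def sab (M : M3) : ℝ := ∑ i, ∑ j, |M i j|

lemma le_sab (M : M3) (i j : Fin 3) : |M i j| ≤ sab M :=
  (Finset.single_le_sum (f := fun j => |M i j|) (fun _ _ => abs_nonneg _) (Finset.mem_univ j)).trans
    (Finset.single_le_sum (f := fun i => ∑ j, |M i j|)
      (fun _ _ => Finset.sum_nonneg fun _ _ => abs_nonneg _) (Finset.mem_univ i))

lemma sab_smul {s : ℝ} (hs : 0 ≤ s) (M : M3) : sab (s • M) = s * sab M := by
  simp only [sab, Finset.mul_sum, Matrix.smul_apply, smul_eq_mul, abs_mul, abs_of_nonneg hs]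

lemma continuous_sab : Continuous sab := by
  unfold sab
  refine continuous_finset_sum _ fun i _ => continuous_finset_sum _ fun j _ => ?_
  exact (continuous_id.matrix_elem i j).abs

lemma sab_pos {M : M3} (h : M ≠ 0) : 0 < sab M := by
  by_contra hc
  apply h
  ext i j
  have h1 := le_sab M i j
  have h2 : |M i j| = 0 := le_antisymm (by linarith) (abs_nonneg _)
  simpa using h2

lemma subseq4 {A B C D : ℕ → SL3} {S : ℝ} (hA : ∀ n i j, ab (A n) i j ≤ S)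
    (hB : ∀ n i j, ab (B n) i j ≤ S) (hC : ∀ n i j, ab (C n) i j ≤ S)
    (hD : ∀ n i j, ab (D n) i j ≤ S) (E : ℕ → M3) (hE : ∀ n, sab (E n) = 1) :
    ∃ (φ : ℕ → ℕ) (A' B' C' D' : SL3) (F : M3), StrictMono φ ∧
      Tendsto (A ∘ φ) atTop (𝓝 A') ∧ Tendsto (B ∘ φ) atTop (𝓝 B') ∧
      Tendsto (C ∘ φ) atTop (𝓝 C') ∧ Tendsto (D ∘ φ) atTop (𝓝 D') ∧
      Tendsto (E ∘ φ) atTop (𝓝 F) ∧ F ≠ 0 := by
  have hK : IsCompact {M : M3 | ∀ i j, M i j ∈ Set.Icc (-S) S} := isCompact_Icc.matrix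
  have hK' : IsCompact {M : M3 | ∀ i j, M i j ∈ Set.Icc (-1 : ℝ) 1} := isCompact_Icc.matrix
  have hKK := hK.prod (hK.prod (hK.prod (hK.prod hK')))
  obtain ⟨⟨a, b, c, d, F⟩, -, φ, hφ, hlim⟩ := hKK.tendsto_subseq
    (x := fun n => ((A n).1, (B n).1, (C n).1, (D n).1, E n)) (fun n => by
      refine ⟨fun i j => abs_le.1 (hA n i j), fun i j => abs_le.1 (hB n i j),
        fun i j => abs_le.1 (hC n i j), fun i j => abs_le.1 (hD n i j), fun i j => ?_⟩
      exact abs_le.1 ((le_sab (E n) i j).trans (hE n).le))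
  have l1 : Tendsto (fun n => (A (φ n)).1) atTop (𝓝 a) :=
    (continuous_fst.tendsto _).comp hlim
  have l2 : Tendsto (fun n => (B (φ n)).1) atTop (𝓝 b) :=
    ((continuous_fst.comp continuous_snd).tendsto _).comp hlim
  have l3 : Tendsto (fun n => (C (φ n)).1) atTop (𝓝 c) :=
    ((continuous_fst.comp (continuous_snd.comp continuous_snd)).tendsto _).comp hlim
  have l4 : Tendsto (fun n => (D (φ n)).1) atTop (𝓝 d) :=
    ((continuous_fst.comp (continuous_snd.comp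
      (continuous_snd.comp continuous_snd))).tendsto _).comp hlim
  have l5 : Tendsto (E ∘ φ) atTop (𝓝 F) :=
    ((continuous_snd.comp (continuous_snd.comp
      (continuous_snd.comp continuous_snd))).tendsto _).comp hlim
  obtain ⟨A', -, hA'⟩ := sl_tendsto l1
  obtain ⟨B', -, hB'⟩ := sl_tendsto l2
  obtain ⟨C', -, hC'⟩ := sl_tendsto l3
  obtain ⟨D', -, hD'⟩ := sl_tendsto l4
  refine ⟨φ, A', B', C', D', F, hφ, hA', hB', hC', hD', l5, ?_⟩
  rintro rfl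
  have h1 : Tendsto (fun n => sab (E (φ n))) atTop (𝓝 (sab 0)) :=
    (continuous_sab.tendsto _).comp l5
  have h2 : (fun n => sab (E (φ n))) = fun _ => (1 : ℝ) := funext fun n => hE _
  rw [h2] at h1
  have h3 := tendsto_nhds_unique tendsto_const_nhds h1
  have h4 : sab (0 : M3) = 0 := by simp [sab]
  rw [h4] at h3
  norm_num at h3

/-- The bound for the traces. -/
def trF (x : SL3 × SL3 × SL3 × SL3) : ℝ :=
  1 + (∑ i : Fin 4, |(![x.1, x.1⁻¹, x.2.1, x.2.1⁻¹] i).1.trace|) +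
    (∑ i : Fin 4, |(![x.2.2.1, x.2.2.1⁻¹, x.2.2.2, x.2.2.2⁻¹] i).1.trace|) +
    (∑ i : Fin 4, ∑ j : Fin 4, |((![x.1, x.1⁻¹, x.2.1, x.2.1⁻¹] i) *
      (![x.2.2.1, x.2.2.1⁻¹, x.2.2.2, x.2.2.2⁻¹] j)).1.trace|)

lemma continuous_tr : Continuous fun g : SL3 => g.1.trace :=
  continuous_subtype_val.matrix_trace

lemma continuous_vec4 {X : Type*} [TopologicalSpace X] {f g : X → SL3} (hf : Continuous f)
    (hg : Continuous g) (i : Fin 4) :
    Continuous fun x => (![f x, (f x)⁻¹, g x, (g x)⁻¹] i : SL3) := by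
  fin_cases i
  · exact hf
  · exact hf.inv
  · exact hg
  · exact hg.inv

lemma continuous_trF : Continuous trF := by
  unfold trF
  have h1 : ∀ i, Continuous fun x : SL3 × SL3 × SL3 × SL3 =>
      (![x.1, x.1⁻¹, x.2.1, x.2.1⁻¹] i : SL3) := fun i =>
    continuous_vec4 continuous_fst (continuous_fst.comp continuous_snd) i
  have h2 : ∀ i, Continuous fun x : SL3 × SL3 × SL3 × SL3 =>
      (![x.2.2.1, x.2.2.1⁻¹, x.2.2.2, x.2.2.2⁻¹] i : SL3) := fun i =>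
    continuous_vec4 (continuous_fst.comp (continuous_snd.comp continuous_snd))
      (continuous_snd.comp (continuous_snd.comp continuous_snd)) i
  refine ((continuous_const.add ?_).add ?_).add ?_
  · exact continuous_finset_sum _ fun i _ => (continuous_tr.comp (h1 i)).abs
  · exact continuous_finset_sum _ fun i _ => (continuous_tr.comp (h2 i)).abs
  · exact continuous_finset_sum _ fun i _ => continuous_finset_sum _ fun j _ =>
      (continuous_tr.comp ((h1 i).mul (h2 j))).abs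

lemma one_le_trF (x : SL3 × SL3 × SL3 × SL3) : 1 ≤ trF x := by
  unfold trF
  have h1 : 0 ≤ ∑ i : Fin 4, |(![x.1, x.1⁻¹, x.2.1, x.2.1⁻¹] i).1.trace| :=
    Finset.sum_nonneg fun _ _ => abs_nonneg _
  have h2 : 0 ≤ ∑ i : Fin 4, |(![x.2.2.1, x.2.2.1⁻¹, x.2.2.2, x.2.2.2⁻¹] i).1.trace| :=
    Finset.sum_nonneg fun _ _ => abs_nonneg _
  have h3 : 0 ≤ ∑ i : Fin 4, ∑ j : Fin 4, |((![x.1, x.1⁻¹, x.2.1, x.2.1⁻¹] i) *
      (![x.2.2.1, x.2.2.1⁻¹, x.2.2.2, x.2.2.2⁻¹] j)).1.trace| :=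
    Finset.sum_nonneg fun _ _ => Finset.sum_nonneg fun _ _ => abs_nonneg _
  linarith

lemma tr1_le (x : SL3 × SL3 × SL3 × SL3) (i : Fin 4) :
    (![x.1, x.1⁻¹, x.2.1, x.2.1⁻¹] i).1.trace ≤ trF x := by
  refine (le_abs_self _).trans ?_
  unfold trF
  have h1 : |(![x.1, x.1⁻¹, x.2.1, x.2.1⁻¹] i).1.trace| ≤
      ∑ i : Fin 4, |(![x.1, x.1⁻¹, x.2.1, x.2.1⁻¹] i).1.trace| :=
    Finset.single_le_sum (f := fun i => |(![x.1, x.1⁻¹, x.2.1, x.2.1⁻¹] i).1.trace|)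
      (fun _ _ => abs_nonneg _) (Finset.mem_univ i)
  have h2 : 0 ≤ ∑ i : Fin 4, |(![x.2.2.1, x.2.2.1⁻¹, x.2.2.2, x.2.2.2⁻¹] i).1.trace| :=
    Finset.sum_nonneg fun _ _ => abs_nonneg _
  have h3 : 0 ≤ ∑ i : Fin 4, ∑ j : Fin 4, |((![x.1, x.1⁻¹, x.2.1, x.2.1⁻¹] i) *
      (![x.2.2.1, x.2.2.1⁻¹, x.2.2.2, x.2.2.2⁻¹] j)).1.trace| :=
    Finset.sum_nonneg fun _ _ => Finset.sum_nonneg fun _ _ => abs_nonneg _
  linarith

lemma tr2_le (x : SL3 × SL3 × SL3 × SL3) (i : Fin 4) :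
    (![x.2.2.1, x.2.2.1⁻¹, x.2.2.2, x.2.2.2⁻¹] i).1.trace ≤ trF x := by
  refine (le_abs_self _).trans ?_
  unfold trF
  have h2 : |(![x.2.2.1, x.2.2.1⁻¹, x.2.2.2, x.2.2.2⁻¹] i).1.trace| ≤
      ∑ i : Fin 4, |(![x.2.2.1, x.2.2.1⁻¹, x.2.2.2, x.2.2.2⁻¹] i).1.trace| :=
    Finset.single_le_sum
      (f := fun i => |(![x.2.2.1, x.2.2.1⁻¹, x.2.2.2, x.2.2.2⁻¹] i).1.trace|)
      (fun _ _ => abs_nonneg _) (Finset.mem_univ i)
  have h1 : 0 ≤ ∑ i : Fin 4, |(![x.1, x.1⁻¹, x.2.1, x.2.1⁻¹] i).1.trace| :=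
    Finset.sum_nonneg fun _ _ => abs_nonneg _
  have h3 : 0 ≤ ∑ i : Fin 4, ∑ j : Fin 4, |((![x.1, x.1⁻¹, x.2.1, x.2.1⁻¹] i) *
      (![x.2.2.1, x.2.2.1⁻¹, x.2.2.2, x.2.2.2⁻¹] j)).1.trace| :=
    Finset.sum_nonneg fun _ _ => Finset.sum_nonneg fun _ _ => abs_nonneg _
  linarith

lemma tr3_le (x : SL3 × SL3 × SL3 × SL3) (i j : Fin 4) :
    ((![x.1, x.1⁻¹, x.2.1, x.2.1⁻¹] i) *
      (![x.2.2.1, x.2.2.1⁻¹, x.2.2.2, x.2.2.2⁻¹] j)).1.trace ≤ trF x := by
  refine (le_abs_self _).trans ?_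
  unfold trF
  have h3 : |((![x.1, x.1⁻¹, x.2.1, x.2.1⁻¹] i) *
      (![x.2.2.1, x.2.2.1⁻¹, x.2.2.2, x.2.2.2⁻¹] j)).1.trace| ≤
      ∑ i : Fin 4, ∑ j : Fin 4, |((![x.1, x.1⁻¹, x.2.1, x.2.1⁻¹] i) *
      (![x.2.2.1, x.2.2.1⁻¹, x.2.2.2, x.2.2.2⁻¹] j)).1.trace| :=
    (Finset.single_le_sum (f := fun j => |((![x.1, x.1⁻¹, x.2.1, x.2.1⁻¹] i) *
      (![x.2.2.1, x.2.2.1⁻¹, x.2.2.2, x.2.2.2⁻¹] j)).1.trace|)
      (fun _ _ => abs_nonneg _) (Finset.mem_univ j)).trans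
    (Finset.single_le_sum (f := fun i => ∑ j, |((![x.1, x.1⁻¹, x.2.1, x.2.1⁻¹] i) *
      (![x.2.2.1, x.2.2.1⁻¹, x.2.2.2, x.2.2.2⁻¹] j)).1.trace|)
      (fun _ _ => Finset.sum_nonneg fun _ _ => abs_nonneg _) (Finset.mem_univ i))
  have h1 : 0 ≤ ∑ i : Fin 4, |(![x.1, x.1⁻¹, x.2.1, x.2.1⁻¹] i).1.trace| :=
    Finset.sum_nonneg fun _ _ => abs_nonneg _
  have h2 : 0 ≤ ∑ i : Fin 4, |(![x.2.2.1, x.2.2.1⁻¹, x.2.2.2, x.2.2.2⁻¹] i).1.trace| :=
    Finset.sum_nonneg fun _ _ => abs_nonneg _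
  linarith

lemma mem4 {a b g : SL3} (h : g ∈ ({a, a⁻¹, b, b⁻¹} : Set SL3)) :
    ∃ i : Fin 4, g = ![a, a⁻¹, b, b⁻¹] i := by
  rcases h with rfl | rfl | rfl | h
  · exact ⟨0, rfl⟩
  · exact ⟨1, rfl⟩
  · exact ⟨2, rfl⟩
  · exact ⟨3, h⟩

/-- Existence of normalized bases. -/
lemma exists_basis {a b c d : SL3} {R S : ℝ} (hS : ∀ A B C D : SL3, PatData A B C D R →
    ∃ (t : Fin 3 → ℝ) (h : t 0 * t 1 * t 2 = 1), (∀ i, 0 < t i) ∧ ∀ i j,
      ab ((dg t h)⁻¹ * A * dg t h) i j ≤ S ∧ ab ((dg t h)⁻¹ * B * dg t h) i j ≤ S ∧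
      ab ((dg t h)⁻¹ * C * dg t h) i j ≤ S ∧ ab ((dg t h)⁻¹ * D * dg t h) i j ≤ S)
    (hR : trF (a, b, c, d) ≤ R) (h : InW a b c d) :
    ∃ (E : SL3) (l l' : Fin 3 → ℝ), Good a b E l ∧ Good c d (E * K) l' ∧
      (∀ i j, ab (E⁻¹ * a * E) i j ≤ S) ∧ (∀ i j, ab (E⁻¹ * b * E) i j ≤ S) ∧
      (∀ i j, ab (E⁻¹ * c * E) i j ≤ S) ∧ (∀ i j, ab (E⁻¹ * d * E) i j ≤ S) := by
  obtain ⟨-, E, l, l', h1, h2⟩ := h
  have hp := patData h1 h2 ((one_le_trF _).trans hR)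
    (fun g hg => by
      obtain ⟨i, rfl⟩ := mem4 hg
      exact (tr1_le (a, b, c, d) i).trans hR)
    (fun g hg => by
      obtain ⟨i, rfl⟩ := mem4 hg
      exact (tr2_le (a, b, c, d) i).trans hR)
    (fun g hg k hk => by
      obtain ⟨i, rfl⟩ := mem4 hg
      obtain ⟨j, rfl⟩ := mem4 hk
      exact (tr3_le (a, b, c, d) i j).trans hR)
  obtain ⟨t, ht, htp, hb⟩ := hS _ _ _ _ hp
  have e : ∀ g : SL3, (E * dg t ht)⁻¹ * g * (E * dg t ht) =
      (dg t ht)⁻¹ * (E⁻¹ * g * E) * dg t ht := by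
    intro g; group
  refine ⟨E * dg t ht, l, l', h1.diag_right htp ht, h2.diag_right' htp ht, ?_, ?_, ?_, ?_⟩
  · intro i j; rw [e]; exact (hb i j).1
  · intro i j; rw [e]; exact (hb i j).2.1
  · intro i j; rw [e]; exact (hb i j).2.2.1
  · intro i j; rw [e]; exact (hb i j).2.2.2

/-- Task A19. **Closedness.** Let `(a n, b n, c n, d n) → (a, b, c, d)` with `InW`, with bases
`E n`. The traces of the finitely many words in `patData` converge, so they are bounded by some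
`R`; by `bounded` and `Good.diag_right` one may replace `E n` by `E n * dg t` such that the entries
of the conjugates of `a n, …, d n` by `(E n)⁻¹` are bounded. Pass to a subsequence: the
conjugates converge in `SL3` (closed and bounded sets of matrices are compact), and
`s n • E n` with `s n = ‖E n‖⁻¹` converges to some `F ≠ 0`. The limits of the conjugates are
weakly good (`weak_of_tendsto`, for the second pair after conjugation by `K`), hence good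
(`Weak.good`). Then `F` intertwines: `[a, b] F = F diagonal l`, `a F = F ã`, all entries of `ã` are
nonzero (`Good.colPat`), so `F` is invertible (`twine`), `E n → E` (`conj_limit`), `ã = E⁻¹ a E` and
so on, and `Good.conj` gives the claim. -/
theorem closed_seq {a b c d : ℕ → SL3} {a' b' c' d' : SL3}
    (h : ∀ n, InW (a n) (b n) (c n) (d n))
    (ha : Filter.Tendsto a Filter.atTop (nhds a')) (hb : Filter.Tendsto b Filter.atTop (nhds b'))
    (hc : Filter.Tendsto c Filter.atTop (nhds c')) (hd : Filter.Tendsto d Filter.atTop (nhds d')) :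
    InW a' b' c' d' := by
  -- the bound
  have hT : Tendsto (fun n => trF (a n, b n, c n, d n)) atTop (𝓝 (trF (a', b', c', d'))) :=
    (continuous_trF.tendsto _).comp (ha.prodMk_nhds (hb.prodMk_nhds (hc.prodMk_nhds hd)))
  obtain ⟨R, hR⟩ := hT.bddAbove_range
  have hR' : ∀ n, trF (a n, b n, c n, d n) ≤ R := fun n => hR ⟨n, rfl⟩
  obtain ⟨S, hS⟩ := bounded R
  choose E l l' g1 g2 bA bB bC bD using fun n => exists_basis hS (hR' n) (h n)
  have hE0 : ∀ n, (E n).1 ≠ 0 := by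
    intro n h0
    have := (E n).2
    rw [h0, Matrix.det_zero] at this
    norm_num at this
  have hs : ∀ n, 0 < (sab (E n).1)⁻¹ := fun n => inv_pos.2 (sab_pos (hE0 n))
  obtain ⟨φ, A, B, C, D, F, hφ, lA, lB, lC, lD, lF, hF⟩ := subseq4 bA bB bC bD
    (fun n => (sab (E n).1)⁻¹ • (E n).1)
    (fun n => by rw [sab_smul (hs n).le, inv_mul_cancel₀ (sab_pos (hE0 n)).ne'])
  have ha' := ha.comp hφ.tendsto_atTop
  have hb' := hb.comp hφ.tendsto_atTop
  have hc' := hc.comp hφ.tendsto_atTop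
  have hd' := hd.comp hφ.tendsto_atTop
  -- the first pair
  have hG1 : ∀ n, Good (((E (φ n))⁻¹ * a (φ n) * E (φ n))) ((E (φ n))⁻¹ * b (φ n) * E (φ n)) 1
      (l (φ n)) := by
    intro n
    have := (g1 (φ n)).conj (E (φ n))⁻¹
    rwa [inv_inv, inv_mul_cancel] at this
  obtain ⟨m, hm⟩ := weak_of_tendsto hG1 lA lB
  have hgood := hm.good
  have hG2 : ∀ n, Good (K⁻¹ * ((E (φ n))⁻¹ * c (φ n) * E (φ n)) * K)
      (K⁻¹ * ((E (φ n))⁻¹ * d (φ n) * E (φ n)) * K) 1 (l' (φ n)) := by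
    intro n
    have := (g2 (φ n)).conj (E (φ n) * K)⁻¹
    rw [inv_inv, inv_mul_cancel] at this
    have e : ∀ g : SL3, K⁻¹ * ((E (φ n))⁻¹ * g * E (φ n)) * K =
        (E (φ n) * K)⁻¹ * g * (E (φ n) * K) := by intro g; group
    rw [e, e]
    exact this
  have lC' : Tendsto (fun n => K⁻¹ * ((E (φ n))⁻¹ * c (φ n) * E (φ n)) * K) atTop
      (𝓝 (K⁻¹ * C * K)) := (tendsto_const_nhds.mul lC).mul tendsto_const_nhds
  have lD' : Tendsto (fun n => K⁻¹ * ((E (φ n))⁻¹ * d (φ n) * E (φ n)) * K) atTop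
      (𝓝 (K⁻¹ * D * K)) := (tendsto_const_nhds.mul lD).mul tendsto_const_nhds
  obtain ⟨m', hm'⟩ := weak_of_tendsto hG2 lC' lD'
  have hgood' := hm'.good
  -- the intertwiner
  have hval : ∀ {u : ℕ → SL3} {v : SL3}, Tendsto u atTop (𝓝 v) →
      Tendsto (fun n => (u n).1) atTop (𝓝 v.1) := fun hu =>
    (continuous_subtype_val.tendsto _).comp hu
  have twi : ∀ {u : ℕ → SL3} {v V : SL3}, Tendsto (u ∘ φ) atTop (𝓝 v) →
      Tendsto (fun n => (E (φ n))⁻¹ * u (φ n) * E (φ n)) atTop (𝓝 V) → v.1 * F = F * V.1 := by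
    intro u v V h1 h2
    have t1 : Tendsto (fun n => (u (φ n)).1 * ((sab (E (φ n)).1)⁻¹ • (E (φ n)).1)) atTop
        (𝓝 (v.1 * F)) := (hval h1).mul lF
    have t2 : Tendsto (fun n => ((sab (E (φ n)).1)⁻¹ • (E (φ n)).1) *
        ((E (φ n))⁻¹ * u (φ n) * E (φ n)).1) atTop (𝓝 (F * V.1)) := lF.mul (hval h2)
    refine tendsto_nhds_unique t1 (t2.congr fun n => ?_)
    have e1 : (E (φ n)).1 * ((E (φ n))⁻¹ * u (φ n) * E (φ n)).1 =
        (u (φ n)).1 * (E (φ n)).1 := by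
      have : E (φ n) * ((E (φ n))⁻¹ * u (φ n) * E (φ n)) = u (φ n) * E (φ n) := by group
      exact congrArg Subtype.val this
    rw [Matrix.smul_mul, e1, Matrix.mul_smul]
  have wx_notMem' : wx ∉ Subgroup.zpowers wg := by
    apply notMem_of_abel
    intro h
    have : (Multiplicative.ofAdd (1 : ℤ), (1 : Multiplicative ℤ)) = 1 := by
      simpa [abel, wx] using h
    have h2 := congrArg Prod.fst this
    simp only [Prod.fst_one] at h2
    exact absurd (Multiplicative.ofAdd.injective h2) (by norm_num)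
  have cA : ∀ i j, A.1 i j ≠ 0 := by
    intro i j
    have h1 := hgood.colPat wx_notMem' i j
    rw [inv_one, one_mul, mul_one, ev_wx] at h1
    intro h0
    rw [h0, mul_zero] at h1
    exact lt_irrefl _ h1
  have hinj : Function.Injective m := by
    have h1 := hgood.l01
    have h2 := hgood.l12
    intro i j hij
    fin_cases i <;> fin_cases j <;> simp_all
    all_goals first | linarith | skip
  have tAB : (a' * b' * a'⁻¹ * b'⁻¹).1 * F = F * Matrix.diagonal m := by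
    have e := hgood.diag
    rw [inv_one, one_mul, mul_one] at e
    rw [← e]
    refine twi (u := fun n => a n * b n * (a n)⁻¹ * (b n)⁻¹) ?_ ?_
    · exact ((ha'.mul hb').mul ha'.inv).mul hb'.inv
    · have : (fun n => (E (φ n))⁻¹ * (a (φ n) * b (φ n) * (a (φ n))⁻¹ * (b (φ n))⁻¹) * E (φ n)) =
          fun n => ((E (φ n))⁻¹ * a (φ n) * E (φ n)) * ((E (φ n))⁻¹ * b (φ n) * E (φ n)) *
            ((E (φ n))⁻¹ * a (φ n) * E (φ n))⁻¹ * ((E (φ n))⁻¹ * b (φ n) * E (φ n))⁻¹ := by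
        funext n; group
      rw [this]
      exact ((lA.mul lB).mul lA.inv).mul lB.inv
  have hdet : F.det ≠ 0 := twine hF hinj tAB (twi ha' lA) cA
  obtain ⟨E', hE'⟩ := conj_limit (E := E ∘ φ) (fun n => hs (φ n)) lF hdet
  have cj : ∀ {u : ℕ → SL3} {v V : SL3}, Tendsto (u ∘ φ) atTop (𝓝 v) →
      Tendsto (fun n => (E (φ n))⁻¹ * u (φ n) * E (φ n)) atTop (𝓝 V) → V = E'⁻¹ * v * E' := by
    intro u v V h1 h2
    exact tendsto_nhds_unique h2 ((hE'.inv.mul h1).mul hE')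
  have eA := cj ha' lA
  have eB := cj hb' lB
  have eC := cj hc' lC
  have eD := cj hd' lD
  refine ⟨?_, E', m, m', ?_, ?_⟩
  · have t1 : Tendsto (fun n => a n * b n * (a n)⁻¹ * (b n)⁻¹ *
        (c n * d n * (c n)⁻¹ * (d n)⁻¹)) atTop
        (𝓝 (a' * b' * a'⁻¹ * b'⁻¹ * (c' * d' * c'⁻¹ * d'⁻¹))) :=
      (((ha.mul hb).mul ha.inv).mul hb.inv).mul (((hc.mul hd).mul hc.inv).mul hd.inv)
    have t2 : (fun n => a n * b n * (a n)⁻¹ * (b n)⁻¹ *
        (c n * d n * (c n)⁻¹ * (d n)⁻¹)) = fun _ => (1 : SL3) := funext fun n => (h n).1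
    rw [t2] at t1
    exact (tendsto_nhds_unique tendsto_const_nhds t1).symm
  · have := hgood.conj E'
    rw [eA, eB, mul_one] at this
    have e : ∀ g : SL3, E' * (E'⁻¹ * g * E') * E'⁻¹ = g := by intro g; group
    rwa [e, e] at this
  · have := hgood'.conj (E' * K)
    rw [eC, eD, mul_one] at this
    have e : ∀ g : SL3, (E' * K) * (K⁻¹ * (E'⁻¹ * g * E') * K) * (E' * K)⁻¹ = g := by
      intro g; group
    rwa [e, e] at this

end Pool.Agent.LibHit3
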