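import Pool.Agent.LibHit3.Defs

set_option autoImplicit false

noncomputable section

open Matrix
open scoped MatrixGroups

namespace Pool.Agent.LibHit3

open Pool.Agent.LibHyperelliptic

private lemma act_L_cont {f : SL3 × SL3 × SL3 → SL3} (hf : Continuous f) (U : Flag) :
    Continuous fun t => (act (f t) U).L :=
  (continuous_subtype_val.comp hf).matrix_mulVec continuous_const

private lemma act_P_cont {f : SL3 × SL3 × SL3 → SL3} (hf : Continuous f) (U : Flag) :
    Continuous fun t => (act (f t) U).P :=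
  continuous_const.matrix_vecMul (continuous_subtype_val.comp hf.inv)

private lemma oct_cont (j : Fin 8) :
    (Continuous fun t : SL3 × SL3 × SL3 => (octPt t.1 t.2.1 t.2.2 j).L) ∧
      Continuous fun t : SL3 × SL3 × SL3 => (octPt t.1 t.2.1 t.2.2 j).P := by
  have hx : Continuous fun t : SL3 × SL3 × SL3 => t.1 := continuous_fst
  have hy : Continuous fun t : SL3 × SL3 × SL3 => t.2.1 := continuous_fst.comp continuous_snd
  have hE : Continuous fun t : SL3 × SL3 × SL3 => t.2.2 := continuous_snd.comp continuous_snd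
  fin_cases j
  · exact ⟨act_L_cont hE _, act_P_cont hE _⟩
  · exact ⟨act_L_cont (hy.inv.mul hE) _, act_P_cont (hy.inv.mul hE) _⟩
  · exact ⟨act_L_cont (hy.inv.mul hE) _, act_P_cont (hy.inv.mul hE) _⟩
  · exact ⟨act_L_cont ((hx.inv.mul hy.inv).mul hE) _, act_P_cont ((hx.inv.mul hy.inv).mul hE) _⟩
  · exact ⟨act_L_cont ((hx.inv.mul hy.inv).mul hE) _, act_P_cont ((hx.inv.mul hy.inv).mul hE) _⟩
  · exact ⟨act_L_cont (hx.inv.mul hE) _, act_P_cont (hx.inv.mul hE) _⟩
  · exact ⟨act_L_cont (hx.inv.mul hE) _, act_P_cont (hx.inv.mul hE) _⟩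
  · exact ⟨act_L_cont hE _, act_P_cont hE _⟩

private lemma det3_cont {T : Type} [TopologicalSpace T] {u v w : T → Fin 3 → ℝ}
    (hu : Continuous u) (hv : Continuous v) (hw : Continuous w) :
    Continuous fun t => det3 (u t) (v t) (w t) := by
  unfold det3
  apply Continuous.matrix_det
  apply continuous_pi
  intro i
  fin_cases i
  · exact hu
  · exact hv
  · exact hw

private lemma ev_pos {T : Type} [TopologicalSpace T] {f : T → ℝ} (hf : Continuous f) {t0 : T}
    (h : 0 < f t0) : ∀ᶠ t in nhds t0, 0 < f t :=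
  (isOpen_lt continuous_const hf).mem_nhds h

private lemma dot_cont {T : Type} [TopologicalSpace T] {u v : T → Fin 3 → ℝ}
    (hu : Continuous u) (hv : Continuous v) : Continuous fun t => u t ⬝ᵥ v t :=
  hu.dotProduct hv

private lemma pos3_open {T : Type} [TopologicalSpace T] {U Z V : T → Flag}
    (hU : Continuous (fun t => (U t).L) ∧ Continuous fun t => (U t).P)
    (hZ : Continuous (fun t => (Z t).L) ∧ Continuous fun t => (Z t).P)
    (hV : Continuous (fun t => (V t).L) ∧ Continuous fun t => (V t).P) {t0 : T}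
    (h : Pos3 (U t0) (Z t0) (V t0)) : ∀ᶠ t in nhds t0, Pos3 (U t) (Z t) (V t) := by
  have e1 := ev_pos (dot_cont hU.2 hZ.1) h.uz
  have e2 := ev_pos (dot_cont hU.2 hV.1) h.uv
  have e3 := ev_pos (dot_cont hZ.2 hU.1) h.zu
  have e4 := ev_pos (dot_cont hZ.2 hV.1) h.zv
  have e5 := ev_pos (dot_cont hV.2 hU.1) h.vu
  have e6 := ev_pos (dot_cont hV.2 hZ.1) h.vz
  have e7 := ev_pos (det3_cont hU.1 hZ.1 hV.1) h.dt
  filter_upwards [e1, e2, e3, e4, e5, e6, e7] with t t1 t2 t3 t4 t5 t6 t7
  exact ⟨t1, t2, t3, t4, t5, t6, t7⟩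

/-- Task A22. The octagon condition is open: finitely many strict inequalities between
continuous functions of `(x, y, E)`. -/
theorem oct_open {x y E : SL3} (h : Oct x y E) :
    ∀ᶠ t : SL3 × SL3 × SL3 in nhds (x, y, E), Oct t.1 t.2.1 t.2.2 := by
  have key : ∀ i : Fin 6, ∀ᶠ t : SL3 × SL3 × SL3 in nhds (x, y, E),
      Pos3 (octPt t.1 t.2.1 t.2.2 0) (octPt t.1 t.2.1 t.2.2 i.succ.castSucc)
        (octPt t.1 t.2.1 t.2.2 i.succ.succ) := by
    intro i
    exact pos3_open (U := fun t : SL3 × SL3 × SL3 => octPt t.1 t.2.1 t.2.2 0)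
      (Z := fun t : SL3 × SL3 × SL3 => octPt t.1 t.2.1 t.2.2 i.succ.castSucc)
      (V := fun t : SL3 × SL3 × SL3 => octPt t.1 t.2.1 t.2.2 i.succ.succ)
      (oct_cont 0) (oct_cont i.succ.castSucc) (oct_cont i.succ.succ) (t0 := (x, y, E)) (h i)
  exact Filter.eventually_all.2 key

end Pool.Agent.LibHit3
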