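import Pool.Agent.LibHit3.A_Eig2
import Pool.Agent.LibHit3.A_Open1

set_option autoImplicit false

noncomputable section

open Matrix
open scoped MatrixGroups

namespace Pool.Agent.LibHit3

open Pool.Agent.LibHyperelliptic

private lemma K_mul_K : K * K = 1 := by
  apply Subtype.ext
  change K.1 * K.1 = 1
  ext i j
  rw [Matrix.mul_apply, Fin.sum_univ_three]
  fin_cases i <;> fin_cases j <;> simp [K]

private lemma K_inv : K⁻¹ = K := inv_eq_of_mul_eq_one_left K_mul_K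

private lemma inv_diag {D : SL3} {l : Fin 3 → ℝ} (h : D.1 = Matrix.diagonal l)
    (h0 : ∀ i, l i ≠ 0) : (D⁻¹).1 = Matrix.diagonal (fun i => (l i)⁻¹) := by
  have h1 : Matrix.diagonal (fun i => (l i)⁻¹) * D.1 = 1 := by
    rw [h, Matrix.diagonal_mul_diagonal, ← Matrix.diagonal_one]
    congr 1
    funext i
    exact inv_mul_cancel₀ (h0 i)
  have h2 : D.1 * (D⁻¹).1 = 1 := congrArg Subtype.val (mul_inv_cancel D)
  calc (D⁻¹).1 = (Matrix.diagonal (fun i => (l i)⁻¹) * D.1) * (D⁻¹).1 := by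
        rw [h1, Matrix.one_mul]
    _ = _ := by rw [Matrix.mul_assoc, h2, Matrix.mul_one]

private lemma K_diag (m : Fin 3 → ℝ) :
    K.1 * Matrix.diagonal m * K.1 = Matrix.diagonal ![m 2, m 1, m 0] := by
  ext i j
  rw [Matrix.mul_apply, Fin.sum_univ_three]
  simp only [Matrix.mul_diagonal]
  fin_cases i <;> fin_cases j <;> simp [K]

private lemma second_diag {g e E : SL3} {l : Fin 3 → ℝ} (h : g * e = 1)
    (hd : (E⁻¹ * g * E).1 = Matrix.diagonal l) (h0 : ∀ i, l i ≠ 0) :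
    ((E * K)⁻¹ * e * (E * K)).1 = Matrix.diagonal ![(l 2)⁻¹, (l 1)⁻¹, (l 0)⁻¹] := by
  have he : e = g⁻¹ := (inv_eq_of_mul_eq_one_right h).symm
  have h1 : (E * K)⁻¹ * e * (E * K) = K * (E⁻¹ * g * E)⁻¹ * K := by
    rw [he, _root_.mul_inv_rev, K_inv]
    group
  rw [h1]
  change K.1 * ((E⁻¹ * g * E)⁻¹).1 * K.1 = _
  rw [inv_diag hd h0, K_diag]

/-- Task A23. **Openness**, from `oct_open` and `eigen_near`. For the second pair: if
`(E⁻¹ γ E) = diagonal l` and `[c, d] = γ⁻¹` then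
`((E K)⁻¹ [c, d] (E K)) = diagonal ![(l 2)⁻¹, (l 1)⁻¹, (l 0)⁻¹]`. -/
theorem open_at {a b c d : SL3} (h : InW a b c d) :
    ∀ᶠ t : SL3 × SL3 × SL3 × SL3 in nhds (a, b, c, d),
      SurfRel t.1 t.2.1 t.2.2.1 t.2.2.2 → InW t.1 t.2.1 t.2.2.1 t.2.2.2 := by
  obtain ⟨-, E, l, l', hG, hG'⟩ := h
  have o1 := oct_open hG.oct
  have o2 := oct_open hG'.oct
  rw [nhds_prod_eq, Filter.eventually_prod_iff] at o1 o2
  obtain ⟨pa, hpa, pbE, hpbE, ho1⟩ := o1
  obtain ⟨pc, hpc, pdE, hpdE, ho2⟩ := o2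
  rw [nhds_prod_eq, Filter.eventually_prod_iff] at hpbE hpdE
  obtain ⟨pb, hpb, pE, hpE, ho1'⟩ := hpbE
  obtain ⟨pd, hpd, pE', hpE', ho2'⟩ := hpdE
  have hc : Filter.Tendsto (fun E' : SL3 => E' * K) (nhds E) (nhds (E * K)) :=
    (continuous_mul_const K).tendsto E
  have hU : {E' : SL3 | pE E' ∧ pE' (E' * K)} ∈ nhds E := hpE.and (hc.eventually hpE')
  have he := eigen_near hG.l01 hG.l12 hG.l2 hG.diag hU
  have hcont : Continuous (fun t : SL3 × SL3 × SL3 × SL3 =>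
      t.1 * t.2.1 * (t.1)⁻¹ * (t.2.1)⁻¹) := by fun_prop
  have he' := (hcont.tendsto (a, b, c, d)).eventually he
  have c1 : Filter.Tendsto (fun t : SL3 × SL3 × SL3 × SL3 => t.1) (nhds (a, b, c, d))
      (nhds a) := (by fun_prop : Continuous (fun t : SL3 × SL3 × SL3 × SL3 => t.1)).tendsto _
  have c2 : Filter.Tendsto (fun t : SL3 × SL3 × SL3 × SL3 => t.2.1) (nhds (a, b, c, d))
      (nhds b) := (by fun_prop : Continuous (fun t : SL3 × SL3 × SL3 × SL3 => t.2.1)).tendsto _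
  have c3 : Filter.Tendsto (fun t : SL3 × SL3 × SL3 × SL3 => t.2.2.1) (nhds (a, b, c, d))
      (nhds c) := (by fun_prop : Continuous (fun t : SL3 × SL3 × SL3 × SL3 => t.2.2.1)).tendsto _
  have c4 : Filter.Tendsto (fun t : SL3 × SL3 × SL3 × SL3 => t.2.2.2) (nhds (a, b, c, d))
      (nhds d) := (by fun_prop : Continuous (fun t : SL3 × SL3 × SL3 × SL3 => t.2.2.2)).tendsto _
  filter_upwards [he', c1.eventually hpa, c2.eventually hpb, c3.eventually hpc,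
    c4.eventually hpd] with t ht h1 h2 h3 h4 hrel
  obtain ⟨E', hE', m, m01, m12, m2, hm⟩ := ht
  have m0 : 0 < m 0 := by linarith
  have m1 : 0 < m 1 := by linarith
  have hne : ∀ i, m i ≠ 0 := by
    intro i
    fin_cases i
    · exact m0.ne'
    · exact m1.ne'
    · exact m2.ne'
  refine ⟨hrel, E', m, ![(m 2)⁻¹, (m 1)⁻¹, (m 0)⁻¹], ⟨m01, m12, m2, hm, ?_⟩,
    ⟨?_, ?_, ?_, ?_, ?_⟩⟩
  · exact ho1 h1 (ho1' h2 hE'.1)
  · simpa using (inv_lt_inv₀ m1 m2).2 m12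
  · simpa using (inv_lt_inv₀ m0 m1).2 m01
  · simpa using m0
  · exact second_diag hrel hm hne
  · exact ho2 h3 (ho2' h4 hE'.2)

end Pool.Agent.LibHit3
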