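import Pool.Agent.LibHit3.A_PSL
import Pool.Agent.LibHit3.A_Closed
import Pool.Agent.LibHit3.A_Open2
import Pool.Agent.LibHit3.A_Base3

set_option autoImplicit false

noncomputable section

open Matrix
open scoped MatrixGroups

namespace Pool.Agent.LibHit3

open Pool.Agent.LibHyperelliptic

/-- Invariance under conjugation. -/
lemma InW.conj {a b c d : SL3} (h : InW a b c d) (g : SL3) :
    InW (g * a * g⁻¹) (g * b * g⁻¹) (g * c * g⁻¹) (g * d * g⁻¹) := by
  obtain ⟨h0, E, l, l', h1, h2⟩ := h
  refine ⟨?_, g * E, l, l', h1.conj g, ?_⟩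
  · unfold SurfRel at h0 ⊢
    have h3 : g * a * g⁻¹ * (g * b * g⁻¹) * (g * a * g⁻¹)⁻¹ * (g * b * g⁻¹)⁻¹ *
        (g * c * g⁻¹ * (g * d * g⁻¹) * (g * c * g⁻¹)⁻¹ * (g * d * g⁻¹)⁻¹) =
        g * (a * b * a⁻¹ * b⁻¹ * (c * d * c⁻¹ * d⁻¹)) * g⁻¹ := by
      simp only [_root_.mul_inv_rev, inv_inv, mul_assoc, inv_mul_cancel_left]
    rw [h3, h0, mul_one, mul_inv_cancel]
  · have e : g * E * K = g * (E * K) := mul_assoc _ _ _
    rw [e]
    exact h2.conj g

/-- The positive representations into `PSL(3, ℝ)`. -/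
def PosRep (ρ : PSLRep 3) : Prop :=
  InW (eqv.symm (ρ a₁)) (eqv.symm (ρ b₁)) (eqv.symm (ρ a₂)) (eqv.symm (ρ b₂))

lemma PosRep.of_conj {ρ σ : PSLRep 3} (hc : ConjRep ρ σ) (h : PosRep ρ) : PosRep σ := by
  obtain ⟨g, hg⟩ := hc
  unfold PosRep
  rw [hg, hg, hg, hg]
  simp only [map_mul, map_inv]
  exact InW.conj h _

/-- The matrices of the generators. -/
def compMap (ρ : (Set.univ : Set (PSLRep 3))) : SL3 × SL3 × SL3 × SL3 :=
  (eqv.symm (ρ.1 a₁), eqv.symm (ρ.1 b₁), eqv.symm (ρ.1 a₂), eqv.symm (ρ.1 b₂))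

lemma comp_rel (ρ : PSLRep 3) : SurfRel (eqv.symm (ρ a₁)) (eqv.symm (ρ b₁)) (eqv.symm (ρ a₂))
    (eqv.symm (ρ b₂)) := by
  have h := congrArg (fun x => eqv.symm (ρ x)) surf_rel
  simp only [map_mul, map_inv, map_one] at h
  exact h

lemma comp_continuous : @Continuous _ _ (repTopology (Set.univ : Set (PSLRep 3))) _ compMap := by
  let _ : TopologicalSpace (Set.univ : Set (PSLRep 3)) := repTopology _
  have h0 : Continuous fun (ρ : (Set.univ : Set (PSLRep 3))) (γ : Surf) => ρ.1 γ :=
    continuous_induced_dom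
  have h : ∀ γ : Surf, Continuous fun ρ : (Set.univ : Set (PSLRep 3)) => eqv.symm (ρ.1 γ) :=
    fun γ => continuous_eqv_symm.comp ((continuous_apply γ).comp h0)
  exact (h a₁).prodMk ((h b₁).prodMk ((h a₂).prodMk (h b₂)))

instance comp_firstCountable : FirstCountableTopology SL3 := by
  have : FirstCountableTopology (Matrix (Fin 3) (Fin 3) ℝ) :=
    inferInstanceAs (FirstCountableTopology (Fin 3 → Fin 3 → ℝ))
  exact Topology.IsInducing.subtypeVal.firstCountableTopology

lemma comp_isClosed : IsClosed {t : SL3 × SL3 × SL3 × SL3 | InW t.1 t.2.1 t.2.2.1 t.2.2.2} := by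
  apply IsSeqClosed.isClosed
  intro x t hx ht
  have h1 : Filter.Tendsto (fun n => (x n).1) Filter.atTop (nhds t.1) :=
    (continuous_fst.tendsto t).comp ht
  have h2 : Filter.Tendsto (fun n => (x n).2) Filter.atTop (nhds t.2) :=
    (continuous_snd.tendsto t).comp ht
  have h3 : Filter.Tendsto (fun n => (x n).2.1) Filter.atTop (nhds t.2.1) :=
    (continuous_fst.tendsto t.2).comp h2
  have h4 : Filter.Tendsto (fun n => (x n).2.2) Filter.atTop (nhds t.2.2) :=
    (continuous_snd.tendsto t.2).comp h2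
  have h5 : Filter.Tendsto (fun n => (x n).2.2.1) Filter.atTop (nhds t.2.2.1) :=
    (continuous_fst.tendsto t.2.2).comp h4
  have h6 : Filter.Tendsto (fun n => (x n).2.2.2) Filter.atTop (nhds t.2.2.2) :=
    (continuous_snd.tendsto t.2.2).comp h4
  exact closed_seq hx h1 h3 h5 h6

/-- Task A27. **The Hitchin component is positive.** The set of classes of positive
representations is open and closed: its preimage in the space of representations, with the
topology of pointwise convergence, is the set of positive representations (`InW.conj`), which is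
open by `open_at` and closed by `closed_seq` (the map `ρ ↦ (eqv.symm (ρ a₁), …)` is continuous,
`SL3 × SL3 × SL3 × SL3` is first countable). It contains the class of `irr 3 hexRho` (`base_inW`),
hence its connected component (`IsClopen.connectedComponent_subset`). -/
theorem hit_pos (ρ : PSLRep 3) (h : CharVar.mk ρ ∈ Hit 3 hexRho) : PosRep ρ := by
  let A : Set (CharVar 3) := {c | ∃ σ : PSLRep 3, CharVar.mk σ = c ∧ PosRep σ}
  have hA : OrbitSpace.mk (Set.univ : Set (PSLRep 3)) ⁻¹' A = {σ | PosRep σ.1} := by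
    ext σ
    constructor
    · rintro ⟨τ, hτ, hp⟩
      have h1 : ConjRep τ σ.1 := Quotient.exact hτ
      exact hp.of_conj h1
    · intro hp
      exact ⟨σ.1, rfl, hp⟩
  have hset : {σ : (Set.univ : Set (PSLRep 3)) | PosRep σ.1} =
      compMap ⁻¹' {t : SL3 × SL3 × SL3 × SL3 | InW t.1 t.2.1 t.2.2.1 t.2.2.2} := rfl
  have hclopen : IsClopen A := by
    constructor
    · rw [← isOpen_compl_iff]
      rw [isOpen_coinduced]
      rw [Set.preimage_compl, hA, hset]
      let _ : TopologicalSpace (Set.univ : Set (PSLRep 3)) := repTopology _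
      exact (comp_isClosed.preimage comp_continuous).isOpen_compl
    · rw [isOpen_coinduced, hA]
      let _ : TopologicalSpace (Set.univ : Set (PSLRep 3)) := repTopology _
      rw [isOpen_iff_mem_nhds]
      intro σ hσ
      have h1 := open_at (show InW (eqv.symm (σ.1 a₁)) (eqv.symm (σ.1 b₁)) (eqv.symm (σ.1 a₂))
        (eqv.symm (σ.1 b₂)) from hσ)
      have h2 := (comp_continuous.tendsto σ).eventually h1
      filter_upwards [h2] with τ hτ
      exact hτ (comp_rel τ.1)
  have hbase : CharVar.mk (irr 3 hexRho) ∈ A := by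
    refine ⟨_, rfl, ?_⟩
    have e : ∀ γ, eqv.symm (irr 3 hexRho γ) = symSL 3 (hexRho γ) := by
      intro γ
      rw [MulEquiv.symm_apply_eq]
      rfl
    unfold PosRep
    rw [e, e, e, e]
    have h1 := base_inW
    simp only [hexRho, surfLift_a₁, surfLift_b₁, surfLift_a₂, surfLift_b₂]
    exact h1
  obtain ⟨σ, hσ, hp⟩ := hclopen.connectedComponent_subset hbase h
  exact hp.of_conj (Quotient.exact hσ)

end Pool.Agent.LibHit3
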