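import Pool.Agent.LibHit3.Defs

set_option autoImplicit false

noncomputable section

namespace Pool.Agent.LibHit3

/-! Task A03. The abstract cyclic order; everything here is formal. A pair `(w, true)` stands for
the point `w p`, a pair `(w, false)` for the point `w q`. -/

/-- The eight vertices `p, y⁻¹q, y⁻¹p, x⁻¹y⁻¹q, x⁻¹y⁻¹p, x⁻¹q, x⁻¹p, q` of the octagon. -/
def vtx : Fin 8 → FG × Bool :=
  ![(1, true), (wy⁻¹, false), (wy⁻¹, true), (wx⁻¹ * wy⁻¹, false), (wx⁻¹ * wy⁻¹, true),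
    (wx⁻¹, false), (wx⁻¹, true), (1, false)]

/-- Left multiplication. -/
def lm (g : FG) (P : FG × Bool) : FG × Bool := (g * P.1, P.2)

/-- `T P Q R` says that `P, Q, R` are in positive cyclic order. -/
structure CycSys (T : FG × Bool → FG × Bool → FG × Bool → Prop) : Prop where
  cyc : ∀ {P Q R : FG × Bool}, T P Q R → T Q R P
  trans : ∀ {P Q R S : FG × Bool}, T P Q R → T P R S → T P Q S
  left : ∀ (g : FG) {P Q R : FG × Bool}, T P Q R → T (lm g P) (lm g Q) (lm g R)
  right : ∀ (w : FG) (b : Bool) (Q R : FG × Bool), T (w, b) Q R ↔ T (w * wg, b) Q R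
  oct : ∀ i : Fin 6, T (vtx 0) (vtx i.succ.castSucc) (vtx i.succ.succ)

variable {T : FG × Bool → FG × Bool → FG × Bool → Prop}

/-- Moving the base point. -/
lemma CycSys.shift (h : CycSys T) {O P Q R : FG × Bool} (h1 : T O P Q) (h2 : T O Q R) :
    T P Q R := by
  have a1 : T Q R O := h.cyc h2
  have a2 : T Q O P := h.cyc (h.cyc h1)
  exact h.cyc (h.cyc (h.trans a1 a2))

/-- Triples starting at the vertex `0`. -/
lemma CycSys.tri0 (h : CycSys T) (j : ℕ) (n : ℕ) (hj : 0 < j) (hk : j + n + 1 < 8) :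
    T (vtx 0) (vtx ⟨j, by omega⟩) (vtx ⟨j + n + 1, hk⟩) := by
  induction n with
  | zero => exact (by
      have := h.oct ⟨j - 1, by omega⟩
      have e1 : (⟨j - 1, by omega⟩ : Fin 6).succ.castSucc = (⟨j, by omega⟩ : Fin 8) := by
        ext
        simp
        omega
      have e2 : (⟨j - 1, by omega⟩ : Fin 6).succ.succ = (⟨j + 0 + 1, hk⟩ : Fin 8) := by
        ext
        simp
        omega
      rw [e1, e2] at this
      exact this)
  | succ n ih =>
    have h1 := ih (by omega)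
    have h2 := h.oct ⟨j + n, by omega⟩
    have e1 : (⟨j + n, by omega⟩ : Fin 6).succ.castSucc = (⟨j + n + 1, by omega⟩ : Fin 8) := by
      ext
      simp
    have e2 : (⟨j + n, by omega⟩ : Fin 6).succ.succ = (⟨j + (n + 1) + 1, hk⟩ : Fin 8) := by
      ext
      simp
      omega
    rw [e1, e2] at h2
    exact h.trans h1 h2

/-- All triples of vertices are in the right order. First for `i = 0` by transitivity, then:
`T v_j v_0 v_i` and `T v_j v_k v_0` give `T v_j v_k v_i`. -/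
lemma CycSys.tri (h : CycSys T) {i j k : Fin 8} (hij : i < j) (hjk : j < k) :
    T (vtx i) (vtx j) (vtx k) := by
  have key : ∀ j k : Fin 8, 0 < j → j < k → T (vtx 0) (vtx j) (vtx k) := by
    intro j k hj hk
    have h1 : (k : ℕ) = j + (k - j - 1) + 1 := by
      have : (j : ℕ) < k := hk
      omega
    have h2 := h.tri0 j (k - j - 1) hj (by omega)
    have e : (⟨(j : ℕ) + (k - j - 1) + 1, by omega⟩ : Fin 8) = k := by
      ext
      exact h1.symm
    rw [e] at h2
    exact h2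
  by_cases h0 : i = 0
  · subst h0
    exact key j k hij hjk
  · have hi : 0 < i := Fin.pos_iff_ne_zero.2 h0
    exact h.shift (key i j hi hij) (key j k (hi.trans hij) hjk)

/-- Cyclic order of the indices. -/
def CycLt (i j k : Fin 8) : Prop := (i < j ∧ j < k) ∨ (j < k ∧ k < i) ∨ (k < i ∧ i < j)

instance (i j k : Fin 8) : Decidable (CycLt i j k) := by
  unfold CycLt
  infer_instance

lemma CycSys.triC (h : CycSys T) {i j k : Fin 8} (hc : CycLt i j k) :
    T (vtx i) (vtx j) (vtx k) := by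
  rcases hc with ⟨h1, h2⟩ | ⟨h1, h2⟩ | ⟨h1, h2⟩
  · exact h.tri h1 h2
  · exact h.cyc (h.cyc (h.tri h1 h2))
  · exact h.cyc (h.tri h1 h2)

/-- Right invariance under all powers of the commutator, in all three positions. -/
lemma CycSys.right_zpow (h : CycSys T) (w : FG) (b : Bool) (k : ℤ) (Q R : FG × Bool) :
    T (w, b) Q R ↔ T (w * wg ^ k, b) Q R := by
  induction k with
  | zero => simp
  | succ n ih =>
    rw [ih, h.right, mul_assoc, ← zpow_add_one]
  | pred n ih =>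
    rw [ih, h.right (w * wg ^ (-(n : ℤ) - 1)), mul_assoc, ← zpow_add_one]
    simp

/-- The four points are in cyclic order. -/
structure Quad (T : FG × Bool → FG × Bool → FG × Bool → Prop) (u A B v : FG × Bool) : Prop where
  uAB : T u A B
  uAv : T u A v
  uBv : T u B v
  ABv : T A B v

lemma CycSys.enlarge_left (h : CycSys T) {u u' A B v : FG × Bool} (hq : Quad T u A B v)
    (hu : T u' u v) : Quad T u' A B v := by
  -- base point `v`: `T v u' u`, `T v u A` give `T v u' A`, and so on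
  have a1 : T v u' u := h.cyc (h.cyc hu)
  have a2 : T v u A := h.cyc (h.cyc hq.uAv)
  have a3 : T v u B := h.cyc (h.cyc hq.uBv)
  have a4 : T v A B := h.cyc (h.cyc hq.ABv)
  have b1 : T v u' A := h.trans a1 a2
  have b2 : T v u' B := h.trans a1 a3
  exact ⟨h.shift b1 a4, h.cyc b1, h.cyc b2, hq.ABv⟩

lemma CycSys.enlarge_right (h : CycSys T) {u A B v v' : FG × Bool} (hq : Quad T u A B v)
    (hv : T u v v') : Quad T u A B v' := by
  have b1 : T u A v' := h.trans hq.uAv hv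
  have b2 : T u B v' := h.trans hq.uBv hv
  exact ⟨hq.uAB, b1, b2, h.shift hq.uAB b2⟩

lemma CycSys.quad_left (h : CycSys T) (g : FG) {u A B v : FG × Bool} (hq : Quad T u A B v) :
    Quad T (lm g u) (lm g A) (lm g B) (lm g v) :=
  ⟨h.left g hq.uAB, h.left g hq.uAv, h.left g hq.uBv, h.left g hq.ABv⟩

/-- Right invariance in the middle position. -/
lemma CycSys.right_zpow2 (h : CycSys T) (w : FG) (b : Bool) (k : ℤ) (P R : FG × Bool) :
    T P (w, b) R ↔ T P (w * wg ^ k, b) R := by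
  constructor
  · intro hh
    exact h.cyc (h.cyc ((h.right_zpow w b k R P).1 (h.cyc hh)))
  · intro hh
    exact h.cyc (h.cyc ((h.right_zpow w b k R P).2 (h.cyc hh)))

/-- Right invariance in the last position. -/
lemma CycSys.right_zpow3 (h : CycSys T) (w : FG) (b : Bool) (k : ℤ) (P Q : FG × Bool) :
    T P Q (w, b) ↔ T P Q (w * wg ^ k, b) := by
  constructor
  · intro hh
    exact h.cyc ((h.right_zpow w b k P Q).1 (h.cyc (h.cyc hh)))
  · intro hh
    exact h.cyc ((h.right_zpow w b k P Q).2 (h.cyc (h.cyc hh)))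

lemma CycSys.quad_first (h : CycSys T) (w : FG) (b : Bool) (k : ℤ) {A B v : FG × Bool} :
    Quad T (w, b) A B v ↔ Quad T (w * wg ^ k, b) A B v := by
  constructor
  · intro q
    exact ⟨(h.right_zpow w b k A B).1 q.uAB, (h.right_zpow w b k A v).1 q.uAv,
      (h.right_zpow w b k B v).1 q.uBv, q.ABv⟩
  · intro q
    exact ⟨(h.right_zpow w b k A B).2 q.uAB, (h.right_zpow w b k A v).2 q.uAv,
      (h.right_zpow w b k B v).2 q.uBv, q.ABv⟩

lemma CycSys.quad_last (h : CycSys T) (w : FG) (b : Bool) (k : ℤ) {u A B : FG × Bool} :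
    Quad T u A B (w, b) ↔ Quad T u A B (w * wg ^ k, b) := by
  constructor
  · intro q
    exact ⟨q.uAB, (h.right_zpow3 w b k u A).1 q.uAv,
      (h.right_zpow3 w b k u B).1 q.uBv, (h.right_zpow3 w b k A B).1 q.ABv⟩
  · intro q
    exact ⟨q.uAB, (h.right_zpow3 w b k u A).2 q.uAv,
      (h.right_zpow3 w b k u B).2 q.uBv, (h.right_zpow3 w b k A B).2 q.ABv⟩

lemma CycSys.quad_mid (h : CycSys T) (w w' : FG) (b b' : Bool) (k : ℤ) {u v : FG × Bool}
    (q : Quad T u (w, b) (w', b') v) : Quad T u (w * wg ^ k, b) (w' * wg ^ k, b') v :=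
  ⟨(h.right_zpow2 w b k _ _).1 ((h.right_zpow3 w' b' k _ _).1 q.uAB),
    (h.right_zpow2 w b k _ _).1 q.uAv, (h.right_zpow2 w' b' k _ _).1 q.uBv,
    (h.right_zpow w b k _ _).1 ((h.right_zpow2 w' b' k _ _).1 q.ABv)⟩

/-- Enlarging an interval between vertices. -/
lemma CycSys.enlarge (h : CycSys T) {a b c d : Fin 8} {A B : FG × Bool}
    (hq : Quad T (vtx c) A B (vtx d)) (h1 : c = a ∨ CycLt a c d) (h2 : d = b ∨ CycLt a d b) :
    Quad T (vtx a) A B (vtx b) := by
  have q1 : Quad T (vtx a) A B (vtx d) := by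
    rcases h1 with h1 | h1
    · rw [← h1]; exact hq
    · exact h.enlarge_left hq (h.triC h1)
  rcases h2 with h2 | h2
  · rw [← h2]; exact q1
  · exact h.enlarge_right q1 (h.triC h2)

/-- A quadruple of vertices. -/
lemma CycSys.quadV (h : CycSys T) {a b c d : Fin 8} (h1 : CycLt a b c) (h2 : CycLt a b d)
    (h3 : CycLt a c d) (h4 : CycLt b c d) : Quad T (vtx a) (vtx b) (vtx c) (vtx d) :=
  ⟨h.triC h1, h.triC h2, h.triC h3, h.triC h4⟩

/-- The interval `w (q, p)` lies inside the interval `(u, v)`. -/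
def Ins (T : FG × Bool → FG × Bool → FG × Bool → Prop) (uv : (FG × Bool) × (FG × Bool))
    (w : FG) : Prop := Quad T uv.1 (w, false) (w, true) uv.2

/-- The letters. -/
def let' (s : Fin 2 × Bool) : FG := FreeGroup.mk [s]

/-- The arcs `I_x = (v₀, v₁)`, `I_{x⁻¹} = (v₄, v₅)`, `I_y = (v₆, v₇)`, `I_{y⁻¹} = (v₂, v₃)`. -/
def arc (s : Fin 2 × Bool) : (FG × Bool) × (FG × Bool) :=
  if s.1 = 0 then (if s.2 then (vtx 0, vtx 1) else (vtx 4, vtx 5))
  else (if s.2 then (vtx 6, vtx 7) else (vtx 2, vtx 3))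

lemma let_x : let' (0, true) = wx := rfl
lemma let_y : let' (1, true) = wy := rfl
lemma let_x' : let' (0, false) = wx⁻¹ := rfl
lemma let_y' : let' (1, false) = wy⁻¹ := rfl

lemma CycSys.mul_x (h : CycSys T) {w : FG} (q : Quad T (vtx 6) (w, false) (w, true) (vtx 3)) :
    Ins T (arc (0, true)) (wx * w) := by
  have h1 := h.quad_left wx q
  have e1 : lm wx (vtx 6) = vtx 0 := by
    simp [lm, vtx]
  have e2 : lm wx (vtx 3) = vtx 1 := by
    simp [lm, vtx]
  rw [e1, e2] at h1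
  exact h1

lemma CycSys.mul_x' (h : CycSys T) {w : FG} (q : Quad T (vtx 2) (w, false) (w, true) (vtx 7)) :
    Ins T (arc (0, false)) (wx⁻¹ * w) := by
  have h1 := h.quad_left wx⁻¹ q
  have e1 : lm wx⁻¹ (vtx 2) = vtx 4 := by
    simp [lm, vtx]
  have e2 : lm wx⁻¹ (vtx 7) = vtx 5 := by
    simp [lm, vtx]
  rw [e1, e2] at h1
  exact h1

lemma CycSys.mul_y (h : CycSys T) {w : FG} (q : Quad T (vtx 4) (w, false) (w, true) (vtx 1)) :
    Ins T (arc (1, true)) (wy * w) := by
  have h1 := h.quad_left wy q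
  have e1 : lm wy (vtx 4) = (wx⁻¹ * wg ^ (1 : ℤ), true) := by
    simp only [lm, vtx]
    refine Prod.ext ?_ rfl
    show wy * (wx⁻¹ * wy⁻¹) = wx⁻¹ * wg ^ (1 : ℤ)
    rw [zpow_one, wg]
    group
  have e2 : lm wy (vtx 1) = vtx 7 := by
    simp [lm, vtx]
  rw [e1, e2, ← h.quad_first] at h1
  exact h1

lemma CycSys.mul_y' (h : CycSys T) {w : FG} (q : Quad T (vtx 0) (w, false) (w, true) (vtx 5)) :
    Ins T (arc (1, false)) (wy⁻¹ * w) := by
  have h1 := h.quad_left wy⁻¹ q
  have e1 : lm wy⁻¹ (vtx 0) = vtx 2 := by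
    simp [lm, vtx]
  have e2 : lm wy⁻¹ (vtx 5) = (wx⁻¹ * wy⁻¹ * wg ^ (-1 : ℤ), false) := by
    simp only [lm, vtx]
    refine Prod.ext ?_ rfl
    show wy⁻¹ * wx⁻¹ = wx⁻¹ * wy⁻¹ * wg ^ (-1 : ℤ)
    rw [zpow_neg_one, wg]
    group
  rw [e1, e2, ← h.quad_last] at h1
  exact h1

/-- If the interval of `w` lies in the arc of the letter `s'` and `s` is not the inverse of `s'`
then the interval of `s w` lies in the arc of `s`. The domain of `x` is `(v₆, v₃)`: `x v₆ = v₀`
and `x v₃ = v₁`; the domain of `y` is `(v₄, v₁)`: `y v₄` is `v₆` up to the right factor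
`wg` (`y x⁻¹ y⁻¹ = x⁻¹ wg`) and `y v₁ = v₇`; the domain of `x⁻¹` is `(v₂, v₇)`: `x⁻¹ v₂ = v₄`,
`x⁻¹ v₇ = v₅`; the domain of `y⁻¹` is `(v₀, v₅)`: `y⁻¹ v₀ = v₂` and `y⁻¹ v₅` is `v₃` up to a right
factor `wg⁻¹`. Each of the three arcs in question lies in the domain: enlarge it (`tri`), then
multiply. (Cyclic: `(v₆, v₃)` contains `I_y, I_x, I_{y⁻¹}`, `(v₄, v₁)` contains
`I_{x⁻¹}, I_y, I_x`, and so on.) -/
lemma CycSys.step_arc (h : CycSys T) {s s' : Fin 2 × Bool} (hs : ¬ (s.1 = s'.1 ∧ s.2 = !s'.2))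
    {w : FG} (hw : Ins T (arc s') w) : Ins T (arc s) (let' s * w) := by
  obtain ⟨i, b⟩ := s
  obtain ⟨i', b'⟩ := s'
  have q : ∃ c d : Fin 8, Quad T (vtx c) (w, false) (w, true) (vtx d) ∧
      (c, d) = (if i' = 0 then (if b' then ((0, 1) : Fin 8 × Fin 8) else (4, 5))
        else (if b' then (6, 7) else (2, 3))) := by
    fin_cases i' <;> cases b'
    · exact ⟨4, 5, hw, rfl⟩
    · exact ⟨0, 1, hw, rfl⟩
    · exact ⟨2, 3, hw, rfl⟩
    · exact ⟨6, 7, hw, rfl⟩
  obtain ⟨c, d, q, hcd⟩ := q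
  fin_cases i <;> cases b
  · -- x⁻¹
    refine h.mul_x' (h.enlarge q ?_ ?_) <;>
    · fin_cases i' <;> cases b' <;> simp at hcd hs <;> obtain ⟨rfl, rfl⟩ := hcd <;> decide
  · refine h.mul_x (h.enlarge q ?_ ?_) <;>
    · fin_cases i' <;> cases b' <;> simp at hcd hs <;> obtain ⟨rfl, rfl⟩ := hcd <;> decide
  · refine h.mul_y' (h.enlarge q ?_ ?_) <;>
    · fin_cases i' <;> cases b' <;> simp at hcd hs <;> obtain ⟨rfl, rfl⟩ := hcd <;> decide
  · refine h.mul_y (h.enlarge q ?_ ?_) <;>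
    · fin_cases i' <;> cases b' <;> simp at hcd hs <;> obtain ⟨rfl, rfl⟩ := hcd <;> decide

end Pool.Agent.LibHit3
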