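import Pool.Agent.LibHit3.Defs

set_option autoImplicit false

noncomputable section

open Matrix
open scoped MatrixGroups

namespace Pool.Agent.LibHit3

lemma eig1_charpoly {E g : SL3} {l : Fin 3 → ℝ}
    (hd : (E⁻¹ * g * E).1 = Matrix.diagonal l) (μ : ℝ) :
    (g.1 - μ • (1 : M3)).det = ∏ j, (l j - μ) := by
  have h1 : (E⁻¹).1 * (g.1 - μ • (1 : M3)) * E.1 = Matrix.diagonal fun j => l j - μ := by
    have e1 : (E⁻¹).1 * g.1 * E.1 = Matrix.diagonal l := hd
    have e2 : (E⁻¹).1 * E.1 = 1 := congrArg Subtype.val (inv_mul_cancel E)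
    rw [Matrix.mul_sub, Matrix.sub_mul, e1, Matrix.mul_smul, Matrix.smul_mul, Matrix.mul_one, e2]
    ext i j
    by_cases h : i = j
    · subst h
      simp
    · simp [Matrix.diagonal_apply_ne _ h, Matrix.one_apply_ne h]
  have h2 := congrArg Matrix.det h1
  rw [Matrix.det_mul, Matrix.det_mul, (E⁻¹).2, E.2, one_mul, mul_one, Matrix.det_diagonal] at h2
  exact h2

/-- Task A20. Simple real eigenvalues move continuously: `det (g' - μ)` changes sign between
`l i - δ` and `l i + δ` for `g' = g` and small `δ < ε` (the characteristic polynomial of `g` is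
`∏ (l j - μ)`), hence also for `g'` near `g` (continuity at two points), and the intermediate value
theorem gives a root. -/
theorem eigenvalue_near {E g : SL3} {l : Fin 3 → ℝ} (hl : Function.Injective l)
    (hd : (E⁻¹ * g * E).1 = Matrix.diagonal l) (i : Fin 3) {ε : ℝ} (hε : 0 < ε) :
    ∀ᶠ g' : SL3 in nhds g, ∃ μ : ℝ, |μ - l i| < ε ∧ (g'.1 - μ • (1 : M3)).det = 0 := by
  obtain ⟨δ, hδ0, hδε, hδ⟩ : ∃ δ : ℝ, 0 < δ ∧ δ < ε ∧ ∀ j, j ≠ i → δ < |l j - l i| := by
    have h1 : ∀ᶠ δ in nhdsWithin (0:ℝ) (Set.Ioi 0), δ < ε :=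
      (gt_mem_nhds hε : ∀ᶠ δ in nhds (0:ℝ), δ < ε).filter_mono nhdsWithin_le_nhds
    have h2 : ∀ᶠ δ in nhdsWithin (0:ℝ) (Set.Ioi 0), ∀ j, j ≠ i → δ < |l j - l i| := by
      rw [Filter.eventually_all]
      intro j
      by_cases hj : j = i
      · exact Filter.Eventually.of_forall fun δ h => absurd hj h
      · have h3 : 0 < |l j - l i| := abs_pos.mpr (sub_ne_zero.mpr fun h => hj (hl h))
        have h4 : ∀ᶠ δ in nhdsWithin (0:ℝ) (Set.Ioi 0), δ < |l j - l i| :=
          (gt_mem_nhds h3 : ∀ᶠ δ in nhds (0:ℝ), δ < |l j - l i|).filter_mono nhdsWithin_le_nhds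
        filter_upwards [h4] with δ h _ using h
    obtain ⟨δ, h, h', h''⟩ := (h1.and (h2.and self_mem_nhdsWithin)).exists
    exact ⟨δ, h'', h, h'⟩
  set p : SL3 → ℝ → ℝ := fun g' μ => (g'.1 - μ • (1 : M3)).det with hp
  have hval : Continuous fun g' : SL3 => (g'.1 : M3) := continuous_subtype_val
  have hcont1 : ∀ μ, Continuous fun g' : SL3 => p g' μ := fun μ =>
    (hval.sub continuous_const).matrix_det
  have hcont2 : ∀ g', Continuous fun μ => p g' μ := fun g' => by
    refine Continuous.matrix_det ?_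
    exact continuous_const.sub (continuous_id.smul continuous_const)
  have hneg : p g (l i + δ) * p g (l i - δ) < 0 := by
    simp only [hp]
    rw [eig1_charpoly hd, eig1_charpoly hd, ← Finset.prod_mul_distrib,
      ← Finset.mul_prod_erase _ _ (Finset.mem_univ i)]
    refine mul_neg_of_neg_of_pos ?_ (Finset.prod_pos fun j hj => ?_)
    · nlinarith
    · have hj' : j ≠ i := Finset.ne_of_mem_erase hj
      have h1 := hδ j hj'
      have h2 : δ ^ 2 < (l j - l i) ^ 2 := by
        rw [← sq_abs (l j - l i)]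
        exact pow_lt_pow_left₀ h1 hδ0.le (by norm_num)
      nlinarith
  have hev : ∀ᶠ g' in nhds g, p g' (l i + δ) * p g' (l i - δ) < 0 :=
    ((hcont1 _).mul (hcont1 _)).continuousAt.eventually (gt_mem_nhds hneg)
  filter_upwards [hev] with g' hg'
  have hiv := intermediate_value_uIcc (a := l i - δ) (b := l i + δ) (hcont2 g').continuousOn
  have h0 : (0:ℝ) ∈ Set.uIcc (p g' (l i - δ)) (p g' (l i + δ)) := by
    rw [Set.mem_uIcc]
    rcases lt_trichotomy (p g' (l i + δ)) 0 with h | h | h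
    · right
      refine ⟨h.le, ?_⟩
      by_contra hc
      push Not at hc
      have := mul_pos_of_neg_of_neg h hc
      linarith
    · rw [h, zero_mul] at hg'
      exact absurd hg' (lt_irrefl _)
    · left
      refine ⟨?_, h.le⟩
      by_contra hc
      push Not at hc
      have := mul_pos h hc
      linarith
  obtain ⟨μ, hμ, hμ0⟩ := hiv h0
  refine ⟨μ, ?_, hμ0⟩
  rw [Set.uIcc_of_le (by linarith)] at hμ
  rw [abs_lt]
  constructor
  · linarith [hμ.1]
  · linarith [hμ.2]

end Pool.Agent.LibHit3
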