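import Pool.Agent.LibHit3.A_Eig1

set_option autoImplicit false

noncomputable section

open Matrix
open scoped MatrixGroups

namespace Pool.Agent.LibHit3

/-- the candidate for the matrix of eigenvectors -/
def eg2V (E : SL3) (l : Fin 3 → ℝ) (p : M3 × (Fin 3 → ℝ)) : M3 :=
  Matrix.of fun i j => (∏ k ∈ Finset.univ.erase j, (l k - l j))⁻¹ *
    ((p.1 - p.2 j • (1 : M3)).adjugate *ᵥ (fun a => E.1 a j)) i

/-- divide the first column by the determinant -/
def eg2F (V : M3) : M3 := V * Matrix.diagonal ![(V.det)⁻¹, 1, 1]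

lemma eg2V_continuous (E : SL3) (l : Fin 3 → ℝ) : Continuous (eg2V E l) := by
  refine continuous_matrix (fun i j => ?_)
  have h1 : Continuous (fun p : M3 × (Fin 3 → ℝ) => (p.1 - p.2 j • (1 : M3)).adjugate) := by
    refine Continuous.matrix_adjugate ?_
    fun_prop
  have h2 : Continuous (fun p : M3 × (Fin 3 → ℝ) =>
      (p.1 - p.2 j • (1 : M3)).adjugate *ᵥ (fun a => E.1 a j)) :=
    h1.matrix_mulVec continuous_const
  exact continuous_const.mul ((continuous_apply i).comp h2)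

lemma eg2V_eval {E g : SL3} {l : Fin 3 → ℝ} (hl : Function.Injective l)
    (hd : (E⁻¹ * g * E).1 = Matrix.diagonal l) : eg2V E l (g.1, l) = E.1 := by
  have hEE : E.1 * (E⁻¹).1 = 1 := congrArg Subtype.val (mul_inv_cancel E)
  have hEE' : (E⁻¹).1 * E.1 = 1 := congrArg Subtype.val (inv_mul_cancel E)
  have hg : g.1 = E.1 * Matrix.diagonal l * (E⁻¹).1 := by
    rw [← hd]
    have h1 : g = E * (E⁻¹ * g * E) * E⁻¹ := by group
    exact congrArg Subtype.val h1
  have hadjE : (E.1).adjugate = (E⁻¹).1 := (Matrix.SpecialLinearGroup.coe_inv E).symm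
  have hadjE' : ((E⁻¹).1).adjugate = E.1 := by
    have h := (Matrix.SpecialLinearGroup.coe_inv (E⁻¹)).symm
    rw [inv_inv] at h
    exact h
  have hcol : ∀ j, (fun a => E.1 a j) = E.1 *ᵥ (Pi.single j 1) := by
    intro j
    funext a
    simp [Matrix.mulVec_single_one]
  have hadj : ∀ j, (g.1 - l j • (1 : M3)).adjugate =
      E.1 * (Matrix.diagonal (fun k => ∏ m ∈ Finset.univ.erase k, (l m - l j))) * (E⁻¹).1 := by
    intro j
    have h1 : g.1 - l j • (1 : M3) =
        E.1 * (Matrix.diagonal (fun k => l k - l j)) * (E⁻¹).1 := by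
      have h2 : Matrix.diagonal (fun k => l k - l j) =
          Matrix.diagonal l - l j • (1 : M3) := by
        ext a b
        by_cases hab : a = b
        · subst hab
          simp
        · simp [hab]
      rw [h2, mul_sub, sub_mul, ← hg]
      congr 1
      rw [mul_smul_comm, smul_mul_assoc, mul_one, hEE]
    rw [h1, Matrix.adjugate_mul_distrib, Matrix.adjugate_mul_distrib, hadjE, hadjE',
      Matrix.adjugate_diagonal, mul_assoc]
  ext i j
  have hne : (∏ k ∈ Finset.univ.erase j, (l k - l j)) ≠ 0 := by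
    refine Finset.prod_ne_zero_iff.mpr (fun k hk => ?_)
    have hkj : k ≠ j := Finset.ne_of_mem_erase hk
    intro h0
    exact hkj (hl (sub_eq_zero.mp h0))
  show (∏ k ∈ Finset.univ.erase j, (l k - l j))⁻¹ *
    ((g.1 - l j • (1 : M3)).adjugate *ᵥ (fun a => E.1 a j)) i = E.1 i j
  rw [hadj j, hcol j, Matrix.mulVec_mulVec, mul_assoc, hEE', mul_one, ← Matrix.mulVec_mulVec]
  have h3 : (Matrix.diagonal (fun k => ∏ m ∈ Finset.univ.erase k, (l m - l j))) *ᵥ
      (Pi.single j 1) = (∏ m ∈ Finset.univ.erase j, (l m - l j)) • (Pi.single j (1 : ℝ)) := by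
    funext a
    rw [Matrix.mulVec_diagonal]
    by_cases haj : a = j
    · subst haj
      simp
    · simp [haj]
  rw [h3, Matrix.mulVec_smul, ← hcol j, Pi.smul_apply, smul_eq_mul, ← mul_assoc,
    inv_mul_cancel₀ hne, one_mul]

lemma eg2V_mul (E : SL3) (l : Fin 3 → ℝ) (G : M3) (μ : Fin 3 → ℝ)
    (h : ∀ j, (G - μ j • (1 : M3)).det = 0) :
    G * eg2V E l (G, μ) = eg2V E l (G, μ) * Matrix.diagonal μ := by
  have h1 : ∀ j (e : Fin 3 → ℝ), G *ᵥ ((G - μ j • (1 : M3)).adjugate *ᵥ e) =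
      μ j • ((G - μ j • (1 : M3)).adjugate *ᵥ e) := by
    intro j e
    have h2 : (G - μ j • (1 : M3)) * (G - μ j • (1 : M3)).adjugate = 0 := by
      rw [Matrix.mul_adjugate, h j, zero_smul]
    have h3 : G * (G - μ j • (1 : M3)).adjugate = μ j • (G - μ j • (1 : M3)).adjugate := by
      rw [sub_mul, smul_mul_assoc, one_mul] at h2
      exact sub_eq_zero.mp h2
    rw [Matrix.mulVec_mulVec, h3, Matrix.smul_mulVec]
  ext i j
  rw [Matrix.mul_diagonal, Matrix.mul_apply]
  have h4 := congrFun (h1 j (fun a => E.1 a j)) i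
  rw [Matrix.mulVec, dotProduct, Pi.smul_apply, smul_eq_mul] at h4
  show ∑ k, G i k * ((∏ k ∈ Finset.univ.erase j, (l k - l j))⁻¹ *
    ((G - μ j • (1 : M3)).adjugate *ᵥ (fun a => E.1 a j)) k) =
    (∏ k ∈ Finset.univ.erase j, (l k - l j))⁻¹ *
    ((G - μ j • (1 : M3)).adjugate *ᵥ (fun a => E.1 a j)) i * μ j
  have h5 : ∑ k, G i k * ((∏ k ∈ Finset.univ.erase j, (l k - l j))⁻¹ *
      ((G - μ j • (1 : M3)).adjugate *ᵥ (fun a => E.1 a j)) k) =
      (∏ k ∈ Finset.univ.erase j, (l k - l j))⁻¹ *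
      ∑ k, G i k * ((G - μ j • (1 : M3)).adjugate *ᵥ (fun a => E.1 a j)) k := by
    rw [Finset.mul_sum]
    refine Finset.sum_congr rfl (fun k _ => ?_)
    ring
  rw [h5, h4]
  ring

lemma eg2F_det {V : M3} (h : V.det ≠ 0) : (eg2F V).det = 1 := by
  unfold eg2F
  rw [Matrix.det_mul, Matrix.det_diagonal]
  simp [Fin.prod_univ_three, h]

lemma eg2F_continuousAt {V : M3} (h : V.det ≠ 0) : ContinuousAt eg2F V := by
  unfold eg2F
  refine ContinuousAt.mul continuousAt_id ?_
  have hdet : Continuous (fun V : M3 => V.det) := continuous_id.matrix_det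
  have h1 : ContinuousAt (fun V : M3 => (V.det)⁻¹) V := hdet.continuousAt.inv₀ h
  have h2 : ContinuousAt (fun V : M3 => (![(V.det)⁻¹, 1, 1] : Fin 3 → ℝ)) V := by
    refine continuousAt_pi.mpr (fun i => ?_)
    fin_cases i
    · exact h1
    · exact continuousAt_const
    · exact continuousAt_const
  exact (Continuous.matrix_diagonal continuous_id).continuousAt.comp h2

lemma eg2F_self (E : SL3) : eg2F E.1 = E.1 := by
  unfold eg2F
  have h : E.1.det = 1 := E.2
  rw [h, inv_one]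
  have h2 : Matrix.diagonal ![(1 : ℝ), 1, 1] = (1 : M3) := by
    ext i j
    fin_cases i <;> fin_cases j <;> simp
  rw [h2, mul_one]

/-- Task A21. Eigenbases move continuously. Suppose `μ` is a root for `g'` near `l i`: the vector
`v i = (∏_{j ≠ i} (l j - l i))⁻¹ • adjugate (g' - μ) *ᵥ (E e_i)` is killed by `g' - μ`
(`Matrix.mul_adjugate`), and it is close to `E e_i` when `g'` is close to `g` and `μ` to `l i`
(continuity of the polynomial map `(g', μ) ↦ adjugate (g' - μ)` at `(g, l i)`). So the matrix with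
columns `v i` is close to `E`; divide it by the cube root of its determinant, which is close to
`1`. -/
theorem eigen_near {E g : SL3} {l : Fin 3 → ℝ} (h01 : l 1 < l 0) (h12 : l 2 < l 1)
    (h2 : 0 < l 2) (hd : (E⁻¹ * g * E).1 = Matrix.diagonal l) {U : Set SL3}
    (hU : U ∈ nhds E) :
    ∀ᶠ g' : SL3 in nhds g, ∃ E' ∈ U, ∃ l' : Fin 3 → ℝ, l' 1 < l' 0 ∧ l' 2 < l' 1 ∧ 0 < l' 2 ∧
      (E'⁻¹ * g' * E').1 = Matrix.diagonal l' := by
  have hl : Function.Injective l := by
    intro a b hab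
    fin_cases a <;> fin_cases b <;> simp at hab ⊢ <;> linarith
  obtain ⟨W, hW, hWU⟩ := mem_nhds_induced (Subtype.val : SL3 → M3) E U |>.mp hU
  have hEd : (eg2V E l (g.1, l)).det ≠ 0 := by
    rw [eg2V_eval hl hd, E.2]
    exact one_ne_zero
  have hcV := (eg2V_continuous E l).continuousAt (x := (g.1, l))
  have hcF : ContinuousAt (fun p => eg2F (eg2V E l p)) (g.1, l) :=
    ContinuousAt.comp (eg2F_continuousAt hEd) hcV
  have e1 : ∀ᶠ p in nhds (g.1, l), eg2F (eg2V E l p) ∈ W := by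
    refine hcF ?_
    show W ∈ nhds (eg2F (eg2V E l (g.1, l)))
    rw [eg2V_eval hl hd, eg2F_self]
    exact hW
  have e2 : ∀ᶠ p in nhds (g.1, l), (eg2V E l p).det ≠ 0 := by
    have h3 : ContinuousAt (fun p => (eg2V E l p).det) (g.1, l) :=
      ((eg2V_continuous E l).matrix_det).continuousAt
    exact h3.eventually_ne hEd
  have e3 : ∀ᶠ p : M3 × (Fin 3 → ℝ) in nhds (g.1, l), p.2 1 < p.2 0 := by
    refine ContinuousAt.eventually_lt ?_ ?_ h01
    · fun_prop
    · fun_prop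
  have e4 : ∀ᶠ p : M3 × (Fin 3 → ℝ) in nhds (g.1, l), p.2 2 < p.2 1 := by
    refine ContinuousAt.eventually_lt ?_ ?_ h12
    · fun_prop
    · fun_prop
  have e5 : ∀ᶠ p : M3 × (Fin 3 → ℝ) in nhds (g.1, l), 0 < p.2 2 := by
    refine ContinuousAt.eventually_lt ?_ ?_ h2
    · fun_prop
    · fun_prop
  have e6 := e1.and (e2.and (e3.and (e4.and e5)))
  rw [nhds_prod_eq, Filter.eventually_prod_iff] at e6
  obtain ⟨pa, hpa, pb, hpb, hpp⟩ := e6
  obtain ⟨ε, hε, hball⟩ := Metric.eventually_nhds_iff.mp hpb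
  have hcoe : Continuous (fun g' : SL3 => g'.1) := continuous_subtype_val
  have f1 : ∀ᶠ g' : SL3 in nhds g, pa g'.1 := hcoe.continuousAt.eventually hpa
  have f2 : ∀ᶠ g' : SL3 in nhds g, ∀ i : Fin 3, ∃ μ : ℝ, |μ - l i| < ε ∧
      (g'.1 - μ • (1 : M3)).det = 0 :=
    Filter.eventually_all.mpr (fun i => eigenvalue_near hl hd i hε)
  filter_upwards [f1, f2] with g' h1 h3
  choose μ hμ1 hμ2 using h3
  have hμ : dist μ l < ε := by
    rw [dist_pi_lt_iff hε]
    intro i
    rw [Real.dist_eq]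
    exact hμ1 i
  obtain ⟨k1, k2, k3, k4, k5⟩ := hpp h1 (hball hμ)
  set V := eg2V E l (g'.1, μ) with hV
  have hdet : (eg2F V).det = 1 := eg2F_det k2
  refine ⟨⟨eg2F V, hdet⟩, hWU k1, μ, k3, k4, k5, ?_⟩
  have h4 : g'.1 * eg2F V = eg2F V * Matrix.diagonal μ := by
    unfold eg2F
    rw [← mul_assoc, eg2V_mul E l g'.1 μ hμ2, mul_assoc, mul_assoc, Matrix.diagonal_mul_diagonal,
      Matrix.diagonal_mul_diagonal]
    congr 2
    funext i
    ring
  set E' : SL3 := ⟨eg2F V, hdet⟩ with hE'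
  have h5 : (E'⁻¹).1 * E'.1 = 1 := congrArg Subtype.val (inv_mul_cancel E')
  have h6 : (E'⁻¹ * g' * E').1 = (E'⁻¹).1 * (g'.1 * E'.1) := by
    rw [← mul_assoc]
    rfl
  rw [h6]
  show (E'⁻¹).1 * (g'.1 * eg2F V) = _
  rw [h4, ← mul_assoc]
  show (E'⁻¹).1 * E'.1 * _ = _
  rw [h5, one_mul]

end Pool.Agent.LibHit3
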