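import Pool.Agent.LibHit3.Defs

set_option autoImplicit false

noncomputable section

open Matrix
open scoped MatrixGroups

namespace Pool.Agent.LibHit3

/-! Task A01. Elementary properties of positive triples of flags. All proofs are computations
with vectors of length three (`Fin.sum_univ_three`, `Matrix.det_fin_three`). -/

lemma act_one (U : Flag) : act 1 U = U := by
  ext i
  · simp [act]
  · simp [act]

lemma act_mul (g h : SL3) (U : Flag) : act (g * h) U = act g (act h U) := by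
  ext i
  · simp [act, Matrix.mulVec_mulVec]
  · simp only [act, _root_.mul_inv_rev, Matrix.SpecialLinearGroup.coe_mul]
    rw [Matrix.vecMul_vecMul]

lemma det3_act (g : SL3) (u v w : Fin 3 → ℝ) :
    det3 (g.1 *ᵥ u) (g.1 *ᵥ v) (g.1 *ᵥ w) = det3 u v w := by
  -- `Matrix.of ![g u, g v, g w] = Matrix.of ![u, v, w] * gᵀ`
  have h : Matrix.of ![g.1 *ᵥ u, g.1 *ᵥ v, g.1 *ᵥ w] = Matrix.of ![u, v, w] * g.1ᵀ := by
    ext i j
    fin_cases i <;> fin_cases j <;>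
      simp [Matrix.mul_apply, Matrix.mulVec, dotProduct, Fin.sum_univ_three, mul_comm]
  unfold det3
  rw [h, Matrix.det_mul, Matrix.det_transpose, g.2, mul_one]

lemma pair_act (g : SL3) (U V : Flag) : (act g U).P ⬝ᵥ (act g V).L = U.P ⬝ᵥ V.L := by
  unfold act
  simp only
  rw [← Matrix.dotProduct_mulVec, Matrix.mulVec_mulVec]
  have h : (g⁻¹).1 * g.1 = 1 := congrArg Subtype.val (inv_mul_cancel g)
  rw [h, Matrix.one_mulVec]

lemma Pos3.act {U Z V : Flag} (h : Pos3 U Z V) (g : SL3) :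
    Pos3 (act g U) (act g Z) (act g V) := by
  refine ⟨?_, ?_, ?_, ?_, ?_, ?_, ?_⟩
  · rw [pair_act]; exact h.uz
  · rw [pair_act]; exact h.uv
  · rw [pair_act]; exact h.zu
  · rw [pair_act]; exact h.zv
  · rw [pair_act]; exact h.vu
  · rw [pair_act]; exact h.vz
  · show 0 < det3 (g.1 *ᵥ U.L) (g.1 *ᵥ Z.L) (g.1 *ᵥ V.L)
    rw [det3_act]; exact h.dt

lemma det3_eq (u v w : Fin 3 → ℝ) : det3 u v w =
    u 0 * v 1 * w 2 - u 0 * v 2 * w 1 - u 1 * v 0 * w 2 + u 1 * v 2 * w 0 + u 2 * v 0 * w 1 -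
      u 2 * v 1 * w 0 := by
  unfold det3
  rw [Matrix.det_fin_three]
  simp

lemma Pos3.cyc {U Z V : Flag} (h : Pos3 U Z V) : Pos3 Z V U := by
  refine ⟨h.zv, h.zu, h.vz, h.vu, h.uz, h.uv, ?_⟩
  have := h.dt
  rw [det3_eq] at this ⊢
  linarith

/-- `U'` is obtained from `U` by a positive rescaling of the vector and of the covector. -/
def Scaled (U U' : Flag) : Prop :=
  ∃ s t : ℝ, 0 < s ∧ 0 < t ∧ U'.L = s • U.L ∧ U'.P = t • U.P

lemma Scaled.symm {U U' : Flag} (h : Scaled U U') : Scaled U' U := by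
  obtain ⟨s, t, hs, ht, h1, h2⟩ := h
  refine ⟨s⁻¹, t⁻¹, inv_pos.2 hs, inv_pos.2 ht, ?_, ?_⟩
  · rw [h1, smul_smul, inv_mul_cancel₀ hs.ne', one_smul]
  · rw [h2, smul_smul, inv_mul_cancel₀ ht.ne', one_smul]

lemma Pos3.scale {U U' Z V : Flag} (h : Pos3 U Z V) (hs : Scaled U U') : Pos3 U' Z V := by
  obtain ⟨s, t, hs, ht, h1, h2⟩ := hs
  refine ⟨?_, ?_, ?_, h.zv, ?_, h.vz, ?_⟩
  · rw [h2, smul_dotProduct]; exact mul_pos ht h.uz
  · rw [h2, smul_dotProduct]; exact mul_pos ht h.uv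
  · rw [h1, dotProduct_smul]; exact mul_pos hs h.zu
  · rw [h1, dotProduct_smul]; exact mul_pos hs h.vu
  · have := mul_pos hs h.dt
    rw [h1]
    rw [det3_eq] at this ⊢
    simp only [Pi.smul_apply, smul_eq_mul]
    linarith

lemma Scaled.act {U U' : Flag} (h : Scaled U U') (g : SL3) :
    Scaled (act g U) (act g U') := by
  obtain ⟨s, t, hs, ht, h1, h2⟩ := h
  refine ⟨s, t, hs, ht, ?_, ?_⟩
  · show g.1 *ᵥ U'.L = s • (g.1 *ᵥ U.L)
    rw [h1, Matrix.mulVec_smul]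
  · show U'.P ᵥ* (g⁻¹).1 = t • (U.P ᵥ* (g⁻¹).1)
    rw [h2, Matrix.smul_vecMul]

/-- The product of the two determinants is the determinant of the matrix of the pairings, the
diagonal of which vanishes. -/
lemma det3_mul_det3 (U Z V : Flag) : det3 U.P Z.P V.P * det3 U.L Z.L V.L =
    (U.P ⬝ᵥ Z.L) * (Z.P ⬝ᵥ V.L) * (V.P ⬝ᵥ U.L) +
      (U.P ⬝ᵥ V.L) * (Z.P ⬝ᵥ U.L) * (V.P ⬝ᵥ Z.L) := by
  -- `Matrix.of ![U.P, Z.P, V.P] * (Matrix.of ![U.L, Z.L, V.L])ᵀ` is the matrix of the pairings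
  have h : Matrix.of ![U.P, Z.P, V.P] * (Matrix.of ![U.L, Z.L, V.L])ᵀ =
      !![0, U.P ⬝ᵥ Z.L, U.P ⬝ᵥ V.L; Z.P ⬝ᵥ U.L, 0, Z.P ⬝ᵥ V.L; V.P ⬝ᵥ U.L, V.P ⬝ᵥ Z.L, 0] := by
    have hU := U.inc
    have hZ := Z.inc
    have hV := V.inc
    simp only [dotProduct, Fin.sum_univ_three] at hU hZ hV
    ext i j
    fin_cases i <;> fin_cases j <;>
      simp [Matrix.mul_apply, dotProduct, Fin.sum_univ_three, hU, hZ, hV]
  have h2 := congrArg Matrix.det h
  rw [Matrix.det_mul, Matrix.det_transpose] at h2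
  unfold det3
  rw [h2, Matrix.det_fin_three]
  simp

/-- The determinant of the covectors of a positive triple is positive. -/
lemma Pos3.detP {U Z V : Flag} (h : Pos3 U Z V) : 0 < det3 U.P Z.P V.P := by
  have h1 := det3_mul_det3 U Z V
  have h2 : 0 < det3 U.P Z.P V.P * det3 U.L Z.L V.L := by
    rw [h1]
    have a1 := mul_pos (mul_pos h.uz h.zv) h.vu
    have a2 := mul_pos (mul_pos h.uv h.zu) h.vz
    linarith
  exact (mul_pos_iff_of_pos_right h.dt).1 h2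

/-- A weakly positive triple with positive pairings is positive. -/
lemma pos3_of_weak {U Z V : Flag} (h1 : 0 < U.P ⬝ᵥ Z.L) (h2 : 0 < U.P ⬝ᵥ V.L)
    (h3 : 0 < Z.P ⬝ᵥ U.L) (h4 : 0 < Z.P ⬝ᵥ V.L) (h5 : 0 < V.P ⬝ᵥ U.L) (h6 : 0 < V.P ⬝ᵥ Z.L)
    (h7 : 0 ≤ det3 U.L Z.L V.L) : Pos3 U Z V := by
  refine ⟨h1, h2, h3, h4, h5, h6, ?_⟩
  rcases h7.eq_or_lt with h | h
  · exfalso
    have h8 := det3_mul_det3 U Z V
    rw [← h, mul_zero] at h8
    have a1 := mul_pos (mul_pos h1 h4) h5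
    have a2 := mul_pos (mul_pos h2 h3) h6
    linarith
  · exact h

end Pool.Agent.LibHit3
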