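import Pool.Agent.LibHit3.A_Words

set_option autoImplicit false

noncomputable section

open Matrix
open scoped MatrixGroups

namespace Pool.Agent.LibHit3

/-- The limits of good pairs, with `E = 1`. -/
structure Weak (x y : SL3) (l : Fin 3 → ℝ) : Prop where
  l01 : l 1 ≤ l 0
  l12 : l 2 ≤ l 1
  l2 : 0 < l 2
  diag : (x * y * x⁻¹ * y⁻¹).1 = Matrix.diagonal l
  pat : ∀ w ∉ Subgroup.zpowers wg, ∀ i j, 0 ≤ sg j * (ev x y w).1 i j
  prd : ∀ w ∉ Subgroup.zpowers wg,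
    1 ≤ |(ev x y w).1 0 2 * (ev x y w).1 1 1 * (ev x y w).1 2 0|
  mal : ∀ w ∉ Subgroup.zpowers wg, w * wg * w⁻¹ ∉ Subgroup.zpowers wg
  dets : ∀ i : Fin 6, 0 ≤ det3 (octPt x y 1 0).L (octPt x y 1 i.succ.castSucc).L
    (octPt x y 1 i.succ.succ).L

lemma Weak.corner_ne {x y : SL3} {l : Fin 3 → ℝ} (h : Weak x y l) {w : FG}
    (hw : w ∉ Subgroup.zpowers wg) : (ev x y w).1 0 2 ≠ 0 := by
  intro h0
  have := h.prd w hw
  rw [h0] at this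
  norm_num at this

lemma wx_notMem : wx ∉ Subgroup.zpowers wg := by
  apply notMem_of_abel
  intro h
  have : (Multiplicative.ofAdd (1 : ℤ), (1 : Multiplicative ℤ)) = 1 := by
    simpa [abel, wx] using h
  have h2 := congrArg Prod.fst this
  simp only [Prod.fst_one] at h2
  exact absurd (Multiplicative.ofAdd.injective h2) (by norm_num)

lemma ev_wg_conj (x y : SL3) (l : Fin 3 → ℝ) (h : (x * y * x⁻¹ * y⁻¹).1 = Matrix.diagonal l)
    (i j : Fin 3) : (ev x y (wx * wg * wx⁻¹)).1 i j = x.1 i 0 * l 0 * (x⁻¹).1 0 j +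
      x.1 i 1 * l 1 * (x⁻¹).1 1 j + x.1 i 2 * l 2 * (x⁻¹).1 2 j := by
  have h1 : (ev x y (wx * wg * wx⁻¹)).1 = x.1 * Matrix.diagonal l * (x⁻¹).1 := by
    rw [map_mul, map_mul, map_inv, ev_wx, ev_wg, ← h]
    rfl
  rw [h1, Matrix.mul_apply, Fin.sum_univ_three]
  simp only [Matrix.mul_diagonal]

lemma inv_diag {x y : SL3} {l : Fin 3 → ℝ} (h : (x * y * x⁻¹ * y⁻¹).1 = Matrix.diagonal l)
    (hl : ∀ i, l i ≠ 0) : ((x * y * x⁻¹ * y⁻¹)⁻¹).1 = Matrix.diagonal (fun i => (l i)⁻¹) := by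
  have h1 : ((x * y * x⁻¹ * y⁻¹)⁻¹).1 * Matrix.diagonal l = 1 := by
    rw [← h]
    exact congrArg Subtype.val (inv_mul_cancel (x * y * x⁻¹ * y⁻¹))
  have h2 : Matrix.diagonal l * Matrix.diagonal (fun i => (l i)⁻¹) = 1 := by
    rw [Matrix.diagonal_mul_diagonal, ← Matrix.diagonal_one]
    congr 1
    funext i
    exact mul_inv_cancel₀ (hl i)
  calc ((x * y * x⁻¹ * y⁻¹)⁻¹).1 = ((x * y * x⁻¹ * y⁻¹)⁻¹).1 *
        (Matrix.diagonal l * Matrix.diagonal (fun i => (l i)⁻¹)) := by rw [h2, Matrix.mul_one]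
    _ = _ := by rw [← Matrix.mul_assoc, h1, Matrix.one_mul]

lemma ev_wg_conj' (x y : SL3) (l : Fin 3 → ℝ) (h : (x * y * x⁻¹ * y⁻¹).1 = Matrix.diagonal l)
    (hl : ∀ i, l i ≠ 0)
    (i j : Fin 3) : (ev x y (wx * wg⁻¹ * wx⁻¹)).1 i j = x.1 i 0 * (l 0)⁻¹ * (x⁻¹).1 0 j +
      x.1 i 1 * (l 1)⁻¹ * (x⁻¹).1 1 j + x.1 i 2 * (l 2)⁻¹ * (x⁻¹).1 2 j := by
  have h1 : (ev x y (wx * wg⁻¹ * wx⁻¹)).1 =
      x.1 * Matrix.diagonal (fun i => (l i)⁻¹) * (x⁻¹).1 := by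
    rw [map_mul, map_mul, map_inv, map_inv, ev_wx, ev_wg, ← inv_diag h hl]
    rfl
  rw [h1, Matrix.mul_apply, Fin.sum_univ_three]
  simp only [Matrix.mul_diagonal]

/-- Task A13. The eigenvalues remain distinct. Let `g = x` (not a power of `wg`). If
`l 0 = l 1 = λ` then the entry `(0, 2)` of `x wg x⁻¹` is
`∑ j, x 0 j * l j * x⁻¹ j 2 = (l 2 - λ) * x 0 2 * x⁻¹ 2 2 ≤ 0` (use `x x⁻¹ = 1`), but it is
positive by `pat` and `prd` for the word `x wg x⁻¹`. If `l 1 = l 2 = λ` then in the same way the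
entry `(0, 2)` of `x wg⁻¹ x⁻¹` is `((l 0)⁻¹ - λ⁻¹) * x 0 0 * x⁻¹ 0 2 ≤ 0`. -/
theorem Weak.strict {x y : SL3} {l : Fin 3 → ℝ} (h : Weak x y l) : l 1 < l 0 ∧ l 2 < l 1 := by
  have hx := wx_notMem
  have hx' : wx⁻¹ ∉ Subgroup.zpowers wg := fun h => hx (by simpa using inv_mem h)
  have h1 : 0 < l 1 := lt_of_lt_of_le h.l2 h.l12
  have h0 : 0 < l 0 := lt_of_lt_of_le h1 h.l01
  have hl : ∀ i, l i ≠ 0 := by
    intro i; fin_cases i
    · exact h0.ne'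
    · exact h1.ne'
    · exact h.l2.ne'
  have hone : x.1 0 0 * (x⁻¹).1 0 2 + x.1 0 1 * (x⁻¹).1 1 2 + x.1 0 2 * (x⁻¹).1 2 2 = 0 := by
    have e := congrArg Subtype.val (mul_inv_cancel x)
    have e2 := congrFun (congrFun e 0) 2
    have e3 : (x * x⁻¹).1 = x.1 * (x⁻¹).1 := rfl
    rw [e3, Matrix.mul_apply, Fin.sum_univ_three] at e2
    rw [e2]
    simp
  have p1 : 0 ≤ x.1 0 2 := by simpa [sg] using h.pat wx hx 0 2
  have p2 : 0 ≤ (x⁻¹).1 2 2 := by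
    have := h.pat wx⁻¹ hx' 2 2
    rw [map_inv, ev_wx] at this
    simpa [sg] using this
  have p3 : 0 ≤ x.1 0 0 := by simpa [sg] using h.pat wx hx 0 0
  have p4 : 0 ≤ (x⁻¹).1 0 2 := by
    have := h.pat wx⁻¹ hx' 0 2
    rw [map_inv, ev_wx] at this
    simpa [sg] using this
  have hm := h.mal wx hx
  have hm' : wx * wg⁻¹ * wx⁻¹ ∉ Subgroup.zpowers wg := by
    intro hh
    apply hm
    have := inv_mem hh
    have e : (wx * wg⁻¹ * wx⁻¹)⁻¹ = wx * wg * wx⁻¹ := by group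
    rwa [e] at this
  constructor
  · refine lt_of_le_of_ne h.l01 fun he => ?_
    have e1 := ev_wg_conj x y l h.diag 0 2
    have e2 : (ev x y (wx * wg * wx⁻¹)).1 0 2 = (l 2 - l 1) * (x.1 0 2 * (x⁻¹).1 2 2) := by
      rw [e1, ← he]
      linear_combination l 1 * hone
    have e3 : 0 ≤ (ev x y (wx * wg * wx⁻¹)).1 0 2 := by simpa [sg] using h.pat _ hm 0 2
    have e4 : (ev x y (wx * wg * wx⁻¹)).1 0 2 ≤ 0 := by
      rw [e2]
      exact mul_nonpos_of_nonpos_of_nonneg (by linarith [h.l12]) (mul_nonneg p1 p2)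
    exact h.corner_ne hm (le_antisymm e4 e3)
  · refine lt_of_le_of_ne h.l12 fun he => ?_
    have e1 := ev_wg_conj' x y l h.diag hl 0 2
    have e2 : (ev x y (wx * wg⁻¹ * wx⁻¹)).1 0 2 =
        ((l 0)⁻¹ - (l 1)⁻¹) * (x.1 0 0 * (x⁻¹).1 0 2) := by
      rw [e1, he]
      linear_combination (l 1)⁻¹ * hone
    have e3 : 0 ≤ (ev x y (wx * wg⁻¹ * wx⁻¹)).1 0 2 := by simpa [sg] using h.pat _ hm' 0 2
    have e4 : (ev x y (wx * wg⁻¹ * wx⁻¹)).1 0 2 ≤ 0 := by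
      rw [e2]
      refine mul_nonpos_of_nonpos_of_nonneg ?_ (mul_nonneg p3 p4)
      have : (l 0)⁻¹ ≤ (l 1)⁻¹ := inv_anti₀ h1 h.l01
      linarith
    exact h.corner_ne hm' (le_antisymm e4 e3)

/-- `g 0 2, g 2 0 > 0` and `g 1 1 < 0`. -/
lemma Weak.signs {x y : SL3} {l : Fin 3 → ℝ} (h : Weak x y l) {w : FG}
    (hw : w ∉ Subgroup.zpowers wg) :
    0 < (ev x y w).1 0 2 ∧ 0 < (ev x y w).1 2 0 ∧ (ev x y w).1 1 1 < 0 := by
  have h1 := h.prd w hw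
  have a1 : (ev x y w).1 0 2 ≠ 0 := h.corner_ne hw
  have a2 : (ev x y w).1 2 0 ≠ 0 := by
    intro h0; rw [h0] at h1; norm_num at h1
  have a3 : (ev x y w).1 1 1 ≠ 0 := by
    intro h0; rw [h0] at h1; norm_num at h1
  have b1 : 0 ≤ (ev x y w).1 0 2 := by simpa [sg] using h.pat w hw 0 2
  have b2 : 0 ≤ (ev x y w).1 2 0 := by simpa [sg] using h.pat w hw 2 0
  have b3 : (ev x y w).1 1 1 ≤ 0 := by simpa [sg] using h.pat w hw 1 1
  exact ⟨lt_of_le_of_ne b1 a1.symm, lt_of_le_of_ne b2 a2.symm, lt_of_le_of_ne b3 a3⟩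

end Pool.Agent.LibHit3
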