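import Pool.Agent.LibHit3.A_Lim1

set_option autoImplicit false

noncomputable section

open Matrix
open scoped MatrixGroups

namespace Pool.Agent.LibHit3

/-- A product of three matrices with a diagonal matrix in the middle. -/
lemma A_Lim2_entry (A B : M3) (l : Fin 3 → ℝ) (i j : Fin 3) :
    (A * Matrix.diagonal l * B) i j =
      A i 0 * l 0 * B 0 j + A i 1 * l 1 * B 1 j + A i 2 * l 2 * B 2 j := by
  rw [Matrix.mul_apply, Fin.sum_univ_three]
  simp only [Matrix.mul_diagonal]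

lemma A_Lim2_coe_mul (a b : SL3) : (a * b).1 = a.1 * b.1 := rfl

lemma A_Lim2_coe_pow (a : SL3) (k : ℕ) : (a ^ k).1 = a.1 ^ k := by
  induction k with
  | zero => rfl
  | succ k ih => rw [_root_.pow_succ, _root_.pow_succ, A_Lim2_coe_mul, ih]

lemma A_Lim2_sg0 : sg 0 = 1 := by simp [sg]

lemma A_Lim2_sg2 : sg 2 = 1 := by simp [sg]

lemma Weak.A_Lim2_ev {x y : SL3} {l : Fin 3 → ℝ} (h : Weak x y l) :
    (ev x y wg).1 = Matrix.diagonal l := by
  rw [ev_wg]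
  exact h.diag

/-- The powers of the commutator. -/
lemma Weak.A_Lim2_pow {x y : SL3} {l : Fin 3 → ℝ} (h : Weak x y l) (k : ℕ) :
    (ev x y (wg ^ (k : ℤ))).1 = Matrix.diagonal fun i => l i ^ k := by
  rw [zpow_natCast, map_pow]
  have h1 : ((ev x y wg) ^ k).1 = (ev x y wg).1 ^ k := A_Lim2_coe_pow _ _
  rw [h1, h.A_Lim2_ev, Matrix.diagonal_pow]
  rfl

/-- The inverse of the commutator. -/
lemma Weak.A_Lim2_inv {x y : SL3} {l : Fin 3 → ℝ} (h : Weak x y l) :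
    (ev x y wg⁻¹).1 = Matrix.diagonal fun i => (l i)⁻¹ := by
  have h1 : (ev x y wg⁻¹).1 * Matrix.diagonal l = 1 := by
    rw [← h.A_Lim2_ev, ← A_Lim2_coe_mul, ← map_mul, inv_mul_cancel, map_one]
    rfl
  have hl : ∀ i, l i ≠ 0 := by
    intro i
    have := h.l2
    have := h.l12
    have := h.l01
    fin_cases i
    · exact (by linarith : 0 < l 0).ne'
    · exact (by linarith : 0 < l 1).ne'
    · exact h.l2.ne'
  have h2 : Matrix.diagonal l * Matrix.diagonal (fun i => (l i)⁻¹) = (1 : M3) := by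
    rw [Matrix.diagonal_mul_diagonal, ← Matrix.diagonal_one]
    congr 1
    funext i
    exact mul_inv_cancel₀ (hl i)
  calc (ev x y wg⁻¹).1 = (ev x y wg⁻¹).1 * (Matrix.diagonal l *
        Matrix.diagonal (fun i => (l i)⁻¹)) := by rw [h2, mul_one]
    _ = _ := by rw [← mul_assoc, h1, one_mul]

lemma Weak.A_Lim2_pow' {x y : SL3} {l : Fin 3 → ℝ} (h : Weak x y l) (k : ℕ) :
    (ev x y (wg ^ (-(k : ℤ)))).1 = Matrix.diagonal fun i => (l i)⁻¹ ^ k := by
  rw [_root_.zpow_neg, zpow_natCast, ← inv_pow, map_pow]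
  have h1 : ((ev x y wg⁻¹) ^ k).1 = (ev x y wg⁻¹).1 ^ k := A_Lim2_coe_pow _ _
  rw [h1, h.A_Lim2_inv, Matrix.diagonal_pow]
  rfl

/-- The inverse matrix. -/
lemma A_Lim2_adj (x y : SL3) (w : FG) :
    (ev x y w⁻¹).1 2 2 = (ev x y w).1 0 0 * (ev x y w).1 1 1 -
      (ev x y w).1 0 1 * (ev x y w).1 1 0 ∧
    (ev x y w⁻¹).1 0 0 = (ev x y w).1 1 1 * (ev x y w).1 2 2 -
      (ev x y w).1 1 2 * (ev x y w).1 2 1 := by
  have e : (ev x y w⁻¹).1 = (ev x y w).1.adjugate := by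
    rw [map_inv]
    exact Matrix.SpecialLinearGroup.coe_inv _
  rw [Matrix.adjugate_fin_three] at e
  exact ⟨congrFun (congrFun e 2) 2, congrFun (congrFun e 0) 0⟩

/-- Task A14. The four middle entries of the word. Write `g` for the matrix of `w`, `N = g⁻¹`.
If `g 0 1 = 0` then `0 ≤ N 2 2 = g 0 0 g 1 1 - g 0 1 g 1 0` and `g 1 1 < 0` give `g 0 0 = 0`: the
row `0` of `g` is `(0, 0, g 0 2)`, so the row `0` of `g diag(l) g⁻¹` is `l 2` times the row `0` of `1`,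
in particular its entry `(0, 2)` vanishes, contradicting `signs` for the word `w wg w⁻¹`. If
`g 1 0 = 0` then again `g 0 0 = 0`, the column `0` of `g` is `(0, 0, g 2 0)`, and the column `0` of
`g⁻¹ diag(l) g` is `l 2` times the column `0` of `1`, contradicting `signs` for `w⁻¹ wg w`.
If `g 2 1 = 0` or `g 1 2 = 0`: the same with `0 ≤ N 0 0 = g 1 1 g 2 2 - g 1 2 g 2 1`. -/
theorem Weak.middle {x y : SL3} {l : Fin 3 → ℝ} (h : Weak x y l) {w : FG}
    (hw : w ∉ Subgroup.zpowers wg) :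
    (ev x y w).1 0 1 < 0 ∧ (ev x y w).1 2 1 < 0 ∧ 0 < (ev x y w).1 1 0 ∧
      0 < (ev x y w).1 1 2 := by
  have hw' : w⁻¹ ∉ Subgroup.zpowers wg := fun h' => hw (inv_mem_iff.1 h')
  obtain ⟨s02, s20, s11⟩ := h.signs hw
  obtain ⟨a22, a00⟩ := A_Lim2_adj x y w
  have pg := h.pat w hw
  have pn := h.pat w⁻¹ hw'
  have g00 := pg 0 0
  have g01 := pg 0 1
  have g10 := pg 1 0
  have g12 := pg 1 2
  have g21 := pg 2 1
  have g22 := pg 2 2
  have n22 := pn 2 2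
  have n00 := pn 0 0
  simp [sg] at g00 g01 g10 g12 g21 g22
  rw [A_Lim2_sg2, one_mul] at n22
  rw [A_Lim2_sg0, one_mul] at n00
  have hm := h.signs (h.mal w hw)
  have hm' := h.signs (h.mal w⁻¹ hw')
  have em : (ev x y (w * wg * w⁻¹)).1 =
      (ev x y w).1 * Matrix.diagonal l * (ev x y w⁻¹).1 := by
    rw [map_mul, map_mul, A_Lim2_coe_mul, A_Lim2_coe_mul, h.A_Lim2_ev]
  have em' : (ev x y (w⁻¹ * wg * w⁻¹⁻¹)).1 =
      (ev x y w⁻¹).1 * Matrix.diagonal l * (ev x y w).1 := by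
    rw [inv_inv, map_mul, map_mul, A_Lim2_coe_mul, A_Lim2_coe_mul, h.A_Lim2_ev]
  rw [em, A_Lim2_entry, A_Lim2_entry] at hm
  rw [em', A_Lim2_entry, A_Lim2_entry] at hm'
  obtain ⟨m02, m20, -⟩ := hm
  obtain ⟨k02, k20, -⟩ := hm'
  refine ⟨lt_of_le_of_ne g01 ?_, lt_of_le_of_ne g21 ?_, lt_of_le_of_ne g10 ?_,
    lt_of_le_of_ne g12 ?_⟩
  · intro h0
    have h1 : (ev x y w).1 0 0 = 0 := by
      by_contra hne
      have hpos : 0 < (ev x y w).1 0 0 := lt_of_le_of_ne g00 (Ne.symm hne)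
      have := mul_neg_of_pos_of_neg hpos s11
      rw [h0, zero_mul] at a22
      linarith
    have h2 : (ev x y w⁻¹).1 2 2 = 0 := by rw [a22, h0, h1]; ring
    rw [h0, h1, h2] at m02
    simp at m02
  · intro h0
    have h1 : (ev x y w).1 2 2 = 0 := by
      by_contra hne
      have hpos : 0 < (ev x y w).1 2 2 := lt_of_le_of_ne g22 (Ne.symm hne)
      have := mul_neg_of_neg_of_pos s11 hpos
      rw [h0, mul_zero] at a00
      linarith
    have h2 : (ev x y w⁻¹).1 0 0 = 0 := by rw [a00, h0, h1]; ring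
    rw [h0, h1, h2] at m20
    simp at m20
  · intro h0
    replace h0 := h0.symm
    have h1 : (ev x y w).1 0 0 = 0 := by
      by_contra hne
      have hpos : 0 < (ev x y w).1 0 0 := lt_of_le_of_ne g00 (Ne.symm hne)
      have := mul_neg_of_pos_of_neg hpos s11
      rw [h0, mul_zero] at a22
      linarith
    have h2 : (ev x y w⁻¹).1 2 2 = 0 := by rw [a22, h0, h1]; ring
    rw [h0, h1, h2] at k20
    simp at k20
  · intro h0
    replace h0 := h0.symm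
    have h1 : (ev x y w).1 2 2 = 0 := by
      by_contra hne
      have hpos : 0 < (ev x y w).1 2 2 := lt_of_le_of_ne g22 (Ne.symm hne)
      have := mul_neg_of_neg_of_pos s11 hpos
      rw [h0, zero_mul] at a00
      linarith
    have h2 : (ev x y w⁻¹).1 0 0 = 0 := by rw [a00, h0, h1]; ring
    rw [h0, h1, h2] at k02
    simp at k02

/-- A geometric sequence with ratio less than one. -/
lemma A_Lim2_geom {a b c r : ℝ} (hb : b < 0) (hr : 0 < r) (hr1 : r < 1) (ha : a = 0)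
    (h : ∀ k : ℕ, 0 ≤ a + b + c * r ^ k) : False := by
  have h1 : Filter.Tendsto (fun k : ℕ => a + b + c * r ^ k) Filter.atTop
      (nhds (a + b + c * 0)) :=
    ((tendsto_pow_atTop_nhds_zero_of_lt_one hr.le hr1).const_mul c).const_add (a + b)
  have h2 : 0 ≤ a + b + c * 0 := ge_of_tendsto' h1 h
  rw [ha, mul_zero] at h2
  linarith

/-- The corners are positive: `(g diag(l)^k g) 0 0 = g 0 0 ^ 2 * l 0 ^ k + g 0 1 * g 1 0 * l 1 ^ k +
g 0 2 * g 2 0 * l 2 ^ k` is nonnegative for all `k : ℕ` (word `w wg^k w`), `g 0 1 * g 1 0 < 0` and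
`l 2 / l 1 < 1`, so `g 0 0 ≠ 0` (let `k → ∞`). In the same way `g 2 2 ≠ 0` from the entry
`(2, 2)` of `g diag(l)^(-k) g`. -/
theorem Weak.corners {x y : SL3} {l : Fin 3 → ℝ} (h : Weak x y l) {w : FG}
    (hw : abel w ≠ 1) : 0 < (ev x y w).1 0 0 ∧ 0 < (ev x y w).1 2 2 := by
  have hw1 := notMem_of_abel hw
  obtain ⟨g01, g21, g10, g12⟩ := h.middle hw1
  obtain ⟨l01, l12⟩ := h.strict
  have l2 := h.l2
  have l1p : 0 < l 1 := by linarith
  have l0p : 0 < l 0 := by linarith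
  have pg := h.pat w hw1
  have g00 := pg 0 0
  have g22 := pg 2 2
  simp [sg] at g00 g22
  have hk : ∀ k : ℕ, 0 ≤ (ev x y w).1 0 0 * l 0 ^ k * (ev x y w).1 0 0 +
      (ev x y w).1 0 1 * l 1 ^ k * (ev x y w).1 1 0 +
      (ev x y w).1 0 2 * l 2 ^ k * (ev x y w).1 2 0 := by
    intro k
    have h1 := h.pat _ (notMem_twice hw (k : ℤ)) 0 0
    rw [map_mul, map_mul, A_Lim2_coe_mul, A_Lim2_coe_mul, h.A_Lim2_pow, A_Lim2_entry] at h1
    simpa [sg] using h1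
  have hk' : ∀ k : ℕ, 0 ≤ (ev x y w).1 2 0 * (l 0)⁻¹ ^ k * (ev x y w).1 0 2 +
      (ev x y w).1 2 1 * (l 1)⁻¹ ^ k * (ev x y w).1 1 2 +
      (ev x y w).1 2 2 * (l 2)⁻¹ ^ k * (ev x y w).1 2 2 := by
    intro k
    have h1 := h.pat _ (notMem_twice hw (-(k : ℤ))) 2 2
    rw [map_mul, map_mul, A_Lim2_coe_mul, A_Lim2_coe_mul, h.A_Lim2_pow', A_Lim2_entry] at h1
    simpa [sg] using h1
  refine ⟨lt_of_le_of_ne g00 fun h0 => ?_, lt_of_le_of_ne g22 fun h0 => ?_⟩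
  · refine A_Lim2_geom (a := 0) (b := (ev x y w).1 0 1 * (ev x y w).1 1 0)
      (c := (ev x y w).1 0 2 * (ev x y w).1 2 0) (r := l 2 / l 1)
      (mul_neg_of_neg_of_pos g01 g10) (div_pos l2 l1p) ((div_lt_one l1p).2 l12) rfl fun k => ?_
    have h1 := hk k
    rw [← h0] at h1
    have h2 : 0 < l 1 ^ k := pow_pos l1p k
    have h3 : (l 2 / l 1) ^ k * l 1 ^ k = l 2 ^ k := by
      rw [div_pow, div_mul_cancel₀ _ h2.ne']
    refine nonneg_of_mul_nonneg_left (b := l 1 ^ k) ?_ h2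
    have h4 : (0 + (ev x y w).1 0 1 * (ev x y w).1 1 0 +
        (ev x y w).1 0 2 * (ev x y w).1 2 0 * (l 2 / l 1) ^ k) * l 1 ^ k =
        (ev x y w).1 0 1 * l 1 ^ k * (ev x y w).1 1 0 +
        (ev x y w).1 0 2 * ((l 2 / l 1) ^ k * l 1 ^ k) * (ev x y w).1 2 0 := by ring
    rw [h4, h3]
    linarith
  · refine A_Lim2_geom (a := 0) (b := (ev x y w).1 2 1 * (ev x y w).1 1 2)
      (c := (ev x y w).1 2 0 * (ev x y w).1 0 2) (r := l 1 / l 0)
      (mul_neg_of_neg_of_pos g21 g12) (div_pos l1p l0p) ((div_lt_one l0p).2 l01) rfl fun k => ?_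
    have h1 := hk' k
    rw [← h0] at h1
    have h2 : 0 < (l 1)⁻¹ ^ k := pow_pos (inv_pos.2 l1p) k
    have h3 : (l 1 / l 0) ^ k * (l 1)⁻¹ ^ k = (l 0)⁻¹ ^ k := by
      rw [← mul_pow]
      congr 1
      field_simp
    refine nonneg_of_mul_nonneg_left (b := (l 1)⁻¹ ^ k) ?_ h2
    have h4 : (0 + (ev x y w).1 2 1 * (ev x y w).1 1 2 +
        (ev x y w).1 2 0 * (ev x y w).1 0 2 * (l 1 / l 0) ^ k) * (l 1)⁻¹ ^ k =
        (ev x y w).1 2 0 * ((l 1 / l 0) ^ k * (l 1)⁻¹ ^ k) * (ev x y w).1 0 2 +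
        (ev x y w).1 2 1 * (l 1)⁻¹ ^ k * (ev x y w).1 1 2 := by ring
    rw [h4, h3]
    linarith

end Pool.Agent.LibHit3
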