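import Pool.Agent.LibHit3.A_Lim2

set_option autoImplicit false

noncomputable section

open Matrix
open scoped MatrixGroups

namespace Pool.Agent.LibHit3

/-- the standard flags -/
private def Lim3_st (b : Bool) : Flag := if b then p0 else q0

private lemma Lim3_corner (g : SL3) (b b' : Bool) :
    (Lim3_st b).P ⬝ᵥ (act g (Lim3_st b')).L =
      if b then (if b' then g.1 2 0 else g.1 2 2) else (if b' then g.1 0 0 else g.1 0 2) := by
  cases b <;> cases b' <;>
    simp [Lim3_st, act, p0, q0, dotProduct, Matrix.mulVec, Fin.sum_univ_three]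

private lemma Lim3_pair (x y : SL3) (v w : FG) (b b' : Bool) :
    (act (ev x y v) (Lim3_st b)).P ⬝ᵥ (act (ev x y w) (Lim3_st b')).L =
      if b then (if b' then (ev x y (v⁻¹ * w)).1 2 0 else (ev x y (v⁻¹ * w)).1 2 2)
      else (if b' then (ev x y (v⁻¹ * w)).1 0 0 else (ev x y (v⁻¹ * w)).1 0 2) := by
  rw [← Lim3_corner, ← pair_act (ev x y v) (Lim3_st b), ← act_mul, ← map_mul,
    mul_inv_cancel_left]

private lemma Lim3_pos {x y : SL3} {l : Fin 3 → ℝ} (h : Weak x y l) {i j : Fin 4} {b b' : Bool}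
    (hne : i ≠ j ∨ b ≠ b') :
    0 < (act (ev x y (cst i)) (Lim3_st b)).P ⬝ᵥ (act (ev x y (cst j)) (Lim3_st b')).L := by
  rw [Lim3_pair]
  by_cases hij : i = j
  · subst hij
    rw [inv_mul_cancel, map_one]
    rcases hne with h1 | h1
    · exact absurd rfl h1
    · cases b <;> cases b'
      · exact absurd rfl h1
      · simp
      · simp
      · exact absurd rfl h1
  · have h1 := abel_cst hij
    have h2 := h.corners h1
    have h3 := h.signs (notMem_of_abel h1)
    cases b <;> cases b'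
    · exact h3.1
    · exact h2.1
    · exact h2.2
    · exact h3.2.1

/-- the coset of the vertex -/
private def Lim3_c : Fin 8 → Fin 4 := ![0, 1, 1, 2, 2, 3, 3, 0]
/-- the type of the vertex -/
private def Lim3_b : Fin 8 → Bool := ![true, false, true, false, true, false, true, false]

private lemma Lim3_vtx (x y : SL3) (k : Fin 8) :
    octPt x y 1 k = act (ev x y (cst (Lim3_c k))) (Lim3_st (Lim3_b k)) := by
  fin_cases k
  · change act 1 p0 = act (ev x y 1) p0
    rw [map_one]
  · change act (y⁻¹ * 1) q0 = act (ev x y wy⁻¹) q0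
    rw [map_inv, ev_wy, mul_one]
  · change act (y⁻¹ * 1) p0 = act (ev x y wy⁻¹) p0
    rw [map_inv, ev_wy, mul_one]
  · change act (x⁻¹ * y⁻¹ * 1) q0 = act (ev x y (wx⁻¹ * wy⁻¹)) q0
    rw [map_mul, map_inv, map_inv, ev_wy, ev_wx, mul_one]
  · change act (x⁻¹ * y⁻¹ * 1) p0 = act (ev x y (wx⁻¹ * wy⁻¹)) p0
    rw [map_mul, map_inv, map_inv, ev_wy, ev_wx, mul_one]
  · change act (x⁻¹ * 1) q0 = act (ev x y wx⁻¹) q0
    rw [map_inv, ev_wx, mul_one]
  · change act (x⁻¹ * 1) p0 = act (ev x y wx⁻¹) p0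
    rw [map_inv, ev_wx, mul_one]
  · change act 1 q0 = act (ev x y 1) q0
    rw [map_one]

private lemma Lim3_ne : ∀ i j : Fin 8, i ≠ j → Lim3_c i ≠ Lim3_c j ∨ Lim3_b i ≠ Lim3_b j := by
  decide

private lemma Lim3_pos8 {x y : SL3} {l : Fin 3 → ℝ} (h : Weak x y l) {i j : Fin 8} (hij : i ≠ j) :
    0 < (octPt x y 1 i).P ⬝ᵥ (octPt x y 1 j).L := by
  rw [Lim3_vtx, Lim3_vtx]
  exact Lim3_pos h (Lim3_ne i j hij)

/-- Task A15. **The limit of good pairs is good.** Each vertex of the octagon is `act (c i) p0` or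
`act (c i) q0` with `c = cst i`, so each pairing of two different vertices is, for `c ≠ c'`, one
of the four corners of the matrix of `c⁻¹ c'`, which is positive by `signs` and `corners`
(`abel_cst`), and for `c = c'` it is `1` (`p0.P ⬝ᵥ q0.L`). Use `pos3_of_weak`. -/
theorem Weak.good {x y : SL3} {l : Fin 3 → ℝ} (h : Weak x y l) : Good x y 1 l := by
  refine ⟨h.strict.1, h.strict.2, h.l2, ?_, ?_⟩
  · rw [inv_one, one_mul, mul_one]
    exact h.diag
  · intro i
    have h01 : (0 : Fin 8) ≠ i.succ.castSucc := by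
      revert i
      decide
    have h02 : (0 : Fin 8) ≠ i.succ.succ := by
      revert i
      decide
    have h12 : i.succ.castSucc ≠ (i.succ.succ : Fin 8) := by
      revert i
      decide
    exact pos3_of_weak (Lim3_pos8 h h01) (Lim3_pos8 h h02) (Lim3_pos8 h h01.symm)
      (Lim3_pos8 h h12) (Lim3_pos8 h h02.symm) (Lim3_pos8 h h12.symm) (h.dets i)

end Pool.Agent.LibHit3
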