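import Pool.Agent.LibHit3.A_Sys

set_option autoImplicit false

noncomputable section

open Matrix
open scoped MatrixGroups

namespace Pool.Agent.LibHit3

/-! Task A28. Three further facts about the cyclic order (formal consequences of `CycSys.tri`). -/

variable {T : FG × Bool → FG × Bool → FG × Bool → Prop}

/-- `p < x p < x⁻¹ p`: `x` maps `v₆ < v₀ < v₃` to `v₀ < x p < v₁`, and `x⁻¹ p = v₆`. -/
lemma CycSys.order1 (h : CycSys T) : T (1, true) (wx, true) (wx⁻¹, true) := by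
  have h1 : T (vtx 6) (vtx 0) (vtx 3) :=
    h.cyc (h.cyc (h.tri (i := 0) (j := 3) (k := 6) (by decide) (by decide)))
  have h2 := h.left wx h1
  have e6 : lm wx (vtx 6) = vtx 0 := by simp [lm, vtx]
  have e0 : lm wx (vtx 0) = (wx, true) := by simp [lm, vtx]
  have e3 : lm wx (vtx 3) = vtx 1 := by simp [lm, vtx]
  rw [e6, e0, e3] at h2
  exact h.trans h2 (h.tri (i := 0) (j := 1) (k := 6) (by decide) (by decide))

/-- `p < y⁻¹ p < y p`: `y⁻¹ p = v₂`, and `y` maps `v₄ < v₀ < v₁` to `v₆ < y p < v₇` (up to a right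
factor `wg`). -/
lemma CycSys.order2 (h : CycSys T) : T (1, true) (wy⁻¹, true) (wy, true) := by
  have h1 : T (vtx 4) (vtx 0) (vtx 1) :=
    h.cyc (h.cyc (h.tri (i := 0) (j := 1) (k := 4) (by decide) (by decide)))
  have h2 := h.left wy h1
  have e4 : lm wy (vtx 4) = (wx⁻¹ * wg, true) := by
    simp only [lm, vtx, wg]
    simp [mul_assoc]
  have e0 : lm wy (vtx 0) = (wy, true) := by simp [lm, vtx]
  have e1 : lm wy (vtx 1) = vtx 7 := by simp [lm, vtx]
  rw [e4, e0, e1, ← h.right] at h2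
  -- `T v₆ (y p) v₇`
  have h3 : T (vtx 7) (vtx 6) (wy, true) := h.cyc (h.cyc h2)
  have h4 : T (vtx 7) (vtx 2) (vtx 6) :=
    h.cyc (h.cyc (h.tri (i := 2) (j := 6) (k := 7) (by decide) (by decide)))
  have h5 : T (vtx 7) (vtx 2) (wy, true) := h.trans h4 h3
  have h6 : T (vtx 2) (vtx 7) (vtx 0) :=
    h.cyc (h.tri (i := 0) (j := 2) (k := 7) (by decide) (by decide))
  have h7 : T (vtx 2) (wy, true) (vtx 0) := h.trans (h.cyc h5) h6
  exact h.cyc (h.cyc h7)

/-- `p < x y x⁻¹ p < y⁻¹ p`: `y v₆` lies in `(v₆, v₇)` since `v₆` lies in `(v₄, v₁)`, and `x` maps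
`v₆ < v₇ < v₃` to `v₀ < x v₇ < v₁`; `y⁻¹ p = v₂`. -/
lemma CycSys.order3 (h : CycSys T) : T (1, true) (wx * wy * wx⁻¹, true) (wy⁻¹, true) := by
  have h1 : T (vtx 4) (vtx 6) (vtx 1) :=
    h.cyc (h.tri (i := 1) (j := 4) (k := 6) (by decide) (by decide))
  have h2 := h.left wy h1
  have e4 : lm wy (vtx 4) = (wx⁻¹ * wg, true) := by
    simp only [lm, vtx, wg]
    simp [mul_assoc]
  have e6 : lm wy (vtx 6) = (wy * wx⁻¹, true) := by simp [lm, vtx]
  have e1 : lm wy (vtx 1) = vtx 7 := by simp [lm, vtx]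
  rw [e4, e6, e1, ← h.right] at h2
  have h3 : T (vtx 6) (vtx 7) (vtx 3) :=
    h.cyc (h.tri (i := 3) (j := 6) (k := 7) (by decide) (by decide))
  have h4 : T (vtx 6) (wy * wx⁻¹, true) (vtx 3) := h.trans h2 h3
  have h5 := h.left wx h4
  have f6 : lm wx (vtx 6) = vtx 0 := by simp [lm, vtx]
  have f7 : lm wx (wy * wx⁻¹, true) = (wx * wy * wx⁻¹, true) := by simp [lm, mul_assoc]
  have f3 : lm wx (vtx 3) = vtx 1 := by simp [lm, vtx]
  rw [f6, f7, f3] at h5
  exact h.trans h5 (h.tri (i := 0) (j := 1) (k := 2) (by decide) (by decide))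

/-- Reading an order fact as two inequalities between matrix entries (columns `0` and rows
`2`), for `M = E⁻¹ u E`, `M' = E⁻¹ v E`. -/
lemma pos3_entries {E g g' : SL3}
    (h : Pos3 (act E p0) (act (g * E) p0) (act (g' * E) p0)) :
    (E⁻¹ * g' * E).1 1 0 * (E⁻¹ * g * E).1 2 0 < (E⁻¹ * g * E).1 1 0 * (E⁻¹ * g' * E).1 2 0 ∧
    (E⁻¹ * g * E)⁻¹.1 2 1 * (E⁻¹ * g' * E)⁻¹.1 2 0 <
      (E⁻¹ * g * E)⁻¹.1 2 0 * (E⁻¹ * g' * E)⁻¹.1 2 1 := by
  have h1 := h.act E⁻¹
  rw [← act_mul, ← act_mul, ← act_mul, inv_mul_cancel, act_one, ← mul_assoc, ← mul_assoc] at h1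
  set M := E⁻¹ * g * E
  set M' := E⁻¹ * g' * E
  have h2 := h1.dt
  have h3 := h1.detP
  constructor
  · simp [det3, Matrix.det_fin_three, act, p0, Matrix.mulVec, dotProduct,
      Fin.sum_univ_three] at h2
    linarith
  · simp [det3, Matrix.det_fin_three, act, p0, Matrix.vecMul, dotProduct,
      Fin.sum_univ_three] at h3
    simp only [Matrix.SpecialLinearGroup.coe_inv]
    linarith

/-- The three facts for a good pair. -/
theorem Good.orders {x y E : SL3} {l : Fin 3 → ℝ} (h : Good x y E l) :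
    Pos3 (act E p0) (act (x * E) p0) (act (x⁻¹ * E) p0) ∧
    Pos3 (act E p0) (act (y⁻¹ * E) p0) (act (y * E) p0) ∧
    Pos3 (act E p0) (act (x * y * x⁻¹ * E) p0) (act (y⁻¹ * E) p0) := by
  have h1 := h.cycSys.order1
  have h2 := h.cycSys.order2
  have h3 := h.cycSys.order3
  simp only [fl, map_one, one_mul, if_true, map_mul, map_inv, ev_wx, ev_wy] at h1 h2 h3
  exact ⟨h1, h2, h3⟩

end Pool.Agent.LibHit3
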