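import Pool.Agent.LibHit3.Defs

set_option autoImplicit false

noncomputable section

open Matrix
open scoped MatrixGroups

namespace Pool.Agent.LibHit3

open Pool.Agent.LibHyperelliptic

/-! Task A26. `PSL(3, ℝ) = SL(3, ℝ)`. -/

/-- The center is trivial (`Matrix.SpecialLinearGroup.mem_center_iff`, `r ^ 3 = 1`). -/
lemma center_eq : Subgroup.center SL3 = ⊥ := by
  rw [eq_bot_iff]
  intro A hA
  rw [Subgroup.mem_bot]
  obtain ⟨r, hr, hA'⟩ := Matrix.SpecialLinearGroup.mem_center_iff.mp hA
  have h1 : r ^ 3 = 1 := by simpa using hr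
  have h2 : r = 1 := by
    have h3 : (r - 1) * (r ^ 2 + r + 1) = 0 := by
      have h4 : (r - 1) * (r ^ 2 + r + 1) = r ^ 3 - 1 := by ring
      rw [h4, h1, sub_self]
    rcases mul_eq_zero.mp h3 with h | h
    · linarith
    · nlinarith [sq_nonneg (r + 1 / 2)]
  subst h2
  apply Subtype.ext
  rw [← hA']
  simp

lemma toPSL_bijective : Function.Bijective (toPSL 3) := by
  constructor
  · intro g h hgh
    have h1 : g⁻¹ * h ∈ Subgroup.center SL3 := by
      have h2 : (QuotientGroup.mk' (Subgroup.center SL3)) g =
        (QuotientGroup.mk' (Subgroup.center SL3)) h := hgh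
      exact QuotientGroup.eq.mp h2
    rw [center_eq, Subgroup.mem_bot] at h1
    exact (inv_mul_eq_one.mp h1)
  · exact QuotientGroup.mk'_surjective _

/-- The isomorphism. -/
def eqv : SL3 ≃* PSLn 3 := MulEquiv.ofBijective (toPSL 3) toPSL_bijective

@[simp] lemma eqv_apply (g : SL3) : eqv g = toPSL 3 g := rfl

/-- It is a homeomorphism (the projection is a quotient map and an open map). -/
lemma continuous_toPSL : Continuous (toPSL 3) := by
  have h : Continuous (QuotientGroup.mk (s := Subgroup.center SL3)) :=
    continuous_quot_mk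
  exact h

lemma continuous_eqv_symm : Continuous (eqv.symm : PSLn 3 → SL3) := by
  have h : Continuous (fun x : SL3 => eqv.symm (toPSL 3 x)) := by
    have h1 : (fun x : SL3 => eqv.symm (toPSL 3 x)) = id := by
      funext x
      exact eqv.symm_apply_apply x
    rw [h1]
    exact continuous_id
  have h2 : Topology.IsQuotientMap (QuotientGroup.mk (s := Subgroup.center SL3)) :=
    isQuotientMap_quot_mk
  exact (h2.continuous_iff).mpr h

end Pool.Agent.LibHit3
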