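import Pool.Agent.LibHit3.A_Sys

set_option autoImplicit false

noncomputable section

open Matrix
open scoped MatrixGroups

namespace Pool.Agent.LibHit3

/-! Task A06. From positions of flags to signs of matrix entries. -/

lemma actL_p0 (M : SL3) (i : Fin 3) : (act M p0).L i = M.1 i 0 := by
  simp [act, p0, Matrix.mulVec, dotProduct, Fin.sum_univ_three]

lemma actL_q0 (M : SL3) (i : Fin 3) : (act M q0).L i = M.1 i 2 := by
  simp [act, q0, Matrix.mulVec, dotProduct, Fin.sum_univ_three]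

lemma actP_p0 (M : SL3) (i : Fin 3) : (act M p0).P i = (M⁻¹).1 2 i := by
  simp only [act, p0, Matrix.vecMul, dotProduct, Fin.sum_univ_three]
  simp

lemma actP_q0 (M : SL3) (i : Fin 3) : (act M q0).P i = (M⁻¹).1 0 i := by
  simp only [act, q0, Matrix.vecMul, dotProduct, Fin.sum_univ_three]
  simp

/-- The signs that can be read off two positive triples. The last two come from
`Pos3.detP`. (`act M p0 = (column 0 of M, row 2 of M⁻¹)`,
`act M q0 = (column 2 of M, row 0 of M⁻¹)`.) -/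
lemma pat_half {M : SL3} (h1 : Pos3 p0 (act M p0) q0) (h2 : Pos3 p0 (act M q0) q0) :
    0 < M.1 0 0 ∧ 0 < M.1 1 0 ∧ 0 < M.1 2 0 ∧ 0 < M.1 0 2 ∧ 0 < M.1 1 2 ∧ 0 < M.1 2 2 ∧
      (M⁻¹).1 0 1 < 0 ∧ (M⁻¹).1 2 1 < 0 := by
  have a1 := h1.uz
  have a2 := h1.vz
  have a3 := h1.dt
  have a4 := h1.detP
  have b1 := h2.uz
  have b2 := h2.vz
  have b3 := h2.dt
  have b4 := h2.detP
  simp only [dotProduct, Fin.sum_univ_three, actL_p0, actL_q0] at a1 a2 b1 b2
  simp only [det3, Matrix.det_fin_three, Matrix.of_apply, Matrix.cons_val_zero, Matrix.cons_val_one,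
    Matrix.cons_val, actL_p0, actL_q0, actP_p0, actP_q0] at a3 a4 b3 b4
  simp [p0, q0] at a1 a2 b1 b2 a3 a4 b3 b4
  exact ⟨a2, a3, a1, b2, b3, b1, b4, a4⟩

/-- The sign of the middle entry follows from the cofactor `(M⁻¹) 0 2 = M 0 1 M 1 2 - M 0 2 M 1 1`,
which is positive. -/
lemma colPat_of_pos3 {M : SL3} (h1 : Pos3 p0 (act M p0) q0) (h2 : Pos3 p0 (act M q0) q0)
    (h3 : Pos3 p0 (act M⁻¹ p0) q0) (h4 : Pos3 p0 (act M⁻¹ q0) q0) : ColPat M.1 := by
  obtain ⟨m00, m10, m20, m02, m12, m22, -, -⟩ := pat_half h1 h2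
  obtain ⟨-, -, -, n02, -, -, m01, m21⟩ := pat_half h3 h4
  rw [inv_inv] at m01 m21
  have hco : (M⁻¹).1 0 2 = M.1 0 1 * M.1 1 2 - M.1 0 2 * M.1 1 1 := by
    rw [Matrix.SpecialLinearGroup.coe_inv, Matrix.adjugate_fin_three]
    simp
  rw [hco] at n02
  have m11 : M.1 1 1 < 0 := by
    by_contra hcon
    push Not at hcon
    have e1 : M.1 0 1 * M.1 1 2 < 0 := mul_neg_of_neg_of_pos m01 m12
    have e2 : 0 ≤ M.1 0 2 * M.1 1 1 := mul_nonneg m02.le hcon
    linarith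
  intro i j
  fin_cases i <;> fin_cases j <;> simp [sg] <;> assumption

/-- **Sign patterns for the first handle.** Apply the previous lemma to `M = E⁻¹ w E`. -/
theorem Good.colPat {x y E : SL3} {l : Fin 3 → ℝ} (h : Good x y E l) {w : FG}
    (hw : w ∉ Subgroup.zpowers wg) : ColPat (E⁻¹ * ev x y w * E).1 := by
  have hact : ∀ U : Flag, act E⁻¹ (act E U) = U := fun U => by
    rw [← act_mul, inv_mul_cancel, act_one]
  have hact2 : ∀ (v : FG) (U : Flag), act E⁻¹ (act (ev x y v * E) U) =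
      act (E⁻¹ * ev x y v * E) U := fun v U => by
    rw [← act_mul, mul_assoc]
  have key : ∀ v : FG, v ∉ Subgroup.zpowers wg →
      Pos3 p0 (act (E⁻¹ * ev x y v * E) p0) q0 ∧ Pos3 p0 (act (E⁻¹ * ev x y v * E) q0) q0 := by
    intro v hv
    obtain ⟨h1, h2⟩ := h.quad hv
    have h1' := h1.act E⁻¹
    have h2' := h2.act E⁻¹
    rw [hact, hact, hact2] at h1' h2'
    exact ⟨h1', h2'⟩
  have hinv : (E⁻¹ * ev x y w * E)⁻¹ = E⁻¹ * ev x y w⁻¹ * E := by
    rw [map_inv]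
    group
  obtain ⟨h1, h2⟩ := key w hw
  obtain ⟨h3, h4⟩ := key w⁻¹ (fun hcon => hw (by simpa using inv_mem hcon))
  rw [← hinv] at h3 h4
  exact colPat_of_pos3 h1 h2 h3 h4

lemma K_inv : K⁻¹ = K := by
  have h : K * K = 1 := by
    ext i j
    rw [Matrix.SpecialLinearGroup.coe_mul]
    fin_cases i <;> fin_cases j <;> simp [K, Matrix.mul_apply, Fin.sum_univ_three]
  exact inv_eq_of_mul_eq_one_left h

/-- **Sign patterns for the second handle.** -/
theorem Good.rowPat {x y E : SL3} {l : Fin 3 → ℝ} (h : Good x y (E * K) l) {w : FG}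
    (hw : w ∉ Subgroup.zpowers wg) : RowPat (E⁻¹ * ev x y w * E).1 := by
  -- `(E K)⁻¹ w (E K) = K⁻¹ (E⁻¹ w E) K`
  have h1 := h.colPat hw
  have e : (E * K)⁻¹ * ev x y w * (E * K) = K * (E⁻¹ * ev x y w * E) * K := by
    rw [_root_.mul_inv_rev, K_inv]
    group
  rw [e] at h1
  set N := E⁻¹ * ev x y w * E with hN
  have h2 : ∀ i j, (K * N * K).1 i j = sg i * sg j * N.1 (Fin.rev i) (Fin.rev j) := by
    intro i j
    have e3 : (K * N * K).1 = K.1 * N.1 * K.1 := rfl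
    rw [e3]
    fin_cases i <;> fin_cases j <;>
      simp [K, sg, Matrix.mul_apply, Fin.sum_univ_three, Fin.rev, Matrix.vecMul, dotProduct]
  intro i j
  have h3 := h1 (Fin.rev i) (Fin.rev j)
  rw [h2, Fin.rev_rev, Fin.rev_rev] at h3
  revert h3
  fin_cases i <;> fin_cases j <;> simp [sg, Fin.rev]

end Pool.Agent.LibHit3
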