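import Pool.Agent.LibHit3.A_Cyc

set_option autoImplicit false

noncomputable section

namespace Pool.Agent.LibHit3

/-! Task A04. The ping-pong argument. -/

variable {T : FG × Bool → FG × Bool → FG × Bool → Prop}

/-- The coset representatives of the four gaps `G₀, …, G₃` of the octagon. -/
def cst : Fin 4 → FG := ![1, wy⁻¹, wx⁻¹ * wy⁻¹, wx⁻¹]

/-- `w` is in one of the four cosets of `⟨wg⟩`. -/
def InGap (w : FG) : Prop := ∃ (i : Fin 4) (k : ℤ), w = cst i * wg ^ k

/-- The gap `G_i` inside a domain. -/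
lemma CycSys.gap0 (h : CycSys T) (k : ℤ) {a b : Fin 8} (h1 : CycLt a 7 0) (h2 : CycLt a 7 b)
    (h3 : CycLt a 0 b) (h4 : CycLt 7 0 b) :
    Quad T (vtx a) (cst 0 * wg ^ k, false) (cst 0 * wg ^ k, true) (vtx b) :=
  h.quad_mid (cst 0) (cst 0) false true k (h.quadV h1 h2 h3 h4)

lemma CycSys.gap1 (h : CycSys T) (k : ℤ) {a b : Fin 8} (h1 : CycLt a 1 2) (h2 : CycLt a 1 b)
    (h3 : CycLt a 2 b) (h4 : CycLt 1 2 b) :
    Quad T (vtx a) (cst 1 * wg ^ k, false) (cst 1 * wg ^ k, true) (vtx b) :=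
  h.quad_mid (cst 1) (cst 1) false true k (h.quadV h1 h2 h3 h4)

lemma CycSys.gap2 (h : CycSys T) (k : ℤ) {a b : Fin 8} (h1 : CycLt a 3 4) (h2 : CycLt a 3 b)
    (h3 : CycLt a 4 b) (h4 : CycLt 3 4 b) :
    Quad T (vtx a) (cst 2 * wg ^ k, false) (cst 2 * wg ^ k, true) (vtx b) :=
  h.quad_mid (cst 2) (cst 2) false true k (h.quadV h1 h2 h3 h4)

lemma CycSys.gap3 (h : CycSys T) (k : ℤ) {a b : Fin 8} (h1 : CycLt a 5 6) (h2 : CycLt a 5 b)
    (h3 : CycLt a 6 b) (h4 : CycLt 5 6 b) :
    Quad T (vtx a) (cst 3 * wg ^ k, false) (cst 3 * wg ^ k, true) (vtx b) :=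
  h.quad_mid (cst 3) (cst 3) false true k (h.quadV h1 h2 h3 h4)

/-- Applying a letter to a gap gives a gap or an interval inside the arc of the letter.
`x`: `G₀, G₁` go inside `I_x`, `G₂ → G₁`, `G₃ → G₀`; `y`: `G₀, G₃` inside `I_y`, `G₁ → G₀`,
`G₂ → G₃` (`y x⁻¹ y⁻¹ = x⁻¹ wg`); `x⁻¹`: `G₂, G₃` inside, `G₀ → G₃`, `G₁ → G₂`; `y⁻¹`: `G₁, G₂`
inside, `G₀ → G₁`, `G₃ → G₂` (`y⁻¹ x⁻¹ = x⁻¹ y⁻¹ wg⁻¹`). For the intervals inside: the gap
`G₀ = (v₇, v₀)`, `G₁ = (v₁, v₂)`, `G₂ = (v₃, v₄)`, `G₃ = (v₅, v₆)` lies in the domain of the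
letter, with `Quad` from `tri`; multiply by the letter as in `step_arc`. -/
lemma CycSys.step_gap (h : CycSys T) (s : Fin 2 × Bool) {w : FG} (hw : InGap w) :
    InGap (let' s * w) ∨ Ins T (arc s) (let' s * w) := by
  obtain ⟨j, k, rfl⟩ := hw
  obtain ⟨i, b⟩ := s
  fin_cases i <;> cases b
  · -- `x⁻¹`
    show InGap (wx⁻¹ * _) ∨ Ins T (arc (0, false)) (wx⁻¹ * _)
    fin_cases j
    · left
      refine ⟨3, k, ?_⟩
      show wx⁻¹ * (1 * wg ^ k) = wx⁻¹ * wg ^ k
      rw [one_mul]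
    · left
      refine ⟨2, k, ?_⟩
      show wx⁻¹ * (wy⁻¹ * wg ^ k) = wx⁻¹ * wy⁻¹ * wg ^ k
      rw [mul_assoc]
    · right
      exact h.mul_x' (h.gap2 k (by decide) (by decide) (by decide) (by decide))
    · right
      exact h.mul_x' (h.gap3 k (by decide) (by decide) (by decide) (by decide))
  · -- `x`
    show InGap (wx * _) ∨ Ins T (arc (0, true)) (wx * _)
    fin_cases j
    · right
      exact h.mul_x (h.gap0 k (by decide) (by decide) (by decide) (by decide))
    · right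
      exact h.mul_x (h.gap1 k (by decide) (by decide) (by decide) (by decide))
    · left
      refine ⟨1, k, ?_⟩
      show wx * (wx⁻¹ * wy⁻¹ * wg ^ k) = wy⁻¹ * wg ^ k
      rw [mul_assoc, mul_inv_cancel_left]
    · left
      refine ⟨0, k, ?_⟩
      show wx * (wx⁻¹ * wg ^ k) = 1 * wg ^ k
      rw [mul_inv_cancel_left, one_mul]
  · -- `y⁻¹`
    show InGap (wy⁻¹ * _) ∨ Ins T (arc (1, false)) (wy⁻¹ * _)
    fin_cases j
    · left
      refine ⟨1, k, ?_⟩
      show wy⁻¹ * (1 * wg ^ k) = wy⁻¹ * wg ^ k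
      rw [one_mul]
    · right
      exact h.mul_y' (h.gap1 k (by decide) (by decide) (by decide) (by decide))
    · right
      exact h.mul_y' (h.gap2 k (by decide) (by decide) (by decide) (by decide))
    · left
      refine ⟨2, -1 + k, ?_⟩
      show wy⁻¹ * (wx⁻¹ * wg ^ k) = wx⁻¹ * wy⁻¹ * wg ^ (-1 + k)
      rw [zpow_add, zpow_neg_one]
      have e : wy⁻¹ * wx⁻¹ = wx⁻¹ * wy⁻¹ * wg⁻¹ := by
        rw [wg]
        group
      rw [← mul_assoc, ← mul_assoc, e]
  · -- `y`
    show InGap (wy * _) ∨ Ins T (arc (1, true)) (wy * _)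
    fin_cases j
    · right
      exact h.mul_y (h.gap0 k (by decide) (by decide) (by decide) (by decide))
    · left
      refine ⟨0, k, ?_⟩
      show wy * (wy⁻¹ * wg ^ k) = 1 * wg ^ k
      rw [mul_inv_cancel_left, one_mul]
    · left
      refine ⟨3, 1 + k, ?_⟩
      show wy * (wx⁻¹ * wy⁻¹ * wg ^ k) = wx⁻¹ * wg ^ (1 + k)
      rw [zpow_add, zpow_one]
      have e : wy * (wx⁻¹ * wy⁻¹) = wx⁻¹ * wg := by
        rw [wg]
        group
      calc wy * (wx⁻¹ * wy⁻¹ * wg ^ k) = (wy * (wx⁻¹ * wy⁻¹)) * wg ^ k := by group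
        _ = wx⁻¹ * (wg * wg ^ k) := by rw [e, mul_assoc]
    · right
      exact h.mul_y (h.gap3 k (by decide) (by decide) (by decide) (by decide))

/-- Induction over reduced words: the interval of a reduced word is a gap, or it lies inside
the arc of its first letter. -/
lemma CycSys.word (h : CycSys T) (L : List (Fin 2 × Bool)) (hL : FreeGroup.IsReduced L) :
    InGap (FreeGroup.mk L) ∨ ∃ s L', L = s :: L' ∧ Ins T (arc s) (FreeGroup.mk L) := by
  induction L with
  | nil =>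
    left
    refine ⟨0, 0, ?_⟩
    show FreeGroup.mk [] = 1 * wg ^ (0 : ℤ)
    rw [zpow_zero, mul_one]
    rfl
  | cons s L ih =>
    have e : FreeGroup.mk (s :: L) = let' s * FreeGroup.mk L := by
      rw [let', FreeGroup.mul_mk]
      rfl
    have hL' : FreeGroup.IsReduced L := by
      unfold FreeGroup.IsReduced at hL ⊢
      exact hL.tail
    rcases ih hL' with h1 | ⟨s', L', rfl, h1⟩
    · rcases h.step_gap s h1 with h2 | h2
      · left
        rw [e]
        exact h2
      · right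
        refine ⟨s, L, rfl, ?_⟩
        rw [e]
        exact h2
    · right
      refine ⟨s, s' :: L', rfl, ?_⟩
      rw [e]
      refine h.step_arc ?_ h1
      rintro ⟨h3, h4⟩
      unfold FreeGroup.IsReduced at hL
      rw [List.isChain_cons_cons] at hL
      have := hL.1 h3
      rw [h4] at this
      cases hb : s'.2 <;> simp [hb] at this

/-- **Ping-pong.** If `w` is not a power of the commutator then `p, w q, w p, q` are in
positive cyclic order. -/
theorem CycSys.pingpong (h : CycSys T) {w : FG} (hw : w ∉ Subgroup.zpowers wg) :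
    Quad T (1, true) (w, false) (w, true) (1, false) := by
  -- use `w = FreeGroup.mk w.toWord`; gaps `i = 1, 2, 3`: `tri` and `right_zpow`;
  -- arcs: enlarge to `(v₀, v₇)`
  show Quad T (vtx 0) (w, false) (w, true) (vtx 7)
  have hm : FreeGroup.mk w.toWord = w := FreeGroup.mk_toWord
  rcases h.word w.toWord (FreeGroup.isReduced_toWord) with h1 | ⟨s, L', -, h1⟩
  · rw [hm] at h1
    obtain ⟨i, k, hk⟩ := h1
    fin_cases i
    · exfalso
      apply hw
      refine ⟨k, ?_⟩
      rw [hk]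
      show wg ^ k = 1 * wg ^ k
      rw [one_mul]
    · rw [hk]
      exact h.gap1 k (by decide) (by decide) (by decide) (by decide)
    · rw [hk]
      exact h.gap2 k (by decide) (by decide) (by decide) (by decide)
    · rw [hk]
      exact h.gap3 k (by decide) (by decide) (by decide) (by decide)
  · rw [hm] at h1
    obtain ⟨i, b⟩ := s
    fin_cases i <;> cases b
    · exact h.enlarge (c := 4) (d := 5) h1 (by decide) (by decide)
    · exact h.enlarge (c := 0) (d := 1) h1 (by decide) (by decide)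
    · exact h.enlarge (c := 2) (d := 3) h1 (by decide) (by decide)
    · exact h.enlarge (c := 6) (d := 7) h1 (by decide) (by decide)

end Pool.Agent.LibHit3
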