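import Pool.Agent.LibHit3.Defs

set_option autoImplicit false

noncomputable section

open Matrix
open scoped MatrixGroups

namespace Pool.Agent.LibHit3

open Pool.Agent.LibHyperelliptic

/-- The separating curve `[a₁, b₁]`. -/
def dl : Surf := a₁ * b₁ * a₁⁻¹ * b₁⁻¹

/-- What the spanning argument uses of a representation `r`, read in the eigenbasis of
`r [a₁, b₁]`. -/
structure ReadyB (r : Surf →* SL3) (l : Fin 3 → ℝ) : Prop where
  l01 : l 1 < l 0
  l12 : l 2 < l 1
  l2 : 0 < l 2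
  diag : (r dl).1 = Matrix.diagonal l
  colb : ColPat (r b₁).1
  colb' : ColPat (r b₁⁻¹).1
  rowd : RowPat (r b₂).1
  rowd' : RowPat (r b₂⁻¹).1
  /-- the vector determinant of `(p, b₁⁻¹ p, b₁ p)` is positive -/
  alpha : (r b₁).1 1 0 * (r b₁⁻¹).1 2 0 < (r b₁⁻¹).1 1 0 * (r b₁).1 2 0
  /-- the vector determinant of `(p, [a₁, b₁] b₁ p, b₁⁻¹ p)` is positive -/
  beta : l 2 * (r b₁).1 2 0 * (r b₁⁻¹).1 1 0 < l 1 * (r b₁).1 1 0 * (r b₁⁻¹).1 2 0

/-- The representation `E⁻¹ ρ E`. -/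
def cj (E : SL3) (ρ : Surf →* SL3) : Surf →* SL3 := (MulAut.conj E⁻¹).toMonoidHom.comp ρ

@[simp] lemma cj_apply (E : SL3) (ρ : Surf →* SL3) (γ : Surf) : cj E ρ γ = E⁻¹ * ρ γ * E := by
  simp [cj]

/-- The adjoint action of the surface group through `r`. -/
abbrev aR (r : Surf →* SL3) : Surf → EndMat 3 := fun γ => adSL (r γ)

/-- The cocycle `u` is killed by the differentials of the traces of all simple curves. -/
def Killed (r : Surf →* SL3) (u : Coch 3) : Prop :=
  ∀ γ, IsSimple γ → (u γ * (r γ).1).trace = 0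

end Pool.Agent.LibHit3
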