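import Pool.Agent.LibHit3.A_Order
import Pool.Agent.LibHit3.A_Words
import Pool.Agent.LibHit3.B_Defs

set_option autoImplicit false

noncomputable section

open Matrix
open scoped MatrixGroups

namespace Pool.Agent.LibHit3

open Pool.Agent.LibHyperelliptic

lemma ready_abel_wy : abel wy ≠ 1 := by
  intro h
  have h1 : abel wy = (1, Multiplicative.ofAdd 1) := by simp [abel, wy]
  rw [h1] at h
  have h2 := congrArg Prod.snd h
  have h3 : Multiplicative.toAdd (Multiplicative.ofAdd (1 : ℤ)) = Multiplicative.toAdd 1 :=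
    congrArg Multiplicative.toAdd h2
  simp at h3

lemma ready_abel_wy' : abel wy⁻¹ ≠ 1 := by
  intro h
  rw [map_inv, inv_eq_one] at h
  exact ready_abel_wy h

/-- Task A29. A positive representation is ready for the spanning argument, in its basis `E`.
`colb, colb'` are `Good.colPat` for `wy, wy⁻¹`, `rowd, rowd'` are `Good.rowPat` for `wy, wy⁻¹` and the
second pair, `alpha` and `beta` are the first inequality of `pos3_entries` for the second and the
third fact of `Good.orders`; for `beta` note `a b a⁻¹ = [a, b] b`, so that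
`E⁻¹ a b a⁻¹ E = diagonal l * (E⁻¹ b E)`. -/
theorem ready_of_inW {ρ : Surf →* SL3} (h : InW (ρ a₁) (ρ b₁) (ρ a₂) (ρ b₂)) :
    ∃ (E : SL3) (l : Fin 3 → ℝ), ReadyB (cj E ρ) l := by
  obtain ⟨-, E, l, l', h1, h2⟩ := h
  have w1 := notMem_of_abel ready_abel_wy
  have w2 := notMem_of_abel ready_abel_wy'
  obtain ⟨-, o2, o3⟩ := h1.orders
  refine ⟨E, l, ?_⟩
  refine ⟨h1.l01, h1.l12, h1.l2, ?_, ?_, ?_, ?_, ?_, ?_, ?_⟩
  · rw [cj_apply, dl, map_mul, map_mul, map_mul, map_inv, map_inv]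
    exact h1.diag
  · have := h1.colPat w1
    rw [ev_wy] at this
    rw [cj_apply]
    exact this
  · have := h1.colPat w2
    rw [map_inv, ev_wy] at this
    rw [cj_apply, map_inv]
    exact this
  · have := h2.rowPat w1
    rw [ev_wy] at this
    rw [cj_apply]
    exact this
  · have := h2.rowPat w2
    rw [map_inv, ev_wy] at this
    rw [cj_apply, map_inv]
    exact this
  · have := (pos3_entries o2).1
    rw [cj_apply, cj_apply, map_inv]
    exact this
  · have h3 := (pos3_entries o3).1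
    have e1 : E⁻¹ * (ρ a₁ * ρ b₁ * (ρ a₁)⁻¹) * E =
        (E⁻¹ * (ρ a₁ * ρ b₁ * (ρ a₁)⁻¹ * (ρ b₁)⁻¹) * E) * (E⁻¹ * ρ b₁ * E) := by
      simp only [mul_assoc, mul_inv_cancel_left, inv_mul_cancel_left]
    have e2 : ∀ i j, (E⁻¹ * (ρ a₁ * ρ b₁ * (ρ a₁)⁻¹) * E).1 i j =
        l i * (E⁻¹ * ρ b₁ * E).1 i j := by
      intro i j
      rw [e1]
      have e3 : ((E⁻¹ * (ρ a₁ * ρ b₁ * (ρ a₁)⁻¹ * (ρ b₁)⁻¹) * E) * (E⁻¹ * ρ b₁ * E)).1 =
          (E⁻¹ * (ρ a₁ * ρ b₁ * (ρ a₁)⁻¹ * (ρ b₁)⁻¹) * E).1 * (E⁻¹ * ρ b₁ * E).1 := rfl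
      rw [e3, h1.diag, Matrix.diagonal_mul]
    rw [e2, e2] at h3
    rw [cj_apply, cj_apply, map_inv]
    linarith

end Pool.Agent.LibHit3
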