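import Pool.Agent.LibHit3.Defs

set_option autoImplicit false

noncomputable section

open Matrix
open scoped MatrixGroups

namespace Pool.Agent.LibHit3

/-! Task A02. Transitivity of the cyclic order on flags. -/

lemma det3_eq' (u v w : Fin 3 → ℝ) : det3 u v w =
    u 0 * v 1 * w 2 - u 0 * v 2 * w 1 - u 1 * v 0 * w 2 + u 1 * v 2 * w 0 + u 2 * v 0 * w 1 -
      u 2 * v 1 * w 0 := by
  unfold det3
  rw [Matrix.det_fin_three]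
  simp

/-- The expansion of a vector in the basis `A.L, A.P × C.P, C.L`. -/
lemma expand3 (A C : Flag) (v : Fin 3 → ℝ) :
    ((A.P ⬝ᵥ C.L) * (C.P ⬝ᵥ A.L)) • v =
      ((A.P ⬝ᵥ C.L) * (C.P ⬝ᵥ v)) • A.L + det3 A.L v C.L • (A.P ⨯₃ C.P) +
        ((C.P ⬝ᵥ A.L) * (A.P ⬝ᵥ v)) • C.L := by
  -- coordinates; uses only `A.inc` and `C.inc`
  have hA := A.inc
  have hC := C.inc
  simp only [dotProduct, Fin.sum_univ_three] at hA hC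
  have key : ∀ i, ((A.P ⬝ᵥ C.L) * (C.P ⬝ᵥ A.L)) * v i =
      ((A.P ⬝ᵥ C.L) * (C.P ⬝ᵥ v)) * A.L i + det3 A.L v C.L * (A.P ⨯₃ C.P) i +
        ((C.P ⬝ᵥ A.L) * (A.P ⬝ᵥ v)) * C.L i := by
    intro i
    have e : ∀ u w : Fin 3 → ℝ, u ⬝ᵥ w = u 0 * w 0 + u 1 * w 1 + u 2 * w 2 := by
      intro u w
      simp [dotProduct, Fin.sum_univ_three]
    rw [e, e, e, e, det3_eq', cross_apply]
    fin_cases i
    · show _ * v 0 = _ * A.L 0 + _ * (A.P 1 * C.P 2 - A.P 2 * C.P 1) + _ * C.L 0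
      linear_combination
        (-((C.P 0 * v 0 + C.P 1 * v 1 + C.P 2 * v 2) * C.L 0 -
          (C.P 0 * C.L 0 + C.P 1 * C.L 1 + C.P 2 * C.L 2) * v 0)) * hA -
        ((A.P 0 * v 0 + A.P 1 * v 1 + A.P 2 * v 2) * A.L 0) * hC
    · show _ * v 1 = _ * A.L 1 + _ * (A.P 2 * C.P 0 - A.P 0 * C.P 2) + _ * C.L 1
      linear_combination
        (-((C.P 0 * v 0 + C.P 1 * v 1 + C.P 2 * v 2) * C.L 1 -
          (C.P 0 * C.L 0 + C.P 1 * C.L 1 + C.P 2 * C.L 2) * v 1)) * hA -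
        ((A.P 0 * v 0 + A.P 1 * v 1 + A.P 2 * v 2) * A.L 1) * hC
    · show _ * v 2 = _ * A.L 2 + _ * (A.P 0 * C.P 1 - A.P 1 * C.P 0) + _ * C.L 2
      linear_combination
        (-((C.P 0 * v 0 + C.P 1 * v 1 + C.P 2 * v 2) * C.L 2 -
          (C.P 0 * C.L 0 + C.P 1 * C.L 1 + C.P 2 * C.L 2) * v 2)) * hA -
        ((A.P 0 * v 0 + A.P 1 * v 1 + A.P 2 * v 2) * A.L 2) * hC
  ext i
  simp only [Pi.smul_apply, Pi.add_apply, smul_eq_mul]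
  exact key i

/-- The pairing with the expansion. -/
lemma expand3_pair (A C : Flag) (v w : Fin 3 → ℝ) :
    ((A.P ⬝ᵥ C.L) * (C.P ⬝ᵥ A.L)) * (w ⬝ᵥ v) =
      ((A.P ⬝ᵥ C.L) * (C.P ⬝ᵥ v)) * (w ⬝ᵥ A.L) + det3 A.L v C.L * (w ⬝ᵥ (A.P ⨯₃ C.P)) +
        ((C.P ⬝ᵥ A.L) * (A.P ⬝ᵥ v)) * (w ⬝ᵥ C.L) := by
  have h := congrArg (fun z => w ⬝ᵥ z) (expand3 A C v)
  simp only [dotProduct_add, dotProduct_smul, smul_eq_mul] at h
  exact h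

/-- **Transitivity.** Write `s = A.P C.L`, `t = C.P A.L`, `m = A.P × C.P`. By `expand3`,
`s t L = s C.P(L) A.L + det3 A.L L C.L m + t A.P(L) C.L`. For `L = B.L` the three coefficients
are positive (`det3 A.L B.L C.L > 0`), for `L = D.L` the middle one is negative
(`det3 A.L D.L C.L = - det3 A.L C.L D.L`). From `B.P(B.L) = 0` one gets `B.P(m) < 0`, hence
`B.P(D.L) > 0`; from `D.P(D.L) = 0` one gets `D.P(m) > 0`, hence `D.P(B.L) > 0`. Finally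
`s t det3 A.L B.L D.L = det3 A.L B.L C.L * t A.P(D.L) - det3 A.L D.L C.L * t A.P(B.L)`, up to the
positive factor: use `det3 A.L m C.L = s t`. -/
lemma Pos3.trans {A B C D : Flag} (h1 : Pos3 A B C) (h2 : Pos3 A C D) : Pos3 A B D := by
  have hs : 0 < A.P ⬝ᵥ C.L := h1.uv
  have ht : 0 < C.P ⬝ᵥ A.L := h1.vu
  have hst := mul_pos hs ht
  have hD : det3 A.L D.L C.L < 0 := by
    have := h2.dt
    rw [det3_eq'] at this ⊢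
    linarith
  have hB : 0 < det3 A.L B.L C.L := h1.dt
  -- B.P(m) < 0
  have hBm : B.P ⬝ᵥ (A.P ⨯₃ C.P) < 0 := by
    have h := expand3_pair A C B.L B.P
    rw [B.inc, mul_zero] at h
    have a1 : 0 < ((A.P ⬝ᵥ C.L) * (C.P ⬝ᵥ B.L)) * (B.P ⬝ᵥ A.L) :=
      mul_pos (mul_pos hs h1.vz) h1.zu
    have a2 : 0 < ((C.P ⬝ᵥ A.L) * (A.P ⬝ᵥ B.L)) * (B.P ⬝ᵥ C.L) :=
      mul_pos (mul_pos ht h1.uz) h1.zv
    have a3 : det3 A.L B.L C.L * (B.P ⬝ᵥ (A.P ⨯₃ C.P)) < 0 := by linarith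
    by_contra hh
    push Not at hh
    have := mul_nonneg hB.le hh
    linarith
  -- D.P(m) > 0
  have hDm : 0 < D.P ⬝ᵥ (A.P ⨯₃ C.P) := by
    have h := expand3_pair A C D.L D.P
    rw [D.inc, mul_zero] at h
    have a1 : 0 < ((A.P ⬝ᵥ C.L) * (C.P ⬝ᵥ D.L)) * (D.P ⬝ᵥ A.L) :=
      mul_pos (mul_pos hs h2.zv) h2.vu
    have a2 : 0 < ((C.P ⬝ᵥ A.L) * (A.P ⬝ᵥ D.L)) * (D.P ⬝ᵥ C.L) :=
      mul_pos (mul_pos ht h2.uv) h2.vz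
    have a3 : det3 A.L D.L C.L * (D.P ⬝ᵥ (A.P ⨯₃ C.P)) < 0 := by linarith
    by_contra hh
    push Not at hh
    have := mul_nonneg_of_nonpos_of_nonpos hD.le hh
    linarith
  -- B.P(D.L) > 0
  have hBD : 0 < B.P ⬝ᵥ D.L := by
    have h := expand3_pair A C D.L B.P
    have a1 : 0 < ((A.P ⬝ᵥ C.L) * (C.P ⬝ᵥ D.L)) * (B.P ⬝ᵥ A.L) :=
      mul_pos (mul_pos hs h2.zv) h1.zu
    have a2 : 0 < ((C.P ⬝ᵥ A.L) * (A.P ⬝ᵥ D.L)) * (B.P ⬝ᵥ C.L) :=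
      mul_pos (mul_pos ht h2.uv) h1.zv
    have a3 : 0 < det3 A.L D.L C.L * (B.P ⬝ᵥ (A.P ⨯₃ C.P)) := mul_pos_of_neg_of_neg hD hBm
    exact (mul_pos_iff_of_pos_left hst).1 (by linarith)
  -- D.P(B.L) > 0
  have hDB : 0 < D.P ⬝ᵥ B.L := by
    have h := expand3_pair A C B.L D.P
    have a1 : 0 < ((A.P ⬝ᵥ C.L) * (C.P ⬝ᵥ B.L)) * (D.P ⬝ᵥ A.L) :=
      mul_pos (mul_pos hs h1.vz) h2.vu
    have a2 : 0 < ((C.P ⬝ᵥ A.L) * (A.P ⬝ᵥ B.L)) * (D.P ⬝ᵥ C.L) :=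
      mul_pos (mul_pos ht h1.uz) h2.vz
    have a3 : 0 < det3 A.L B.L C.L * (D.P ⬝ᵥ (A.P ⨯₃ C.P)) := mul_pos hB hDm
    exact (mul_pos_iff_of_pos_left hst).1 (by linarith)
  refine ⟨h1.uz, h2.uv, h1.zu, hBD, h2.vu, hDB, ?_⟩
  -- the determinant
  have hkey : (A.P ⬝ᵥ C.L) * det3 A.L B.L D.L =
      det3 A.L B.L C.L * (A.P ⬝ᵥ D.L) - det3 A.L D.L C.L * (A.P ⬝ᵥ B.L) := by
    have hA := A.inc
    have e : ∀ u w : Fin 3 → ℝ, u ⬝ᵥ w = u 0 * w 0 + u 1 * w 1 + u 2 * w 2 := by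
      intro u w
      simp [dotProduct, Fin.sum_univ_three]
    rw [e] at hA
    rw [e, e, e, det3_eq', det3_eq', det3_eq']
    linear_combination (-(B.L 0 * C.L 1 * D.L 2 - B.L 0 * C.L 2 * D.L 1 - B.L 1 * C.L 0 * D.L 2 +
      B.L 1 * C.L 2 * D.L 0 + B.L 2 * C.L 0 * D.L 1 - B.L 2 * C.L 1 * D.L 0)) * hA
  have b1 := mul_pos hB h2.uv
  have b2 : det3 A.L D.L C.L * (A.P ⬝ᵥ B.L) < 0 := mul_neg_of_neg_of_pos hD h1.uz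
  exact (mul_pos_iff_of_pos_left hs).1 (by rw [hkey]; linarith)

end Pool.Agent.LibHit3
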