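import Pool.Agent.LibHit3.A_Flag
import Pool.Agent.LibHit3.A_Trans
import Pool.Agent.LibHit3.A_Ping

set_option autoImplicit false

noncomputable section

open Matrix
open scoped MatrixGroups

namespace Pool.Agent.LibHit3

/-! Task A05. The flags `w p`, `w q` form a cyclic system. -/

/-- The flag `w p` or `w q`. -/
def fl (x y E : SL3) (P : FG × Bool) : Flag := act (ev x y P.1 * E) (if P.2 then p0 else q0)

lemma sys_scaled_p0 {D : SL3} {l : Fin 3 → ℝ} (hl : ∀ i, 0 < l i)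
    (hd : D.1 = Matrix.diagonal l) : Scaled p0 (act D p0) := by
  refine ⟨l 0, (l 2)⁻¹, hl 0, inv_pos.2 (hl 2), ?_, ?_⟩
  · show D.1 *ᵥ ![1, 0, 0] = l 0 • ![1, 0, 0]
    rw [hd]
    ext i
    rw [Matrix.mulVec_diagonal]
    fin_cases i <;> simp
  · show ![0, 0, 1] ᵥ* (D⁻¹).1 = (l 2)⁻¹ • ![0, 0, 1]
    have h1 : (![0, 0, 1] : Fin 3 → ℝ) ᵥ* D.1 = l 2 • ![0, 0, 1] := by
      rw [hd]
      ext i
      rw [Matrix.vecMul_diagonal]
      fin_cases i <;> simp
    have h2 : D.1 * (D⁻¹).1 = 1 := congrArg Subtype.val (mul_inv_cancel D)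
    have h3 : (![0, 0, 1] : Fin 3 → ℝ) = l 2 • (![0, 0, 1] ᵥ* (D⁻¹).1) := by
      rw [← Matrix.smul_vecMul, ← h1, Matrix.vecMul_vecMul, h2, Matrix.vecMul_one]
    conv_rhs => rw [h3]
    rw [smul_smul, inv_mul_cancel₀ (hl 2).ne', one_smul]

lemma sys_scaled_q0 {D : SL3} {l : Fin 3 → ℝ} (hl : ∀ i, 0 < l i)
    (hd : D.1 = Matrix.diagonal l) : Scaled q0 (act D q0) := by
  refine ⟨l 2, (l 0)⁻¹, hl 2, inv_pos.2 (hl 0), ?_, ?_⟩
  · show D.1 *ᵥ ![0, 0, 1] = l 2 • ![0, 0, 1]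
    rw [hd]
    ext i
    rw [Matrix.mulVec_diagonal]
    fin_cases i <;> simp
  · show ![1, 0, 0] ᵥ* (D⁻¹).1 = (l 0)⁻¹ • ![1, 0, 0]
    have h1 : (![1, 0, 0] : Fin 3 → ℝ) ᵥ* D.1 = l 0 • ![1, 0, 0] := by
      rw [hd]
      ext i
      rw [Matrix.vecMul_diagonal]
      fin_cases i <;> simp
    have h2 : D.1 * (D⁻¹).1 = 1 := congrArg Subtype.val (mul_inv_cancel D)
    have h3 : (![1, 0, 0] : Fin 3 → ℝ) = l 0 • (![1, 0, 0] ᵥ* (D⁻¹).1) := by
      rw [← Matrix.smul_vecMul, ← h1, Matrix.vecMul_vecMul, h2, Matrix.vecMul_one]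
    conv_rhs => rw [h3]
    rw [smul_smul, inv_mul_cancel₀ (hl 0).ne', one_smul]

/-- A diagonal matrix with positive entries rescales the two standard flags. -/
lemma scaled_diag {g E : SL3} {l : Fin 3 → ℝ} (hl : ∀ i, 0 < l i)
    (hd : (E⁻¹ * g * E).1 = Matrix.diagonal l) (b : Bool) :
    Scaled (act E (if b then p0 else q0)) (act (g * E) (if b then p0 else q0)) := by
  have h1 : g * E = E * (E⁻¹ * g * E) := by group
  rw [h1, act_mul]
  apply Scaled.act
  cases b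
  · exact sys_scaled_q0 hl hd
  · exact sys_scaled_p0 hl hd

lemma sys_fl_lm (x y E : SL3) (g : FG) (P : FG × Bool) :
    fl x y E (lm g P) = act (ev x y g) (fl x y E P) := by
  simp only [fl, lm]
  rw [map_mul, mul_assoc, act_mul]
  rfl

lemma sys_fl_vtx (x y E : SL3) (j : Fin 8) : fl x y E (vtx j) = octPt x y E j := by
  fin_cases j <;> simp [fl, vtx, octPt]

lemma Good.sys_pos {x y E : SL3} {l : Fin 3 → ℝ} (h : Good x y E l) (i : Fin 3) : 0 < l i := by
  have h0 := h.l01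
  have h1 := h.l12
  have h2 := h.l2
  fin_cases i
  · show 0 < l 0
    linarith
  · show 0 < l 1
    linarith
  · exact h2

lemma Good.sys_scaled {x y E : SL3} {l : Fin 3 → ℝ} (h : Good x y E l) (w : FG) (b : Bool) :
    Scaled (fl x y E (w, b)) (fl x y E (w * wg, b)) := by
  have h1 := scaled_diag h.sys_pos h.diag b
  have h2 := h1.act (ev x y w)
  simp only [fl]
  rw [← act_mul, ← act_mul, ← mul_assoc] at h2
  rw [map_mul, ev_wg]
  exact h2

theorem Good.cycSys {x y E : SL3} {l : Fin 3 → ℝ} (h : Good x y E l) :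
    CycSys fun P Q R => Pos3 (fl x y E P) (fl x y E Q) (fl x y E R) where
  cyc := fun h1 => h1.cyc
  trans := fun h1 h2 => h1.trans h2
  left := by
    intro g P Q R h1
    rw [sys_fl_lm, sys_fl_lm, sys_fl_lm]
    exact h1.act _
  right := by
    intro w b Q R
    exact ⟨fun h1 => h1.scale (h.sys_scaled w b), fun h1 => h1.scale (h.sys_scaled w b).symm⟩
  oct := by
    intro i
    rw [sys_fl_vtx, sys_fl_vtx, sys_fl_vtx]
    exact h.oct i

/-- `p < w q < w p < q`. -/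
theorem Good.quad {x y E : SL3} {l : Fin 3 → ℝ} (h : Good x y E l) {w : FG}
    (hw : w ∉ Subgroup.zpowers wg) :
    Pos3 (act E p0) (act (ev x y w * E) p0) (act E q0) ∧
      Pos3 (act E p0) (act (ev x y w * E) q0) (act E q0) := by
  have h1 := h.cycSys.pingpong hw
  have h2 := h1.uAv
  have h3 := h1.uBv
  simp only [fl, map_one, one_mul, if_true, Bool.false_eq_true, if_false] at h2 h3
  exact ⟨h3, h2⟩

/-- The vertices of the octagon are in positive cyclic order. -/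
theorem Good.tri {x y E : SL3} {l : Fin 3 → ℝ} (h : Good x y E l) {i j k : Fin 8}
    (hij : i < j) (hjk : j < k) :
    Pos3 (octPt x y E i) (octPt x y E j) (octPt x y E k) := by
  have h1 := h.cycSys.tri hij hjk
  rw [sys_fl_vtx, sys_fl_vtx, sys_fl_vtx] at h1
  exact h1

lemma sys_octPt_conj (x y E g : SL3) (j : Fin 8) :
    octPt (g * x * g⁻¹) (g * y * g⁻¹) (g * E) j = act g (octPt x y E j) := by
  have e1 : (g * y * g⁻¹)⁻¹ * (g * E) = g * (y⁻¹ * E) := by group
  have e2 : (g * x * g⁻¹)⁻¹ * (g * y * g⁻¹)⁻¹ * (g * E) = g * (x⁻¹ * y⁻¹ * E) := by group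
  have e3 : (g * x * g⁻¹)⁻¹ * (g * E) = g * (x⁻¹ * E) := by group
  unfold octPt
  rw [e1, e2, e3]
  simp only [act_mul g]
  fin_cases j <;> rfl

/-- Equivariance. -/
theorem Good.conj {x y E : SL3} {l : Fin 3 → ℝ} (h : Good x y E l) (g : SL3) :
    Good (g * x * g⁻¹) (g * y * g⁻¹) (g * E) l where
  l01 := h.l01
  l12 := h.l12
  l2 := h.l2
  diag := by
    rw [← h.diag]
    congr 1
    group
    try rfl
  oct := by
    intro i
    rw [sys_octPt_conj, sys_octPt_conj, sys_octPt_conj]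
    exact (h.oct i).act g

end Pool.Agent.LibHit3
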