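import Pool.Agent.LibHit3.B_Defs

set_option autoImplicit false

noncomputable section

open Matrix
open scoped MatrixGroups

namespace Pool.Agent.LibHit3

private lemma mul_single_B_Deriv (A : M3) (k : Fin 3) :
    A * Matrix.single k (0 : Fin 3) (1 : ℝ) =
      ∑ i, A i k • Matrix.single i (0 : Fin 3) (1 : ℝ) := by
  ext a b
  rw [Matrix.sum_apply]
  by_cases hb : b = 0
  · subst hb
    rw [Matrix.mul_single_apply_same, mul_one, Finset.sum_eq_single a]
    · rw [Matrix.smul_apply, Matrix.single_apply_same, smul_eq_mul, mul_one]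
    · intro i _ hi
      rw [Matrix.smul_apply, Matrix.single_apply_of_row_ne hi, smul_zero]
    · intro h
      exact absurd (Finset.mem_univ a) h
  · rw [Matrix.mul_single_apply_of_ne _ _ _ _ _ hb]
    symm
    apply Finset.sum_eq_zero
    intro i _
    rw [Matrix.smul_apply, Matrix.single_apply_of_col_ne _ _ (Ne.symm hb), smul_zero]

private lemma single_mul_B_Deriv (A : M3) (i : Fin 3) :
    Matrix.single (0 : Fin 3) i (1 : ℝ) * A =
      ∑ k, A i k • Matrix.single (0 : Fin 3) k (1 : ℝ) := by
  ext a b
  rw [Matrix.sum_apply]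
  by_cases ha : a = 0
  · subst ha
    rw [Matrix.single_mul_apply_same, one_mul, Finset.sum_eq_single b]
    · rw [Matrix.smul_apply, Matrix.single_apply_same, smul_eq_mul, mul_one]
    · intro k _ hk
      rw [Matrix.smul_apply, Matrix.single_apply_of_col_ne _ _ hk, smul_zero]
    · intro h
      exact absurd (Finset.mem_univ b) h
  · rw [Matrix.single_mul_apply_of_ne _ _ _ _ _ ha]
    symm
    apply Finset.sum_eq_zero
    intro k _
    rw [Matrix.smul_apply, Matrix.single_apply_of_row_ne (Ne.symm ha), smul_zero]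

/-- Every derivation of the algebra of `3 × 3` matrices is inner. -/
lemma derivation_matrix_inner (d : M3 →ₗ[ℝ] M3) (hd : ∀ A B, d (A * B) = d A * B + A * d B) :
    ∃ X : M3, ∀ A, d A = X * A - A * X := by
  refine ⟨∑ i, d (Matrix.single i 0 1) * Matrix.single 0 i 1, fun A => ?_⟩
  have h3 : ∑ k : Fin 3, Matrix.single k 0 (1 : ℝ) * Matrix.single 0 k (1 : ℝ) = (1 : M3) := by
    rw [← Matrix.sum_single_one]
    refine Finset.sum_congr rfl fun k _ => ?_
    rw [Matrix.single_mul_single_same, mul_one]
  have h1 : A * ∑ k, d (Matrix.single k 0 1) * Matrix.single 0 k 1 =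
      (∑ k, d (A * Matrix.single k 0 1) * Matrix.single 0 k 1) - d A := by
    rw [Finset.mul_sum]
    have h4 : ∀ k : Fin 3, A * (d (Matrix.single k 0 1) * Matrix.single 0 k 1) =
        d (A * Matrix.single k 0 1) * Matrix.single 0 k 1 -
          d A * (Matrix.single k 0 1 * Matrix.single 0 k 1) := by
      intro k
      rw [hd, Matrix.add_mul, ← Matrix.mul_assoc, ← Matrix.mul_assoc]
      abel
    rw [Finset.sum_congr rfl fun k _ => h4 k, Finset.sum_sub_distrib, ← Finset.mul_sum, h3,
      Matrix.mul_one]
  have h2 : (∑ k, d (Matrix.single k 0 1) * Matrix.single 0 k 1) * A =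
      ∑ k, d (A * Matrix.single k 0 1) * Matrix.single 0 k 1 := by
    rw [Finset.sum_mul]
    have h5 : ∀ k : Fin 3, d (A * Matrix.single k 0 1) * Matrix.single 0 k 1 =
        ∑ i, A i k • (d (Matrix.single i 0 1) * Matrix.single 0 k 1) := by
      intro k
      have e : d (A * Matrix.single k 0 1) = ∑ i, A i k • d (Matrix.single i 0 1) :=
        ((congrArg d (mul_single_B_Deriv A k)).trans (map_sum d _ _)).trans
          (Finset.sum_congr rfl fun i _ => map_smul d _ _)
      have e2 : (∑ i, A i k • d (Matrix.single i 0 1)) * Matrix.single 0 k (1 : ℝ) =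
          ∑ i, A i k • (d (Matrix.single i 0 1) * Matrix.single 0 k 1) :=
        (Finset.sum_mul _ _ _).trans (Finset.sum_congr rfl fun i _ => Matrix.smul_mul _ _ _)
      exact (congrArg (fun Z : M3 => Z * Matrix.single 0 k (1 : ℝ)) e).trans e2
    have h6 : ∀ i : Fin 3, d (Matrix.single i 0 1) * Matrix.single 0 i 1 * A =
        ∑ k, A i k • (d (Matrix.single i 0 1) * Matrix.single 0 k 1) := by
      intro i
      have e : d (Matrix.single i 0 1) * (Matrix.single 0 i (1 : ℝ) * A) =
          d (Matrix.single i 0 1) * ∑ k, A i k • Matrix.single 0 k (1 : ℝ) :=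
        congrArg (fun Z : M3 => d (Matrix.single i 0 1) * Z) (single_mul_B_Deriv A i)
      have e2 : d (Matrix.single i 0 1) * ∑ k, A i k • Matrix.single 0 k (1 : ℝ) =
          ∑ k, A i k • (d (Matrix.single i 0 1) * Matrix.single 0 k 1) :=
        (Finset.mul_sum _ _ _).trans (Finset.sum_congr rfl fun k _ => Matrix.mul_smul _ _ _)
      exact (Matrix.mul_assoc _ _ _).trans (e.trans e2)
    rw [Finset.sum_congr rfl fun k _ => h5 k, Finset.sum_congr rfl fun k _ => h6 k]
    exact Finset.sum_comm
  rw [h1, h2]
  abel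

/-- A derivation along an absolutely irreducible representation which kills all traces is
inner. -/
theorem derivation_inner {G : Type} [Group G] (r : G →* SL3) (v : G → M3)
    (hv : ∀ g h, v (g * h) = v g * (r h).1 + (r g).1 * v h)
    (hspan : Submodule.span ℝ (Set.range fun g => (r g).1) = ⊤)
    (ht : ∀ g, (v g).trace = 0) : ∃ X : M3, ∀ g, v g = X * (r g).1 - (r g).1 * X := by
  set Lr : (G →₀ ℝ) →ₗ[ℝ] M3 := Finsupp.linearCombination ℝ (fun g => (r g).1) with hLr
  set Lv : (G →₀ ℝ) →ₗ[ℝ] M3 := Finsupp.linearCombination ℝ v with hLv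
  have hrange : LinearMap.range Lr = ⊤ := by
    rw [hLr, Finsupp.range_linearCombination, hspan]
  have hker : ∀ c, Lr c = 0 → Lv c = 0 := by
    intro c hc
    have h1 : ∀ h : G, (Lv c * (r h).1).trace = 0 := by
      intro h
      have h2 : Lv c * (r h).1 = c.sum (fun g a => a • v (g * h)) - Lr c * v h := by
        rw [hLv, hLr, Finsupp.linearCombination_apply, Finsupp.linearCombination_apply]
        unfold Finsupp.sum
        rw [Finset.sum_mul, Finset.sum_mul, ← Finset.sum_sub_distrib]
        refine Finset.sum_congr rfl fun g _ => ?_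
        show c g • v g * (r h).1 = c g • v (g * h) - c g • (r g).1 * v h
        have e := hv g h
        rw [e, smul_add, Matrix.smul_mul, Matrix.smul_mul]
        abel
      rw [h2, hc, Matrix.zero_mul, sub_zero]
      unfold Finsupp.sum
      rw [Matrix.trace_sum]
      apply Finset.sum_eq_zero
      intro g _
      rw [Matrix.trace_smul, ht, smul_zero]
    have h2 : ∀ B : M3, (Lv c * B).trace = 0 := by
      intro B
      have hB : B ∈ Submodule.span ℝ (Set.range fun g => (r g).1) := by
        rw [hspan]
        trivial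
      induction hB using Submodule.span_induction with
      | mem B hB =>
        obtain ⟨h, rfl⟩ := hB
        exact h1 h
      | zero => rw [Matrix.mul_zero, Matrix.trace_zero]
      | add B C _ _ h3 h4 => rw [Matrix.mul_add, Matrix.trace_add, h3, h4, add_zero]
      | smul a B _ h3 => rw [Matrix.mul_smul, Matrix.trace_smul, h3, smul_zero]
    rw [Matrix.ext_iff_trace_mul_right]
    intro B
    rw [h2 B, Matrix.zero_mul, Matrix.trace_zero]
  obtain ⟨s, hs⟩ := LinearMap.exists_rightInverse_of_surjective Lr hrange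
  have hs' : ∀ A, Lr (s A) = A := fun A => LinearMap.congr_fun hs A
  have hdr : ∀ g, (Lv ∘ₗ s) (r g).1 = v g := by
    intro g
    have h1 : Lr (s (r g).1 - Finsupp.single g 1) = 0 := by
      rw [map_sub, hs', hLr, Finsupp.linearCombination_single, one_smul, sub_self]
    have h2 := hker _ h1
    rw [map_sub, hLv, Finsupp.linearCombination_single, one_smul, sub_eq_zero] at h2
    exact h2
  have hd : ∀ A B, (Lv ∘ₗ s) (A * B) = (Lv ∘ₗ s) A * B + A * (Lv ∘ₗ s) B := by
    intro A B
    have hA : A ∈ Submodule.span ℝ (Set.range fun g => (r g).1) := by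
      rw [hspan]
      trivial
    have hB : B ∈ Submodule.span ℝ (Set.range fun g => (r g).1) := by
      rw [hspan]
      trivial
    induction hA using Submodule.span_induction with
    | mem A hA =>
      obtain ⟨g, rfl⟩ := hA
      induction hB using Submodule.span_induction with
      | mem B hB =>
        obtain ⟨h, rfl⟩ := hB
        have h1 : (r g).1 * (r h).1 = (r (g * h)).1 := by
          rw [map_mul]
          rfl
        show (Lv ∘ₗ s) ((r g).1 * (r h).1) =
          (Lv ∘ₗ s) (r g).1 * (r h).1 + (r g).1 * (Lv ∘ₗ s) (r h).1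
        rw [h1, hdr, hdr, hdr, hv]
      | zero => rw [Matrix.mul_zero, map_zero, Matrix.mul_zero, Matrix.mul_zero, add_zero]
      | add B C _ _ h3 h4 =>
        rw [Matrix.mul_add, map_add, h3, h4, map_add, Matrix.mul_add, Matrix.mul_add]
        abel
      | smul a B _ h3 =>
        rw [Matrix.mul_smul, map_smul, h3, map_smul, Matrix.mul_smul, Matrix.mul_smul, smul_add]
    | zero => rw [Matrix.zero_mul, map_zero, Matrix.zero_mul, Matrix.zero_mul, add_zero]
    | add A C _ _ h3 h4 =>
      rw [Matrix.add_mul, map_add, h3, h4, map_add, Matrix.add_mul, Matrix.add_mul]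
      abel
    | smul a A _ h3 =>
      rw [Matrix.smul_mul, map_smul, h3, map_smul, Matrix.smul_mul, Matrix.smul_mul, smul_add]
  obtain ⟨X, hX⟩ := derivation_matrix_inner (Lv ∘ₗ s) hd
  refine ⟨X, fun g => ?_⟩
  rw [← hX, hdr]

end Pool.Agent.LibHit3
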