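import Pool.Agent.LibHit3.B_Defs

set_option autoImplicit false

noncomputable section

open Matrix
open scoped MatrixGroups

namespace Pool.Agent.LibHit3

/-- A group of matrices containing a diagonal matrix with distinct entries and a matrix all
of whose entries are nonzero spans the space of all matrices. -/
theorem span_eq_top {G : Type} [Group G] (r : G →* SL3) (g h : G) (l : Fin 3 → ℝ)
    (hl : Function.Injective l) (hg : (r g).1 = Matrix.diagonal l)
    (hh : ∀ i j, (r h).1 i j ≠ 0) :
    Submodule.span ℝ (Set.range fun g => (r g).1) = ⊤ := by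
  set W : Submodule ℝ M3 := Submodule.span ℝ (Set.range fun g => (r g).1) with hW
  have hmem : ∀ x, (r x).1 ∈ W := fun x => Submodule.subset_span ⟨x, rfl⟩
  have hone : (1 : M3) ∈ W := by
    have h1 := hmem 1
    rw [map_one] at h1
    exact h1
  have hmul : ∀ A ∈ W, ∀ B ∈ W, A * B ∈ W := by
    intro A hA B hB
    induction hA using Submodule.span_induction with
    | mem A hA =>
      obtain ⟨x, rfl⟩ := hA
      induction hB using Submodule.span_induction with
      | mem B hB =>
        obtain ⟨y, rfl⟩ := hB
        have h1 := hmem (x * y)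
        rw [map_mul] at h1
        exact h1
      | zero => rw [Matrix.mul_zero]; exact W.zero_mem
      | add B C _ _ h1 h2 => rw [Matrix.mul_add]; exact W.add_mem h1 h2
      | smul c B _ h1 => rw [Matrix.mul_smul]; exact W.smul_mem c h1
    | zero => rw [Matrix.zero_mul]; exact W.zero_mem
    | add A C _ _ h1 h2 => rw [Matrix.add_mul]; exact W.add_mem h1 h2
    | smul c A _ h1 => rw [Matrix.smul_mul]; exact W.smul_mem c h1
  have hD : Matrix.diagonal l ∈ W := by rw [← hg]; exact hmem g
  have hdiag : ∀ i : Fin 3, Matrix.single i i (1 : ℝ) ∈ W := by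
    intro i
    have h1 : (Matrix.diagonal l - l (i + 1) • (1 : M3)) * (Matrix.diagonal l - l (i + 2) • 1) ∈ W :=
      hmul _ (W.sub_mem hD (W.smul_mem _ hone)) _ (W.sub_mem hD (W.smul_mem _ hone))
    have h2 : (Matrix.diagonal l - l (i + 1) • (1 : M3)) * (Matrix.diagonal l - l (i + 2) • 1) =
        ((l i - l (i + 1)) * (l i - l (i + 2))) • Matrix.single i i (1 : ℝ) := by
      rw [← Matrix.diagonal_one, ← Matrix.diagonal_smul, ← Matrix.diagonal_smul,
        Matrix.diagonal_sub, Matrix.diagonal_sub, Matrix.diagonal_mul_diagonal]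
      ext a b
      fin_cases i <;> fin_cases a <;> fin_cases b <;>
        simp [Matrix.single, Matrix.diagonal]
    have h3 : (l i - l (i + 1)) * (l i - l (i + 2)) ≠ 0 := by
      apply mul_ne_zero
      · rw [sub_ne_zero]
        intro h4
        have := hl h4
        fin_cases i <;> simp at this
      · rw [sub_ne_zero]
        intro h4
        have := hl h4
        fin_cases i <;> simp at this
    have h4 := W.smul_mem ((l i - l (i + 1)) * (l i - l (i + 2)))⁻¹ h1
    rw [h2, inv_smul_smul₀ h3] at h4
    exact h4
  have hunit : ∀ i j : Fin 3, Matrix.single i j (1 : ℝ) ∈ W := by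
    intro i j
    have h1 := hmul _ (hmul _ (hdiag i) _ (hmem h)) _ (hdiag j)
    rw [Matrix.single_mul_mul_single, one_mul, mul_one] at h1
    have h2 := W.smul_mem ((r h).1 i j)⁻¹ h1
    rw [Matrix.smul_single, smul_eq_mul, inv_mul_cancel₀ (hh i j)] at h2
    exact h2
  rw [eq_top_iff]
  intro A _
  rw [Matrix.matrix_eq_sum_single A]
  refine W.sum_mem fun i _ => W.sum_mem fun j _ => ?_
  have h1 := W.smul_mem (A i j) (hunit i j)
  rw [Matrix.smul_single, smul_eq_mul, mul_one] at h1
  exact h1

end Pool.Agent.LibHit3
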