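import Pool.Agent.LibHit3.B_Dual
import Pool.Agent.LibHit3.B_Deriv
import Pool.Agent.LibHit3.B_Span

set_option autoImplicit false

noncomputable section

open Matrix
open scoped MatrixGroups

namespace Pool.Agent.LibHit3

open Pool.Agent.LibHyperelliptic

/-- A cocycle which kills the traces of the ten words in `x, y` is a coboundary on the subgroup
generated by `x, y`, if `[x, y]` is diagonal with distinct entries and `y` has no zero
entry. -/
theorem cob_closure (r : Surf →* SL3) (u : Coch 3) (hu : IsCocycle (aR r) u)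
    (x y : Surf) (h : ∀ γ ∈ tenWords x y, (u γ * (r γ).1).trace = 0) (l : Fin 3 → ℝ)
    (hl : Function.Injective l) (hg : (r (x * y * x⁻¹ * y⁻¹)).1 = Matrix.diagonal l)
    (hy : ∀ i j, (r y).1 i j ≠ 0) :
    ∃ X : M3, ∀ γ ∈ Subgroup.closure {x, y}, u γ = X - adSL (r γ) X := by
  have hx : x ∈ Subgroup.closure ({x, y} : Set Surf) :=
    Subgroup.subset_closure (Set.mem_insert _ _)
  have hy' : y ∈ Subgroup.closure ({x, y} : Set Surf) :=
    Subgroup.subset_closure (Set.mem_insert_of_mem _ rfl)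
  have hc : x * y * x⁻¹ * y⁻¹ ∈ Subgroup.closure ({x, y} : Set Surf) :=
    mul_mem (mul_mem (mul_mem hx hy') (inv_mem hx)) (inv_mem hy')
  have hinv : ∀ γ : Surf, ((r γ)⁻¹).1 * (r γ).1 = 1 := fun γ =>
    congrArg Subtype.val (inv_mul_cancel (r γ))
  have hinv' : ∀ γ : Surf, (r γ).1 * ((r γ)⁻¹).1 = 1 := fun γ =>
    congrArg Subtype.val (mul_inv_cancel (r γ))
  obtain ⟨X, hX⟩ := derivation_inner
    (r.comp (Subgroup.closure ({x, y} : Set Surf)).subtype)
    (fun g => u g.1 * (r g.1).1) (by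
      intro g h
      have h1 : u (g.1 * h.1) = u g.1 + adSL (r g.1) (u h.1) := hu.2 g.1 h.1
      have h2 : (r (g.1 * h.1)).1 = (r g.1).1 * (r h.1).1 := by
        rw [map_mul]; rfl
      change u (g.1 * h.1) * (r (g.1 * h.1)).1 =
        u g.1 * (r g.1).1 * (r h.1).1 + (r g.1).1 * (u h.1 * (r h.1).1)
      rw [h1, h2, adSL_apply, Matrix.add_mul]
      congr 1
      · rw [Matrix.mul_assoc]
      · calc (r g.1).1 * u h.1 * ((r g.1)⁻¹).1 * ((r g.1).1 * (r h.1).1) =
            (r g.1).1 * u h.1 * (((r g.1)⁻¹).1 * (r g.1).1) * (r h.1).1 := by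
              simp only [Matrix.mul_assoc]
          _ = (r g.1).1 * (u h.1 * (r h.1).1) := by
              rw [hinv, Matrix.mul_one, Matrix.mul_assoc])
    (span_eq_top _ ⟨x * y * x⁻¹ * y⁻¹, hc⟩ ⟨y, hy'⟩ l hl hg hy)
    (fun g => trace_zero_closure r u hu x y h g.1 g.2)
  refine ⟨X, fun γ hγ => ?_⟩
  have h1 : u γ * (r γ).1 = X * (r γ).1 - (r γ).1 * X := hX ⟨γ, hγ⟩
  have h2 := congrArg (fun Z => Z * ((r γ)⁻¹).1) h1
  simp only [Matrix.sub_mul] at h2
  rw [Matrix.mul_assoc, hinv', Matrix.mul_one, Matrix.mul_assoc X, hinv', Matrix.mul_one] at h2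
  rw [h2, adSL_apply]

end Pool.Agent.LibHit3
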