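import Mathlib

set_option autoImplicit false

noncomputable section

namespace Pool.Agent.LibHit3

/-- Linear independence of exponentials, in the form of coefficient extraction. -/
lemma expo_coef {ι : Type} [Fintype ι] (c x : ι → ℝ)
    (h : ∀ k : ℕ, ∑ i, c i * x i ^ k = 0) (y : ℝ) :
    ∑ i, (if x i = y then c i else 0) = 0 := by
  classical
  have hP : ∀ P : Polynomial ℝ, ∑ i, c i * P.eval (x i) = 0 := by
    intro P
    induction P using Polynomial.induction_on' with
    | add p q hp hq =>
      simp only [Polynomial.eval_add, mul_add, Finset.sum_add_distrib, hp, hq, add_zero]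
    | monomial n t =>
      simp only [Polynomial.eval_monomial]
      have := h n
      calc ∑ i, c i * (t * x i ^ n) = t * ∑ i, c i * x i ^ n := by
            rw [Finset.mul_sum]; exact Finset.sum_congr rfl fun i _ => by ring
        _ = 0 := by rw [this, mul_zero]
  set S : Finset ℝ := (Finset.univ.image x).erase y with hS
  set P : Polynomial ℝ := ∏ z ∈ S, (Polynomial.X - Polynomial.C z) with hPd
  have hy : P.eval y ≠ 0 := by
    rw [hPd, Polynomial.eval_prod, Finset.prod_ne_zero_iff]
    intro z hz
    simp only [Polynomial.eval_sub, Polynomial.eval_X, Polynomial.eval_C]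
    exact sub_ne_zero.2 (Finset.ne_of_mem_erase hz).symm
  have hx : ∀ i, x i ≠ y → P.eval (x i) = 0 := by
    intro i hi
    rw [hPd, Polynomial.eval_prod]
    apply Finset.prod_eq_zero (i := x i)
    · rw [hS, Finset.mem_erase]
      exact ⟨hi, Finset.mem_image_of_mem _ (Finset.mem_univ _)⟩
    · simp
  have h1 := hP P
  have h2 : ∑ i, c i * P.eval (x i) = (∑ i, (if x i = y then c i else 0)) * P.eval y := by
    rw [Finset.sum_mul]
    apply Finset.sum_congr rfl
    intro i _
    by_cases hi : x i = y
    · rw [if_pos hi, hi]
    · rw [if_neg hi, hx i hi, mul_zero, zero_mul]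
  rw [h2] at h1
  exact (mul_eq_zero.1 h1).resolve_right hy

end Pool.Agent.LibHit3
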