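import Pool.Agent.LibHit3.B_Defs
import Pool.Agent.LibHit3.B_Exp

set_option autoImplicit false

noncomputable section

open Matrix
open scoped MatrixGroups

namespace Pool.Agent.LibHit3

/-- What the curves `b₁⁻¹ · δᵏ b₂⁻¹ δ⁻ᵏ` give. -/
lemma coefN (l ξ : Fin 3 → ℝ) (h01 : l 1 < l 0) (h12 : l 2 < l 1) (h2 : 0 < l 2)
    (hdet : l 0 * l 1 * l 2 = 1) (a b : M3) (ha : ColPat a) (hb : RowPat b)
    (hN : ∀ k : ℕ, ∑ i, ∑ j, a j i * b i j * (ξ i - ξ j) * (l i / l j) ^ k = 0)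
    (hne : ¬ (ξ 1 = ξ 0 ∧ ξ 2 = ξ 0)) :
    ξ 2 = ξ 0 ∧ ξ 1 ≠ ξ 0 ∧ (∃ μ : ℝ, 1 < μ ∧ l = ![μ, 1, μ⁻¹]) ∧
      a 1 0 * b 0 1 = a 2 1 * b 1 2 := by
  have hl1 : 0 < l 1 := h2.trans h12
  have hl0 : 0 < l 0 := hl1.trans h01
  have key : ∀ y : ℝ, ∑ i, ∑ j,
      (if l i / l j = y then a j i * b i j * (ξ i - ξ j) else 0) = 0 := by
    intro y
    have h := expo_coef (ι := Fin 3 × Fin 3) (fun p => a p.2 p.1 * b p.1 p.2 * (ξ p.1 - ξ p.2))
      (fun p => l p.1 / l p.2) (by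
        intro k
        rw [Fintype.sum_prod_type]
        exact hN k) y
    rw [Fintype.sum_prod_type] at h
    exact h
  have a10 : 0 < a 1 0 := by simpa [sg] using ha 1 0
  have a20 : 0 < a 2 0 := by simpa [sg] using ha 2 0
  have b01 : 0 < b 0 1 := by simpa [sg] using hb 0 1
  have b02 : 0 < b 0 2 := by simpa [sg] using hb 0 2
  have e00 : l 0 / l 0 = 1 := div_self hl0.ne'
  have e11 : l 1 / l 1 = 1 := div_self hl1.ne'
  have e22 : l 2 / l 2 = 1 := div_self h2.ne'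
  have r01 : 1 < l 0 / l 1 := (one_lt_div hl1).2 h01
  have r02 : 1 < l 0 / l 2 := (one_lt_div h2).2 (h12.trans h01)
  have r12 : 1 < l 1 / l 2 := (one_lt_div h2).2 h12
  have s10 : l 1 / l 0 < 1 := (div_lt_one hl0).2 h01
  have s20 : l 2 / l 0 < 1 := (div_lt_one hl0).2 (h12.trans h01)
  have s21 : l 2 / l 1 < 1 := (div_lt_one hl1).2 h12
  have t1 : l 0 / l 1 < l 0 / l 2 := div_lt_div_of_pos_left hl0 h2 h12
  have t2 : l 1 / l 2 < l 0 / l 2 := div_lt_div_of_pos_right h01 h2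
  have hx2 : ξ 2 = ξ 0 := by
    have h := key (l 0 / l 2)
    simp only [Fin.sum_univ_three, e00, e11, e22, if_true] at h
    rw [if_neg r02.ne, if_neg t1.ne, if_neg (s10.trans r02).ne, if_neg r02.ne,
      if_neg t2.ne, if_neg (s20.trans r02).ne, if_neg (s21.trans r02).ne, if_neg r02.ne] at h
    have h3 : a 2 0 * b 0 2 * (ξ 0 - ξ 2) = 0 := by linarith
    have h4 : a 2 0 * b 0 2 ≠ 0 := (mul_pos a20 b02).ne'
    have h5 := (mul_eq_zero.1 h3).resolve_left h4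
    linarith
  have hx1 : ξ 1 ≠ ξ 0 := fun h => hne ⟨h, hx2⟩
  have h := key (l 0 / l 1)
  simp only [Fin.sum_univ_three, e00, e11, e22, if_true] at h
  rw [if_neg r01.ne, if_neg t1.ne', if_neg (s10.trans r01).ne, if_neg r01.ne,
    if_neg (s20.trans r01).ne, if_neg (s21.trans r01).ne, if_neg r01.ne] at h
  have hq : l 1 / l 2 = l 0 / l 1 := by
    by_contra hc
    rw [if_neg hc] at h
    have h3 : a 1 0 * b 0 1 * (ξ 0 - ξ 1) = 0 := by linarith
    have h4 : a 1 0 * b 0 1 ≠ 0 := (mul_pos a10 b01).ne'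
    have h5 := (mul_eq_zero.1 h3).resolve_left h4
    exact hx1 (by linarith)
  rw [if_pos hq] at h
  have hsq : l 1 * l 1 = l 0 * l 2 := by
    rw [div_eq_div_iff h2.ne' hl1.ne'] at hq
    exact hq
  have hcube : l 1 ^ 3 = 1 := by
    calc l 1 ^ 3 = l 1 * (l 1 * l 1) := by ring
      _ = l 0 * l 1 * l 2 := by rw [hsq]; ring
      _ = 1 := hdet
  have hone : l 1 = 1 := by
    have := (pow_eq_one_iff_of_nonneg hl1.le (n := 3) (by norm_num)).1 hcube
    exact this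
  refine ⟨hx2, hx1, ⟨l 0, ?_, ?_⟩, ?_⟩
  · rw [hone] at h01; exact h01
  · have h20 : l 2 = (l 0)⁻¹ := by
      rw [hone] at hsq
      field_simp
      linarith
    funext i
    fin_cases i
    · rfl
    · exact hone
    · exact h20
  · have h3 : (a 1 0 * b 0 1 - a 2 1 * b 1 2) * (ξ 0 - ξ 1) = 0 := by
      rw [hx2] at h
      linarith
    have h4 : ξ 0 - ξ 1 ≠ 0 := sub_ne_zero.2 (Ne.symm hx1)
    have h5 := (mul_eq_zero.1 h3).resolve_right h4
    linarith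

end Pool.Agent.LibHit3
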