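import Pool.Agent.LibHit3.B_Defs
import Pool.Agent.LibHit3.B_Exp

set_option autoImplicit false

noncomputable section

open Matrix
open scoped MatrixGroups

namespace Pool.Agent.LibHit3

/-- What the curves `b₁⁻¹ · δᵏ b₂⁻¹ δ⁻ᵏ · a₁ b₁ a₁⁻¹ · δᵏ b₂ δ⁻ᵏ` give: the coefficient of
`μ ^ (3 k)`. -/
lemma coefS (μ : ℝ) (hμ : 1 < μ) (l : Fin 3 → ℝ) (hl : l = ![μ, 1, μ⁻¹]) (ξ : Fin 3 → ℝ)
    (h2 : ξ 2 = ξ 0) (h1 : ξ 1 ≠ ξ 0) (a b c d : M3)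
    (hS : ∀ k : ℕ, ∑ i, ∑ j, ∑ p, ∑ q, a i j * b j p * c p q * d q i *
      (ξ j - ξ p + ξ q - ξ i) * (l j * l q / (l p * l i)) ^ k = 0) :
    a 1 0 * b 0 2 * c 2 0 * d 0 1 + a 2 0 * b 0 1 * c 1 0 * d 0 2 =
      a 2 0 * b 0 2 * c 2 1 * d 1 2 + a 2 1 * b 1 2 * c 2 0 * d 0 2 := by
  have hμ0 : μ ≠ 0 := (zero_lt_one.trans hμ).ne'
  have hlz : ∀ i : Fin 3, l i = μ ^ (1 - ((i : ℕ) : ℤ)) := by
    intro i
    subst hl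
    fin_cases i
    · simp
    · simp
    · have : (1 - (((2 : Fin 3) : ℕ) : ℤ)) = -1 := by norm_num
      change μ⁻¹ = μ ^ (1 - (((2 : Fin 3) : ℕ) : ℤ))
      rw [this, _root_.zpow_neg_one]
  have hr : ∀ i j p q : Fin 3, l j * l q / (l p * l i) =
      μ ^ (((p : ℕ) : ℤ) + ((i : ℕ) : ℤ) - ((j : ℕ) : ℤ) - ((q : ℕ) : ℤ)) := by
    intro i j p q
    rw [hlz i, hlz j, hlz p, hlz q, ← zpow_add₀ hμ0, ← zpow_add₀ hμ0, ← zpow_sub₀ hμ0]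
    congr 1
    ring
  have hiff : ∀ i j p q : Fin 3, (l j * l q / (l p * l i) = μ ^ (3 : ℤ)) ↔
      (((p : ℕ) : ℤ) + ((i : ℕ) : ℤ) - ((j : ℕ) : ℤ) - ((q : ℕ) : ℤ) = 3) := by
    intro i j p q
    rw [hr]
    exact (zpow_right_injective₀ (zero_lt_one.trans hμ) hμ.ne').eq_iff
  have h := expo_coef (ι := Fin 3 × Fin 3 × Fin 3 × Fin 3)
    (fun t => a t.1 t.2.1 * b t.2.1 t.2.2.1 * c t.2.2.1 t.2.2.2 * d t.2.2.2 t.1 *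
      (ξ t.2.1 - ξ t.2.2.1 + ξ t.2.2.2 - ξ t.1))
    (fun t => l t.2.1 * l t.2.2.2 / (l t.2.2.1 * l t.1)) (by
      intro k
      have := hS k
      simp only [Fintype.sum_prod_type]
      exact this) (μ ^ (3 : ℤ))
  simp only [Fintype.sum_prod_type, hiff] at h
  simp only [Fin.sum_univ_three] at h
  norm_num at h
  rw [h2] at h
  have h3 : (a 1 0 * b 0 2 * c 2 0 * d 0 1 + a 2 0 * b 0 1 * c 1 0 * d 0 2 -
      (a 2 0 * b 0 2 * c 2 1 * d 1 2 + a 2 1 * b 1 2 * c 2 0 * d 0 2)) * (ξ 1 - ξ 0) = 0 := by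
    linarith
  have h4 : ξ 1 - ξ 0 ≠ 0 := sub_ne_zero.2 h1
  have h5 := (mul_eq_zero.1 h3).resolve_right h4
  linarith

end Pool.Agent.LibHit3
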