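import Pool.Agent.LibHit3.B_Defs

set_option autoImplicit false
set_option linter.unusedVariables false

noncomputable section

open Matrix
open scoped MatrixGroups

namespace Pool.Agent.LibHit3

lemma noE3_core {μ a00 a01 a10 a11 a12 a20 a21 a22 b00 b01 b02 b10 b11 b12 b21 b22
    A00 A10 A20 A21 A22 B00 B01 B02 B12 B22 : ℝ} (hμ : 1 < μ)
    (hA00 : A00 = a11 * a22 - a12 * a21) (hA22 : A22 = a00 * a11 - a01 * a10)
    (hA10 : A10 = a12 * a20 - a10 * a22) (hA21 : A21 = a01 * a20 - a00 * a21)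
    (hB00 : B00 = b11 * b22 - b12 * b21) (hB22 : B22 = b00 * b11 - b01 * b10)
    (hB01 : B01 = b02 * b21 - b01 * b22) (hB12 : B12 = b02 * b10 - b00 * b12)
    (r1 : a00 = μ * a22) (r2 : A22 = μ * A00) (r3 : b22 = μ * b00) (r4 : B00 = μ * B22)
    (hN : a10 * b01 = a21 * b12)
    (pa21 : a21 < 0) (pb02 : 0 < b02)
    (pb12 : b12 < 0) (pB12 : B12 < 0) (pB02 : 0 < B02)
    (alpha : A10 * a20 < a10 * A20) (beta : μ⁻¹ * A20 * a10 < A10 * a20)
    (hE : a10 * b02 * (μ⁻¹ * A20) * B01 + a20 * b01 * A10 * B02 =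
      a20 * b02 * (μ⁻¹ * A21) * B12 + a21 * b12 * (μ⁻¹ * A20) * B02) : False := by
  have hμ0 : μ ≠ 0 := by positivity
  -- consequences
  have h1 : a01 * a10 = μ * (a12 * a21) := by
    rw [hA22, hA00, r1] at r2
    linear_combination -r2
  have h2 : b12 * b21 = μ * (b01 * b10) := by
    rw [hB22, hB00, r3] at r4
    linear_combination -r4
  have h3 : a10 * A21 = μ * (a21 * A10) := by
    rw [hA21, hA10, r1]; linear_combination a20 * h1
  have h4 : b12 * B01 = μ * (b01 * B12) := by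
    rw [hB01, hB12, r3]; linear_combination b02 * h2
  -- multiply `hE` by `a10 * b12 * μ / a21...`
  have h3' : a10 * (μ⁻¹ * A21) = a21 * A10 := by
    calc a10 * (μ⁻¹ * A21) = μ⁻¹ * (a10 * A21) := by ring
      _ = a21 * A10 := by rw [h3]; field_simp
  have h4' : μ⁻¹ * (b12 * B01) = b01 * B12 := by rw [h4]; field_simp
  have key : a21 * b12 * (b02 * B12 * (a10 * A20 - a20 * A10) +
      b12 * B02 * (a20 * A10 - μ⁻¹ * A20 * a10)) = 0 := by
    linear_combination (a10 * b12) * hE - a10 ^ 2 * b02 * A20 * h4' + a20 * b02 * B12 * b12 * h3'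
      - (a10 * b02 * A20 * B12 + a20 * A10 * B02 * b12) * hN
  have n1 : b02 * B12 * (a10 * A20 - a20 * A10) < 0 := by
    apply mul_neg_of_neg_of_pos (mul_neg_of_pos_of_neg pb02 pB12); linarith
  have n2 : b12 * B02 * (a20 * A10 - μ⁻¹ * A20 * a10) < 0 := by
    apply mul_neg_of_neg_of_pos (mul_neg_of_neg_of_pos pb12 pB02); linarith
  have n3 : a21 * b12 ≠ 0 := (mul_pos_of_neg_of_neg pa21 pb12).ne'
  have n4 := (mul_eq_zero.1 key).resolve_left n3
  linarith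

/-- The coefficient of `μ ^ (3 k)` has a strict sign, a contradiction. -/
lemma noE3 (μ : ℝ) (hμ : 1 < μ) (a b : SL3)
    (ha : ColPat a.1) (ha' : ColPat (a⁻¹).1) (hb : RowPat b.1) (hb' : RowPat (b⁻¹).1)
    (alpha : (a⁻¹).1 1 0 * a.1 2 0 < a.1 1 0 * (a⁻¹).1 2 0)
    (beta : μ⁻¹ * (a⁻¹).1 2 0 * a.1 1 0 < 1 * (a⁻¹).1 1 0 * a.1 2 0)
    (t1 : (a.1 * Matrix.diagonal ![μ⁻¹, 1, μ]).trace = a.1.trace)
    (t2 : (Matrix.diagonal ![μ, 1, μ⁻¹] * (a⁻¹).1).trace = (a⁻¹).1.trace)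
    (t3 : (b.1 * Matrix.diagonal ![μ, 1, μ⁻¹]).trace = b.1.trace)
    (t4 : (Matrix.diagonal ![μ⁻¹, 1, μ] * (b⁻¹).1).trace = (b⁻¹).1.trace)
    (hN : a.1 1 0 * b.1 0 1 = a.1 2 1 * b.1 1 2) (c d : M3)
    (hc : c = Matrix.diagonal ![μ, 1, μ⁻¹] * (a⁻¹).1) (hd : d = (b⁻¹).1)
    (hE : a.1 1 0 * b.1 0 2 * c 2 0 * d 0 1 + a.1 2 0 * b.1 0 1 * c 1 0 * d 0 2 =
      a.1 2 0 * b.1 0 2 * c 2 1 * d 1 2 + a.1 2 1 * b.1 1 2 * c 2 0 * d 0 2) : False := by
  have hμ0 : μ ≠ 0 := by positivity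
  have hμ1 : μ - 1 ≠ 0 := sub_ne_zero.2 hμ.ne'
  have hai : (a⁻¹).1 = a.1.adjugate := Matrix.SpecialLinearGroup.coe_inv a
  have hbi : (b⁻¹).1 = b.1.adjugate := Matrix.SpecialLinearGroup.coe_inv b
  have r1 : a.1 0 0 = μ * a.1 2 2 := by
    simp only [Matrix.trace_fin_three, Matrix.mul_diagonal] at t1
    simp at t1
    field_simp at t1
    have : (μ - 1) * (a.1 0 0 - μ * a.1 2 2) = 0 := by linear_combination -t1
    linarith [(mul_eq_zero.1 this).resolve_left hμ1]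
  have r2 : (a⁻¹).1 2 2 = μ * (a⁻¹).1 0 0 := by
    simp only [Matrix.trace_fin_three, Matrix.diagonal_mul] at t2
    simp only [Matrix.cons_val_zero, Matrix.cons_val_one, Matrix.cons_val] at t2
    field_simp at t2
    have : (μ - 1) * ((a⁻¹).1 2 2 - μ * (a⁻¹).1 0 0) = 0 := by linear_combination -t2
    linarith [(mul_eq_zero.1 this).resolve_left hμ1]
  have r3 : b.1 2 2 = μ * b.1 0 0 := by
    simp only [Matrix.trace_fin_three, Matrix.mul_diagonal] at t3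
    simp only [Matrix.cons_val_zero, Matrix.cons_val_one, Matrix.cons_val] at t3
    field_simp at t3
    have : (μ - 1) * (b.1 2 2 - μ * b.1 0 0) = 0 := by linear_combination -t3
    linarith [(mul_eq_zero.1 this).resolve_left hμ1]
  have r4 : (b⁻¹).1 0 0 = μ * (b⁻¹).1 2 2 := by
    simp only [Matrix.trace_fin_three, Matrix.diagonal_mul] at t4
    simp only [Matrix.cons_val_zero, Matrix.cons_val_one, Matrix.cons_val] at t4
    field_simp at t4
    have : (μ - 1) * ((b⁻¹).1 0 0 - μ * (b⁻¹).1 2 2) = 0 := by linear_combination -t4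
    linarith [(mul_eq_zero.1 this).resolve_left hμ1]
  have c20 : c 2 0 = μ⁻¹ * (a⁻¹).1 2 0 := by rw [hc, Matrix.diagonal_mul]; simp
  have c10 : c 1 0 = (a⁻¹).1 1 0 := by rw [hc, Matrix.diagonal_mul]; simp
  have c21 : c 2 1 = μ⁻¹ * (a⁻¹).1 2 1 := by rw [hc, Matrix.diagonal_mul]; simp
  have s1 := ha 2 1
  have s2 := hb 0 2
  have s3 := hb 1 2
  have s4 := hb' 1 2
  have s5 := hb' 0 2
  simp only [sg, Matrix.cons_val_zero, Matrix.cons_val_one] at s1 s2 s3 s4 s5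
  refine noE3_core (a01 := a.1 0 1) (a11 := a.1 1 1) (a12 := a.1 1 2) (b10 := b.1 1 0)
    (b11 := b.1 1 1) (b21 := b.1 2 1) (b02 := b.1 0 2) (b12 := b.1 1 2)
    (A21 := (a⁻¹).1 2 1) (B01 := (b⁻¹).1 0 1) (B12 := (b⁻¹).1 1 2) (B02 := (b⁻¹).1 0 2) hμ ?_ ?_ ?_ ?_ ?_ ?_ ?_ ?_ r1 r2 r3 r4 hN (by linarith)
    (by linarith) (by linarith) (by linarith) (by linarith) alpha (by linarith)
    (by rw [c20, c10, c21, hd] at hE; exact hE)
  · rw [hai, Matrix.adjugate_fin_three]; simp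
  · rw [hai, Matrix.adjugate_fin_three]; simp
  · rw [hai, Matrix.adjugate_fin_three]; simp; ring
  · rw [hai, Matrix.adjugate_fin_three]; simp; ring
  · rw [hbi, Matrix.adjugate_fin_three]; simp
  · rw [hbi, Matrix.adjugate_fin_three]; simp
  · rw [hbi, Matrix.adjugate_fin_three]; simp; ring
  · rw [hbi, Matrix.adjugate_fin_three]; simp; ring

end Pool.Agent.LibHit3
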