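import Mathlib

set_option autoImplicit false

noncomputable section

open Matrix
open scoped MatrixGroups

namespace Pool.Agent.LibHit3

section
variable {Λ : Type} [CommRing Λ]

/-- The polarized Cayley–Hamilton identity, for `3 × 3` matrices. -/
lemma adj_identity (U V : Matrix (Fin 3) (Fin 3) Λ) :
    U * V * U = U.adjugate.trace • V - U.adjugate * V - V * U.adjugate +
      V.trace • U.adjugate - (U.adjugate.trace * V.trace) • (1 : Matrix (Fin 3) (Fin 3) Λ) +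
      (U * V).trace • U + (U.adjugate * V).trace • (1 : Matrix (Fin 3) (Fin 3) Λ) := by
  ext i j
  simp only [Matrix.add_apply, Matrix.sub_apply, Matrix.smul_apply, Matrix.mul_apply,
    Matrix.trace_fin_three, Fin.sum_univ_three, smul_eq_mul]
  fin_cases i <;> fin_cases j <;> simp [Matrix.adjugate_fin_three] <;> ring

lemma adj_cayley (U : Matrix (Fin 3) (Fin 3) Λ) :
    U * U = U.trace • U - U.adjugate.trace • (1 : Matrix (Fin 3) (Fin 3) Λ) + U.adjugate := by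
  ext i j
  simp only [Matrix.add_apply, Matrix.sub_apply, Matrix.smul_apply, Matrix.mul_apply,
    Matrix.trace_fin_three, Fin.sum_univ_three, smul_eq_mul]
  fin_cases i <;> fin_cases j <;> simp [Matrix.adjugate_fin_three] <;> ring

end

section
variable {Λ : Type} [CommRing Λ] [Algebra ℝ Λ]

/-- The trace of `A` is a real number. -/
def RealTr (A : SL(3, Λ)) : Prop := ∃ c : ℝ, A.1.trace = algebraMap ℝ Λ c

/-- The traces of the nine words and of their inverses are real numbers. -/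
structure TrPair (X Y : SL(3, Λ)) : Prop where
  x : RealTr X
  x' : RealTr X⁻¹
  y : RealTr Y
  y' : RealTr Y⁻¹
  xy : RealTr (X * Y)
  xy' : RealTr (X * Y)⁻¹
  xi : RealTr (X * Y⁻¹)
  xi' : RealTr (X * Y⁻¹)⁻¹
  c : RealTr (X * Y * X⁻¹ * Y⁻¹)
  c' : RealTr (X * Y * X⁻¹ * Y⁻¹)⁻¹

lemma RealTr.conj {A : SL(3, Λ)} (h : RealTr A) (g : SL(3, Λ)) : RealTr (g * A * g⁻¹) := by
  obtain ⟨c, hc⟩ := h
  refine ⟨c, ?_⟩
  have h1 : (g⁻¹).1 * g.1 = 1 := congrArg Subtype.val (inv_mul_cancel g)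
  change (g.1 * A.1 * (g⁻¹).1).trace = _
  rw [Matrix.trace_mul_comm, ← Matrix.mul_assoc, h1, Matrix.one_mul, hc]

private lemma RealTr.of_conj {A B : SL(3, Λ)} (h : RealTr A) (g : SL(3, Λ))
    (e : g * A * g⁻¹ = B) : RealTr B := e ▸ h.conj g

private lemma RealTr.of_eq {A B : SL(3, Λ)} (h : RealTr A) (e : A = B) : RealTr B := e ▸ h

lemma TrPair.swap {X Y : SL(3, Λ)} (h : TrPair X Y) : TrPair Y X where
  x := h.y
  x' := h.y'
  y := h.x
  y' := h.x'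
  xy := h.xy.of_conj Y (by group)
  xy' := h.xy'.of_conj Y (by group)
  xi := h.xi'.of_eq (by group)
  xi' := h.xi.of_eq (by group)
  c := h.c'.of_eq (by group)
  c' := h.c.of_eq (by group)

lemma TrPair.inv {X Y : SL(3, Λ)} (h : TrPair X Y) : TrPair X⁻¹ Y where
  x := h.x'
  x' := h.x.of_eq (by group)
  y := h.y
  y' := h.y'
  xy := h.xi'.of_conj Y⁻¹ (by group)
  xy' := h.xi.of_conj Y⁻¹ (by group)
  xi := h.xy'.of_conj Y (by group)
  xi' := h.xy.of_conj Y (by group)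
  c := h.c'.of_conj X⁻¹ (by group)
  c' := h.c.of_conj X⁻¹ (by group)

/-- `P` and `Q` are `X` and `Y`, in some order and up to inversion. -/
def IsPr (X Y P Q : SL(3, Λ)) : Prop :=
  ((P = X ∨ P = X⁻¹) ∧ (Q = Y ∨ Q = Y⁻¹)) ∨ ((P = Y ∨ P = Y⁻¹) ∧ (Q = X ∨ Q = X⁻¹))

lemma IsPr.swap {X Y P Q : SL(3, Λ)} (h : IsPr X Y P Q) : IsPr X Y Q P := by
  rcases h with ⟨h1, h2⟩ | ⟨h1, h2⟩
  · exact Or.inr ⟨h2, h1⟩
  · exact Or.inl ⟨h2, h1⟩

lemma IsPr.inv {X Y P Q : SL(3, Λ)} (h : IsPr X Y P Q) : IsPr X Y P⁻¹ Q := by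
  rcases h with ⟨h1, h2⟩ | ⟨h1, h2⟩
  · refine Or.inl ⟨?_, h2⟩
    rcases h1 with rfl | rfl
    · exact Or.inr rfl
    · exact Or.inl (inv_inv _)
  · refine Or.inr ⟨?_, h2⟩
    rcases h1 with rfl | rfl
    · exact Or.inr rfl
    · exact Or.inl (inv_inv _)

lemma IsPr.trPair {X Y P Q : SL(3, Λ)} (h : IsPr X Y P Q) (ht : TrPair X Y) : TrPair P Q := by
  have key : ∀ {U V A B : SL(3, Λ)}, TrPair U V → (A = U ∨ A = U⁻¹) → (B = V ∨ B = V⁻¹) →
      TrPair A B := by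
    intro U V A B hUV hA hB
    have h1 : TrPair A V := by
      rcases hA with rfl | rfl
      · exact hUV
      · exact hUV.inv
    rcases hB with rfl | rfl
    · exact h1
    · exact h1.swap.inv.swap
  rcases h with ⟨h1, h2⟩ | ⟨h1, h2⟩
  · exact key ht h1 h2
  · exact key ht.swap h1 h2

/-- The real span of the identity and of the words `P`, `P Q`, `P Q P⁻¹`, `P Q P⁻¹ Q⁻¹`. -/
def WSpan (X Y : SL(3, Λ)) : Submodule ℝ (Matrix (Fin 3) (Fin 3) Λ) :=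
  Submodule.span ℝ ({1} ∪ {A | ∃ P Q, IsPr X Y P Q ∧
    (A = P.1 ∨ A = (P * Q).1 ∨ A = (P * Q * P⁻¹).1 ∨ A = (P * Q * P⁻¹ * Q⁻¹).1)})

/-- The traces of the elements of the span are real. -/
lemma wSpan_trace {X Y : SL(3, Λ)} (ht : TrPair X Y) (A : Matrix (Fin 3) (Fin 3) Λ)
    (hA : A ∈ WSpan X Y) : ∃ c : ℝ, A.trace = algebraMap ℝ Λ c := by
  unfold WSpan at hA
  induction hA using Submodule.span_induction with
  | mem A hA =>
    rcases hA with hA | ⟨P, Q, hPQ, hA⟩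
    · rw [Set.mem_singleton_iff] at hA
      subst hA
      refine ⟨3, ?_⟩
      rw [Matrix.trace_one, Fintype.card_fin]
      exact (map_ofNat (algebraMap ℝ Λ) 3).symm
    · have hT := hPQ.trPair ht
      rcases hA with rfl | rfl | rfl | rfl
      · exact hT.x
      · exact hT.xy
      · exact hT.y.conj P
      · exact hT.c
  | zero => exact ⟨0, by simp⟩
  | add A B _ _ hA hB =>
    obtain ⟨c, hc⟩ := hA
    obtain ⟨d, hd⟩ := hB
    exact ⟨c + d, by rw [Matrix.trace_add, hc, hd, map_add]⟩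
  | smul t A _ hA =>
    obtain ⟨c, hc⟩ := hA
    exact ⟨t * c, by rw [Matrix.trace_smul, hc, Algebra.smul_def, map_mul]⟩

private lemma LC_one {X Y : SL(3, Λ)} : (1 : Matrix (Fin 3) (Fin 3) Λ) ∈ WSpan X Y :=
  Submodule.subset_span (Or.inl rfl)

private lemma LC_m1 {X Y P Q : SL(3, Λ)} (h : IsPr X Y P Q) : P.1 ∈ WSpan X Y :=
  Submodule.subset_span (Or.inr ⟨P, Q, h, Or.inl rfl⟩)

private lemma LC_m2 {X Y P Q : SL(3, Λ)} (h : IsPr X Y P Q) : P.1 * Q.1 ∈ WSpan X Y :=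
  Submodule.subset_span (Or.inr ⟨P, Q, h, Or.inr (Or.inl
    (Matrix.SpecialLinearGroup.coe_mul P Q).symm)⟩)

private lemma LC_m3 {X Y P Q : SL(3, Λ)} (h : IsPr X Y P Q) :
    P.1 * (Q.1 * (P⁻¹).1) ∈ WSpan X Y := by
  refine Submodule.subset_span (Or.inr ⟨P, Q, h, Or.inr (Or.inr (Or.inl ?_))⟩)
  rw [Matrix.SpecialLinearGroup.coe_mul, Matrix.SpecialLinearGroup.coe_mul, mul_assoc]

private lemma LC_m4 {X Y P Q : SL(3, Λ)} (h : IsPr X Y P Q) :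
    P.1 * (Q.1 * ((P⁻¹).1 * (Q⁻¹).1)) ∈ WSpan X Y := by
  refine Submodule.subset_span (Or.inr ⟨P, Q, h, Or.inr (Or.inr (Or.inr ?_))⟩)
  rw [Matrix.SpecialLinearGroup.coe_mul, Matrix.SpecialLinearGroup.coe_mul,
    Matrix.SpecialLinearGroup.coe_mul, mul_assoc, mul_assoc]

private def LCReal (a : Λ) : Prop := ∃ c : ℝ, a = algebraMap ℝ Λ c

private lemma LCReal.mul {a b : Λ} (ha : LCReal a) (hb : LCReal b) : LCReal (a * b) := by
  obtain ⟨c, rfl⟩ := ha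
  obtain ⟨d, rfl⟩ := hb
  exact ⟨c * d, (map_mul _ _ _).symm⟩

private lemma LC_smul {X Y : SL(3, Λ)} {a : Λ} (ha : LCReal a) {B : Matrix (Fin 3) (Fin 3) Λ}
    (hB : B ∈ WSpan X Y) : a • B ∈ WSpan X Y := by
  obtain ⟨c, rfl⟩ := ha
  rw [algebraMap_smul]
  exact Submodule.smul_mem _ _ hB

private lemma LC_inv (P : SL(3, Λ)) : P.1 * (P⁻¹).1 = 1 := by
  rw [← Matrix.SpecialLinearGroup.coe_mul, mul_inv_cancel, Matrix.SpecialLinearGroup.coe_one]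

private lemma LC_inv' (P : SL(3, Λ)) : (P⁻¹).1 * P.1 = 1 := by
  rw [← Matrix.SpecialLinearGroup.coe_mul, inv_mul_cancel, Matrix.SpecialLinearGroup.coe_one]

private lemma LC_invl (P : SL(3, Λ)) (Z : Matrix (Fin 3) (Fin 3) Λ) :
    P.1 * ((P⁻¹).1 * Z) = Z := by
  rw [← mul_assoc, LC_inv, one_mul]

private lemma LC_invl' (P : SL(3, Λ)) (Z : Matrix (Fin 3) (Fin 3) Λ) :
    (P⁻¹).1 * (P.1 * Z) = Z := by
  rw [← mul_assoc, LC_inv', one_mul]

private lemma LC_tr {P Q : SL(3, Λ)} (h : RealTr (P * Q)) : LCReal (P.1 * Q.1).trace := by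
  obtain ⟨c, hc⟩ := h
  rw [Matrix.SpecialLinearGroup.coe_mul] at hc
  exact ⟨c, hc⟩

private lemma LC_ch (P : SL(3, Λ)) : P.1 * P.1 =
    P.1.trace • P.1 - (P⁻¹).1.trace • (1 : Matrix (Fin 3) (Fin 3) Λ) + (P⁻¹).1 := by
  have e := adj_cayley P.1
  rw [← Matrix.SpecialLinearGroup.coe_inv] at e
  exact e

private lemma LC_e1 (P : SL(3, Λ)) (V : Matrix (Fin 3) (Fin 3) Λ) : P.1 * (V * P.1) =
    (P⁻¹).1.trace • V - (P⁻¹).1 * V - V * (P⁻¹).1 + V.trace • (P⁻¹).1 -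
      ((P⁻¹).1.trace * V.trace) • (1 : Matrix (Fin 3) (Fin 3) Λ) +
      (P.1 * V).trace • P.1 + ((P⁻¹).1 * V).trace • (1 : Matrix (Fin 3) (Fin 3) Λ) := by
  have e := adj_identity P.1 V
  rw [← Matrix.SpecialLinearGroup.coe_inv, mul_assoc] at e
  exact e

private lemma LC_iq {X Y P Q : SL(3, Λ)} (h : IsPr X Y P Q) : IsPr X Y P Q⁻¹ :=
  h.swap.inv.swap

private lemma LC_CH {X Y P Q : SL(3, Λ)} (ht : TrPair X Y) (h : IsPr X Y P Q) :
    P.1 * P.1 ∈ WSpan X Y := by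
  rw [LC_ch]
  have t := h.trPair ht
  exact add_mem (sub_mem (LC_smul t.x (LC_m1 h)) (LC_smul t.x' LC_one)) (LC_m1 h.inv)

private lemma LC_L1 {X Y P Q : SL(3, Λ)} (ht : TrPair X Y) (h : IsPr X Y P Q) :
    P.1 * (Q.1 * P.1) ∈ WSpan X Y := by
  rw [LC_e1]
  have t := h.trPair ht
  have t' := h.inv.trPair ht
  refine add_mem (add_mem (sub_mem (add_mem (sub_mem (sub_mem ?_ ?_) ?_) ?_) ?_) ?_) ?_
  · exact LC_smul t.x' (LC_m1 h.swap)
  · exact LC_m2 h.inv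
  · exact LC_m2 h.inv.swap
  · exact LC_smul t.y (LC_m1 h.inv)
  · exact LC_smul (LCReal.mul t.x' t.y) LC_one
  · exact LC_smul (LC_tr t.xy) (LC_m1 h)
  · exact LC_smul (LC_tr t'.xy) LC_one

private lemma LC_L2 {X Y P Q : SL(3, Λ)} (ht : TrPair X Y) (h : IsPr X Y P Q) :
    P.1 * (Q.1 * (P.1 * (Q⁻¹).1)) ∈ WSpan X Y := by
  have e : P.1 * (Q.1 * (P.1 * (Q⁻¹).1)) = (P.1 * (Q.1 * P.1)) * (Q⁻¹).1 := by
    simp only [mul_assoc]
  rw [e, LC_e1]
  simp only [add_mul, sub_mul, smul_mul_assoc, one_mul, mul_assoc, LC_inv, mul_one]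
  have t := h.trPair ht
  have t' := h.inv.trPair ht
  refine add_mem (add_mem (sub_mem (add_mem (sub_mem (sub_mem ?_ ?_) ?_) ?_) ?_) ?_) ?_
  · exact LC_smul t.x' LC_one
  · exact LC_m1 h.inv
  · exact LC_m3 h.inv.swap
  · exact LC_smul t.y (LC_m2 (LC_iq h.inv))
  · exact LC_smul (LCReal.mul t.x' t.y) (LC_m1 h.swap.inv)
  · exact LC_smul (LC_tr t.xy) (LC_m2 (LC_iq h))
  · exact LC_smul (LC_tr t'.xy) (LC_m1 h.swap.inv)

private lemma LC_L3 {X Y P Q : SL(3, Λ)} (ht : TrPair X Y) (h : IsPr X Y P Q) :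
    Q.1 * (P.1 * ((Q⁻¹).1 * P.1)) ∈ WSpan X Y := by
  rw [LC_e1]
  simp only [mul_add, mul_sub, mul_smul_comm, mul_one, LC_inv, LC_invl]
  have t := (LC_iq h).trPair ht
  have t' := (LC_iq h.inv).trPair ht
  refine add_mem (add_mem (sub_mem (add_mem (sub_mem (sub_mem ?_ ?_) ?_) ?_) ?_) ?_) ?_
  · exact LC_smul t.x' LC_one
  · exact LC_m3 h.inv.swap
  · exact LC_m1 h.inv
  · exact LC_smul t.y (LC_m2 h.inv.swap)
  · exact LC_smul (LCReal.mul t.x' t.y) (LC_m1 h.swap)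
  · exact LC_smul (LC_tr t.xy) (LC_m2 h.swap)
  · exact LC_smul (LC_tr t'.xy) (LC_m1 h.swap)

private lemma LC_L4 {X Y P Q : SL(3, Λ)} (ht : TrPair X Y) (h : IsPr X Y P Q) :
    P.1 * (Q.1 * (P.1 * ((Q⁻¹).1 * (P⁻¹).1))) ∈ WSpan X Y := by
  have e : P.1 * (Q.1 * (P.1 * ((Q⁻¹).1 * (P⁻¹).1))) =
      ((P.1 * (Q.1 * P.1)) * (Q⁻¹).1) * (P⁻¹).1 := by
    simp only [mul_assoc]
  rw [e, LC_e1]
  simp only [add_mul, sub_mul, smul_mul_assoc, one_mul, mul_assoc, LC_invl]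
  have t := h.trPair ht
  have t' := h.inv.trPair ht
  refine add_mem (add_mem (sub_mem (add_mem (sub_mem (sub_mem ?_ ?_) ?_) ?_) ?_) ?_) ?_
  · exact LC_smul t.x' (LC_m1 h.inv)
  · exact LC_CH ht h.inv
  · exact LC_L3 ht h.inv
  · exact LC_smul t.y (LC_L1 ht (LC_iq h.inv))
  · exact LC_smul (LCReal.mul t.x' t.y) (LC_m2 h.inv.swap.inv)
  · exact LC_smul (LC_tr t.xy) (LC_m3 (LC_iq h))
  · exact LC_smul (LC_tr t'.xy) (LC_m2 h.inv.swap.inv)

private lemma LC_L5 {X Y P Q : SL(3, Λ)} (ht : TrPair X Y) (h : IsPr X Y P Q) :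
    P.1 * (Q.1 * ((P⁻¹).1 * ((Q⁻¹).1 * P.1))) ∈ WSpan X Y := by
  have e : P.1 * (Q.1 * ((P⁻¹).1 * ((Q⁻¹).1 * P.1))) =
      P.1 * ((Q.1 * ((P⁻¹).1 * (Q⁻¹).1)) * P.1) := by
    simp only [mul_assoc]
  have t := h.trPair ht
  have hL2 : (P⁻¹).1 * (Q.1 * ((P⁻¹).1 * (Q⁻¹).1)) ∈ WSpan X Y := LC_L2 ht h.inv
  have hL3 : Q.1 * ((P⁻¹).1 * ((Q⁻¹).1 * (P⁻¹).1)) ∈ WSpan X Y := LC_L3 ht h.inv
  have hv : Q.1 * ((P⁻¹).1 * (Q⁻¹).1) ∈ WSpan X Y := LC_m3 h.inv.swap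
  have hr1 : LCReal (Q.1 * ((P⁻¹).1 * (Q⁻¹).1)).trace := wSpan_trace ht _ hv
  have hr2 : LCReal (P.1 * (Q.1 * ((P⁻¹).1 * (Q⁻¹).1))).trace := wSpan_trace ht _ (LC_m4 h)
  have hr3 : LCReal ((P⁻¹).1 * (Q.1 * ((P⁻¹).1 * (Q⁻¹).1))).trace := wSpan_trace ht _ hL2
  rw [e, LC_e1]
  refine add_mem (add_mem (sub_mem (add_mem (sub_mem (sub_mem ?_ ?_) ?_) ?_) ?_) ?_) ?_
  · exact LC_smul t.x' hv
  · exact hL2
  · have e2 : Q.1 * ((P⁻¹).1 * (Q⁻¹).1) * (P⁻¹).1 =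
        Q.1 * ((P⁻¹).1 * ((Q⁻¹).1 * (P⁻¹).1)) := by
      simp only [mul_assoc]
    rw [e2]
    exact hL3
  · exact LC_smul hr1 (LC_m1 h.inv)
  · exact LC_smul (LCReal.mul t.x' hr1) LC_one
  · exact LC_smul hr2 (LC_m1 h)
  · exact LC_smul hr3 LC_one

private lemma LC_cases {X Y P Q P' Q' : SL(3, Λ)} (h : IsPr X Y P Q) (h' : IsPr X Y P' Q') :
    ((P' = P ∨ P' = P⁻¹) ∧ (Q' = Q ∨ Q' = Q⁻¹)) ∨ ((P' = Q ∨ P' = Q⁻¹) ∧ (Q' = P ∨ Q' = P⁻¹)) := by
  rcases h with ⟨h1 | h1, h2 | h2⟩ | ⟨h1 | h1, h2 | h2⟩ <;>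
  rcases h' with ⟨h3 | h3, h4 | h4⟩ | ⟨h3 | h3, h4 | h4⟩ <;>
  subst h1 h2 h3 h4 <;> simp [inv_inv]

/-- words starting with a letter `Q` -/
private lemma LC_wQ {X Y P Q Z : SL(3, Λ)} (ht : TrPair X Y) (h : IsPr X Y P Q)
    (hZ : Z = P ∨ Z = P⁻¹) (A : Matrix (Fin 3) (Fin 3) Λ)
    (hA : A = Q.1 ∨ A = (Q * Z).1 ∨ A = (Q * Z * Q⁻¹).1 ∨ A = (Q * Z * Q⁻¹ * Z⁻¹).1) :
    P.1 * A ∈ WSpan X Y := by
  rcases hZ with rfl | rfl
  · rcases hA with rfl | rfl | rfl | rfl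
    · exact LC_m2 h
    · rw [Matrix.SpecialLinearGroup.coe_mul]
      exact LC_L1 ht h
    · rw [Matrix.SpecialLinearGroup.coe_mul, Matrix.SpecialLinearGroup.coe_mul, mul_assoc]
      exact LC_L2 ht h
    · rw [Matrix.SpecialLinearGroup.coe_mul, Matrix.SpecialLinearGroup.coe_mul,
        Matrix.SpecialLinearGroup.coe_mul, mul_assoc, mul_assoc]
      exact LC_L4 ht h
  · rcases hA with rfl | rfl | rfl | rfl
    · exact LC_m2 h
    · rw [Matrix.SpecialLinearGroup.coe_mul]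
      exact LC_m3 h
    · rw [Matrix.SpecialLinearGroup.coe_mul, Matrix.SpecialLinearGroup.coe_mul, mul_assoc]
      exact LC_m4 h
    · rw [Matrix.SpecialLinearGroup.coe_mul, Matrix.SpecialLinearGroup.coe_mul,
        Matrix.SpecialLinearGroup.coe_mul, mul_assoc, mul_assoc, inv_inv]
      exact LC_L5 ht h

/-- words starting with the letter `P⁻¹` -/
private lemma LC_wPi {X Y P Z : SL(3, Λ)} (h : IsPr X Y P Z)
    (A : Matrix (Fin 3) (Fin 3) Λ)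
    (hA : A = (P⁻¹).1 ∨ A = (P⁻¹ * Z).1 ∨ A = (P⁻¹ * Z * P⁻¹⁻¹).1 ∨
      A = (P⁻¹ * Z * P⁻¹⁻¹ * Z⁻¹).1) :
    P.1 * A ∈ WSpan X Y := by
  rcases hA with rfl | rfl | rfl | rfl
  · rw [LC_inv]
    exact LC_one
  · rw [Matrix.SpecialLinearGroup.coe_mul, LC_invl]
    exact LC_m1 h.swap
  · rw [Matrix.SpecialLinearGroup.coe_mul, Matrix.SpecialLinearGroup.coe_mul, mul_assoc,
      LC_invl, inv_inv]
    exact LC_m2 h.swap
  · rw [Matrix.SpecialLinearGroup.coe_mul, Matrix.SpecialLinearGroup.coe_mul,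
      Matrix.SpecialLinearGroup.coe_mul, mul_assoc, mul_assoc, LC_invl, inv_inv]
    exact LC_m3 h.swap

/-- words starting with the letter `P` -/
private lemma LC_wP {X Y P Z : SL(3, Λ)} (ht : TrPair X Y) (h : IsPr X Y P Z)
    (A : Matrix (Fin 3) (Fin 3) Λ)
    (hA : A = P.1 ∨ A = (P * Z).1 ∨ A = (P * Z * P⁻¹).1 ∨ A = (P * Z * P⁻¹ * Z⁻¹).1) :
    P.1 * A ∈ WSpan X Y := by
  have t := h.trPair ht
  have key : ∀ B : Matrix (Fin 3) (Fin 3) Λ, P.1 * B ∈ WSpan X Y → B ∈ WSpan X Y →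
      (P⁻¹).1 * B ∈ WSpan X Y → P.1 * (P.1 * B) ∈ WSpan X Y := by
    intro B h1 h2 h3
    rw [← mul_assoc, LC_ch, add_mul, sub_mul, smul_mul_assoc, smul_mul_assoc, one_mul]
    exact add_mem (sub_mem (LC_smul t.x h1) (LC_smul t.x' h2)) h3
  rcases hA with rfl | rfl | rfl | rfl
  · exact LC_CH ht h
  · rw [Matrix.SpecialLinearGroup.coe_mul]
    exact key _ (LC_m2 h) (LC_m1 h.swap) (LC_m2 h.inv)
  · rw [Matrix.SpecialLinearGroup.coe_mul, Matrix.SpecialLinearGroup.coe_mul, mul_assoc]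
    exact key _ (LC_m3 h) (LC_m2 h.inv.swap) (LC_L1 ht h.inv)
  · rw [Matrix.SpecialLinearGroup.coe_mul, Matrix.SpecialLinearGroup.coe_mul,
      Matrix.SpecialLinearGroup.coe_mul, mul_assoc, mul_assoc]
    exact key _ (LC_m4 h) (LC_m3 h.inv.swap) (LC_L2 ht h.inv)

/-- The span is stable under left multiplication by the letters. -/
lemma wSpan_mul {X Y P Q : SL(3, Λ)} (ht : TrPair X Y) (h : IsPr X Y P Q)
    (A : Matrix (Fin 3) (Fin 3) Λ) (hA : A ∈ WSpan X Y) : P.1 * A ∈ WSpan X Y := by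
  refine Submodule.span_induction (p := fun A _ => P.1 * A ∈ WSpan X Y) ?_ ?_ ?_ ?_ hA
  · rintro A (hA | ⟨P', Q', h', hA⟩)
    · rw [Set.mem_singleton_iff] at hA
      rw [hA, mul_one]
      exact LC_m1 h
    · rcases LC_cases h h' with ⟨rfl | rfl, hQ⟩ | ⟨rfl | rfl, hQ⟩
      · exact LC_wP ht h' A hA
      · exact LC_wPi (by have := h'.inv; rwa [inv_inv] at this) A hA
      · exact LC_wQ ht h hQ A hA
      · refine LC_wQ (Q := Q⁻¹) ht (LC_iq h) hQ A ?_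
        exact hA
  · rw [mul_zero]
    exact zero_mem _
  · intro a b _ _ ha hb
    rw [mul_add]
    exact add_mem ha hb
  · intro c a _ ha
    rw [mul_smul_comm]
    exact Submodule.smul_mem _ _ ha

/-- If the nine words and their inverses have real traces then so do all the words. -/
theorem realTr_closure {X Y : SL(3, Λ)} (ht : TrPair X Y) (g : SL(3, Λ))
    (hg : g ∈ Subgroup.closure {X, Y}) : RealTr g := by
  have hX : IsPr X Y X Y := Or.inl ⟨Or.inl rfl, Or.inl rfl⟩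
  have hY : IsPr X Y Y X := hX.swap
  have key : ∀ g ∈ Subgroup.closure {X, Y},
      (∀ A ∈ WSpan X Y, g.1 * A ∈ WSpan X Y) ∧ (∀ A ∈ WSpan X Y, (g⁻¹).1 * A ∈ WSpan X Y) := by
    intro g hg
    induction hg using Subgroup.closure_induction with
    | mem x hx =>
      rcases hx with rfl | hx
      · exact ⟨fun A hA => wSpan_mul ht hX A hA, fun A hA => wSpan_mul ht hX.inv A hA⟩
      · rw [Set.mem_singleton_iff] at hx
        subst hx
        exact ⟨fun A hA => wSpan_mul ht hY A hA, fun A hA => wSpan_mul ht hY.inv A hA⟩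
    | one =>
      have h1 : (1 : SL(3, Λ)).1 = 1 := rfl
      refine ⟨fun A hA => ?_, fun A hA => ?_⟩
      · rw [h1, Matrix.one_mul]; exact hA
      · rw [inv_one, h1, Matrix.one_mul]; exact hA
    | mul x y _ _ hx hy =>
      refine ⟨fun A hA => ?_, fun A hA => ?_⟩
      · have : (x * y).1 * A = x.1 * (y.1 * A) := by
          change (x.1 * y.1) * A = _
          rw [Matrix.mul_assoc]
        rw [this]
        exact hx.1 _ (hy.1 _ hA)
      · have : ((x * y)⁻¹).1 * A = (y⁻¹).1 * ((x⁻¹).1 * A) := by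
          rw [_root_.mul_inv_rev]
          change ((y⁻¹).1 * (x⁻¹).1) * A = _
          rw [Matrix.mul_assoc]
        rw [this]
        exact hy.2 _ (hx.2 _ hA)
    | inv x _ hx =>
      exact ⟨hx.2, by rw [inv_inv]; exact hx.1⟩
  have h1 : (1 : Matrix (Fin 3) (Fin 3) Λ) ∈ WSpan X Y := Submodule.subset_span (Or.inl rfl)
  have h2 := (key g hg).1 1 h1
  rw [Matrix.mul_one] at h2
  exact wSpan_trace ht _ h2

end

end Pool.Agent.LibHit3
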