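import Pool.Agent.LibHit3.B_Defs
import Pool.Agent.LibHit3.B_Lawton

set_option autoImplicit false

noncomputable section

open Matrix
open scoped MatrixGroups

namespace Pool.Agent.LibHit3

open Pool.Agent.LibHyperelliptic

/-- The matrix `A + ε B A`. -/
private def dualMat (A B : Matrix (Fin 3) (Fin 3) ℝ) : Matrix (Fin 3) (Fin 3) (DualNumber ℝ) :=
  Matrix.of fun i j => (TrivSqZeroExt.inl (A i j) + TrivSqZeroExt.inr ((B * A) i j) :
    TrivSqZeroExt ℝ ℝ)

private lemma dualMat_fst (A B : Matrix (Fin 3) (Fin 3) ℝ) (i j : Fin 3) :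
    TrivSqZeroExt.fst (dualMat A B i j) = A i j := by
  simp [dualMat]

private lemma dualMat_snd (A B : Matrix (Fin 3) (Fin 3) ℝ) (i j : Fin 3) :
    TrivSqZeroExt.snd (dualMat A B i j) = (B * A) i j := by
  simp [dualMat]

private lemma dualMat_det (A B : Matrix (Fin 3) (Fin 3) ℝ) (hA : A.det = 1)
    (hB : B.trace = 0) : (dualMat A B).det = 1 := by
  rw [Matrix.det_fin_three] at hA ⊢
  rw [Matrix.trace_fin_three] at hB
  apply TrivSqZeroExt.ext
  · simp only [TrivSqZeroExt.fst_add, TrivSqZeroExt.fst_sub, TrivSqZeroExt.fst_mul,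
      dualMat_fst, TrivSqZeroExt.fst_one]
    exact hA
  · simp only [TrivSqZeroExt.snd_add, TrivSqZeroExt.snd_sub, TrivSqZeroExt.snd_mul,
      TrivSqZeroExt.fst_mul, dualMat_fst, dualMat_snd, TrivSqZeroExt.snd_one,
      Matrix.mul_apply, Fin.sum_univ_three, smul_eq_mul, MulOpposite.smul_eq_mul_unop,
      MulOpposite.unop_op]
    linear_combination (A 0 0 * A 1 1 * A 2 2 - A 0 0 * A 1 2 * A 2 1 - A 0 1 * A 1 0 * A 2 2 +
      A 0 1 * A 1 2 * A 2 0 + A 0 2 * A 1 0 * A 2 1 - A 0 2 * A 1 1 * A 2 0) * hB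

private lemma dualMat_mul (A B C D : Matrix (Fin 3) (Fin 3) ℝ) (A' : Matrix (Fin 3) (Fin 3) ℝ)
    (hA : A' * A = 1) :
    dualMat (A * C) (B + A * D * A') = dualMat A B * dualMat C D := by
  have key : (B + A * D * A') * (A * C) = B * A * C + A * (D * C) := by
    rw [add_mul]
    congr 1
    · rw [Matrix.mul_assoc]
    · calc A * D * A' * (A * C) = A * D * ((A' * A) * C) := by simp only [Matrix.mul_assoc]
        _ = A * (D * C) := by rw [hA, Matrix.one_mul, Matrix.mul_assoc]
  ext i j
  · rw [dualMat_fst]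
    simp only [Matrix.mul_apply, Fin.sum_univ_three, TrivSqZeroExt.fst_add,
      TrivSqZeroExt.fst_mul, dualMat_fst]
  · rw [dualMat_snd, key]
    simp only [Matrix.add_apply]
    rw [Matrix.mul_apply (M := B * A), Matrix.mul_apply (M := A) (N := D * C)]
    rw [Matrix.mul_apply (M := dualMat A B)]
    simp only [Fin.sum_univ_three, TrivSqZeroExt.snd_add, TrivSqZeroExt.snd_mul,
      dualMat_fst, dualMat_snd, smul_eq_mul, MulOpposite.smul_eq_mul_unop,
      MulOpposite.unop_op]
    ring

/-- The first order deformation `r + ε u r` of `r` in the direction of the cocycle `u`, as a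
representation over the dual numbers. -/
theorem exists_dualHom (r : Surf →* SL3) (u : Coch 3) (hu : IsCocycle (aR r) u) :
    ∃ H : Surf →* SL(3, DualNumber ℝ), ∀ γ, RealTr (H γ) ↔ (u γ * (r γ).1).trace = 0 := by
  obtain ⟨h1, h2⟩ := hu
  refine ⟨MonoidHom.mk' (fun γ => ⟨dualMat (r γ).1 (u γ), dualMat_det _ _ (r γ).2 (h1 γ)⟩) ?_, ?_⟩
  · intro γ η
    apply Subtype.ext
    change dualMat (r (γ * η)).1 (u (γ * η)) = dualMat (r γ).1 (u γ) * dualMat (r η).1 (u η)
    rw [h2 γ η, adSL_apply, map_mul]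
    exact dualMat_mul _ _ _ _ _ (congrArg Subtype.val (inv_mul_cancel (r γ)))
  · intro γ
    unfold RealTr
    change (∃ c : ℝ, (dualMat (r γ).1 (u γ)).trace = algebraMap ℝ (DualNumber ℝ) c) ↔ _
    have hf : TrivSqZeroExt.fst (dualMat (r γ).1 (u γ)).trace = (r γ).1.trace := by
      simp only [Matrix.trace_fin_three, TrivSqZeroExt.fst_add, dualMat_fst]
    have hs : TrivSqZeroExt.snd (dualMat (r γ).1 (u γ)).trace = (u γ * (r γ).1).trace := by
      simp only [Matrix.trace_fin_three, TrivSqZeroExt.snd_add, dualMat_snd]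
    constructor
    · rintro ⟨c, hc⟩
      rw [← hs, hc]
      exact TrivSqZeroExt.snd_inl ℝ c
    · intro h
      refine ⟨(r γ).1.trace, ?_⟩
      apply TrivSqZeroExt.ext
      · rw [hf]
        exact (TrivSqZeroExt.fst_inl ℝ _).symm
      · rw [hs, h]
        exact (TrivSqZeroExt.snd_inl ℝ _).symm

/-- The ten words. -/
def tenWords (x y : Surf) : Set Surf :=
  {x, x⁻¹, y, y⁻¹, x * y, (x * y)⁻¹, x * y⁻¹, (x * y⁻¹)⁻¹, x * y * x⁻¹ * y⁻¹,
    (x * y * x⁻¹ * y⁻¹)⁻¹}

/-- The first order variation of all traces is determined by that of the ten words. -/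
theorem trace_zero_closure (r : Surf →* SL3) (u : Coch 3) (hu : IsCocycle (aR r) u)
    (x y : Surf) (h : ∀ γ ∈ tenWords x y, (u γ * (r γ).1).trace = 0) (γ : Surf)
    (hγ : γ ∈ Subgroup.closure {x, y}) : (u γ * (r γ).1).trace = 0 := by
  obtain ⟨H, hH⟩ := exists_dualHom r u hu
  have key : ∀ γ ∈ tenWords x y, RealTr (H γ) := fun γ hγ => (hH γ).2 (h γ hγ)
  have ht : TrPair (H x) (H y) := by
    refine ⟨key _ (by simp [tenWords]), ?_, key _ (by simp [tenWords]), ?_, ?_, ?_, ?_, ?_,
      ?_, ?_⟩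
    · rw [← map_inv]; exact key _ (by simp [tenWords])
    · rw [← map_inv]; exact key _ (by simp [tenWords])
    · rw [← map_mul]; exact key _ (by simp [tenWords])
    · rw [← map_mul, ← map_inv]
      exact key _ (by simp only [tenWords, Set.mem_insert_iff, true_or, or_true])
    · rw [← map_inv, ← map_mul]; exact key _ (by simp [tenWords])
    · rw [← map_inv, ← map_mul, ← map_inv]
      exact key _ (by simp only [tenWords, Set.mem_insert_iff, true_or, or_true])
    · rw [← map_inv, ← map_inv, ← map_mul, ← map_mul, ← map_mul]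
      exact key _ (by simp only [tenWords, Set.mem_insert_iff, true_or, or_true])
    · rw [← map_inv, ← map_inv, ← map_mul, ← map_mul, ← map_mul, ← map_inv]
      exact key _ (by simp only [tenWords, Set.mem_insert_iff, Set.mem_singleton_iff, or_true])
  have hmem : H γ ∈ Subgroup.closure {H x, H y} := by
    have h1 := Subgroup.mem_map_of_mem H hγ
    rw [MonoidHom.map_closure, Set.image_pair] at h1
    exact h1
  exact (hH γ).1 (realTr_closure ht _ hmem)

end Pool.Agent.LibHit3
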