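import Pool.Agent.LibHit3.B_Simple
import Pool.Agent.LibHit3.B_Dual

set_option autoImplicit false
set_option linter.unusedSimpArgs false

noncomputable section

namespace Pool.Agent.LibHit3

open Pool.Agent.LibHyperelliptic

private lemma of_eq {γ γ' : Surf} (h : IsSimple γ) (e : γ = γ') : IsSimple γ' := e ▸ h

lemma simple_a₁i : IsSimple a₁⁻¹ := by
  refine of_eq (simple_conj (simple_t 1 (simple_t 0 (simple_t 0 (simple_t 1 simple_a₁))))
    (a₁ * b₁)⁻¹) ?_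
  simp only [map_mul, map_inv, t0a, t0b, t1a, t1b]
  group

lemma simple_b₁ : IsSimple b₁ := by
  refine of_eq (simple_conj (simple_t 0 (simple_t 1 simple_a₁)) a₁⁻¹) ?_
  simp only [map_mul, map_inv, t0a, t0b, t1a, t1b]
  group

lemma simple_b₁i : IsSimple b₁⁻¹ := by
  refine of_eq (simple_s 0 (simple_s 1 simple_a₁)) ?_
  simp only [map_mul, map_inv, s0a, s0b, s1a, s1b]
  group

lemma simple_a₁b₁ : IsSimple (a₁ * b₁) := of_eq (simple_t 1 simple_a₁) t1a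

lemma simple_a₁b₁i : IsSimple (a₁ * b₁)⁻¹ := by
  refine of_eq (simple_conj (simple_s 0 (simple_s 0 (simple_s 1 simple_a₁))) a₁) ?_
  simp only [map_mul, map_inv, s0a, s0b, s1a, s1b]
  group

lemma simple_a₁bi : IsSimple (a₁ * b₁⁻¹) := of_eq (simple_s 1 simple_a₁) s1a

lemma simple_a₁bii : IsSimple (a₁ * b₁⁻¹)⁻¹ := by
  refine of_eq (simple_conj (simple_t 0 (simple_t 0 (simple_t 1 simple_a₁))) a₁⁻¹) ?_
  simp only [map_mul, map_inv, t0a, t0b, t1a, t1b]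
  group

lemma simple_comm₂ : IsSimple (a₂ * b₂ * a₂⁻¹ * b₂⁻¹) := by
  have h1 : IsSimple (twistHom 0 (twistHom 1 (twistHom 2 dl))) :=
    simple_t 0 (simple_t 1 (simple_t 2 simple_dl))
  have h2 := simple_t 1 (simple_t 2 (simple_t 3 h1))
  have h3 := simple_t 2 (simple_t 3 (simple_t 4 h2))
  refine of_eq h3 ?_
  unfold dl
  simp only [map_mul, map_inv, t0a, t0b, t0c, t0d, t1a, t1b, t1c, t1d, t2a, t2b, t2c, t2d,
    t3a, t3b, t3c, t3d, t4a, t4b, t4c, t4d]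
  group

/-- The inverse of `[a₁, b₁]` is `[a₂, b₂]`. -/
lemma dl_inv_eq : dl⁻¹ = a₂ * b₂ * a₂⁻¹ * b₂⁻¹ := by
  have h : a₁ * b₁ * a₁⁻¹ * b₁⁻¹ * (a₂ * b₂ * a₂⁻¹ * b₂⁻¹) = 1 := surf_rel
  exact inv_eq_of_mul_eq_one_right h

/-- The inverse of `[a₁, b₁]` is `[a₂, b₂]`. -/
lemma simple_dli : IsSimple dl⁻¹ := of_eq simple_comm₂ dl_inv_eq.symm

lemma simple_tenWords₁ : ∀ γ ∈ tenWords a₁ b₁, IsSimple γ := by
  intro γ hγ
  unfold tenWords at hγ
  simp only [Set.mem_insert_iff, Set.mem_singleton_iff] at hγ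
  rcases hγ with rfl | rfl | rfl | rfl | rfl | rfl | rfl | rfl | rfl | rfl
  · exact simple_a₁
  · exact simple_a₁i
  · exact simple_b₁
  · exact simple_b₁i
  · exact simple_a₁b₁
  · exact simple_a₁b₁i
  · exact simple_a₁bi
  · exact simple_a₁bii
  · exact simple_dl
  · exact simple_dli

end Pool.Agent.LibHit3
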