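import Pool.Agent.LibHit3.B_Simple
import Pool.Agent.LibHit3.B_Dual

set_option autoImplicit false
set_option linter.unusedSimpArgs false

noncomputable section

namespace Pool.Agent.LibHit3

open Pool.Agent.LibHyperelliptic

private lemma of_eq' {γ γ' : Surf} (h : IsSimple γ) (e : γ = γ') : IsSimple γ' := e ▸ h

private lemma y1 : IsSimple (b₂ * a₁⁻¹) := by
  refine of_eq' (simple_t 1 (simple_t 2 (simple_t 0 (simple_t 1 simple_a₁)))) ?_
  simp only [map_mul, map_inv, t0a, t0b, t1a, t1b, t1d, t2a, t2b]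
  group

private lemma y2 : IsSimple (b₂ * a₂⁻¹ * b₂⁻¹) := by
  refine of_eq' (simple_t 2 (simple_t 3 y1)) ?_
  simp only [map_mul, map_inv, t3a, t3d, t2a, t2c, t2d]
  group

private lemma y3 : IsSimple (a₁ * a₂ * a₁⁻¹) := by
  refine of_eq' (simple_s 2 (simple_s 3 y1)) ?_
  simp only [map_mul, map_inv, s3a, s3d, s2a, s2c, s2d]
  group

lemma simple_a₂ : IsSimple a₂ := by
  refine of_eq' (simple_conj y3 a₁⁻¹) ?_
  group

lemma simple_a₂i : IsSimple a₂⁻¹ := by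
  refine of_eq' (simple_conj y2 b₂⁻¹) ?_
  group

lemma simple_b₂ : IsSimple b₂ := by
  refine of_eq' (simple_conj (simple_s 3 (simple_s 4 y2)) (b₂ * a₂)⁻¹) ?_
  simp only [map_mul, map_inv, s3c, s3d, s4c, s4d]
  group

lemma simple_b₂i : IsSimple b₂⁻¹ := by
  refine of_eq' (simple_t 3 (simple_t 4 y2)) ?_
  simp only [map_mul, map_inv, t3c, t3d, t4c, t4d]
  group

lemma simple_a₂b₂ : IsSimple (a₂ * b₂) := by
  refine of_eq' (simple_conj (simple_s 2 (simple_t 4 (simple_s 3 y1))) a₁⁻¹) ?_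
  simp only [map_mul, map_inv, s3a, s3c, s3d, t4a, t4c, t4d, s2a, s2c, s2d]
  group

lemma simple_a₂b₂i : IsSimple (a₂ * b₂)⁻¹ := by
  refine of_eq' (simple_conj (simple_t 4 y2) b₂⁻¹) ?_
  simp only [map_mul, map_inv, t4c, t4d]
  group

lemma simple_a₂bi : IsSimple (a₂ * b₂⁻¹) := by
  refine of_eq' (simple_conj (simple_s 4 y3) a₁⁻¹) ?_
  simp only [map_mul, map_inv, s4a, s4c, s4d]
  group

lemma simple_a₂bii : IsSimple (a₂ * b₂⁻¹)⁻¹ := by
  refine of_eq' (simple_conj (simple_s 4 y2) b₂⁻¹) ?_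
  simp only [map_mul, map_inv, s4a, s4c, s4d]
  group

private lemma comm₂ : IsSimple (a₂ * b₂ * a₂⁻¹ * b₂⁻¹) := by
  have h1 : IsSimple (twistHom 0 (twistHom 1 (twistHom 2 dl))) :=
    simple_t 0 (simple_t 1 (simple_t 2 simple_dl))
  have h2 := simple_t 1 (simple_t 2 (simple_t 3 h1))
  have h3 := simple_t 2 (simple_t 3 (simple_t 4 h2))
  refine of_eq' h3 ?_
  unfold dl
  simp only [map_mul, map_inv, t0a, t0b, t0c, t0d, t1a, t1b, t1c, t1d, t2a, t2b, t2c, t2d,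
    t3a, t3b, t3c, t3d, t4a, t4b, t4c, t4d]
  group

private lemma comm₂i : IsSimple (a₂ * b₂ * a₂⁻¹ * b₂⁻¹)⁻¹ := by
  refine of_eq' simple_dl ?_
  have h : a₁ * b₁ * a₁⁻¹ * b₁⁻¹ * (a₂ * b₂ * a₂⁻¹ * b₂⁻¹) = 1 := surf_rel
  exact eq_inv_of_mul_eq_one_left h

lemma simple_tenWords₂ : ∀ γ ∈ tenWords a₂ b₂, IsSimple γ := by
  intro γ hγ
  unfold tenWords at hγ
  simp only [Set.mem_insert_iff, Set.mem_singleton_iff] at hγ
  rcases hγ with rfl | rfl | rfl | rfl | rfl | rfl | rfl | rfl | rfl | rfl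
  · exact simple_a₂
  · exact simple_a₂i
  · exact simple_b₂
  · exact simple_b₂i
  · exact simple_a₂b₂
  · exact simple_a₂b₂i
  · exact simple_a₂bi
  · exact simple_a₂bii
  · exact comm₂
  · exact comm₂i

end Pool.Agent.LibHit3
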