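import Pool.Agent.LibHit3.B_Simple

set_option autoImplicit false
set_option linter.unusedSimpArgs false

noncomputable section

namespace Pool.Agent.LibHit3

open Pool.Agent.LibHyperelliptic

private lemma of_eqC {γ γ' : Surf} (h : IsSimple γ) (e : γ = γ') : IsSimple γ' := e ▸ h

/-- `(T₁ T₂)³`. -/
private def w3 : MulAut Surf := twist 0 * twist 1 * (twist 0 * twist 1) * (twist 0 * twist 1)

private lemma w3_apply (x : Surf) : w3 x =
    twistHom 0 (twistHom 1 (twistHom 0 (twistHom 1 (twistHom 0 (twistHom 1 x))))) := rfl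

private lemma w3a : w3 a₁ = a₁ * b₁ * a₁⁻¹ * b₁⁻¹ * a₁⁻¹ := by
  rw [w3_apply]
  simp only [map_mul, map_inv, t0a, t0b, t1a, t1b]
  group

private lemma w3b : w3 b₁ = a₁ * b₁⁻¹ * a₁⁻¹ := by
  rw [w3_apply]
  simp only [map_mul, map_inv, t0a, t0b, t1a, t1b]
  group

private lemma w3c : w3 a₂ = a₂ := by
  rw [w3_apply]
  simp only [t0c, t1c]

private lemma w3d : w3 b₂ = b₂ := by
  rw [w3_apply]
  simp only [t0d, t1d]

private lemma w3_mem : w3 ∈ mcg := by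
  have h := mcg.mul_mem (twist_mem 0) (twist_mem 1)
  exact mcg.mul_mem (mcg.mul_mem h h) h

/-- The Dehn twist along `[a₁, b₁]`. -/
lemma exists_psi : ∃ φ ∈ mcg, φ a₁ = a₁ ∧ φ b₁ = b₁ ∧ φ a₂ = dl * a₂ * dl⁻¹ ∧
    φ b₂ = dl * b₂ * dl⁻¹ := by
  set ψ : MulAut Surf := MulAut.conj dl⁻¹ * (w3 * w3) with hψ
  have hmem : ψ ∈ mcg := mcg.mul_mem (conj_mem _) (mcg.mul_mem w3_mem w3_mem)
  have hψa : ψ a₁ = a₁ := by
    rw [hψ, MulAut.mul_apply, MulAut.mul_apply, w3a, MulAut.conj_apply]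
    simp only [map_mul, map_inv, w3a, w3b]
    unfold dl
    group
  have hψb : ψ b₁ = b₁ := by
    rw [hψ, MulAut.mul_apply, MulAut.mul_apply, w3b, MulAut.conj_apply]
    simp only [map_mul, map_inv, w3a, w3b]
    unfold dl
    group
  have hψd : ψ dl = dl := by
    have : ψ dl = ψ a₁ * ψ b₁ * (ψ a₁)⁻¹ * (ψ b₁)⁻¹ := by
      unfold dl
      simp only [map_mul, map_inv]
    rw [this, hψa, hψb]
    rfl
  have hψc : ψ a₂ = dl⁻¹ * a₂ * dl := by
    rw [hψ, MulAut.mul_apply, MulAut.mul_apply, w3c, w3c, MulAut.conj_apply, inv_inv]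
  have hψe : ψ b₂ = dl⁻¹ * b₂ * dl := by
    rw [hψ, MulAut.mul_apply, MulAut.mul_apply, w3d, w3d, MulAut.conj_apply, inv_inv]
  refine ⟨ψ⁻¹, mcg.inv_mem hmem, ?_, ?_, ?_, ?_⟩
  · apply ψ.injective
    rw [MulAut.apply_inv_self, hψa]
  · apply ψ.injective
    rw [MulAut.apply_inv_self, hψb]
  · apply ψ.injective
    rw [MulAut.apply_inv_self, map_mul, map_mul, map_inv, hψd, hψc]
    group
  · apply ψ.injective
    rw [MulAut.apply_inv_self, map_mul, map_mul, map_inv, hψd, hψe]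
    group

private lemma fix_dl {φ : MulAut Surf} (h1 : φ a₁ = a₁) (h2 : φ b₁ = b₁) : φ dl = dl := by
  have : φ dl = φ a₁ * φ b₁ * (φ a₁)⁻¹ * (φ b₁)⁻¹ := by
    unfold dl
    simp only [map_mul, map_inv]
  rw [this, h1, h2]
  rfl

lemma simple_N (k : ℕ) : IsSimple (b₁⁻¹ * (dl ^ k * b₂⁻¹ * (dl ^ k)⁻¹)) := by
  obtain ⟨φ, hφ, h1, h2, _, h4⟩ := exists_psi
  have h5 := fix_dl h1 h2
  induction k with
  | zero =>
    refine of_eqC (simple_conj (simple_s 0 (simple_s 0 (simple_t 2 (simple_s 1 simple_a₁)))) a₁) ?_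
    simp only [map_mul, map_inv, s0a, s0b, s0d, s1a, t2a, t2b]
    group
  | succ k ih =>
    refine of_eqC (simple_map ih hφ) ?_
    simp only [map_mul, map_inv, map_pow, h1, h2, h4, h5]
    group

lemma simple_S (k : ℕ) : IsSimple (b₁⁻¹ * (dl ^ k * b₂⁻¹ * (dl ^ k)⁻¹) * (a₁ * b₁ * a₁⁻¹) *
    (dl ^ k * b₂ * (dl ^ k)⁻¹)) := by
  obtain ⟨φ, hφ, h1, h2, _, h4⟩ := exists_psi
  have h5 := fix_dl h1 h2
  induction k with
  | zero =>
    refine of_eqC (simple_conj (simple_t 0 (simple_t 1 (simple_t 2 simple_dl))) b₂⁻¹) ?_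
    unfold dl
    simp only [map_mul, map_inv, t0a, t0b, t0d, t1a, t1b, t1d, t2a, t2b, t2d]
    group
  | succ k ih =>
    refine of_eqC (simple_map ih hφ) ?_
    simp only [map_mul, map_inv, map_pow, h1, h2, h4, h5]
    group

end Pool.Agent.LibHit3
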