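import Pool.Agent.LibHit3.B_Defs

set_option autoImplicit false

noncomputable section

open Matrix
open scoped MatrixGroups

namespace Pool.Agent.LibHit3

open Pool.Agent.LibHyperelliptic

private lemma mul_inv_B_Sum (M : SL3) : M.1 * (M⁻¹).1 = 1 :=
  congrArg Subtype.val (mul_inv_cancel M)

private lemma inv_mul_B_Sum (M : SL3) : (M⁻¹).1 * M.1 = 1 :=
  congrArg Subtype.val (inv_mul_cancel M)

private lemma ad_mul_B_Sum (M : SL3) (X : M3) : adSL M X * M.1 = M.1 * X := by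
  rw [adSL_apply]
  show M.1 * X * (M⁻¹).1 * M.1 = M.1 * X
  rw [Matrix.mul_assoc, inv_mul_B_Sum, Matrix.mul_one]

private lemma var_B_Sum (r : Surf →* SL3) (u : Coch 3) (hu : IsCocycle (aR r) u) (s t : Surf) :
    u (s * t) * (r (s * t)).1 =
      u s * (r s).1 * (r t).1 + (r s).1 * (u t * (r t).1) := by
  have h1 : (r (s * t)).1 = (r s).1 * (r t).1 := by
    rw [map_mul]
    rfl
  rw [hu.2 s t, h1, Matrix.add_mul, ← Matrix.mul_assoc, ← Matrix.mul_assoc]
  show u s * (r s).1 * (r t).1 + adSL (r s) (u t) * (r s).1 * (r t).1 = _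
  rw [ad_mul_B_Sum, Matrix.mul_assoc (r s).1 (u t) (r t).1]

private lemma cob_B_Sum (r : Surf →* SL3) (Y : M3) (t : Surf) (v : M3)
    (ht : v = Y - adSL (r t) Y) : v * (r t).1 = Y * (r t).1 - (r t).1 * Y := by
  rw [ht, Matrix.sub_mul, ad_mul_B_Sum]

/-- The first order variation of the trace of `s * t`, where `s` is fixed and `t` is
conjugated. -/
lemma trace_two (r : Surf →* SL3) (u : Coch 3) (hu : IsCocycle (aR r) u) (Y : M3)
    (s t : Surf) (hs : u s = 0) (ht : u t = Y - adSL (r t) Y) :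
    (u (s * t) * (r (s * t)).1).trace =
      ((r s).1 * (Y * (r t).1 - (r t).1 * Y)).trace := by
  rw [var_B_Sum r u hu, hs, Matrix.zero_mul, Matrix.zero_mul, zero_add,
    cob_B_Sum r Y t (u t) ht]

/-- The first order variation of the trace of `s * t * s' * t'`, where `s, s'` are fixed and
`t, t'` are conjugated. -/
lemma trace_four (r : Surf →* SL3) (u : Coch 3) (hu : IsCocycle (aR r) u) (Y : M3)
    (s t s' t' : Surf) (hs : u s = 0) (ht : u t = Y - adSL (r t) Y)
    (hs' : u s' = 0) (ht' : u t' = Y - adSL (r t') Y) :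
    (u (s * t * s' * t') * (r (s * t * s' * t')).1).trace =
      ((r s).1 * (Y * (r t).1 - (r t).1 * Y) * (r s').1 * (r t').1).trace +
      ((r s).1 * (r t).1 * (r s').1 * (Y * (r t').1 - (r t').1 * Y)).trace := by
  have h1 : (r (s * t * s')).1 = (r s).1 * (r t).1 * (r s').1 := by
    rw [map_mul, map_mul]
    rfl
  rw [var_B_Sum r u hu (s * t * s') t', var_B_Sum r u hu (s * t) s', var_B_Sum r u hu s t,
    hs, hs', h1, cob_B_Sum r Y t (u t) ht, cob_B_Sum r Y t' (u t') ht', Matrix.trace_add,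
    Matrix.zero_mul, Matrix.zero_mul, Matrix.zero_mul, Matrix.mul_zero, add_zero, zero_add]

/-- `D ^ k * b * D ^ (-k)` for a diagonal matrix `D`. -/
lemma conj_diag (D b : SL3) (l : Fin 3 → ℝ) (hl : ∀ i, 0 < l i)
    (hD : D.1 = Matrix.diagonal l) (k : ℕ) (i j : Fin 3) :
    (D ^ k * b * (D ^ k)⁻¹).1 i j = b.1 i j * (l i / l j) ^ k := by
  have hk : (D ^ k).1 = Matrix.diagonal (fun i => l i ^ k) := by
    rw [Matrix.SpecialLinearGroup.coe_pow, hD, Matrix.diagonal_pow]
    rfl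
  have hinv : ((D ^ k)⁻¹).1 = Matrix.diagonal (fun i => (l i ^ k)⁻¹) := by
    have h1 := inv_mul_B_Sum (D ^ k)
    have h2 : (D ^ k).1 * Matrix.diagonal (fun i => (l i ^ k)⁻¹) = 1 := by
      rw [hk, Matrix.diagonal_mul_diagonal]
      rw [← Matrix.diagonal_one]
      congr 1
      funext i
      exact mul_inv_cancel₀ (pow_ne_zero _ (hl i).ne')
    calc ((D ^ k)⁻¹).1 = ((D ^ k)⁻¹).1 * ((D ^ k).1 * Matrix.diagonal (fun i => (l i ^ k)⁻¹)) := by
          rw [h2, Matrix.mul_one]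
      _ = _ := by rw [← Matrix.mul_assoc, h1, Matrix.one_mul]
  have h3 : (D ^ k * b * (D ^ k)⁻¹).1 = (D ^ k).1 * b.1 * ((D ^ k)⁻¹).1 := rfl
  rw [h3, hk, hinv, Matrix.mul_diagonal, Matrix.diagonal_mul, div_pow]
  ring

private lemma comm_B_Sum (t : M3) (ξ : Fin 3 → ℝ) (i j : Fin 3) :
    (Matrix.diagonal ξ * t - t * Matrix.diagonal ξ) i j = t i j * (ξ i - ξ j) := by
  rw [Matrix.sub_apply, Matrix.diagonal_mul, Matrix.mul_diagonal]
  ring

lemma sum_two (a t : M3) (ξ : Fin 3 → ℝ) :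
    (a * (Matrix.diagonal ξ * t - t * Matrix.diagonal ξ)).trace =
      ∑ i, ∑ j, a j i * t i j * (ξ i - ξ j) := by
  have h1 : ∀ W : M3, (a * W).trace = ∑ i, ∑ j, a j i * W i j := by
    intro W
    rw [Finset.sum_comm]
    rfl
  rw [h1]
  refine Finset.sum_congr rfl fun i _ => Finset.sum_congr rfl fun j _ => ?_
  rw [comm_B_Sum]
  ring

private lemma trace_mul4_B_Sum (A B C D : M3) : (A * B * C * D).trace =
    ∑ i, ∑ j, ∑ p, ∑ q, A i j * B j p * C p q * D q i := by
  have h1 : (A * B * C * D).trace =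
      ∑ i, ∑ q, (∑ p, (∑ j, A i j * B j p) * C p q) * D q i := rfl
  rw [h1]
  refine Finset.sum_congr rfl fun i _ => ?_
  simp only [Finset.sum_mul]
  rw [Finset.sum_comm]
  rw [Finset.sum_comm (f := fun j p => ∑ q, A i j * B j p * C p q * D q i)]
  refine Finset.sum_congr rfl fun p _ => ?_
  rw [Finset.sum_comm]

lemma sum_four (a t a' t' : M3) (ξ : Fin 3 → ℝ) :
    (a * (Matrix.diagonal ξ * t - t * Matrix.diagonal ξ) * a' * t').trace +
      (a * t * a' * (Matrix.diagonal ξ * t' - t' * Matrix.diagonal ξ)).trace =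
      ∑ i, ∑ j, ∑ p, ∑ q, a i j * t j p * a' p q * t' q i * (ξ j - ξ p + ξ q - ξ i) := by
  rw [trace_mul4_B_Sum, trace_mul4_B_Sum]
  simp only [← Finset.sum_add_distrib]
  refine Finset.sum_congr rfl fun i _ => Finset.sum_congr rfl fun j _ =>
    Finset.sum_congr rfl fun p _ => Finset.sum_congr rfl fun q _ => ?_
  rw [comm_B_Sum, comm_B_Sum]
  ring

end Pool.Agent.LibHit3
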