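import Pool.Agent.LibHit3.B_CoefN
import Pool.Agent.LibHit3.B_CoefS
import Pool.Agent.LibHit3.B_NoE3
import Pool.Agent.LibHit3.B_Sum
import Pool.Agent.LibHit3.B_SimpleC
import Pool.Agent.LibHit3.B_SimpleB
import Pool.Agent.LibHit3.B_SimpleA
import Pool.Agent.LibHit3.B_Cob

set_option autoImplicit false

noncomputable section

open Matrix
open scoped MatrixGroups

namespace Pool.Agent.LibHit3

open Pool.Agent.LibHyperelliptic

section
variable {r : Surf →* SL3} {l : Fin 3 → ℝ} (h : ReadyB r l)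
include h

lemma ReadyB.pos (i : Fin 3) : 0 < l i := by
  have h0 := h.l01
  have h1 := h.l12
  have h2 := h.l2
  fin_cases i
  · change 0 < l 0; linarith
  · change 0 < l 1; linarith
  · exact h2

lemma ReadyB.det : l 0 * l 1 * l 2 = 1 := by
  have h1 : (r dl).1.det = 1 := (r dl).2
  rw [h.diag, Matrix.det_diagonal, Fin.prod_univ_three] at h1
  exact h1

lemma ReadyB.inj : Function.Injective l := by
  have h0 := h.l01
  have h1 := h.l12
  intro i j hij
  fin_cases i <;> fin_cases j <;> simp_all <;> linarith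

/-- The twisting parameter vanishes. -/
theorem twist_zero (u : Coch 3) (hu : IsCocycle (aR r) u) (hk : Killed r u)
    (h1 : ∀ γ ∈ Subgroup.closure {a₁, b₁}, u γ = 0) (ξ : Fin 3 → ℝ)
    (h2 : ∀ γ ∈ Subgroup.closure {a₂, b₂},
      u γ = Matrix.diagonal ξ - adSL (r γ) (Matrix.diagonal ξ)) :
    ξ 1 = ξ 0 ∧ ξ 2 = ξ 0 := by
  by_contra hne
  have hpos := h.pos
  have hdet := h.det
  -- the relation
  have hrel : a₂ * b₂ * a₂⁻¹ * b₂⁻¹ = dl⁻¹ := by
    have := surf_rel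
    unfold SurfRel at this
    exact (inv_eq_of_mul_eq_one_right this).symm
  have ma₁ : a₁ ∈ Subgroup.closure ({a₁, b₁} : Set Surf) := Subgroup.subset_closure (by simp)
  have mb₁ : b₁ ∈ Subgroup.closure ({a₁, b₁} : Set Surf) := Subgroup.subset_closure (by simp)
  have ma₂ : a₂ ∈ Subgroup.closure ({a₂, b₂} : Set Surf) := Subgroup.subset_closure (by simp)
  have mb₂ : b₂ ∈ Subgroup.closure ({a₂, b₂} : Set Surf) := Subgroup.subset_closure (by simp)
  have hdl2 : dl ∈ Subgroup.closure ({a₂, b₂} : Set Surf) := by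
    have e3 := mul_mem (mul_mem (mul_mem ma₂ mb₂) (inv_mem ma₂)) (inv_mem mb₂)
    rw [hrel] at e3
    exact (Subgroup.inv_mem_iff _).1 e3
  have mt : ∀ k : ℕ, dl ^ k * b₂⁻¹ * (dl ^ k)⁻¹ ∈ Subgroup.closure ({a₂, b₂} : Set Surf) :=
    fun k => mul_mem (mul_mem (pow_mem hdl2 k) (inv_mem mb₂)) (inv_mem (pow_mem hdl2 k))
  have mt' : ∀ k : ℕ, dl ^ k * b₂ * (dl ^ k)⁻¹ ∈ Subgroup.closure ({a₂, b₂} : Set Surf) :=
    fun k => mul_mem (mul_mem (pow_mem hdl2 k) mb₂) (inv_mem (pow_mem hdl2 k))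
  have ms' : a₁ * b₁ * a₁⁻¹ ∈ Subgroup.closure ({a₁, b₁} : Set Surf) :=
    mul_mem (mul_mem ma₁ mb₁) (inv_mem ma₁)
  have rt : ∀ (k : ℕ) (i j : Fin 3), (r (dl ^ k * b₂⁻¹ * (dl ^ k)⁻¹)).1 i j =
      (r b₂⁻¹).1 i j * (l i / l j) ^ k := by
    intro k i j
    have := conj_diag (r dl) (r b₂⁻¹) l hpos h.diag k i j
    rw [← this]
    simp only [map_mul, map_pow, map_inv]
  have rt' : ∀ (k : ℕ) (i j : Fin 3), (r (dl ^ k * b₂ * (dl ^ k)⁻¹)).1 i j =
      (r b₂).1 i j * (l i / l j) ^ k := by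
    intro k i j
    have := conj_diag (r dl) (r b₂) l hpos h.diag k i j
    rw [← this]
    simp only [map_mul, map_pow, map_inv]
  -- the first family
  have hN : ∀ k : ℕ, ∑ i, ∑ j, (r b₁⁻¹).1 j i * (r b₂⁻¹).1 i j * (ξ i - ξ j) *
      (l i / l j) ^ k = 0 := by
    intro k
    have e1 := hk _ (simple_N k)
    rw [trace_two r u hu (Matrix.diagonal ξ) b₁⁻¹ _ (h1 _ (inv_mem mb₁)) (h2 _ (mt k)),
      sum_two] at e1
    rw [← e1]
    refine Finset.sum_congr rfl fun i _ => Finset.sum_congr rfl fun j _ => ?_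
    rw [rt]
    ring
  obtain ⟨hξ2, hξ1, ⟨μ, hμ, hl⟩, hNN⟩ := coefN l ξ h.l01 h.l12 h.l2 hdet (r b₁⁻¹).1 (r b₂⁻¹).1
    h.colb' h.rowd' hN hne
  -- the second family
  have hS : ∀ k : ℕ, ∑ i, ∑ j, ∑ p, ∑ q, (r b₁⁻¹).1 i j * (r b₂⁻¹).1 j p *
      (r (a₁ * b₁ * a₁⁻¹)).1 p q * (r b₂).1 q i *
      (ξ j - ξ p + ξ q - ξ i) * (l j * l q / (l p * l i)) ^ k = 0 := by
    intro k
    have e1 := hk _ (simple_S k)
    rw [trace_four r u hu (Matrix.diagonal ξ) b₁⁻¹ _ (a₁ * b₁ * a₁⁻¹) _ (h1 _ (inv_mem mb₁))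
      (h2 _ (mt k)) (h1 _ ms') (h2 _ (mt' k)), sum_four] at e1
    rw [← e1]
    refine Finset.sum_congr rfl fun i _ => Finset.sum_congr rfl fun j _ =>
      Finset.sum_congr rfl fun p _ => Finset.sum_congr rfl fun q _ => ?_
    rw [rt, rt']
    have e2 : (l j * l q / (l p * l i)) ^ k = (l j / l p) ^ k * (l q / l i) ^ k := by
      rw [← mul_pow]
      congr 1
      have := (hpos p).ne'
      have := (hpos i).ne'
      field_simp
    rw [e2]
    ring
  have hE := coefS μ hμ l hl ξ hξ2 hξ1 _ _ _ _ hS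
  -- the final contradiction
  have hconj : a₁ * b₁ * a₁⁻¹ = dl * b₁ := by unfold dl; group
  have hconj2 : a₂ * b₂ * a₂⁻¹ = dl⁻¹ * b₂ := by rw [← hrel]; group
  have htc : ∀ x g : Surf, (r (g * x * g⁻¹)).1.trace = (r x).1.trace := by
    intro x g
    rw [map_mul, map_mul, map_inv]
    have e1 : ((r g)⁻¹).1 * (r g).1 = 1 := congrArg Subtype.val (inv_mul_cancel (r g))
    change ((r g).1 * (r x).1 * ((r g)⁻¹).1).trace = _
    rw [Matrix.trace_mul_comm, ← Matrix.mul_assoc, e1, Matrix.one_mul]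
  have hD : (r dl).1 = Matrix.diagonal ![μ, 1, μ⁻¹] := by rw [h.diag, hl]
  have hμ0 : μ ≠ 0 := by positivity
  have hDi : (r dl⁻¹).1 = Matrix.diagonal ![μ⁻¹, 1, μ] := by
    rw [map_inv]
    have e1 : (r dl).1 * ((r dl)⁻¹).1 = 1 := congrArg Subtype.val (mul_inv_cancel (r dl))
    have e2 : (Matrix.diagonal ![μ⁻¹, 1, μ] : M3) * (r dl).1 = 1 := by
      rw [hD, Matrix.diagonal_mul_diagonal, ← Matrix.diagonal_one]
      congr 1
      funext i
      fin_cases i
      · exact inv_mul_cancel₀ hμ0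
      · exact mul_one _
      · exact mul_inv_cancel₀ hμ0
    calc ((r dl)⁻¹).1 = ((Matrix.diagonal ![μ⁻¹, 1, μ] : M3) * (r dl).1) * ((r dl)⁻¹).1 := by
          rw [e2, Matrix.one_mul]
      _ = _ := by rw [Matrix.mul_assoc, e1, Matrix.mul_one]
  have ebi : (r b₁⁻¹)⁻¹ = r b₁ := by rw [map_inv, inv_inv]
  have ebi2 : (r b₂⁻¹)⁻¹ = r b₂ := by rw [map_inv, inv_inv]
  have hmul : ∀ x y : Surf, (r x).1 * (r y).1 = (r (x * y)).1 := by
    intro x y; rw [map_mul]; rfl
  have l1 : l 1 = 1 := by rw [hl]; rfl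
  have l2' : l 2 = μ⁻¹ := by rw [hl]; rfl
  refine noE3 μ hμ (r b₁⁻¹) (r b₂⁻¹) h.colb' (by rw [ebi]; exact h.colb) h.rowd'
    (by rw [ebi2]; exact h.rowd) (by rw [ebi]; exact h.alpha) ?_ ?_ ?_ ?_ ?_ hNN
    (r (a₁ * b₁ * a₁⁻¹)).1 (r b₂).1 ?_ ?_ hE
  · have := h.beta
    rw [l1, l2'] at this
    rw [ebi]; exact this
  · rw [← hDi, hmul]
    have e : b₁⁻¹ * dl⁻¹ = a₁ * b₁⁻¹ * a₁⁻¹ := by
      calc b₁⁻¹ * dl⁻¹ = (dl * b₁)⁻¹ := by group
        _ = a₁ * b₁⁻¹ * a₁⁻¹ := by rw [← hconj]; group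
    rw [e, htc]
  · rw [← hD, ebi, hmul, ← hconj, htc]
  · rw [← hD, hmul]
    have e : b₂⁻¹ * dl = a₂ * b₂⁻¹ * a₂⁻¹ := by
      calc b₂⁻¹ * dl = (dl⁻¹ * b₂)⁻¹ := by group
        _ = a₂ * b₂⁻¹ * a₂⁻¹ := by rw [← hconj2]; group
    rw [e, htc]
  · rw [← hDi, ebi2, hmul, ← hconj2, htc]
  · rw [← hD, ebi, hmul, ← hconj]
  · rw [ebi2]

end

/-- The coboundary of `X`. -/
def cbd (r : Surf →* SL3) (X : M3) : Coch 3 := fun γ => X - adSL (r γ) X

lemma trace_adSL (M : SL3) (X : M3) : (adSL M X).trace = X.trace := by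
  have h1 : (M⁻¹).1 * M.1 = 1 := congrArg Subtype.val (inv_mul_cancel M)
  rw [adSL_apply, Matrix.trace_mul_comm, ← Matrix.mul_assoc, h1, Matrix.one_mul]

lemma cbd_coc (r : Surf →* SL3) (X : M3) : IsCocycle (aR r) (cbd r X) := by
  refine ⟨fun γ => ?_, fun γ η => ?_⟩
  · change (X - adSL (r γ) X).trace = 0
    rw [Matrix.trace_sub, trace_adSL, sub_self]
  · change X - adSL (r (γ * η)) X = X - adSL (r γ) X + adSL (r γ) (X - adSL (r η) X)
    rw [map_mul, adSL_mul, map_sub]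
    abel

lemma cbd_killed (r : Surf →* SL3) (X : M3) (γ : Surf) :
    (cbd r X γ * (r γ).1).trace = 0 := by
  have h1 : ((r γ)⁻¹).1 * (r γ).1 = 1 := congrArg Subtype.val (inv_mul_cancel (r γ))
  change ((X - adSL (r γ) X) * (r γ).1).trace = 0
  rw [adSL_apply, Matrix.sub_mul, Matrix.mul_assoc _ _ (r γ).1, h1, Matrix.mul_one,
    Matrix.trace_sub, Matrix.trace_mul_comm X, sub_self]

lemma cocycle_zero' {u : Coch 3} {r : Surf →* SL3} (hu : IsCocycle (aR r) u)
    (h1 : u a₁ = 0) (h2 : u b₁ = 0) (h3 : u a₂ = 0) (h4 : u b₂ = 0) (γ : Surf) : u γ = 0 := by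
  have hone : u 1 = 0 := by
    have h := hu.2 1 1
    have h5 : aR r 1 (u 1) = u 1 := by
      change adSL (r 1) (u 1) = u 1
      rw [map_one, adSL_apply]; simp
    rw [mul_one, h5] at h
    exact left_eq_add.1 h
  let H : Subgroup Surf :=
    { carrier := {γ | u γ = 0}
      one_mem' := hone
      mul_mem' := fun {γ η} hγ hη => by
        change u (γ * η) = 0
        have e1 : u γ = 0 := hγ
        have e2 : u η = 0 := hη
        rw [hu.2, e1, e2, map_zero, add_zero]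
      inv_mem' := fun {γ} hγ => by
        change u γ⁻¹ = 0
        have e1 : u γ = 0 := hγ
        have := hu.2 γ⁻¹ γ
        rw [inv_mul_cancel, hone, e1, map_zero, add_zero] at this
        exact this.symm }
  exact surf_induction H h1 h2 h3 h4 γ

variable {r : Surf →* SL3} {l : Fin 3 → ℝ}

/-- A cocycle killed by the differentials of the traces of all simple curves is a
coboundary. -/
theorem cobound_of_ready (h : ReadyB r l) (u : Coch 3) (hu : IsCocycle (aR r) u)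
    (hk : Killed r u) : IsCobound (aR r) u := by
  have hpos := h.pos
  have hinj := h.inj
  -- the relation
  have hrel : a₂ * b₂ * a₂⁻¹ * b₂⁻¹ = dl⁻¹ := by
    have := surf_rel
    unfold SurfRel at this
    exact (inv_eq_of_mul_eq_one_right this).symm
  have hdl1 : dl ∈ Subgroup.closure ({a₁, b₁} : Set Surf) := by
    have e1 : a₁ ∈ Subgroup.closure ({a₁, b₁} : Set Surf) := Subgroup.subset_closure (by simp)
    have e2 : b₁ ∈ Subgroup.closure ({a₁, b₁} : Set Surf) := Subgroup.subset_closure (by simp)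
    exact mul_mem (mul_mem (mul_mem e1 e2) (inv_mem e1)) (inv_mem e2)
  have hdl2 : dl ∈ Subgroup.closure ({a₂, b₂} : Set Surf) := by
    have e1 : a₂ ∈ Subgroup.closure ({a₂, b₂} : Set Surf) := Subgroup.subset_closure (by simp)
    have e2 : b₂ ∈ Subgroup.closure ({a₂, b₂} : Set Surf) := Subgroup.subset_closure (by simp)
    have e3 := mul_mem (mul_mem (mul_mem e1 e2) (inv_mem e1)) (inv_mem e2)
    rw [hrel] at e3
    exact (Subgroup.inv_mem_iff _).1 e3
  -- the two handles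
  have hy1 : ∀ i j, (r b₁).1 i j ≠ 0 := by
    intro i j hz
    have := h.colb i j
    rw [hz, mul_zero] at this
    exact lt_irrefl _ this
  have hy2 : ∀ i j, (r b₂).1 i j ≠ 0 := by
    intro i j hz
    have := h.rowd i j
    rw [hz, mul_zero] at this
    exact lt_irrefl _ this
  obtain ⟨X1, hX1⟩ := cob_closure r u hu a₁ b₁ (fun γ hγ => hk γ (simple_tenWords₁ γ hγ)) l hinj
    h.diag hy1
  have hdiag2 : (r (a₂ * b₂ * a₂⁻¹ * b₂⁻¹)).1 = Matrix.diagonal fun i => (l i)⁻¹ := by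
    rw [hrel, map_inv]
    have e1 : (r dl).1 * ((r dl)⁻¹).1 = 1 := congrArg Subtype.val (mul_inv_cancel (r dl))
    have e2 : (Matrix.diagonal fun i => (l i)⁻¹) * (r dl).1 = 1 := by
      rw [h.diag, Matrix.diagonal_mul_diagonal, ← Matrix.diagonal_one]
      congr 1
      funext i
      exact inv_mul_cancel₀ (hpos i).ne'
    calc ((r dl)⁻¹).1 = ((Matrix.diagonal fun i => (l i)⁻¹) * (r dl).1) * ((r dl)⁻¹).1 := by
          rw [e2, Matrix.one_mul]
      _ = _ := by rw [Matrix.mul_assoc, e1, Matrix.mul_one]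
  obtain ⟨X2, hX2⟩ := cob_closure r u hu a₂ b₂ (fun γ hγ => hk γ (simple_tenWords₂ γ hγ))
    (fun i => (l i)⁻¹) (fun i j hij => hinj (inv_injective hij)) hdiag2 hy2
  -- the difference is diagonal
  set Y : M3 := X2 - X1 with hY
  have hYc : Y = adSL (r dl) Y := by
    have e1 := hX1 dl hdl1
    have e2 := hX2 dl hdl2
    rw [e1] at e2
    rw [hY, map_sub]
    have : X2 - X1 = adSL (r dl) X2 - adSL (r dl) X1 := by
      have e3 : X1 - adSL (r dl) X1 - (X2 - adSL (r dl) X2) = 0 := by rw [e2, sub_self]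
      have e4 : X2 - X1 - (adSL (r dl) X2 - adSL (r dl) X1) =
          -(X1 - adSL (r dl) X1 - (X2 - adSL (r dl) X2)) := by abel
      rw [← sub_eq_zero, e4, e3, neg_zero]
    exact this
  have hYD : Y * (r dl).1 = (r dl).1 * Y := by
    have e1 : ((r dl)⁻¹).1 * (r dl).1 = 1 := congrArg Subtype.val (inv_mul_cancel (r dl))
    conv_lhs => rw [hYc, adSL_apply, Matrix.mul_assoc, e1, Matrix.mul_one]
  have hYdiag : Y = Matrix.diagonal fun i => Y i i := by
    ext i j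
    by_cases hij : i = j
    · subst hij; rw [Matrix.diagonal_apply_eq]
    · rw [Matrix.diagonal_apply_ne _ hij]
      have e1 := congrFun (congrFun hYD i) j
      rw [h.diag, Matrix.mul_diagonal, Matrix.diagonal_mul] at e1
      have e2 : (l j - l i) * Y i j = 0 := by linear_combination e1
      exact (mul_eq_zero.1 e2).resolve_left (sub_ne_zero.2 fun e => hij (hinj e.symm))
  -- subtract the coboundary of `X1`
  set v : Coch 3 := fun γ => u γ - cbd r X1 γ with hv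
  have hvc : IsCocycle (aR r) v := by
    have := isCocycle_add (aR r) hu (isCocycle_smul (aR r) (-1) (cbd_coc r X1))
    have e : u + (-1 : ℝ) • cbd r X1 = v := by
      funext γ
      change u γ + (-1 : ℝ) • cbd r X1 γ = u γ - cbd r X1 γ
      rw [neg_one_smul, sub_eq_add_neg]
    rwa [e] at this
  have hvk : Killed r v := by
    intro γ hγ
    change ((u γ - cbd r X1 γ) * (r γ).1).trace = 0
    rw [Matrix.sub_mul, Matrix.trace_sub, hk γ hγ, cbd_killed, sub_self]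
  have hv1 : ∀ γ ∈ Subgroup.closure ({a₁, b₁} : Set Surf), v γ = 0 := by
    intro γ hγ
    change u γ - (X1 - adSL (r γ) X1) = 0
    rw [hX1 γ hγ, sub_self]
  have hv2 : ∀ γ ∈ Subgroup.closure ({a₂, b₂} : Set Surf), v γ = Y - adSL (r γ) Y := by
    intro γ hγ
    change u γ - (X1 - adSL (r γ) X1) = _
    rw [hX2 γ hγ, hY, map_sub]
    abel
  have hξ := twist_zero h v hvc hvk hv1 (fun i => Y i i) (by rw [← hYdiag]; exact hv2)
  have hYs : Y = (Y 0 0) • (1 : M3) := by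
    rw [hYdiag, Matrix.smul_one_eq_diagonal]
    congr 1
    funext i
    fin_cases i
    · rfl
    · exact hξ.1
    · exact hξ.2
  have hscal : ∀ (t : ℝ) (M : SL3), adSL M (t • (1 : M3)) = t • (1 : M3) := by
    intro t M
    have e1 : M.1 * (M⁻¹).1 = 1 := congrArg Subtype.val (mul_inv_cancel M)
    rw [map_smul, adSL_apply, Matrix.mul_one, e1]
  have hv2' : ∀ γ ∈ Subgroup.closure ({a₂, b₂} : Set Surf), v γ = 0 := by
    intro γ hγ
    rw [hv2 γ hγ, hYs, hscal, sub_self]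
  have hv0 : ∀ γ, v γ = 0 := cocycle_zero' hvc
    (hv1 _ (Subgroup.subset_closure (by simp))) (hv1 _ (Subgroup.subset_closure (by simp)))
    (hv2' _ (Subgroup.subset_closure (by simp))) (hv2' _ (Subgroup.subset_closure (by simp)))
  refine ⟨X1 - (X1.trace / 3) • (1 : M3), ?_, fun γ => ?_⟩
  · rw [Matrix.trace_sub, Matrix.trace_smul, Matrix.trace_one, Fintype.card_fin, smul_eq_mul]
    push_cast
    ring
  · have e1 : u γ = X1 - adSL (r γ) X1 := sub_eq_zero.1 (hv0 γ)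
    change u γ = X1 - (X1.trace / 3) • (1 : M3) - adSL (r γ) (X1 - (X1.trace / 3) • (1 : M3))
    rw [map_sub, hscal, e1]
    abel

end Pool.Agent.LibHit3
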