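import Pool.Agent.LibHit3.B_Tr
import Pool.Agent.LibHyperelliptic.CharVar

set_option autoImplicit false

noncomputable section

open Matrix
open scoped MatrixGroups

namespace Pool.Agent.LibHit3

open Pool.Agent.LibHyperelliptic

/-- A cocycle which vanishes on the generators vanishes. -/
lemma cocycle_zero {n : ℕ} {a : Surf → EndMat n} (ha : ∀ X, a 1 X = X) {u : Coch n}
    (hu : IsCocycle a u) (h1 : u a₁ = 0) (h2 : u b₁ = 0) (h3 : u a₂ = 0) (h4 : u b₂ = 0)
    (γ : Surf) : u γ = 0 := by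
  have hone : u 1 = 0 := by
    have := hu.2 1 1
    rw [mul_one, ha] at this
    exact left_eq_add.1 this
  let H : Subgroup Surf :=
    { carrier := {γ | u γ = 0}
      one_mem' := hone
      mul_mem' := fun {γ η} hγ hη => by
        change u (γ * η) = 0
        have e1 : u γ = 0 := hγ
        have e2 : u η = 0 := hη
        rw [hu.2, e1, e2, map_zero, add_zero]
      inv_mem' := fun {γ} hγ => by
        change u γ⁻¹ = 0
        have e1 : u γ = 0 := hγ
        have := hu.2 γ⁻¹ γ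
        rw [inv_mul_cancel, hone, e1, map_zero, add_zero] at this
        exact this.symm }
  exact surf_induction H h1 h2 h3 h4 γ

/-- The first cohomology group is finite dimensional. -/
theorem finite_H1 {n : ℕ} (a : Surf → EndMat n) (ha : ∀ X, a 1 X = X) :
    Module.Finite ℝ (H1 a) := by
  let f : Z1 a →ₗ[ℝ] (Fin 4 → Matrix (Fin n) (Fin n) ℝ) :=
    { toFun := fun u => ![u.1 a₁, u.1 b₁, u.1 a₂, u.1 b₂]
      map_add' := fun u v => by
        ext i; fin_cases i <;> rfl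
      map_smul' := fun t u => by
        ext i; fin_cases i <;> rfl }
  have hf : Function.Injective f := by
    rw [← LinearMap.ker_eq_bot, LinearMap.ker_eq_bot']
    intro u hu
    have e1 : u.1 a₁ = 0 := congrFun hu 0
    have e2 : u.1 b₁ = 0 := congrFun hu 1
    have e3 : u.1 a₂ = 0 := congrFun hu 2
    have e4 : u.1 b₂ = 0 := congrFun hu 3
    apply Subtype.ext
    funext γ
    exact cocycle_zero ha u.2 e1 e2 e3 e4 γ
  have : Module.Finite ℝ (Z1 a) := Module.Finite.of_injective f hf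
  exact Module.Finite.quotient ℝ (BZ a)

/-- If every cocycle killed by all the functionals of a set is a coboundary then the set spans
the dual space. -/
theorem span_eq_top_of_killed {n : ℕ} (a : Surf → EndMat n) (ha : ∀ X, a 1 X = X)
    (S : Set (Module.Dual ℝ (H1 a)))
    (h : ∀ u : Z1 a, (∀ φ ∈ S, φ (H1.mk a u) = 0) → IsCobound a u.1) :
    Submodule.span ℝ S = ⊤ := by
  have := finite_H1 a ha
  have h1 : (Submodule.span ℝ S).dualCoannihilator = ⊥ := by
    rw [eq_bot_iff]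
    intro x hx
    obtain ⟨u, rfl⟩ := Submodule.Quotient.mk_surjective (BZ a) x
    have h2 : IsCobound a u.1 := h u fun φ hφ =>
      (Submodule.mem_dualCoannihilator _).1 hx φ (Submodule.subset_span hφ)
    exact (Submodule.mem_bot ℝ).2 ((Submodule.Quotient.mk_eq_zero (BZ a)).2 h2)
  have h2 := Subspace.dualCoannihilator_dualAnnihilator_eq (W := Submodule.span ℝ S)
  rw [← h2, h1, Submodule.dualAnnihilator_bot]

/-- The criterion. -/
theorem spansAt_of_killed (ρ : Surf →* SL3)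
    (h : ∀ u : Coch 3, IsCocycle (aR ρ) u → Killed ρ u → IsCobound (aR ρ) u) :
    SpansAt {trFun} ((toPSL 3).comp ρ) := by
  refine span_eq_top_of_killed (adRep ((toPSL 3).comp ρ)) ?_ _ fun u hu => ?_
  · intro X
    change Ad (toPSL 3 (ρ 1)) X = X
    rw [Ad_toPSL, map_one, adSL_apply]
    simp
  · refine h u.1 u.2 fun γ hγ => ?_
    have h1 := hu (dT trFun γ ((toPSL 3).comp ρ)) ⟨trFun, rfl, γ, hγ, rfl⟩
    have h2 : derivAt trFun (toPSL 3 (ρ γ)) (u.1 γ) = 0 := h1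
    rwa [derivAt_trFun _ _ (u.2.1 γ)] at h2

/-- Conjugation. -/
theorem killed_conj (E : SL3) (ρ : Surf →* SL3)
    (h : ∀ u : Coch 3, IsCocycle (aR (cj E ρ)) u → Killed (cj E ρ) u → IsCobound (aR (cj E ρ)) u)
    (u : Coch 3) (hu : IsCocycle (aR ρ) u) (hk : Killed ρ u) : IsCobound (aR ρ) u := by
  have e1 : (E⁻¹).1 * E.1 = 1 := congrArg Subtype.val (inv_mul_cancel E)
  have e2 : E.1 * (E⁻¹).1 = 1 := congrArg Subtype.val (mul_inv_cancel E)
  have hc : ∀ (M : SL3) (X : M3), adSL (E⁻¹ * M * E) ((E⁻¹).1 * X * E.1) =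
      (E⁻¹).1 * adSL M X * E.1 := by
    intro M X
    rw [adSL_apply, adSL_apply]
    have e3 : ((E⁻¹ * M * E)⁻¹).1 = (E⁻¹).1 * (M⁻¹).1 * E.1 := by
      have : (E⁻¹ * M * E)⁻¹ = E⁻¹ * M⁻¹ * E := by group
      rw [this]; rfl
    rw [e3]
    change (E⁻¹).1 * M.1 * E.1 * ((E⁻¹).1 * X * E.1) * ((E⁻¹).1 * (M⁻¹).1 * E.1) = _
    calc _ = (E⁻¹).1 * M.1 * (E.1 * (E⁻¹).1) * X * (E.1 * (E⁻¹).1) * (M⁻¹).1 * E.1 := by
          noncomm_ring
      _ = _ := by rw [e2]; noncomm_ring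
  have htr : ∀ X : M3, ((E⁻¹).1 * X * E.1).trace = X.trace := by
    intro X
    rw [Matrix.trace_mul_comm, ← Matrix.mul_assoc, e2, Matrix.one_mul]
  have hcoc : IsCocycle (aR (cj E ρ)) fun γ => (E⁻¹).1 * u γ * E.1 := by
    refine ⟨fun γ => ?_, fun γ η => ?_⟩
    · change ((E⁻¹).1 * u γ * E.1).trace = 0
      rw [htr, hu.1]
    · change (E⁻¹).1 * u (γ * η) * E.1 = (E⁻¹).1 * u γ * E.1 +
        adSL (cj E ρ γ) ((E⁻¹).1 * u η * E.1)
      rw [cj_apply, hc, hu.2]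
      noncomm_ring
  have hkil : Killed (cj E ρ) fun γ => (E⁻¹).1 * u γ * E.1 := by
    intro γ hγ
    change ((E⁻¹).1 * u γ * E.1 * (cj E ρ γ).1).trace = 0
    rw [cj_apply]
    change ((E⁻¹).1 * u γ * E.1 * ((E⁻¹).1 * (ρ γ).1 * E.1)).trace = 0
    have h1 : (E⁻¹).1 * u γ * E.1 * ((E⁻¹).1 * (ρ γ).1 * E.1) =
        (E⁻¹).1 * (u γ * (ρ γ).1) * E.1 := by
      calc _ = (E⁻¹).1 * u γ * (E.1 * (E⁻¹).1) * (ρ γ).1 * E.1 := by noncomm_ring
        _ = _ := by rw [e2]; noncomm_ring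
    rw [h1, htr, hk γ hγ]
  obtain ⟨X, hX, hXu⟩ := h (fun γ => (E⁻¹).1 * u γ * E.1) hcoc hkil
  · refine ⟨E.1 * X * (E⁻¹).1, ?_, fun γ => ?_⟩
    · rw [Matrix.trace_mul_comm, ← Matrix.mul_assoc, e1, Matrix.one_mul, hX]
    · have h1 : (E⁻¹).1 * u γ * E.1 = X - adSL (cj E ρ γ) X := hXu γ
      rw [cj_apply] at h1
      have h2 : X = (E⁻¹).1 * (E.1 * X * (E⁻¹).1) * E.1 := by
        calc X = ((E⁻¹).1 * E.1) * X * ((E⁻¹).1 * E.1) := by rw [e1]; simp
          _ = _ := by noncomm_ring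
      have h3 : adSL (E⁻¹ * ρ γ * E) X = (E⁻¹).1 * adSL (ρ γ) (E.1 * X * (E⁻¹).1) * E.1 := by
        conv_lhs => rw [h2]
        exact hc _ _
      calc u γ = E.1 * ((E⁻¹).1 * u γ * E.1) * (E⁻¹).1 := by
            calc u γ = (E.1 * (E⁻¹).1) * u γ * (E.1 * (E⁻¹).1) := by rw [e2]; simp
              _ = _ := by noncomm_ring
        _ = E.1 * (X - (E⁻¹).1 * adSL (ρ γ) (E.1 * X * (E⁻¹).1) * E.1) * (E⁻¹).1 := by
            rw [h1, h3]
        _ = E.1 * X * (E⁻¹).1 -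
              (E.1 * (E⁻¹).1) * adSL (ρ γ) (E.1 * X * (E⁻¹).1) * (E.1 * (E⁻¹).1) := by
            noncomm_ring
        _ = _ := by rw [e2]; simp

end Pool.Agent.LibHit3
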