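import Pool.Agent.LibHit3.B_Core
import Pool.Agent.LibHit3.B_Fin

set_option autoImplicit false

noncomputable section

open Matrix
open scoped MatrixGroups

namespace Pool.Agent.LibHit3

open Pool.Agent.LibHyperelliptic

/-- **Part B.** -/
theorem spansAt_of_ready (ρ : Surf →* SL3) (E : SL3) (l : Fin 3 → ℝ)
    (h : ReadyB (cj E ρ) l) : SpansAt {trFun} ((toPSL 3).comp ρ) :=
  spansAt_of_killed ρ (killed_conj E ρ fun u hu hk => cobound_of_ready h u hu hk)

end Pool.Agent.LibHit3
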