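import Pool.Agent.LibHit3.B_Defs
import Pool.Agent.LibHyperelliptic.Surface

set_option autoImplicit false

noncomputable section

namespace Pool.Agent.LibHit3

open Pool.Agent.LibHyperelliptic

lemma twist_mem (i : Fin 5) : twist i ∈ mcg :=
  Subgroup.subset_closure (Or.inr (isTwist_twist i))

lemma conj_mem (g : Surf) : MulAut.conj g ∈ mcg :=
  Subgroup.subset_closure (Or.inl ⟨g, rfl⟩)

lemma simple_map {γ : Surf} (h : IsSimple γ) {φ : MulAut Surf} (hφ : φ ∈ mcg) :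
    IsSimple (φ γ) := by
  obtain ⟨ψ, hψ, h⟩ := h
  refine ⟨φ * ψ, mcg.mul_mem hφ hψ, ?_⟩
  rcases h with rfl | rfl | rfl
  · exact Or.inl rfl
  · exact Or.inr (Or.inl rfl)
  · exact Or.inr (Or.inr rfl)

lemma simple_conj {γ : Surf} (h : IsSimple γ) (g : Surf) : IsSimple (g * γ * g⁻¹) :=
  simple_map h (conj_mem g)

lemma simple_a₁ : IsSimple a₁ := ⟨1, mcg.one_mem, Or.inr (Or.inl rfl)⟩

lemma simple_dl : IsSimple dl := ⟨1, mcg.one_mem, Or.inr (Or.inr rfl)⟩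

lemma simple_t (i : Fin 5) {γ : Surf} (h : IsSimple γ) : IsSimple (twistHom i γ) :=
  simple_map h (twist_mem i)

lemma simple_s (i : Fin 5) {γ : Surf} (h : IsSimple γ) : IsSimple (twistInvHom i γ) :=
  simple_map h (mcg.inv_mem (twist_mem i))

section
@[simp] lemma t0a : twistHom 0 a₁ = a₁ := by simp [twistHom]
@[simp] lemma t0b : twistHom 0 b₁ = b₁ * a₁⁻¹ := by simp [twistHom]
@[simp] lemma t0c : twistHom 0 a₂ = a₂ := by simp [twistHom]
@[simp] lemma t0d : twistHom 0 b₂ = b₂ := by simp [twistHom]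
@[simp] lemma t1a : twistHom 1 a₁ = a₁ * b₁ := by simp [twistHom]
@[simp] lemma t1b : twistHom 1 b₁ = b₁ := by simp [twistHom]
@[simp] lemma t1c : twistHom 1 a₂ = a₂ := by simp [twistHom]
@[simp] lemma t1d : twistHom 1 b₂ = b₂ := by simp [twistHom]
@[simp] lemma t2a : twistHom 2 a₁ = a₁ := by simp [twistHom]
@[simp] lemma t2b : twistHom 2 b₁ = a₁⁻¹ * b₂ * b₁ := by simp [twistHom]
@[simp] lemma t2c : twistHom 2 a₂ = a₁⁻¹ * b₂ * a₂ := by simp [twistHom]
@[simp] lemma t2d : twistHom 2 b₂ = b₂ := by simp [twistHom]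
@[simp] lemma t3a : twistHom 3 a₁ = a₁ := by simp [twistHom]
@[simp] lemma t3b : twistHom 3 b₁ = b₁ := by simp [twistHom]
@[simp] lemma t3c : twistHom 3 a₂ = a₂ := by simp [twistHom]
@[simp] lemma t3d : twistHom 3 b₂ = b₂ * a₂⁻¹ := by simp [twistHom]
@[simp] lemma t4a : twistHom 4 a₁ = a₁ := by simp [twistHom]
@[simp] lemma t4b : twistHom 4 b₁ = b₁ := by simp [twistHom]
@[simp] lemma t4c : twistHom 4 a₂ = a₂ * b₂ := by simp [twistHom]
@[simp] lemma t4d : twistHom 4 b₂ = b₂ := by simp [twistHom]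
@[simp] lemma s0a : twistInvHom 0 a₁ = a₁ := by simp [twistInvHom]
@[simp] lemma s0b : twistInvHom 0 b₁ = b₁ * a₁ := by simp [twistInvHom]
@[simp] lemma s0c : twistInvHom 0 a₂ = a₂ := by simp [twistInvHom]
@[simp] lemma s0d : twistInvHom 0 b₂ = b₂ := by simp [twistInvHom]
@[simp] lemma s1a : twistInvHom 1 a₁ = a₁ * b₁⁻¹ := by simp [twistInvHom]
@[simp] lemma s1b : twistInvHom 1 b₁ = b₁ := by simp [twistInvHom]
@[simp] lemma s1c : twistInvHom 1 a₂ = a₂ := by simp [twistInvHom]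
@[simp] lemma s1d : twistInvHom 1 b₂ = b₂ := by simp [twistInvHom]
@[simp] lemma s2a : twistInvHom 2 a₁ = a₁ := by simp [twistInvHom]
@[simp] lemma s2b : twistInvHom 2 b₁ = b₂⁻¹ * a₁ * b₁ := by simp [twistInvHom]
@[simp] lemma s2c : twistInvHom 2 a₂ = b₂⁻¹ * a₁ * a₂ := by simp [twistInvHom]
@[simp] lemma s2d : twistInvHom 2 b₂ = b₂ := by simp [twistInvHom]
@[simp] lemma s3a : twistInvHom 3 a₁ = a₁ := by simp [twistInvHom]
@[simp] lemma s3b : twistInvHom 3 b₁ = b₁ := by simp [twistInvHom]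
@[simp] lemma s3c : twistInvHom 3 a₂ = a₂ := by simp [twistInvHom]
@[simp] lemma s3d : twistInvHom 3 b₂ = b₂ * a₂ := by simp [twistInvHom]
@[simp] lemma s4a : twistInvHom 4 a₁ = a₁ := by simp [twistInvHom]
@[simp] lemma s4b : twistInvHom 4 b₁ = b₁ := by simp [twistInvHom]
@[simp] lemma s4c : twistInvHom 4 a₂ = a₂ * b₂⁻¹ := by simp [twistInvHom]
@[simp] lemma s4d : twistInvHom 4 b₂ = b₂ := by simp [twistInvHom]
end

end Pool.Agent.LibHit3
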