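import Pool.Agent.LibHit3.B_Defs

set_option autoImplicit false

noncomputable section

open Matrix
open scoped MatrixGroups Topology

namespace Pool.Agent.LibHit3

open Pool.Agent.LibHyperelliptic

/-- The center of `SL(3, ℝ)` is trivial, so the trace is defined on `PSL(3, ℝ)`. -/
lemma trace_wd (M N : SL(3, ℝ))
    (h : (QuotientGroup.leftRel (Subgroup.center SL(3, ℝ))) M N) : M.1.trace = N.1.trace := by
  have h1 : M⁻¹ * N ∈ Subgroup.center SL(3, ℝ) := QuotientGroup.leftRel_apply.1 h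
  obtain ⟨r, hr3, hr⟩ := Matrix.SpecialLinearGroup.mem_center_iff.1 h1
  rw [Fintype.card_fin] at hr3
  have hr1 : r = 1 := by
    have h3 : (r - 1) * (r ^ 2 + r + 1) = 0 := by ring_nf; linarith
    rcases mul_eq_zero.1 h3 with h4 | h4
    · linarith
    · nlinarith [sq_nonneg (r + 1 / 2)]
  have h2 : M⁻¹ * N = 1 := by
    apply Subtype.ext
    rw [← hr, hr1]
    simp
  rw [inv_mul_eq_one.1 h2]

/-- The trace, as a function on `PSL(3, ℝ)`. -/
def trPSL (p : PSLn 3) : ℝ := Quotient.lift (fun M : SL(3, ℝ) => M.1.trace) trace_wd p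

lemma trPSL_toPSL (M : SL3) : trPSL (toPSL 3 M) = M.1.trace := rfl

lemma trPSL_inv (g h : PSLn 3) : trPSL (g * h * g⁻¹) = trPSL h := by
  obtain ⟨g, rfl⟩ := QuotientGroup.mk'_surjective _ g
  obtain ⟨h, rfl⟩ := QuotientGroup.mk'_surjective _ h
  change trPSL (toPSL 3 g * toPSL 3 h * (toPSL 3 g)⁻¹) = trPSL (toPSL 3 h)
  rw [← map_inv, ← map_mul, ← map_mul, trPSL_toPSL, trPSL_toPSL]
  have h1 : (g⁻¹).1 * g.1 = 1 := congrArg Subtype.val (inv_mul_cancel g)
  change (g.1 * h.1 * (g⁻¹).1).trace = _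
  rw [Matrix.trace_mul_comm, ← Matrix.mul_assoc, h1, Matrix.one_mul]

/-- An entry, as a continuous linear functional. -/
def entL (i j : Fin 3) : M3 →L[ℝ] ℝ where
  toFun Y := Y i j
  map_add' _ _ := rfl
  map_smul' _ _ := rfl
  cont := by fun_prop

/-- The derivative of the trace at the class of `M`. -/
lemma hasFDerivAt_trPSL (M : SL3) : ∃ L : M3 →L[ℝ] ℝ,
    HasFDerivAt (chart trPSL (toPSL 3 M)) L 1 ∧
      ∀ X : M3, X.trace = 0 → L X = (X * M.1).trace := by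
  let _ : NormedAddCommGroup M3 := Matrix.normedAddCommGroup
  let _ : NormedSpace ℝ M3 := Matrix.normedSpace
  have hent : ∀ i j, HasFDerivAt (fun Y : M3 => Y i j) (entL i j) 1 :=
    fun i j => (entL i j).hasFDerivAt
  -- the determinant
  obtain ⟨D, hD, hDX⟩ : ∃ D : M3 →L[ℝ] ℝ, HasFDerivAt (fun Y : M3 => Y.det) D 1 ∧
      ∀ X : M3, D X = X.trace := by
    have h := ((((((hent 0 0).mul (hent 1 1)).mul (hent 2 2)).sub
      (((hent 0 0).mul (hent 1 2)).mul (hent 2 1))).sub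
      (((hent 0 1).mul (hent 1 0)).mul (hent 2 2))).add
      (((hent 0 1).mul (hent 1 2)).mul (hent 2 0))).add
      (((hent 0 2).mul (hent 1 0)).mul (hent 2 1))
    have h' := h.sub (((hent 0 2).mul (hent 1 1)).mul (hent 2 0))
    refine ⟨_, h'.congr_of_eventuallyEq (Filter.Eventually.of_forall fun Y => ?_), fun X => ?_⟩
    · simp only [Matrix.det_fin_three]; rfl
    · change (((((1 : M3) 0 0 * (1 : M3) 1 1) * X 2 2 +
          (1 : M3) 2 2 * ((1 : M3) 0 0 * X 1 1 + (1 : M3) 1 1 * X 0 0) -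
        (((1 : M3) 0 0 * (1 : M3) 1 2) * X 2 1 +
          (1 : M3) 2 1 * ((1 : M3) 0 0 * X 1 2 + (1 : M3) 1 2 * X 0 0))) -
        (((1 : M3) 0 1 * (1 : M3) 1 0) * X 2 2 +
          (1 : M3) 2 2 * ((1 : M3) 0 1 * X 1 0 + (1 : M3) 1 0 * X 0 1))) +
        (((1 : M3) 0 1 * (1 : M3) 1 2) * X 2 0 +
          (1 : M3) 2 0 * ((1 : M3) 0 1 * X 1 2 + (1 : M3) 1 2 * X 0 1)) +
        (((1 : M3) 0 2 * (1 : M3) 1 0) * X 2 1 +
          (1 : M3) 2 1 * ((1 : M3) 0 2 * X 1 0 + (1 : M3) 1 0 * X 0 2))) -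
        (((1 : M3) 0 2 * (1 : M3) 1 1) * X 2 0 +
          (1 : M3) 2 0 * ((1 : M3) 0 2 * X 1 1 + (1 : M3) 1 1 * X 0 2)) = X.trace
      simp [Matrix.trace_fin_three]; ring
  obtain ⟨T, hT, hTX⟩ : ∃ T : M3 →L[ℝ] ℝ, HasFDerivAt (fun Y : M3 => (Y * M.1).trace) T 1 ∧
      ∀ X : M3, T X = (X * M.1).trace := by
    let T : M3 →L[ℝ] ℝ :=
      { toFun := fun Y => (Y * M.1).trace
        map_add' := fun X Y => by rw [Matrix.add_mul, Matrix.trace_add]
        map_smul' := fun t X => by simp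
        cont := by fun_prop }
    exact ⟨T, T.hasFDerivAt, fun X => rfl⟩
  have hdet1 : (1 : M3).det ≠ 0 := by simp
  have hR := hD.rpow_const (p := -(1 / ((3 : ℕ) : ℝ))) (Or.inl hdet1)
  have hP := hR.mul hT
  have hpos : ∀ᶠ Y : M3 in 𝓝 1, 0 < Y.det := by
    have hc : Continuous fun Y : M3 => Y.det := by fun_prop
    exact hc.continuousAt.eventually_const_lt (by simp)
  refine ⟨_, hP.congr_of_eventuallyEq ?_, fun X hX => ?_⟩
  · filter_upwards [hpos] with Y hY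
    change trPSL (toPSL 3 (unimod 3 Y) * toPSL 3 M) = _
    rw [← map_mul, trPSL_toPSL]
    change ((unimod 3 Y).1 * M.1).trace = _
    have h1 : (unimod 3 Y).1 = (Y.det ^ (-(1 / ((3 : ℕ) : ℝ)))) • Y := unimod_val hY
    rw [h1, Matrix.smul_mul, Matrix.trace_smul]
    rfl
  · change (1 : M3).det ^ (-(1 / ((3 : ℕ) : ℝ))) * T X + (1 * M.1).trace *
      ((-(1 / ((3 : ℕ) : ℝ)) * (1 : M3).det ^ (-(1 / ((3 : ℕ) : ℝ)) - 1)) * D X) = _
    rw [hTX, hDX, hX]
    simp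

lemma trPSL_diff (p : PSLn 3) : DifferentiableAt ℝ (chart trPSL p) 1 := by
  obtain ⟨M, rfl⟩ := QuotientGroup.mk'_surjective _ p
  obtain ⟨L, hL, -⟩ := hasFDerivAt_trPSL M
  exact hL.differentiableAt

/-- The trace, as a differentiable conjugation invariant function on `PSL(3, ℝ)`. -/
def trFun : InvFun 3 where
  toFun := trPSL
  diff := trPSL_diff
  inv := trPSL_inv

lemma derivAt_trFun (M : SL3) (X : M3) (hX : X.trace = 0) :
    derivAt trFun (toPSL 3 M) X = (X * M.1).trace := by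
  obtain ⟨L, hL, h⟩ := hasFDerivAt_trPSL M
  change fderiv ℝ (chart trPSL (toPSL 3 M)) 1 X = _
  rw [hL.fderiv, h X hX]

end Pool.Agent.LibHit3
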