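import Pool.Agent.LibHyperelliptic.CharVar
import Pool.Agent.LibHyperelliptic.Discrete

set_option autoImplicit false

noncomputable section

open Matrix
open scoped MatrixGroups

namespace Pool.Agent.LibHit3

open Pool.Agent.LibHyperelliptic

/-! ### Oriented flags of `ℝ³` -/

abbrev M3 : Type := Matrix (Fin 3) (Fin 3) ℝ
abbrev SL3 : Type := SL(3, ℝ)

/-- An oriented flag: a vector `L` and a covector `P` with `P L = 0`. -/
@[ext] structure Flag where
  L : Fin 3 → ℝ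
  P : Fin 3 → ℝ
  inc : P ⬝ᵥ L = 0

/-- The action of `SL(3, ℝ)`: `g (L, P) = (g L, P g⁻¹)`. -/
def act (g : SL3) (U : Flag) : Flag where
  L := g.1 *ᵥ U.L
  P := U.P ᵥ* (g⁻¹).1
  inc := by
    rw [← Matrix.dotProduct_mulVec, Matrix.mulVec_mulVec]
    have h : (g⁻¹).1 * g.1 = 1 := congrArg Subtype.val (inv_mul_cancel g)
    rw [h, Matrix.one_mulVec]
    exact U.inc

/-- The determinant of three vectors. -/
def det3 (u v w : Fin 3 → ℝ) : ℝ := (Matrix.of ![u, v, w]).det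

/-- Positive triples of flags. -/
structure Pos3 (U Z V : Flag) : Prop where
  uz : 0 < U.P ⬝ᵥ Z.L
  uv : 0 < U.P ⬝ᵥ V.L
  zu : 0 < Z.P ⬝ᵥ U.L
  zv : 0 < Z.P ⬝ᵥ V.L
  vu : 0 < V.P ⬝ᵥ U.L
  vz : 0 < V.P ⬝ᵥ Z.L
  dt : 0 < det3 U.L Z.L V.L

/-- The standard flags. -/
def p0 : Flag := ⟨![1, 0, 0], ![0, 0, 1], by simp [dotProduct, Fin.sum_univ_three]⟩
/-- The standard flags. -/
def q0 : Flag := ⟨![0, 0, 1], ![1, 0, 0], by simp [dotProduct, Fin.sum_univ_three]⟩

/-- The eight vertices `p, y⁻¹q, y⁻¹p, x⁻¹y⁻¹q, x⁻¹y⁻¹p, x⁻¹q, x⁻¹p, q` of the octagon, where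
`p = E p0` and `q = E q0`. -/
def octPt (x y E : SL3) : Fin 8 → Flag :=
  ![act E p0, act (y⁻¹ * E) q0, act (y⁻¹ * E) p0, act (x⁻¹ * y⁻¹ * E) q0,
    act (x⁻¹ * y⁻¹ * E) p0, act (x⁻¹ * E) q0, act (x⁻¹ * E) p0, act E q0]

/-- The vertices of the octagon are in positive cyclic order (six of the triples suffice). -/
def Oct (x y E : SL3) : Prop :=
  ∀ i : Fin 6, Pos3 (octPt x y E 0) (octPt x y E i.succ.castSucc) (octPt x y E i.succ.succ)

/-- The pair `x, y` is positive with respect to the basis `E`, in which the commutator is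
diagonal with entries `l 0 > l 1 > l 2 > 0`. -/
structure Good (x y E : SL3) (l : Fin 3 → ℝ) : Prop where
  l01 : l 1 < l 0
  l12 : l 2 < l 1
  l2 : 0 < l 2
  diag : (E⁻¹ * (x * y * x⁻¹ * y⁻¹) * E).1 = Matrix.diagonal l
  oct : Oct x y E

/-- The matrix reversing the standard basis. -/
def K : SL3 := ⟨!![0, 0, 1; 0, -1, 0; 1, 0, 0], by simp [Matrix.det_fin_three]⟩

/-- The positivity condition for the four matrices `ρ a₁, ρ b₁, ρ a₂, ρ b₂`. -/
def InW (a b c d : SL3) : Prop :=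
  SurfRel a b c d ∧ ∃ (E : SL3) (l l' : Fin 3 → ℝ), Good a b E l ∧ Good c d (E * K) l'

/-! ### Sign patterns -/

/-- The signs `+, -, +`. -/
def sg : Fin 3 → ℝ := ![1, -1, 1]

/-- The columns of `M` have the signs `+, -, +`. -/
def ColPat (M : M3) : Prop := ∀ i j, 0 < sg j * M i j

/-- The rows of `M` have the signs `+, -, +`. -/
def RowPat (M : M3) : Prop := ∀ i j, 0 < sg i * M i j

/-- `A` is diagonalizable with distinct real eigenvalues. -/
def Lox (A : SL3) : Prop :=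
  ∃ (F : SL3) (x : Fin 3 → ℝ), Function.Injective x ∧ (F⁻¹ * A * F).1 = Matrix.diagonal x

/-- What the spanning argument uses of `a = ρ a₁`, `b = ρ b₁`, `c = ρ a₂`, `d = ρ b₂`, read in
the eigenbasis of `[a, b]`. -/
structure Ready (a b c d : SL3) (l : Fin 3 → ℝ) : Prop where
  rel : SurfRel a b c d
  l01 : l 1 < l 0
  l12 : l 2 < l 1
  l2 : 0 < l 2
  diag : (a * b * a⁻¹ * b⁻¹).1 = Matrix.diagonal l
  cola : ColPat a.1
  cola' : ColPat (a⁻¹).1
  colb : ColPat b.1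
  colb' : ColPat (b⁻¹).1
  rowc : RowPat c.1
  rowc' : RowPat (c⁻¹).1
  rowd : RowPat d.1
  rowd' : RowPat (d⁻¹).1
  /-- the covector determinant of `(p, a p, a⁻¹ p)` is positive -/
  ineq1 : (a.1 2 1) * ((a⁻¹).1 2 0) > (a⁻¹).1 2 1 * a.1 2 0
  /-- the vector determinant of `(p, a p, a⁻¹ p)` is positive -/
  ineq2 : a.1 1 0 * (a⁻¹).1 2 0 > a.1 2 0 * (a⁻¹).1 1 0
  loxa : Lox a
  loxc : Lox c

/-! ### The ping-pong group -/

/-- The free group on `x, y`. -/
abbrev FG : Type := FreeGroup (Fin 2)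
/-- The letter `x`. -/
def wx : FG := FreeGroup.of 0
/-- The letter `y`. -/
def wy : FG := FreeGroup.of 1
/-- The commutator `[x, y]`. -/
def wg : FG := wx * wy * wx⁻¹ * wy⁻¹

/-- Evaluation of words. -/
def ev (x y : SL3) : FG →* SL3 := FreeGroup.lift ![x, y]

@[simp] lemma ev_wx (x y : SL3) : ev x y wx = x := by simp [ev, wx]
@[simp] lemma ev_wy (x y : SL3) : ev x y wy = y := by simp [ev, wy]
@[simp] lemma ev_wg (x y : SL3) : ev x y wg = x * y * x⁻¹ * y⁻¹ := by simp [wg]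

end Pool.Agent.LibHit3
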