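import Pool.Agent.LibHit3.A_Comp
import Pool.Agent.LibHit3.A_Ready
import Pool.Agent.LibHit3.B_Final

set_option autoImplicit false

noncomputable section

open Matrix
open scoped MatrixGroups

namespace Pool.Agent.LibHit3

open Pool.Agent.LibHyperelliptic

/-- The differentials of the traces of the simple closed curves span the cotangent space at
every point of the Hitchin component of rank three, in genus two. -/
theorem spanning_hit_three : SpanningOn {trFun} (Hit 3 hexRho) := by
  intro ρ hρ
  have hpos := hit_pos ρ hρ
  set σ : Surf →* SL3 := eqv.symm.toMonoidHom.comp ρ with hσ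
  have e : (toPSL 3).comp σ = ρ := by
    ext γ
    change toPSL 3 (eqv.symm (ρ γ)) = ρ γ
    rw [← eqv_apply, MulEquiv.apply_symm_apply]
  obtain ⟨E, l, h⟩ := ready_of_inW (ρ := σ) hpos
  rw [← e]
  exact spansAt_of_ready σ E l h

end Pool.Agent.LibHit3
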